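import Mathlib

set_option autoImplicit false
set_option linter.unusedSectionVars false
open scoped Topology
open Complex Finset Filter

namespace Pool.Agent.TorusBundle

section TE

variable {𝔸 : Type*} [NormedRing 𝔸] [NormedAlgebra ℂ 𝔸]

/-- the Taylor coefficients -/
noncomputable def tc (g : ℂ → ℂ) (w : ℂ) (j : ℕ) : ℂ :=
  ((j.factorial : ℂ)⁻¹) * iteratedDeriv j g w

/-- the value of an entire function at `w + P` for an element `P` of a Banach algebra -/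
noncomputable def TE (g : ℂ → ℂ) (P : 𝔸) (w : ℂ) : 𝔸 := ∑' j : ℕ, tc g w j • P ^ j

lemma norm_tc_le {g : ℂ → ℂ} (hg : Differentiable ℂ g) {w : ℂ} {C : ℝ}
    (hC : ∀ z ∈ Metric.sphere w 1, ‖g z‖ ≤ C) (j : ℕ) : ‖tc g w j‖ ≤ C := by
  have h := Complex.norm_iteratedDeriv_le_of_forall_mem_sphere_norm_le j one_pos
    (hg.diffContOnCl (s := Metric.ball w 1)) hC
  unfold tc
  rw [norm_mul, norm_inv]
  have hj : ‖((j.factorial : ℕ) : ℂ)‖ = (j.factorial : ℝ) := by simp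
  rw [hj]
  have hpos : (0 : ℝ) < j.factorial := by positivity
  rw [inv_mul_le_iff₀ hpos]
  simpa using h

lemma exists_bound {g : ℂ → ℂ} (hg : Differentiable ℂ g) {K : Set ℂ} (hK : IsCompact K) :
    ∃ C, 0 ≤ C ∧ ∀ w ∈ K, ∀ j, ‖tc g w j‖ ≤ C := by
  have hK' : IsCompact (Metric.cthickening 1 K) := hK.cthickening
  obtain ⟨C, hC⟩ := hK'.exists_bound_of_continuousOn hg.continuous.continuousOn
  refine ⟨max C 0, le_max_right _ _, fun w hw j => ?_⟩
  refine norm_tc_le hg (fun z hz => (hC z ?_).trans (le_max_left _ _)) j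
  refine Metric.mem_cthickening_of_dist_le z w 1 K hw ?_
  rw [Metric.mem_sphere] at hz
  exact hz.le

lemma norm_pow_le_K (P : 𝔸) (j : ℕ) : ‖P ^ j‖ ≤ (‖(1 : 𝔸)‖ + 1) * ‖P‖ ^ j := by
  rcases Nat.eq_zero_or_pos j with rfl | hj
  · simp
  · have h1 := norm_pow_le' P hj
    have h2 : (0 : ℝ) ≤ ‖(1 : 𝔸)‖ := norm_nonneg _
    have h3 : (0 : ℝ) ≤ ‖P‖ ^ j := by positivity
    nlinarith

lemma norm_term_le {g : ℂ → ℂ} {w : ℂ} {C : ℝ} (hC0 : 0 ≤ C) (hC : ∀ j, ‖tc g w j‖ ≤ C) (P : 𝔸) (j : ℕ) :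
    ‖tc g w j • P ^ j‖ ≤ C * (‖(1 : 𝔸)‖ + 1) * ‖P‖ ^ j := by
  rw [norm_smul, mul_assoc]
  exact mul_le_mul (hC j) (norm_pow_le_K P j) (norm_nonneg _) hC0

lemma summable_geo {C : ℝ} {P : 𝔸} (hP : ‖P‖ < 1) :
    Summable (fun j : ℕ => C * (‖(1 : 𝔸)‖ + 1) * ‖P‖ ^ j) :=
  (summable_geometric_of_lt_one (norm_nonneg _) hP).mul_left _

lemma summable_norm_TE {g : ℂ → ℂ} (hg : Differentiable ℂ g) {P : 𝔸} (hP : ‖P‖ < 1) (w : ℂ) :
    Summable (fun j : ℕ => ‖tc g w j • P ^ j‖) := by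
  obtain ⟨C, hC0, hC⟩ := exists_bound hg (isCompact_singleton (x := w))
  exact Summable.of_nonneg_of_le (fun _ => norm_nonneg _)
    (norm_term_le hC0 (hC w rfl) P) (summable_geo hP)

lemma tc_comp_add (g : ℂ → ℂ) (s w : ℂ) (j : ℕ) : tc (fun z => g (z + s)) w j = tc g (w + s) j := by
  unfold tc
  rw [iteratedDeriv_comp_add_const]

lemma TE_comp_add (g : ℂ → ℂ) (P : 𝔸) (s w : ℂ) : TE (fun z => g (z + s)) P w = TE g P (w + s) := by
  unfold TE
  simp only [tc_comp_add]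

lemma tc_mul {f g : ℂ → ℂ} (hf : Differentiable ℂ f) (hg : Differentiable ℂ g) (w : ℂ) (n : ℕ) :
    tc (fun z => f z * g z) w n = ∑ kl ∈ antidiagonal n, tc f w kl.1 * tc g w kl.2 := by
  unfold tc
  rw [iteratedDeriv_fun_mul (hf.contDiff.contDiffAt) (hg.contDiff.contDiffAt),
    Finset.Nat.sum_antidiagonal_eq_sum_range_succ
      (fun k l => ((k.factorial : ℂ)⁻¹ * iteratedDeriv k f w) * ((l.factorial : ℂ)⁻¹ * iteratedDeriv l g w)),
    Finset.mul_sum]
  refine Finset.sum_congr rfl fun k hk => ?_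
  have hk' : k ≤ n := Nat.lt_succ_iff.1 (Finset.mem_range.1 hk)
  rw [Nat.cast_choose ℂ hk']
  have h1 : (n.factorial : ℂ) ≠ 0 := by exact_mod_cast n.factorial_ne_zero
  have h2 : (k.factorial : ℂ) ≠ 0 := by exact_mod_cast k.factorial_ne_zero
  have h3 : ((n - k).factorial : ℂ) ≠ 0 := by exact_mod_cast (n - k).factorial_ne_zero
  field_simp

variable [CompleteSpace 𝔸]

lemma TE_mul {f g : ℂ → ℂ} (hf : Differentiable ℂ f) (hg : Differentiable ℂ g) {P : 𝔸}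
    (hP : ‖P‖ < 1) (w : ℂ) : TE (fun z => f z * g z) P w = TE f P w * TE g P w := by
  unfold TE
  rw [tsum_mul_tsum_eq_tsum_sum_antidiagonal_of_summable_norm (summable_norm_TE hf hP w)
    (summable_norm_TE hg hP w)]
  refine tsum_congr fun n => ?_
  rw [tc_mul hf hg, Finset.sum_smul]
  refine Finset.sum_congr rfl fun kl hkl => ?_
  rw [smul_mul_smul_comm, ← pow_add, Finset.HasAntidiagonal.mem_antidiagonal.1 hkl]

lemma TE_add {f g : ℂ → ℂ} (hf : Differentiable ℂ f) (hg : Differentiable ℂ g) {P : 𝔸}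
    (hP : ‖P‖ < 1) (w : ℂ) : TE (fun z => f z + g z) P w = TE f P w + TE g P w := by
  unfold TE
  rw [← (summable_norm_TE hf hP w).of_norm.tsum_add (summable_norm_TE hg hP w).of_norm]
  refine tsum_congr fun n => ?_
  unfold tc
  rw [iteratedDeriv_fun_add (hf.contDiff.contDiffAt) (hg.contDiff.contDiffAt), mul_add, add_smul]

lemma TE_const_mul (c : ℂ) (f : ℂ → ℂ) (P : 𝔸) (w : ℂ) :
    TE (fun z => c * f z) P w = c • TE f P w := by
  unfold TE
  rw [← tsum_const_smul'']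
  refine tsum_congr fun n => ?_
  unfold tc
  rw [iteratedDeriv_const_mul_field, smul_smul]
  ring_nf

lemma TE_zero (P : 𝔸) (w : ℂ) : TE (fun _ => 0) P w = 0 := by
  have h := TE_const_mul 0 (fun _ => 0) P w
  simpa using h

lemma TE_sum {ι : Type*} (s : Finset ι) {f : ι → ℂ → ℂ} (hf : ∀ i ∈ s, Differentiable ℂ (f i)) {P : 𝔸}
    (hP : ‖P‖ < 1) (w : ℂ) : TE (fun z => ∑ i ∈ s, f i z) P w = ∑ i ∈ s, TE (f i) P w := by
  classical
  induction s using Finset.induction_on with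
  | empty => simp [TE_zero]
  | insert i s hi ih =>
    simp only [Finset.sum_insert hi]
    rw [TE_add (hf i (Finset.mem_insert_self i s))
      (Differentiable.fun_sum fun j hj => hf j (Finset.mem_insert_of_mem hj)) hP,
      ih fun j hj => hf j (Finset.mem_insert_of_mem hj)]

lemma TE_exp (a c : ℂ) (P : 𝔸) (w : ℂ) :
    TE (fun z => cexp (a * z + c)) P w = cexp (a * w + c) • NormedSpace.exp (a • P) := by
  have h1 : ∀ j : ℕ, iteratedDeriv j (fun z => cexp (a * z + c)) = fun z => a ^ j * cexp (a * z + c) := by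
    intro j
    induction j with
    | zero => simp
    | succ j ih =>
      rw [iteratedDeriv_succ, ih]
      funext z
      have : HasDerivAt (fun z => a ^ j * cexp (a * z + c)) (a ^ j * (cexp (a * z + c) * (a * 1 + 0))) z := by
        refine HasDerivAt.const_mul _ (HasDerivAt.cexp ?_)
        exact ((hasDerivAt_id z).const_mul a).add (hasDerivAt_const z c)
      rw [this.deriv]
      ring
  unfold TE
  rw [NormedSpace.exp_eq_tsum ℂ, ← tsum_const_smul'']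
  refine tsum_congr fun n => ?_
  unfold tc
  rw [h1, smul_pow, smul_smul, smul_smul]
  congr 1
  ring

lemma differentiable_TE {g : ℂ → ℂ} (hg : Differentiable ℂ g) {P : 𝔸} (hP : ‖P‖ < 1) :
    Differentiable ℂ (fun w => TE g P w) := by
  intro w
  obtain ⟨C, hC0, hC⟩ := exists_bound hg (isCompact_closedBall w 1)
  have h := differentiableOn_tsum_of_summable_norm (F := fun (j : ℕ) (w : ℂ) => tc g w j • P ^ j)
    (U := Metric.ball w 1) (summable_geo (C := C) hP) ?_ Metric.isOpen_ball ?_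
  · exact (h w (Metric.mem_ball_self one_pos)).differentiableAt (Metric.ball_mem_nhds w one_pos)
  · intro j
    refine DifferentiableOn.smul_const ?_ _
    unfold tc
    refine DifferentiableOn.const_mul ?_ _
    exact ((hg.contDiff (n := ⊤)).differentiable_iteratedDeriv j
      (by exact_mod_cast WithTop.coe_lt_top _)).differentiableOn
  · intro j z hz
    exact norm_term_le hC0 (hC z (Metric.ball_subset_closedBall hz)) P j

lemma TE_sub_le {g : ℂ → ℂ} {w : ℂ} {C : ℝ} (hg : Differentiable ℂ g) (hC0 : 0 ≤ C)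
    (hC : ∀ j, ‖tc g w j‖ ≤ C) {P : 𝔸} (hP : ‖P‖ ≤ 1 / 2) :
    ‖TE g P w - g w • (1 : 𝔸)‖ ≤ 2 * (C * (‖(1 : 𝔸)‖ + 1)) * ‖P‖ := by
  have hP1 : ‖P‖ < 1 := by linarith
  have h0 : TE g P w = g w • (1 : 𝔸) + ∑' j : ℕ, tc g w (j + 1) • P ^ (j + 1) := by
    unfold TE
    rw [(summable_norm_TE hg hP1 w).of_norm.tsum_eq_zero_add]
    congr 1
    simp [tc]
  rw [h0, add_sub_cancel_left]
  have hs : Summable (fun j : ℕ => C * (‖(1 : 𝔸)‖ + 1) * ‖P‖ ^ (j + 1)) :=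
    (summable_nat_add_iff 1).2 (summable_geo hP1)
  have hle : ∀ j : ℕ, ‖tc g w (j + 1) • P ^ (j + 1)‖ ≤ C * (‖(1 : 𝔸)‖ + 1) * ‖P‖ ^ (j + 1) :=
    fun j => norm_term_le hC0 hC P (j + 1)
  refine (tsum_of_norm_bounded hs.hasSum hle).trans ?_
  have e : ∑' j : ℕ, C * (‖(1 : 𝔸)‖ + 1) * ‖P‖ ^ (j + 1) =
      C * (‖(1 : 𝔸)‖ + 1) * ‖P‖ * (1 - ‖P‖)⁻¹ := by
    rw [← tsum_geometric_of_lt_one (norm_nonneg _) hP1, ← tsum_mul_left]
    refine tsum_congr fun j => by ring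
  rw [e]
  have h2 : (1 - ‖P‖)⁻¹ ≤ 2 := by
    rw [inv_le_comm₀ (by linarith) (by norm_num)]
    linarith
  have h3 : 0 ≤ C * (‖(1 : 𝔸)‖ + 1) * ‖P‖ := by positivity
  calc C * (‖(1 : 𝔸)‖ + 1) * ‖P‖ * (1 - ‖P‖)⁻¹ ≤ C * (‖(1 : 𝔸)‖ + 1) * ‖P‖ * 2 :=
        mul_le_mul_of_nonneg_left h2 h3
    _ = 2 * (C * (‖(1 : 𝔸)‖ + 1)) * ‖P‖ := by ring

lemma TE_commute (g : ℂ → ℂ) {P E : 𝔸} (h : Commute E P) {hg : Differentiable ℂ g} (hP : ‖P‖ < 1)
    (w : ℂ) : Commute E (TE g P w) := by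
  unfold TE
  have hs := (summable_norm_TE hg hP w).of_norm
  show E * _ = _ * E
  rw [← hs.tsum_mul_left E, ← hs.tsum_mul_right E]
  refine tsum_congr fun j => ?_
  rw [mul_smul_comm, smul_mul_assoc, (h.pow_right j).eq]

end TE

end Pool.Agent.TorusBundle
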