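import Mathlib
import Pool.Agent.Lib.MP_1d980c_gt.TE

set_option autoImplicit false
set_option linter.unusedSectionVars false
open scoped Topology Matrix Matrix.Norms.Operator
open Complex Finset Filter

namespace Pool.Agent.TorusBundle

section Perturb

variable {ι κ : Type} [Fintype ι] [Fintype κ] [DecidableEq ι] [DecidableEq κ]

/-- The rows of `F` evaluated at `w + P r`. -/
noncomputable def TL (F : ℂ → Matrix ι κ ℂ) (P : ι → Matrix κ κ ℂ) (w : ℂ) : Matrix ι κ ℂ :=
  fun r k => ∑ l, (TE (fun z => F z r l) (P r) w) l k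

lemma TL_comp_add (F : ℂ → Matrix ι κ ℂ) (P : ι → Matrix κ κ ℂ) (s w : ℂ) :
    TL (fun z => F (z + s)) P w = TL F P (w + s) := by
  unfold TL
  funext r k
  refine Finset.sum_congr rfl fun l _ => ?_
  rw [TE_comp_add (fun z => F z r l) (P r) s w]

lemma TL_mul_right {F : ℂ → Matrix ι κ ℂ} (hF : ∀ r k, Differentiable ℂ (fun z => F z r k))
    {P : ι → Matrix κ κ ℂ} (hP : ∀ r, ‖P r‖ < 1) {E : Matrix κ κ ℂ} (hE : ∀ r, Commute E (P r)) (w : ℂ) :
    TL F P w * E = TL (fun z => F z * E) P w := by
  funext r j
  rw [Matrix.mul_apply]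
  unfold TL
  calc ∑ k, (∑ l, (TE (fun z => F z r l) (P r) w) l k) * E k j
      = ∑ l, ((TE (fun z => F z r l) (P r) w) * E) l j := by
        simp only [Finset.sum_mul, Matrix.mul_apply]
        rw [Finset.sum_comm]
    _ = ∑ l, (E * (TE (fun z => F z r l) (P r) w)) l j := by
        refine Finset.sum_congr rfl fun l _ => ?_
        rw [(TE_commute (fun z => F z r l) (hE r) (hg := hF r l) (hP r) w).eq]
    _ = ∑ k, (TE (fun z => ∑ l, E l k * F z r l) (P r) w) k j := by
        simp only [Matrix.mul_apply]
        rw [Finset.sum_comm]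
        refine Finset.sum_congr rfl fun k _ => ?_
        rw [TE_sum univ (fun l _ => (hF r l).const_mul (E l k)) (hP r), Matrix.sum_apply]
        refine Finset.sum_congr rfl fun l _ => ?_
        rw [TE_const_mul]
        rfl
    _ = _ := by
        refine Finset.sum_congr rfl fun k _ => ?_
        have e : (fun z => ∑ l, E l k * F z r l) = fun z => (F z * E) r k := by
          funext z
          rw [Matrix.mul_apply]
          exact Finset.sum_congr rfl fun l _ => mul_comm _ _
        rw [e]

/-- the automorphy factor -/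
noncomputable def Gam (b c : ι → ℂ) (G : Matrix ι ι ℂ) (z : ℂ) : Matrix ι ι ℂ :=
  fun r q => cexp (b r * z + c r) * G r q

lemma TL_mul_left {F : ℂ → Matrix ι κ ℂ} (hF : ∀ r k, Differentiable ℂ (fun z => F z r k))
    {P : ι → Matrix κ κ ℂ} (hP : ∀ r, ‖P r‖ < 1) (b c : ι → ℂ) {G : Matrix ι ι ℂ}
    (hG : ∀ r q, P r ≠ P q → G r q = 0) {Q : Matrix κ κ ℂ}
    (hQ : ∀ r, NormedSpace.exp (b r • P r) = Q) (w : ℂ) :
    TL (fun z => Gam b c G z * F z) P w = Gam b c G w * TL F P w * Q := by
  funext r j
  have h1 : ∀ k, TE (fun z => (Gam b c G z * F z) r k) (P r) w =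
      ∑ q, (G r q * cexp (b r * w + c r)) • (TE (fun z => F z q k) (P r) w * Q) := by
    intro k
    have e : (fun z => (Gam b c G z * F z) r k) =
        fun z => ∑ q, G r q * (F z q k * cexp (b r * z + c r)) := by
      funext z
      rw [Matrix.mul_apply]
      refine Finset.sum_congr rfl fun q _ => ?_
      unfold Gam
      ring
    have hexp : Differentiable ℂ (fun z : ℂ => cexp (b r * z + c r)) := by fun_prop
    have e2 := TE_sum univ (f := fun q z => G r q * (F z q k * cexp (b r * z + c r)))
      (fun q _ => ((hF q k).mul hexp).const_mul (G r q)) (hP r) w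
    rw [e, e2]
    refine Finset.sum_congr rfl fun q _ => ?_
    have h3 : TE (fun z => cexp (b r * z + c r)) (P r) w = cexp (b r * w + c r) • Q := by
      rw [← hQ r]; exact TE_exp (b r) (c r) (P r) w
    rw [TE_const_mul, TE_mul (hF q k) hexp (hP r), h3, mul_smul_comm, smul_smul]
  calc TL (fun z => Gam b c G z * F z) P w r j
      = ∑ k, (∑ q, (G r q * cexp (b r * w + c r)) • (TE (fun z => F z q k) (P r) w * Q)) k j := by
        unfold TL
        refine Finset.sum_congr rfl fun k _ => ?_
        rw [h1 k]
    _ = ∑ q, (G r q * cexp (b r * w + c r)) * ∑ k, (TE (fun z => F z q k) (P r) w * Q) k j := by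
        simp only [Matrix.sum_apply, Matrix.smul_apply, smul_eq_mul, Finset.mul_sum]
        rw [Finset.sum_comm]
    _ = ∑ q, Gam b c G w r q * (TL F P w * Q) q j := by
        refine Finset.sum_congr rfl fun q _ => ?_
        by_cases hq : P r = P q
        · rw [hq]
          unfold Gam TL
          rw [mul_comm (G r q)]
          congr 1
          simp only [Matrix.mul_apply, Finset.sum_mul]
          rw [Finset.sum_comm]
        · have := hG r q hq
          unfold Gam
          rw [this]; ring
    _ = _ := by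
        rw [Matrix.mul_assoc, Matrix.mul_apply]

lemma differentiable_TL {F : ℂ → Matrix ι κ ℂ} (hF : ∀ r k, Differentiable ℂ (fun z => F z r k))
    {P : ι → Matrix κ κ ℂ} (hP : ∀ r, ‖P r‖ < 1) (r : ι) (k : κ) :
    Differentiable ℂ (fun w => TL F P w r k) := by
  unfold TL
  refine Differentiable.fun_sum fun l _ => ?_
  let φ : Matrix κ κ ℂ →ₗ[ℂ] ℂ :=
    { toFun := fun M => M l k
      map_add' := fun M N => rfl
      map_smul' := fun a M => rfl }
  exact φ.toContinuousLinearMap.differentiable.comp (differentiable_TE (hF r l) (hP r))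

lemma differentiable_exp_smul (X : Matrix κ κ ℂ) (i j : κ) :
    Differentiable ℂ (fun w : ℂ => (NormedSpace.exp (-(w • X))) i j) := by
  let φ : Matrix κ κ ℂ →ₗ[ℂ] ℂ :=
    { toFun := fun M => M i j
      map_add' := fun M N => rfl
      map_smul' := fun a M => rfl }
  have h : Differentiable ℂ (fun w : ℂ => NormedSpace.exp (-(w • X))) := by
    intro w
    have h := (hasDerivAt_exp_smul_const (𝕂 := ℂ) (-X) w).differentiableAt
    have e : (fun w : ℂ => NormedSpace.exp (-(w • X))) = fun w : ℂ => NormedSpace.exp (w • (-X)) := by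
      funext w; rw [smul_neg]
    rw [e]; exact h
  exact φ.toContinuousLinearMap.differentiable.comp h

end Perturb

end Pool.Agent.TorusBundle
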