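import Mathlib
import Pool.Agent.Lib.MP_1d980c_gt.Perturb

set_option autoImplicit false
set_option linter.unusedSectionVars false
open scoped Topology Matrix Matrix.Norms.Operator
open Complex Finset Filter

namespace Pool.Agent.TorusBundle

section NDg

variable {ι κ : Type} [Fintype ι] [Fintype κ]

/-- a complex matrix is nondegenerate if it is injective on real vectors -/
def NDg (L : Matrix ι κ ℂ) : Prop := ∀ v : κ → ℝ, L *ᵥ (fun k => (v k : ℂ)) = 0 → v = 0

lemma NDg_iff (L : Matrix ι κ ℂ) : NDg L ↔ LinearIndependent ℝ (fun k : κ => fun r : ι => L r k) := by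
  rw [Fintype.linearIndependent_iff]
  have e : ∀ v : κ → ℝ, (∑ k, v k • (fun r : ι => L r k)) = L *ᵥ (fun k => (v k : ℂ)) := by
    intro v
    funext r
    simp [Matrix.mulVec, dotProduct, mul_comm]
  constructor
  · intro h v hv i
    rw [e] at hv
    rw [h v hv]; rfl
  · intro h v hv
    funext i
    exact h v (by rw [e]; exact hv) i

lemma NDg_eventually {X : Type} [TopologicalSpace X] {l : Filter X} {F : X → Matrix ι κ ℂ}
    {L : Matrix ι κ ℂ} (hL : NDg L) (h : ∀ r k, Tendsto (fun x => F x r k) l (𝓝 (L r k))) :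
    ∀ᶠ x in l, NDg (F x) := by
  have h1 := (NDg_iff L).1 hL
  have h2 := h1.eventually
  have h3 : Tendsto (fun x => (fun k : κ => fun r : ι => F x r k)) l
      (𝓝 (fun k : κ => fun r : ι => L r k)) := by
    rw [tendsto_pi_nhds]; intro k
    rw [tendsto_pi_nhds]; intro r
    exact h r k
  exact (h3.eventually h2).mono fun x hx => (NDg_iff _).2 hx

end NDg

section Perturb

variable {ι κ : Type} [Fintype ι] [Fintype κ] [DecidableEq ι] [DecidableEq κ]

lemma tendsto_TE {g : ℂ → ℂ} (hg : Differentiable ℂ g) {P : ℝ → Matrix κ κ ℂ}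
    (hP : Tendsto P (𝓝 0) (𝓝 0)) (w₀ : ℂ) :
    Tendsto (fun z : ℝ × ℂ => TE g (P z.1) z.2) (𝓝 (0, w₀)) (𝓝 (g w₀ • (1 : Matrix κ κ ℂ))) := by
  obtain ⟨C, hC0, hC⟩ := exists_bound hg (isCompact_closedBall w₀ 1)
  have hfst : Tendsto (fun z : ℝ × ℂ => z.1) (𝓝 (0, w₀)) (𝓝 0) := continuous_fst.tendsto _
  have hsnd : Tendsto (fun z : ℝ × ℂ => z.2) (𝓝 (0, w₀)) (𝓝 w₀) := continuous_snd.tendsto _
  have hPz : Tendsto (fun z : ℝ × ℂ => ‖P z.1‖) (𝓝 (0, w₀)) (𝓝 0) := by
    have := (hP.comp hfst).norm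
    rwa [norm_zero] at this
  have h1 : Tendsto (fun z : ℝ × ℂ => g z.2 • (1 : Matrix κ κ ℂ)) (𝓝 (0, w₀))
      (𝓝 (g w₀ • (1 : Matrix κ κ ℂ))) :=
    ((hg.continuous.tendsto w₀).comp hsnd).smul_const _
  have h2 : Tendsto (fun z : ℝ × ℂ => TE g (P z.1) z.2 - g z.2 • (1 : Matrix κ κ ℂ)) (𝓝 (0, w₀))
      (𝓝 0) := by
    refine squeeze_zero_norm' (a := fun z : ℝ × ℂ =>
      2 * (C * (‖(1 : Matrix κ κ ℂ)‖ + 1)) * ‖P z.1‖) ?_ ?_
    · have hb : ∀ᶠ z : ℝ × ℂ in 𝓝 (0, w₀), z.2 ∈ Metric.closedBall w₀ 1 :=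
        hsnd.eventually (Metric.closedBall_mem_nhds w₀ one_pos)
      have hp : ∀ᶠ z : ℝ × ℂ in 𝓝 (0, w₀), ‖P z.1‖ < 1 / 2 :=
        hPz.eventually (gt_mem_nhds (by norm_num))
      filter_upwards [hb, hp] with z hz1 hz2
      exact TE_sub_le hg hC0 (hC z.2 hz1) hz2.le
    · have := hPz.const_mul (2 * (C * (‖(1 : Matrix κ κ ℂ)‖ + 1)))
      rwa [mul_zero] at this
  have h3 := h2.add h1
  simpa using h3

lemma tendsto_TL {F : ℂ → Matrix ι κ ℂ} (hF : ∀ r k, Differentiable ℂ (fun z => F z r k))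
    {P : ℝ → ι → Matrix κ κ ℂ} (hP : ∀ r, Tendsto (fun t => P t r) (𝓝 0) (𝓝 0)) (w₀ : ℂ)
    (r : ι) (k : κ) :
    Tendsto (fun z : ℝ × ℂ => TL F (P z.1) z.2 r k) (𝓝 (0, w₀)) (𝓝 (F w₀ r k)) := by
  have h1 : ∀ l : κ, Tendsto (fun z : ℝ × ℂ => (TE (fun z => F z r l) (P z.1 r) z.2) l k) (𝓝 (0, w₀))
      (𝓝 ((F w₀ r l • (1 : Matrix κ κ ℂ)) l k)) := by
    intro l
    let φ : Matrix κ κ ℂ →ₗ[ℂ] ℂ :=
      { toFun := fun M => M l k
        map_add' := fun M N => rfl
        map_smul' := fun a M => rfl }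
    exact (φ.continuous_of_finiteDimensional.tendsto _).comp (tendsto_TE (hF r l) (hP r) w₀)
  have h2 := tendsto_finsetSum univ fun l _ => h1 l
  have e : ∑ l, (F w₀ r l • (1 : Matrix κ κ ℂ)) l k = F w₀ r k := by
    simp [Matrix.one_apply]
  rw [e] at h2
  exact h2

/-- Perturbation of an equivariant nondegenerate family by commuting logarithms. -/
theorem perturb {F : ℂ → Matrix ι κ ℂ} (hF : ∀ r k, Differentiable ℂ (fun z => F z r k))
    (hND : ∀ w, NDg (F w)) {E D X Y : Matrix κ κ ℂ}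
    (hXY : Commute X Y) (hEX : Commute E X) (hEY : Commute E Y) (hDX : Commute D X)
    (hDY : Commute D Y) {a c : ι → ℂ} (ha : ∀ r, a r ≠ 0) {G₁ G₂ : Matrix ι ι ℂ}
    (hG₁ : ∀ r q, a r ≠ a q → G₁ r q = 0) (hG₂ : ∀ r q, a r ≠ a q → G₂ r q = 0)
    (h1 : ∀ w, F (w + 1) * E = G₁ * F w) (h2 : ∀ w, F (w + I) * D = Gam a c G₂ w * F w)
    {K : Set ℂ} (hK : IsCompact K) :
    ∀ᶠ t : ℝ in 𝓝 0, ∃ L : ℂ → Matrix ι κ ℂ, (∀ r k, Differentiable ℂ (fun z => L z r k)) ∧
      (∀ w, L (w + 1) * (E * NormedSpace.exp ((t : ℂ) • X)) = G₁ * L w) ∧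
      (∀ w, L (w + I) * (D * NormedSpace.exp ((t : ℂ) • Y)) = Gam a c G₂ w * L w) ∧
      ∀ w ∈ K, NDg (L w) := by
  set P : ℝ → ι → Matrix κ κ ℂ := fun t r => ((t : ℂ) * (a r)⁻¹) • (I • X - Y) with hPdef
  have hPlim : ∀ r, Tendsto (fun t => P t r) (𝓝 0) (𝓝 0) := by
    intro r
    have hc : Continuous (fun t : ℝ => ((t : ℂ) * (a r)⁻¹) • (I • X - Y)) :=
      ((Complex.continuous_ofReal.mul continuous_const).smul continuous_const)
    have := hc.tendsto 0
    simpa using this
  have hsmall : ∀ᶠ t : ℝ in 𝓝 0, ∀ r, ‖P t r‖ < 1 := by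
    rw [eventually_all]
    intro r
    have := (hPlim r).norm
    rw [norm_zero] at this
    exact this.eventually (gt_mem_nhds one_pos)
  have hcomm : ∀ (Z : Matrix κ κ ℂ), Commute Z X → Commute Z Y → ∀ t r, Commute Z (P t r) := by
    intro Z hZX hZY t r
    exact (((hZX.smul_right I).sub_right hZY).smul_right _)
  have hPeq : ∀ t r q, P t r ≠ P t q → a r ≠ a q := by
    intro t r q h h'
    apply h
    simp only [hPdef, h']
  -- the family
  set Lt : ℝ → ℂ → Matrix ι κ ℂ := fun t w => TL F (P t) w * NormedSpace.exp (-((w * t) • X)) with hLt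
  have hev : ∀ᶠ t : ℝ in 𝓝 0, ∀ w ∈ K, NDg (Lt t w) := by
    refine hK.eventually_forall_of_forall_eventually (P := fun t w => NDg (Lt t w)) fun w₀ _ => ?_
    refine NDg_eventually (hND w₀) fun r k => ?_
    have hexp : Tendsto (fun z : ℝ × ℂ => NormedSpace.exp (-((z.2 * z.1) • X))) (𝓝 (0, w₀))
        (𝓝 (1 : Matrix κ κ ℂ)) := by
      have hc : Continuous (fun z : ℝ × ℂ => NormedSpace.exp (-((z.2 * (z.1 : ℂ)) • X))) := by
        let _ : NormedAlgebra ℚ (Matrix κ κ ℂ) := NormedAlgebra.restrictScalars ℚ ℂ _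
        refine NormedSpace.exp_continuous.comp ?_
        exact ((continuous_snd.mul (Complex.continuous_ofReal.comp continuous_fst)).smul
          continuous_const).neg
      have := hc.tendsto (0, w₀)
      simpa using this
    have h3 : ∀ l, Tendsto (fun z : ℝ × ℂ => TL F (P z.1) z.2 r l *
        (NormedSpace.exp (-((z.2 * z.1) • X))) l k) (𝓝 (0, w₀))
        (𝓝 (F w₀ r l * (1 : Matrix κ κ ℂ) l k)) := by
      intro l
      refine (tendsto_TL hF hPlim w₀ r l).mul ?_
      let φ : Matrix κ κ ℂ →ₗ[ℂ] ℂ :=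
        { toFun := fun M => M l k
          map_add' := fun M N => rfl
          map_smul' := fun a M => rfl }
      exact (φ.continuous_of_finiteDimensional.tendsto _).comp hexp
    have h4 := tendsto_finsetSum univ fun l _ => h3 l
    have e : ∑ l, F w₀ r l * (1 : Matrix κ κ ℂ) l k = F w₀ r k := by
      simp [Matrix.one_apply]
    rw [e] at h4
    exact h4
  filter_upwards [hsmall, hev] with t ht htND
  refine ⟨Lt t, ?_, ?_, ?_, htND⟩
  · intro r k
    simp only [hLt, Matrix.mul_apply]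
    refine Differentiable.fun_sum fun l _ => (differentiable_TL hF ht r l).mul ?_
    have h5 := differentiable_exp_smul ((t : ℂ) • X) l k
    have e : (fun w : ℂ => (NormedSpace.exp (-(w • ((t : ℂ) • X)))) l k) =
        fun w : ℂ => (NormedSpace.exp (-((w * t) • X))) l k := by
      funext w; rw [smul_smul]
    rw [e] at h5
    exact h5
  · intro w
    have c1 : Commute (NormedSpace.exp (-(((w + 1) * t) • X))) E :=
      ((hEX.symm.smul_left _).neg_left).exp_left
    have e1 : NormedSpace.exp (-(((w + 1) * t) • X)) * NormedSpace.exp ((t : ℂ) • X) =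
        NormedSpace.exp (-((w * t) • X)) := by
      rw [← Matrix.exp_add_of_commute _ _
        ((((Commute.refl X).smul_left _).smul_right _).neg_left)]
      congr 1
      module
    have e2 : TL F (P t) (w + 1) * E = G₁ * TL F (P t) w := by
      rw [← TL_comp_add, TL_mul_right (F := fun z => F (z + 1))
        (fun r k => (hF r k).comp (differentiable_id.add_const _)) ht (hcomm E hEX hEY t)]
      have e3 : (fun z => F (z + 1) * E) = fun z => Gam 0 0 G₁ z * F z := by
        funext z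
        rw [h1]
        congr 1
        funext r q
        simp [Gam]
      rw [e3, TL_mul_left hF ht 0 0 (fun r q h => hG₁ r q (hPeq t r q h)) (Q := 1)
        (fun r => by simp), Matrix.mul_one]
      congr 1
      funext r q
      simp [Gam]
    simp only [hLt]
    calc TL F (P t) (w + 1) * NormedSpace.exp (-(((w + 1) * t) • X)) *
          (E * NormedSpace.exp ((t : ℂ) • X))
        = TL F (P t) (w + 1) * (NormedSpace.exp (-(((w + 1) * t) • X)) * E) *
          NormedSpace.exp ((t : ℂ) • X) := by simp only [Matrix.mul_assoc]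
      _ = (TL F (P t) (w + 1) * E) * (NormedSpace.exp (-(((w + 1) * t) • X)) *
          NormedSpace.exp ((t : ℂ) • X)) := by rw [c1.eq]; simp only [Matrix.mul_assoc]
      _ = _ := by rw [e1, e2, Matrix.mul_assoc]
  · intro w
    have c1 : Commute (NormedSpace.exp (-(((w + I) * t) • X))) D :=
      ((hDX.symm.smul_left _).neg_left).exp_left
    have hXc : Commute (-(((w + I) * t) • X)) ((t : ℂ) • Y) :=
      ((hXY.smul_left _).smul_right _).neg_left
    have e1 : NormedSpace.exp ((t : ℂ) • (I • X - Y)) * (NormedSpace.exp (-(((w + I) * t) • X)) *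
        NormedSpace.exp ((t : ℂ) • Y)) = NormedSpace.exp (-((w * t) • X)) := by
      rw [← Matrix.exp_add_of_commute _ _ hXc, ← Matrix.exp_add_of_commute]
      · congr 1
        module
      · have hs : Commute (I • X - Y) (-(((w + I) * t) • X) + (t : ℂ) • Y) := by
          refine Commute.add_right (Commute.neg_right (Commute.smul_right ?_ _)) (Commute.smul_right ?_ _)
          · exact ((Commute.refl X).smul_left I).sub_left hXY.symm
          · exact (hXY.smul_left I).sub_left (Commute.refl Y)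
        exact hs.smul_left _
    have e2 : TL F (P t) (w + I) * D = Gam a c G₂ w * TL F (P t) w *
        NormedSpace.exp ((t : ℂ) • (I • X - Y)) := by
      rw [← TL_comp_add, TL_mul_right (F := fun z => F (z + I))
        (fun r k => (hF r k).comp (differentiable_id.add_const _)) ht (hcomm D hDX hDY t)]
      have e3 : (fun z => F (z + I) * D) = fun z => Gam a c G₂ z * F z := by
        funext z
        rw [h2]
      rw [e3, TL_mul_left hF ht a c (fun r q h => hG₂ r q (hPeq t r q h))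
        (Q := NormedSpace.exp ((t : ℂ) • (I • X - Y))) (fun r => by
          simp only [hPdef]
          rw [smul_smul]
          congr 2
          have := ha r
          field_simp)]
    simp only [hLt]
    calc TL F (P t) (w + I) * NormedSpace.exp (-(((w + I) * t) • X)) *
          (D * NormedSpace.exp ((t : ℂ) • Y))
        = TL F (P t) (w + I) * (NormedSpace.exp (-(((w + I) * t) • X)) * D) *
          NormedSpace.exp ((t : ℂ) • Y) := by simp only [Matrix.mul_assoc]
      _ = (TL F (P t) (w + I) * D) * (NormedSpace.exp (-(((w + I) * t) • X)) *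
          NormedSpace.exp ((t : ℂ) • Y)) := by rw [c1.eq]; simp only [Matrix.mul_assoc]
      _ = Gam a c G₂ w * TL F (P t) w * (NormedSpace.exp ((t : ℂ) • (I • X - Y)) *
          (NormedSpace.exp (-(((w + I) * t) • X)) * NormedSpace.exp ((t : ℂ) • Y))) := by
        rw [e2]; simp only [Matrix.mul_assoc]
      _ = _ := by rw [e1, Matrix.mul_assoc]

end Perturb

end Pool.Agent.TorusBundle
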