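import Mathlib
import Pool.Agent.Lib.MP_1d980c_gt.PerturbND

set_option autoImplicit false
set_option linter.unusedSectionVars false
open scoped Topology Matrix
open Complex Finset Filter

namespace Pool.Agent.TorusBundle

/-- A nondegenerate holomorphic family of real-linear coordinates on `V`, equivariant under the
self-maps `E` (for the period `1`) and `D` (for the period `i`). -/
structure BFam (V : Type) [AddCommGroup V] [Module ℝ V] (E D : V → V) (ι : Type) [Fintype ι]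
    [DecidableEq ι] where
  F : ℂ → V →ₗ[ℝ] (ι → ℂ)
  a : ι → ℂ
  c : ι → ℂ
  G₁ : Matrix ι ι ℂ
  G₂ : Matrix ι ι ℂ
  hF : ∀ v r, Differentiable ℂ (fun z => F z v r)
  inj : ∀ w v, F w v = 0 → v = 0
  ha : ∀ r, a r ≠ 0
  hG₁ : ∀ r q, a r ≠ a q → G₁ r q = 0
  hG₂ : ∀ r q, a r ≠ a q → G₂ r q = 0
  u₁ : IsUnit G₁
  u₂ : IsUnit G₂
  p₁ : ∀ w v, F (w + 1) (E v) = G₁ *ᵥ F w v
  p₂ : ∀ w v, F (w + I) (D v) = Gam a c G₂ w *ᵥ F w v

section

variable {V V' : Type} [AddCommGroup V] [Module ℝ V] [AddCommGroup V'] [Module ℝ V']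
  {ι ι' : Type} [Fintype ι] [DecidableEq ι] [Fintype ι'] [DecidableEq ι']

/-- transport along a linear isomorphism -/
noncomputable def BFam.map {E D : V → V} {E' D' : V' → V'} (f : BFam V' E' D' ι) (φ : V ≃ₗ[ℝ] V')
    (hE : ∀ v, φ (E v) = E' (φ v)) (hD : ∀ v, φ (D v) = D' (φ v)) : BFam V E D ι where
  F := fun w => (f.F w).comp (φ : V →ₗ[ℝ] V')
  a := f.a
  c := f.c
  G₁ := f.G₁
  G₂ := f.G₂
  hF := fun v r => f.hF (φ v) r
  inj := fun w v h => by
    have := f.inj w (φ v) h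
    simpa using this
  ha := f.ha
  hG₁ := f.hG₁
  hG₂ := f.hG₂
  u₁ := f.u₁
  u₂ := f.u₂
  p₁ := fun w v => by
    show f.F (w + 1) (φ (E v)) = _
    rw [hE, f.p₁]; rfl
  p₂ := fun w v => by
    show f.F (w + I) (φ (D v)) = _
    rw [hD, f.p₂]; rfl

lemma Gam_smul (a c : ι → ℂ) (G : Matrix ι ι ℂ) (σ w : ℂ) : Gam a c (σ • G) w = σ • Gam a c G w := by
  funext r q
  simp [Gam]
  ring

/-- twist by signs -/
noncomputable def BFam.twist {E D : V → V} (f : BFam V E D ι) (σ τ : ℝ) (hσ : σ ≠ 0) (hτ : τ ≠ 0) :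
    BFam V (fun v => σ • E v) (fun v => τ • D v) ι where
  F := f.F
  a := f.a
  c := f.c
  G₁ := (σ : ℂ) • f.G₁
  G₂ := (τ : ℂ) • f.G₂
  hF := f.hF
  inj := f.inj
  ha := f.ha
  hG₁ := fun r q h => by simp [f.hG₁ r q h]
  hG₂ := fun r q h => by simp [f.hG₂ r q h]
  u₁ := by
    have h := (Units.mk0 (σ : ℂ) (by exact_mod_cast hσ)).isUnit
    exact (isUnit_smul_iff (Units.mk0 (σ : ℂ) (by exact_mod_cast hσ)) f.G₁).2 f.u₁
  u₂ := (isUnit_smul_iff (Units.mk0 (τ : ℂ) (by exact_mod_cast hτ)) f.G₂).2 f.u₂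
  p₁ := fun w v => by
    rw [map_smul, f.p₁, Matrix.smul_mulVec]
    funext r
    simp
  p₂ := fun w v => by
    rw [map_smul, f.p₂, Gam_smul, Matrix.smul_mulVec]
    funext r
    simp

lemma isUnit_fromBlocks {G : Matrix ι ι ℂ} {G' : Matrix ι' ι' ℂ} (h : IsUnit G) (h' : IsUnit G') :
    IsUnit (Matrix.fromBlocks G 0 0 G') := by
  rw [Matrix.isUnit_iff_isUnit_det] at h h' ⊢
  rw [Matrix.det_fromBlocks_zero₂₁]
  exact h.mul h'

/-- the direct sum -/
noncomputable def BFam.sum {E D : V → V} {E' D' : V' → V'} (f : BFam V E D ι) (f' : BFam V' E' D' ι') :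
    BFam (V × V') (fun v => (E v.1, E' v.2)) (fun v => (D v.1, D' v.2)) (ι ⊕ ι') where
  F := fun w =>
    { toFun := fun v => Sum.elim (f.F w v.1) (f'.F w v.2)
      map_add' := fun v v' => by
        funext r
        rcases r with r | r <;> simp
      map_smul' := fun x v => by
        funext r
        rcases r with r | r <;> simp }
  a := Sum.elim f.a f'.a
  c := Sum.elim f.c f'.c
  G₁ := Matrix.fromBlocks f.G₁ 0 0 f'.G₁
  G₂ := Matrix.fromBlocks f.G₂ 0 0 f'.G₂
  hF := fun v r => by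
    rcases r with r | r
    · exact f.hF v.1 r
    · exact f'.hF v.2 r
  inj := fun w v h => by
    have h1 : f.F w v.1 = 0 := by
      funext r
      exact congrFun h (Sum.inl r)
    have h2 : f'.F w v.2 = 0 := by
      funext r
      exact congrFun h (Sum.inr r)
    exact Prod.ext (f.inj w _ h1) (f'.inj w _ h2)
  ha := fun r => by
    rcases r with r | r
    · exact f.ha r
    · exact f'.ha r
  hG₁ := fun r q h => by
    rcases r with r | r <;> rcases q with q | q
    · exact f.hG₁ r q h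
    · rfl
    · rfl
    · exact f'.hG₁ r q h
  hG₂ := fun r q h => by
    rcases r with r | r <;> rcases q with q | q
    · exact f.hG₂ r q h
    · rfl
    · rfl
    · exact f'.hG₂ r q h
  u₁ := isUnit_fromBlocks f.u₁ f'.u₁
  u₂ := isUnit_fromBlocks f.u₂ f'.u₂
  p₁ := fun w v => by
    show Sum.elim (f.F (w + 1) (E v.1)) (f'.F (w + 1) (E' v.2)) =
      Matrix.fromBlocks f.G₁ 0 0 f'.G₁ *ᵥ Sum.elim (f.F w v.1) (f'.F w v.2)
    rw [Matrix.fromBlocks_mulVec, f.p₁, f'.p₁]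
    simp
  p₂ := fun w v => by
    show Sum.elim (f.F (w + I) (D v.1)) (f'.F (w + I) (D' v.2)) =
      Gam (Sum.elim f.a f'.a) (Sum.elim f.c f'.c) (Matrix.fromBlocks f.G₂ 0 0 f'.G₂) w *ᵥ
        Sum.elim (f.F w v.1) (f'.F w v.2)
    have e : Gam (Sum.elim f.a f'.a) (Sum.elim f.c f'.c) (Matrix.fromBlocks f.G₂ 0 0 f'.G₂) w =
        Matrix.fromBlocks (Gam f.a f.c f.G₂ w) 0 0 (Gam f'.a f'.c f'.G₂ w) := by
      ext r q
      rcases r with r | r <;> rcases q with q | q <;> simp [Gam]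
    rw [e, Matrix.fromBlocks_mulVec, f.p₂, f'.p₂]
    simp

/-- change of the index type of the rows -/
noncomputable def BFam.reindex {E D : V → V} (f : BFam V E D ι) (e : ι' ≃ ι) : BFam V E D ι' where
  F := fun w => (LinearMap.funLeft ℝ ℂ e).comp (f.F w)
  a := f.a ∘ e
  c := f.c ∘ e
  G₁ := f.G₁.submatrix e e
  G₂ := f.G₂.submatrix e e
  hF := fun v r => f.hF v (e r)
  inj := fun w v h => by
    refine f.inj w v ?_
    funext r
    have := congrFun h (e.symm r)
    simpa [LinearMap.funLeft] using this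
  ha := fun r => f.ha _
  hG₁ := fun r q h => f.hG₁ _ _ h
  hG₂ := fun r q h => f.hG₂ _ _ h
  u₁ := (Matrix.isUnit_submatrix_equiv e e).2 f.u₁
  u₂ := (Matrix.isUnit_submatrix_equiv e e).2 f.u₂
  p₁ := fun w v => by
    show (f.F (w + 1) (E v)) ∘ e = _
    rw [f.p₁, Matrix.submatrix_mulVec_equiv]
    congr 2
    funext r
    simp [LinearMap.funLeft]
  p₂ := fun w v => by
    show (f.F (w + I) (D v)) ∘ e = _
    have e1 : Gam (f.a ∘ e) (f.c ∘ e) (f.G₂.submatrix e e) w = (Gam f.a f.c f.G₂ w).submatrix e e := by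
      ext r q
      simp [Gam]
    rw [f.p₂, e1, Matrix.submatrix_mulVec_equiv]
    congr 2
    funext r
    simp [LinearMap.funLeft]

end

end Pool.Agent.TorusBundle
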