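import Mathlib

set_option autoImplicit false
open scoped Manifold ContDiff Matrix
open Complex

namespace Pool.Agent.TorusBundle

/-! ### Task A: theta function in a Banach algebra -/

section TaskA

variable {𝔸 : Type*} [NormedRing 𝔸] [NormedAlgebra ℂ 𝔸] [CompleteSpace 𝔸]

/-- The Gaussian theta function `∑ₙ e^{-πn²} e^{2πinW}` in a Banach algebra. -/
noncomputable def th (W : 𝔸) : 𝔸 :=
  ∑' n : ℤ, ((Real.exp (-Real.pi * (n : ℝ) ^ 2) : ℝ) : ℂ) •
    NormedSpace.exp ((2 * Real.pi * I * (n : ℂ)) • W)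

omit [CompleteSpace 𝔸] in
/-- The norm of the exponential in a Banach algebra that need not satisfy `‖1‖ = 1`. -/
theorem norm_exp_le_mul (x : 𝔸) :
    ‖NormedSpace.exp x‖ ≤ max 1 ‖(1 : 𝔸)‖ * Real.exp ‖x‖ := by
  have hterm : ∀ n : ℕ, ‖((n.factorial : ℂ)⁻¹) • x ^ n‖ ≤
      max 1 ‖(1 : 𝔸)‖ * ((n.factorial : ℝ)⁻¹ * ‖x‖ ^ n) := by
    intro n
    rw [norm_smul, norm_inv, Complex.norm_natCast]
    have h1 : ‖x ^ n‖ ≤ max 1 ‖(1 : 𝔸)‖ * ‖x‖ ^ n := by
      rcases Nat.eq_zero_or_pos n with rfl | hn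
      · simp
      · calc ‖x ^ n‖ ≤ ‖x‖ ^ n := norm_pow_le' x hn
          _ = 1 * ‖x‖ ^ n := (one_mul _).symm
          _ ≤ _ := by
            apply mul_le_mul_of_nonneg_right (le_max_left _ _) (by positivity)
    have h2 : (0 : ℝ) ≤ (n.factorial : ℝ)⁻¹ := by positivity
    calc (n.factorial : ℝ)⁻¹ * ‖x ^ n‖ ≤ (n.factorial : ℝ)⁻¹ * (max 1 ‖(1 : 𝔸)‖ * ‖x‖ ^ n) :=
          mul_le_mul_of_nonneg_left h1 h2
      _ = _ := by ring
  have hs : HasSum (fun n : ℕ => max 1 ‖(1 : 𝔸)‖ * ((n.factorial : ℝ)⁻¹ * ‖x‖ ^ n))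
      (max 1 ‖(1 : 𝔸)‖ * Real.exp ‖x‖) := by
    have := NormedSpace.exp_series_hasSum_exp' (𝕂 := ℝ) (‖x‖ : ℝ)
    rw [← Real.exp_eq_exp_ℝ] at this
    simpa [smul_eq_mul] using this.mul_left (max 1 ‖(1 : 𝔸)‖)
  have he : NormedSpace.exp x = ∑' n : ℕ, ((n.factorial : ℂ)⁻¹) • x ^ n := by
    rw [NormedSpace.exp_eq_tsum ℂ]
  rw [he]
  exact tsum_of_norm_bounded hs hterm

theorem exp_add_smul_one (W : 𝔸) (z : ℂ) :
    NormedSpace.exp (W + z • (1 : 𝔸)) = Complex.exp z • NormedSpace.exp W := by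
  let _ := NormedAlgebra.restrictScalars ℚ ℂ 𝔸
  have hc : Commute W (z • (1 : 𝔸)) := (Commute.one_right W).smul_right z
  have h1 : NormedSpace.exp (z • (1 : 𝔸)) = Complex.exp z • (1 : 𝔸) := by
    rw [← Algebra.algebraMap_eq_smul_one, ← NormedSpace.algebraMap_exp_comm (𝕂 := ℂ) (𝔸 := 𝔸) z,
      ← Complex.exp_eq_exp_ℂ, Algebra.algebraMap_eq_smul_one]
  rw [NormedSpace.exp_add_of_commute hc, h1, mul_smul_comm, mul_one]

/-- The terms of the series. -/
noncomputable def tterm (n : ℤ) (W : 𝔸) : 𝔸 :=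
  ((Real.exp (-Real.pi * (n : ℝ) ^ 2) : ℝ) : ℂ) •
    NormedSpace.exp ((2 * Real.pi * I * (n : ℂ)) • W)

omit [CompleteSpace 𝔸] in
theorem th_eq (W : 𝔸) : th W = ∑' n : ℤ, tterm n W := rfl

/-- The summable majorant. -/
noncomputable def maj (K R : ℝ) (n : ℤ) : ℝ :=
  K * (((|n| : ℤ) : ℝ) ^ 0 * Real.exp (-Real.pi * (1 * (n : ℝ) ^ 2 - 2 * R * (|n| : ℤ))))

theorem summable_maj (K R : ℝ) : Summable (maj K R) := by
  unfold maj
  exact (summable_pow_mul_jacobiTheta₂_term_bound R (T := 1) one_pos 0).mul_left K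

omit [CompleteSpace 𝔸] in
theorem norm_tterm_le {R : ℝ} {W : 𝔸} (hW : ‖W‖ ≤ R) (n : ℤ) :
    ‖tterm n W‖ ≤ maj (max 1 ‖(1 : 𝔸)‖) R n := by
  unfold tterm maj
  have hR : 0 ≤ R := (norm_nonneg W).trans hW
  have h1 : ‖(2 * Real.pi * I * (n : ℂ)) • W‖ ≤ 2 * Real.pi * R * (|n| : ℤ) := by
    rw [norm_smul]
    have : ‖(2 * Real.pi * I * (n : ℂ))‖ = 2 * Real.pi * ((|n| : ℤ) : ℝ) := by
      simp [abs_of_pos Real.pi_pos]
    rw [this]
    have h3 : (0 : ℝ) ≤ 2 * Real.pi * ((|n| : ℤ) : ℝ) := by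
      have : (0 : ℝ) ≤ ((|n| : ℤ) : ℝ) := by exact_mod_cast abs_nonneg n
      positivity
    calc 2 * Real.pi * ((|n| : ℤ) : ℝ) * ‖W‖ ≤ 2 * Real.pi * ((|n| : ℤ) : ℝ) * R :=
          mul_le_mul_of_nonneg_left hW h3
      _ = _ := by ring
  rw [norm_smul, Complex.norm_real, Real.norm_eq_abs, abs_of_pos (Real.exp_pos _)]
  calc Real.exp (-Real.pi * (n : ℝ) ^ 2) * ‖NormedSpace.exp ((2 * Real.pi * I * (n : ℂ)) • W)‖
      ≤ Real.exp (-Real.pi * (n : ℝ) ^ 2) *
        (max 1 ‖(1 : 𝔸)‖ * Real.exp (2 * Real.pi * R * (|n| : ℤ))) := by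
        apply mul_le_mul_of_nonneg_left _ (Real.exp_pos _).le
        refine (norm_exp_le_mul _).trans ?_
        apply mul_le_mul_of_nonneg_left (Real.exp_le_exp.mpr h1)
        exact le_trans zero_le_one (le_max_left _ _)
    _ = _ := by
        rw [pow_zero, one_mul, one_mul, mul_left_comm, ← Real.exp_add]
        congr 2
        ring

theorem summable_tterm (W : 𝔸) : Summable (fun n : ℤ => tterm n W) :=
  Summable.of_norm_bounded (summable_maj _ ‖W‖) (fun n => norm_tterm_le le_rfl n)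

theorem th_add_one (W : 𝔸) : th (W + 1) = th W := by
  unfold th
  refine tsum_congr fun n => ?_
  have h : (2 * Real.pi * I * (n : ℂ)) • (W + 1) =
      (2 * Real.pi * I * (n : ℂ)) • W + (2 * Real.pi * I * (n : ℂ)) • (1 : 𝔸) := smul_add _ _ _
  have h2 : Complex.exp (2 * Real.pi * I * (n : ℂ)) = 1 := by
    rw [Complex.exp_eq_one_iff]
    exact ⟨n, by ring⟩
  rw [h, exp_add_smul_one, h2, one_smul]

theorem th_add_I (W : 𝔸) :
    th (W + (I : ℂ) • (1 : 𝔸)) =
      NormedSpace.exp ((Real.pi : ℂ) • (1 : 𝔸) - (2 * Real.pi * I : ℂ) • W) * th W := by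
  let _ := NormedAlgebra.restrictScalars ℚ ℂ 𝔸
  have key : ∀ n : ℤ, tterm n (W + (I : ℂ) • (1 : 𝔸)) =
      NormedSpace.exp ((Real.pi : ℂ) • (1 : 𝔸) - (2 * Real.pi * I : ℂ) • W) *
        tterm (n + 1) W := by
    intro n
    unfold tterm
    have hc : Commute ((2 * Real.pi * I : ℂ) • W) ((2 * Real.pi * I * ((n + 1 : ℤ) : ℂ)) • W) :=
      ((Commute.refl W).smul_left _).smul_right _
    have h1 : (Real.pi : ℂ) • (1 : 𝔸) - (2 * Real.pi * I : ℂ) • W =
        -((2 * Real.pi * I : ℂ) • W) + (Real.pi : ℂ) • (1 : 𝔸) := by abel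
    rw [h1, exp_add_smul_one, smul_add, smul_smul, exp_add_smul_one, smul_mul_assoc,
      mul_smul_comm, ← NormedSpace.exp_add_of_commute hc.neg_left]
    have h2 : -((2 * Real.pi * I : ℂ) • W) + (2 * Real.pi * I * ((n + 1 : ℤ) : ℂ)) • W =
        (2 * Real.pi * I * (n : ℂ)) • W := by
      rw [← neg_smul, ← add_smul]
      congr 1
      push_cast
      ring
    rw [h2, smul_smul, smul_smul]
    congr 1
    rw [Complex.ofReal_exp, Complex.ofReal_exp, ← Complex.exp_add, ← Complex.exp_add]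
    congr 1
    push_cast
    have : (I : ℂ) * I = -1 := Complex.I_mul_I
    linear_combination (2 * Real.pi * (n : ℂ)) * this
  rw [th_eq, th_eq, tsum_congr key]
  have hsum : Summable (fun n : ℤ => tterm (n + 1) W) :=
    (Equiv.addRight (1 : ℤ)).summable_iff.mpr (summable_tterm W)
  rw [hsum.tsum_mul_left]
  congr 1
  exact (Equiv.addRight (1 : ℤ)).tsum_eq (fun n => tterm n W)

omit [CompleteSpace 𝔸] in
theorem commute_th {X W : 𝔸} (h : Commute X W) : Commute X (th W) := by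
  let _ := NormedAlgebra.restrictScalars ℚ ℂ 𝔸
  unfold th
  refine Commute.tsum_right _ fun n => ?_
  exact ((h.smul_right _).exp_right).smul_right _

theorem continuous_tterm (n : ℤ) : Continuous (tterm n : 𝔸 → 𝔸) := by
  let _ := NormedAlgebra.restrictScalars ℚ ℂ 𝔸
  unfold tterm
  exact (NormedSpace.exp_continuous.comp (continuous_const_smul _)).const_smul _

theorem continuous_th : Continuous (th : 𝔸 → 𝔸) := by
  rw [continuous_iff_continuousAt]
  intro W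
  have h : ContinuousOn (fun W : 𝔸 => ∑' n : ℤ, tterm n W) (Metric.ball 0 (‖W‖ + 1)) := by
    refine continuousOn_tsum (fun n => (continuous_tterm n).continuousOn)
      (summable_maj (max 1 ‖(1 : 𝔸)‖) (‖W‖ + 1)) ?_
    intro n x hx
    refine norm_tterm_le ?_ n
    rw [mem_ball_zero_iff] at hx
    exact hx.le
  have h2 := h.continuousAt (Metric.isOpen_ball.mem_nhds (show W ∈ Metric.ball 0 (‖W‖ + 1) by
    rw [mem_ball_zero_iff]; linarith))
  exact h2

theorem differentiable_th_line (P : 𝔸) :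
    Differentiable ℂ (fun w : ℂ => th (w • (1 : 𝔸) + P)) := by
  intro w
  set K : ℝ := (‖w‖ + 1) * ‖(1 : 𝔸)‖ + ‖P‖ with hK
  have h : DifferentiableOn ℂ (fun w : ℂ => ∑' n : ℤ, tterm n (w • (1 : 𝔸) + P))
      (Metric.ball 0 (‖w‖ + 1)) := by
    refine differentiableOn_tsum_of_summable_norm (summable_maj (max 1 ‖(1 : 𝔸)‖) K) ?_
      Metric.isOpen_ball ?_
    · intro n
      have : (fun w : ℂ => tterm n (w • (1 : 𝔸) + P)) = fun w : ℂ =>
          ((Real.exp (-Real.pi * (n : ℝ) ^ 2) : ℝ) : ℂ) •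
            (Complex.exp (2 * Real.pi * I * (n : ℂ) * w) •
              NormedSpace.exp ((2 * Real.pi * I * (n : ℂ)) • P)) := by
        funext w
        unfold tterm
        rw [add_comm, smul_add, smul_smul, exp_add_smul_one]
      rw [this]
      apply Differentiable.differentiableOn
      have hd : Differentiable ℂ (fun w : ℂ => Complex.exp (2 * Real.pi * I * (n : ℂ) * w) •
          NormedSpace.exp ((2 * Real.pi * I * (n : ℂ)) • P)) :=
        ((differentiable_id.const_mul _).cexp).smul_const _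
      exact hd.const_smul ((Real.exp (-Real.pi * (n : ℝ) ^ 2) : ℝ) : ℂ)
    · intro n x hx
      refine norm_tterm_le ?_ n
      rw [mem_ball_zero_iff] at hx
      calc ‖x • (1 : 𝔸) + P‖ ≤ ‖x • (1 : 𝔸)‖ + ‖P‖ := norm_add_le _ _
        _ = ‖x‖ * ‖(1 : 𝔸)‖ + ‖P‖ := by rw [norm_smul]
        _ ≤ K := by
          rw [hK]
          have := mul_le_mul_of_nonneg_right hx.le (norm_nonneg (1 : 𝔸))
          linarith
  have h2 := h.differentiableAt (Metric.isOpen_ball.mem_nhds (show w ∈ Metric.ball 0 (‖w‖ + 1) by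
    rw [mem_ball_zero_iff]; linarith))
  exact h2

theorem th_smul_one (w : ℂ) : th (w • (1 : 𝔸)) = (th w : ℂ) • (1 : 𝔸) := by
  rw [th_eq, th_eq, ← (summable_tterm w).tsum_smul_const (1 : 𝔸)]
  refine tsum_congr fun n => ?_
  unfold tterm
  have h := exp_add_smul_one (0 : 𝔸) (2 * Real.pi * I * (n : ℂ) * w)
  rw [zero_add, NormedSpace.exp_zero] at h
  rw [smul_smul, h, smul_eq_mul, smul_eq_mul, ← Complex.exp_eq_exp_ℂ, smul_smul]

end TaskA

end Pool.Agent.TorusBundle
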