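import Mathlib
import Pool.Agent.Lib.MP_1d980c_gt.Theta

set_option autoImplicit false
set_option linter.unusedSectionVars false
set_option linter.style.haveILetI false
open scoped Manifold ContDiff Matrix
open Complex

namespace Pool.Agent.TorusBundle

section Fam

variable {𝔸 : Type*} [NormedRing 𝔸] [NormedAlgebra ℂ 𝔸] [CompleteSpace 𝔸]

lemma exp_add_comm' {x y : 𝔸} (h : Commute x y) :
    NormedSpace.exp (x + y) = NormedSpace.exp x * NormedSpace.exp y :=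
  letI : NormedAlgebra ℚ 𝔸 := NormedAlgebra.restrictScalars ℚ ℂ 𝔸
  NormedSpace.exp_add_of_commute h

lemma exp_scalar (z : ℂ) : NormedSpace.exp (z • (1 : 𝔸)) = Complex.exp z • (1 : 𝔸) := by
  rw [← Algebra.algebraMap_eq_smul_one, ← Algebra.algebraMap_eq_smul_one, Complex.exp_eq_exp_ℂ]
  letI : NormedAlgebra ℚ 𝔸 := NormedAlgebra.restrictScalars ℚ ℂ 𝔸
  exact (NormedSpace.algebraMap_exp_comm z).symm

lemma commute_exp' {X Y : 𝔸} (h : Commute X Y) : Commute X (NormedSpace.exp Y) :=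
  letI : NormedAlgebra ℚ 𝔸 := NormedAlgebra.restrictScalars ℚ ℂ 𝔸
  h.exp_right

/-- `p(W) = θ(W)²`. -/
noncomputable def pW (W : 𝔸) : 𝔸 := th W * th W

/-- `q(W) = θ(W + c) θ(W - c)`. -/
noncomputable def qW (c : ℂ) (W : 𝔸) : 𝔸 := th (W + c • (1 : 𝔸)) * th (W - c • (1 : 𝔸))

lemma commute_smul_one (X : 𝔸) (z : ℂ) : Commute X (z • (1 : 𝔸)) :=
  (Commute.one_right X).smul_right z

lemma commute_pW {X W : 𝔸} (h : Commute X W) : Commute X (pW W) :=
  (commute_th h).mul_right (commute_th h)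

lemma commute_qW (c : ℂ) {X W : 𝔸} (h : Commute X W) : Commute X (qW c W) :=
  (commute_th (h.add_right (commute_smul_one X c))).mul_right
    (commute_th (h.sub_right (commute_smul_one X c)))

lemma pW_add_one (W : 𝔸) : pW (W + 1) = pW W := by
  unfold pW; rw [th_add_one]

lemma qW_add_one (c : ℂ) (W : 𝔸) : qW c (W + 1) = qW c W := by
  unfold qW
  rw [show W + 1 + c • (1 : 𝔸) = W + c • (1 : 𝔸) + 1 by abel,
    show W + 1 - c • (1 : 𝔸) = W - c • (1 : 𝔸) + 1 by abel, th_add_one, th_add_one]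

/-- The automorphy factor of degree two. -/
noncomputable def GW (W : 𝔸) : 𝔸 :=
  NormedSpace.exp ((2 * Real.pi : ℂ) • (1 : 𝔸) - (4 * Real.pi * I : ℂ) • W)

lemma commute_GW {X W : 𝔸} (h : Commute X W) : Commute X (GW W) :=
  commute_exp' ((commute_smul_one X _).sub_right (h.smul_right _))

lemma mul_exp_aux (W : 𝔸) (z : ℂ) :
    NormedSpace.exp ((Real.pi : ℂ) • (1 : 𝔸) - (2 * Real.pi * I : ℂ) • (W + z • (1 : 𝔸))) *
      NormedSpace.exp ((Real.pi : ℂ) • (1 : 𝔸) - (2 * Real.pi * I : ℂ) • (W - z • (1 : 𝔸))) =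
      GW W := by
  have h1 : Commute ((Real.pi : ℂ) • (1 : 𝔸) - (2 * Real.pi * I : ℂ) • (W + z • (1 : 𝔸)))
      ((Real.pi : ℂ) • (1 : 𝔸) - (2 * Real.pi * I : ℂ) • (W - z • (1 : 𝔸))) := by
    have h2 : Commute (W + z • (1 : 𝔸)) (W - z • (1 : 𝔸)) :=
      ((Commute.refl W).sub_right (commute_smul_one W z)).add_left
        ((commute_smul_one _ z).symm)
    exact ((commute_smul_one _ _).symm).sub_left
      (((commute_smul_one _ _).sub_right (h2.smul_right _)).smul_left _)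
  rw [← exp_add_comm' h1]
  unfold GW
  congr 1
  simp only [smul_add, smul_sub]
  module

lemma pW_add_I (W : 𝔸) : pW (W + I • (1 : 𝔸)) = GW W * pW W := by
  have h := mul_exp_aux W 0
  simp only [zero_smul, add_zero, sub_zero] at h
  unfold pW
  rw [th_add_I, ← h]
  have hc : Commute (th W)
      (NormedSpace.exp ((Real.pi : ℂ) • (1 : 𝔸) - (2 * Real.pi * I : ℂ) • W)) :=
    commute_exp' ((commute_smul_one _ _).sub_right
      (((commute_th (Commute.refl W)).symm).smul_right _))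
  rw [mul_assoc, ← mul_assoc (th W), hc.eq]
  simp only [mul_assoc]

lemma qW_add_I (c : ℂ) (W : 𝔸) : qW c (W + I • (1 : 𝔸)) = GW W * qW c W := by
  unfold qW
  rw [show W + I • (1 : 𝔸) + c • (1 : 𝔸) = W + c • (1 : 𝔸) + I • (1 : 𝔸) by abel,
    show W + I • (1 : 𝔸) - c • (1 : 𝔸) = W - c • (1 : 𝔸) + I • (1 : 𝔸) by abel, th_add_I, th_add_I,
    ← mul_exp_aux W c]
  have hc : Commute (th (W + c • (1 : 𝔸)))
      (NormedSpace.exp ((Real.pi : ℂ) • (1 : 𝔸) - (2 * Real.pi * I : ℂ) • (W - c • (1 : 𝔸)))) := by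
    refine commute_exp' ((commute_smul_one _ _).sub_right (Commute.smul_right ?_ _))
    refine Commute.sub_right ?_ (commute_smul_one _ _)
    exact (commute_th ((Commute.refl W).add_right (commute_smul_one W c))).symm
  rw [mul_assoc, ← mul_assoc (th (W + c • (1 : 𝔸))), hc.eq]
  simp only [mul_assoc]

/-- The point at which theta functions of degree `2g` are evaluated. -/
noncomputable def Wg (g : ℕ) (T₁ T₂ : 𝔸) (w : ℂ) : 𝔸 :=
  w • (1 : 𝔸) + (4 * Real.pi * I * g : ℂ)⁻¹ • (T₂ - I • T₁)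

/-- Operator valued theta functions of degree `2g` with monodromy. -/
noncomputable def Fm (c : ℂ) (g j : ℕ) (T₁ T₂ : 𝔸) (w : ℂ) : 𝔸 :=
  pW (Wg g T₁ T₂ w) ^ j * qW c (Wg g T₁ T₂ w) ^ (g - j) * NormedSpace.exp (-(w • T₁))

lemma commute_Wg {X T₁ T₂ : 𝔸} (h₁ : Commute X T₁) (h₂ : Commute X T₂) (g : ℕ) (w : ℂ) :
    Commute X (Wg g T₁ T₂ w) :=
  (commute_smul_one _ _).add_right ((h₂.sub_right (h₁.smul_right _)).smul_right _)

lemma Wg_add_one (g : ℕ) (T₁ T₂ : 𝔸) (w : ℂ) : Wg g T₁ T₂ (w + 1) = Wg g T₁ T₂ w + 1 := by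
  unfold Wg; rw [add_smul, one_smul]; abel

lemma Wg_add_I (g : ℕ) (T₁ T₂ : 𝔸) (w : ℂ) :
    Wg g T₁ T₂ (w + I) = Wg g T₁ T₂ w + I • (1 : 𝔸) := by
  unfold Wg; rw [add_smul]; abel

lemma Fm_add_one (c : ℂ) (g j : ℕ) (T₁ T₂ : 𝔸) (w : ℂ) :
    Fm c g j T₁ T₂ (w + 1) * NormedSpace.exp T₁ = Fm c g j T₁ T₂ w := by
  unfold Fm
  rw [Wg_add_one, pW_add_one, qW_add_one, mul_assoc, ← exp_add_comm']
  · congr 2
    rw [add_smul, one_smul]; abel
  · exact (((Commute.refl T₁).smul_left _).neg_left)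

lemma GW_pow (g : ℕ) (hg : g ≠ 0) (T₁ T₂ : 𝔸) (w : ℂ) :
    GW (Wg g T₁ T₂ w) ^ g =
      Complex.exp (g * (2 * Real.pi - 4 * Real.pi * I * w)) • NormedSpace.exp (I • T₁ - T₂) := by
  letI : NormedAlgebra ℚ 𝔸 := NormedAlgebra.restrictScalars ℚ ℂ 𝔸
  unfold GW Wg
  rw [← NormedSpace.exp_nsmul]
  have hpi : (Real.pi : ℂ) ≠ 0 := by exact_mod_cast Real.pi_ne_zero
  have hg' : (g : ℂ) ≠ 0 := by exact_mod_cast hg
  have : g • ((2 * Real.pi : ℂ) • (1 : 𝔸) - (4 * Real.pi * I : ℂ) •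
      (w • (1 : 𝔸) + (4 * Real.pi * I * g : ℂ)⁻¹ • (T₂ - I • T₁))) =
      (g * (2 * Real.pi - 4 * Real.pi * I * w) : ℂ) • (1 : 𝔸) + (I • T₁ - T₂) := by
    rw [← Nat.cast_smul_eq_nsmul ℂ]
    have e1 : (g : ℂ) • ((4 * Real.pi * I : ℂ) • ((4 * Real.pi * I * g : ℂ)⁻¹ • (T₂ - I • T₁))) =
        T₂ - I • T₁ := by
      rw [smul_smul, smul_smul, show (g : ℂ) * (4 * Real.pi * I) * (4 * Real.pi * I * g)⁻¹ = 1 by
        field_simp [hpi, hg', I_ne_zero], one_smul]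
    rw [smul_sub, smul_add, smul_add, e1]
    module
  rw [this, exp_add_comm' ((commute_smul_one _ _).symm), exp_scalar, smul_one_mul]

lemma Fm_add_I (c : ℂ) {g j : ℕ} (hg : g ≠ 0) (hj : j ≤ g) {T₁ T₂ : 𝔸} (h : Commute T₁ T₂) (w : ℂ) :
    Fm c g j T₁ T₂ (w + I) * NormedSpace.exp T₂ =
      Complex.exp (g * (2 * Real.pi - 4 * Real.pi * I * w)) • Fm c g j T₁ T₂ w := by
  unfold Fm
  rw [Wg_add_I, pW_add_I, qW_add_I]
  set W := Wg g T₁ T₂ w with hW
  have hGp : Commute (GW W) (pW W) := commute_pW (commute_GW (Commute.refl W)).symm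
  have hGq : Commute (GW W) (qW c W) := commute_qW c (commute_GW (Commute.refl W)).symm
  rw [hGp.mul_pow, hGq.mul_pow]
  have e1 : GW W ^ j * pW W ^ j * (GW W ^ (g - j) * qW c W ^ (g - j)) =
      GW W ^ g * (pW W ^ j * qW c W ^ (g - j)) := by
    have h1 : Commute (pW W ^ j) (GW W ^ (g - j)) := (hGp.symm.pow_pow _ _)
    calc GW W ^ j * pW W ^ j * (GW W ^ (g - j) * qW c W ^ (g - j))
        = GW W ^ j * (pW W ^ j * GW W ^ (g - j)) * qW c W ^ (g - j) := by simp only [mul_assoc]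
      _ = GW W ^ j * (GW W ^ (g - j) * pW W ^ j) * qW c W ^ (g - j) := by rw [h1.eq]
      _ = (GW W ^ j * GW W ^ (g - j)) * (pW W ^ j * qW c W ^ (g - j)) := by simp only [mul_assoc]
      _ = _ := by rw [← pow_add, Nat.add_sub_cancel' hj]
  rw [e1, hW, GW_pow g hg, ← hW]
  have hT1W : Commute T₁ W := commute_Wg (Commute.refl _) h g w
  have hT2W : Commute T₂ W := commute_Wg h.symm (Commute.refl _) g w
  have hXW : Commute (NormedSpace.exp (I • T₁ - T₂)) W :=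
    (commute_exp' ((hT1W.smul_left I).sub_left hT2W).symm).symm
  have hX : Commute (NormedSpace.exp (I • T₁ - T₂)) (pW W ^ j * qW c W ^ (g - j)) :=
    ((commute_pW hXW).pow_right _).mul_right ((commute_qW c hXW).pow_right _)
  rw [smul_mul_assoc, smul_mul_assoc, smul_mul_assoc, hX.eq]
  congr 1
  rw [mul_assoc, mul_assoc, ← exp_add_comm', ← exp_add_comm']
  · congr 2
    rw [add_smul]; abel
  · refine Commute.add_right ?_ ?_
    · exact ((((Commute.refl T₁).smul_left I).sub_left h.symm).smul_right (w + I)).neg_right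
    · exact (h.smul_left I).sub_left (Commute.refl T₂)
  · exact (h.smul_left (w + I)).neg_left

end Fam

end Pool.Agent.TorusBundle
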