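import Mathlib

set_option autoImplicit false
open Complex Finset ComplexConjugate

namespace Pool.Agent.TorusBundle

/-- The algebraic nondegeneracy of the twistor family. -/
lemma nondeg {m : ℕ} (hm : 2 ≤ m) {p q : ℂ} (hpq : p ≠ 0 ∨ q ≠ 0) (ζ : ℕ → ℂ)
    (h0 : q * ζ 0 + p * conj (ζ (m - 1)) = 0)
    (h1 : ∀ i, 1 ≤ i → i + 1 < m → q * ζ i + p * ζ (i - 1) = 0)
    (h2 : q ^ (m - 1) * ζ (m - 1) +
      ∑ j ∈ Ico 1 m, (-1) ^ j * p ^ j * q ^ (m - 1 - j) * conj (ζ (j - 1)) = 0) :
    ∀ i < m, ζ i = 0 := by
  by_cases hq : q = 0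
  · subst hq
    have hp : p ≠ 0 := by
      rcases hpq with h | h
      · exact h
      · exact absurd rfl h
    have hl : ζ (m - 1) = 0 := by
      rw [zero_mul, zero_add, mul_eq_zero, or_iff_right hp] at h0
      simpa using h0
    have hm2 : ζ (m - 2) = 0 := by
      rw [zero_pow (by omega), zero_mul, zero_add, Finset.sum_eq_single (m - 1)] at h2
      · rw [Nat.sub_self, pow_zero, mul_one, mul_eq_zero] at h2
        rcases h2 with h | h
        · exfalso
          exact (mul_ne_zero (pow_ne_zero _ (by norm_num)) (pow_ne_zero _ hp)) h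
        · rw [show m - 1 - 1 = m - 2 by omega] at h
          simpa using h
      · intro j hj hj2
        rw [Finset.mem_Ico] at hj
        rw [zero_pow (by omega), mul_zero, zero_mul]
      · intro h
        exfalso; apply h; rw [Finset.mem_Ico]; omega
    intro i hi
    by_cases hi1 : i = m - 1
    · rw [hi1, hl]
    by_cases hi2 : i = m - 2
    · rw [hi2, hm2]
    · have := h1 (i + 1) (by omega) (by omega)
      rw [zero_mul, zero_add, Nat.add_sub_cancel, mul_eq_zero, or_iff_right hp] at this
      exact this
  · obtain ⟨u, hu⟩ : ∃ u, u = p / q := ⟨_, rfl⟩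
    have hp : p = u * q := by rw [hu]; field_simp
    have key : ∀ i, i + 1 < m → ζ i = (-u) ^ (i + 1) * conj (ζ (m - 1)) := by
      intro i
      induction i with
      | zero =>
        intro _
        rw [hp] at h0
        have : q * (ζ 0 + u * conj (ζ (m - 1))) = 0 := by linear_combination h0
        rw [mul_eq_zero, or_iff_right hq] at this
        rw [zero_add, pow_one]
        linear_combination this
      | succ i ih =>
        intro hi
        have h := h1 (i + 1) (by omega) hi
        rw [Nat.add_sub_cancel, ih (by omega), hp] at h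
        have : q * (ζ (i + 1) + u * ((-u) ^ (i + 1) * conj (ζ (m - 1)))) = 0 := by
          linear_combination h
        rw [mul_eq_zero, or_iff_right hq] at this
        rw [pow_succ]
        linear_combination this
    have hl : ζ (m - 1) = 0 := by
      have e : q ^ (m - 1) * (ζ (m - 1) * (1 + ∑ j ∈ Ico 1 m, ((normSq u) ^ j : ℂ))) = 0 := by
        rw [← h2, mul_add, mul_one, mul_add, Finset.mul_sum, Finset.mul_sum]
        congr 1
        refine Finset.sum_congr rfl fun j hj => ?_
        rw [Finset.mem_Ico] at hj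
        rw [key (j - 1) (by omega), map_mul, conj_conj, map_pow, map_neg, Nat.sub_add_cancel hj.1,
          normSq_eq_conj_mul_self, hp, mul_pow, mul_pow]
        have e2 : q ^ (m - 1) = q ^ j * q ^ (m - 1 - j) := by rw [← pow_add]; congr 1; omega
        rw [e2, neg_pow (conj u)]
        have e3 : ((-1 : ℂ)) ^ j * (-1) ^ j = 1 := by rw [← mul_pow]; norm_num
        linear_combination (-(q ^ j * q ^ (m - 1 - j) * ζ (m - 1) * (conj u) ^ j * u ^ j)) * e3
      rw [mul_eq_zero, or_iff_right (pow_ne_zero _ hq), mul_eq_zero] at e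
      rcases e with h | h
      · exact h
      · exfalso
        have h3 : ((1 + ∑ j ∈ Ico 1 m, (normSq u) ^ j : ℝ) : ℂ) = 0 := by
          push_cast; exact h
        rw [ofReal_eq_zero] at h3
        have : 0 ≤ ∑ j ∈ Ico 1 m, (normSq u) ^ j :=
          Finset.sum_nonneg fun j _ => pow_nonneg (normSq_nonneg u) j
        linarith
    intro i hi
    by_cases hi1 : i = m - 1
    · rw [hi1, hl]
    · rw [key i (by omega), hl, map_zero, mul_zero]

end Pool.Agent.TorusBundle
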