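import Mathlib
import Pool.Agent.Lib.MP_1d980c_gt.Fam
import Pool.Agent.Lib.MP_1d980c_gt.Nondeg

set_option autoImplicit false
set_option linter.unusedSectionVars false
set_option linter.style.haveILetI false
open scoped Manifold ContDiff Matrix Matrix.Norms.Operator
open Complex Finset

namespace Pool.Agent.TorusBundle

/-- The functional `z_k = v_k + i v_{m+k}` on `ℝ^{2m}`. -/
def Zr (m k : ℕ) : Fin (2 * m) → ℂ := fun x => if x.val = k then 1 else if x.val = m + k then I else 0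

/-- The functional `conj z_k = v_k - i v_{m+k}` on `ℝ^{2m}`. -/
def Zb (m k : ℕ) : Fin (2 * m) → ℂ := fun x => if x.val = k then 1 else if x.val = m + k then -I else 0

/-- The degree of the `i`-th row. -/
def deg (m : ℕ) (i : Fin m) : ℕ := if i.val + 1 < m then 1 else m - 1

/-- The coefficients of the rows. -/
noncomputable def coef (m : ℕ) (i : Fin m) (j : ℕ) : Fin (2 * m) → ℂ :=
  if i.val + 1 < m then
    (if j = 0 then Zr m i.val else if i.val = 0 then Zb m (m - 1) else Zr m (i.val - 1))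
  else (if j = 0 then Zr m i.val else (-1) ^ j • Zb m (j - 1))

variable {m : ℕ}

/-- The family of complex coordinates on the fibres. -/
noncomputable def Lf (m : ℕ) (c : ℂ) (T₁ T₂ : Matrix (Fin (2 * m)) (Fin (2 * m)) ℂ) (w : ℂ) :
    Matrix (Fin m) (Fin (2 * m)) ℂ :=
  fun i => ∑ j ∈ range (deg m i + 1), coef m i j ᵥ* Fm c (deg m i) j T₁ T₂ w

lemma deg_ne_zero (hm : 2 ≤ m) (i : Fin m) : deg m i ≠ 0 := by
  unfold deg; split_ifs <;> omega

lemma Lf_add_one (c : ℂ) (T₁ T₂ : Matrix (Fin (2 * m)) (Fin (2 * m)) ℂ) (w : ℂ) :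
    Lf m c T₁ T₂ (w + 1) * NormedSpace.exp T₁ = Lf m c T₁ T₂ w := by
  funext i
  rw [Matrix.mul_apply_eq_vecMul]
  unfold Lf
  rw [Matrix.sum_vecMul]
  refine Finset.sum_congr rfl fun j _ => ?_
  rw [Matrix.vecMul_vecMul]
  exact congrArg (coef m i j ᵥ* ·) (Fm_add_one c (deg m i) j T₁ T₂ w)

lemma Lf_add_I (hm : 2 ≤ m) (c : ℂ) {T₁ T₂ : Matrix (Fin (2 * m)) (Fin (2 * m)) ℂ}
    (h : Commute T₁ T₂) (w : ℂ) :
    Lf m c T₁ T₂ (w + I) * NormedSpace.exp T₂ =
      Matrix.diagonal (fun i => Complex.exp (deg m i * (2 * Real.pi - 4 * Real.pi * I * w))) *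
        Lf m c T₁ T₂ w := by
  funext i
  rw [Matrix.mul_apply_eq_vecMul]
  ext x
  rw [Matrix.diagonal_mul]
  unfold Lf
  rw [Matrix.sum_vecMul, Finset.sum_apply, Finset.sum_apply, Finset.mul_sum]
  refine Finset.sum_congr rfl fun j hj => ?_
  rw [Finset.mem_range] at hj
  have h1 := Fm_add_I c (deg_ne_zero hm i) (show j ≤ deg m i by omega) h w
  rw [Matrix.vecMul_vecMul]
  refine (congrFun (congrArg (coef m i j ᵥ* ·) h1) x).trans ?_
  rw [Matrix.vecMul_smul]
  rfl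

section General

variable {𝔸 : Type*} [NormedRing 𝔸] [NormedAlgebra ℂ 𝔸] [CompleteSpace 𝔸]

lemma differentiable_pW (P : 𝔸) : Differentiable ℂ (fun w : ℂ => pW (w • (1 : 𝔸) + P)) :=
  (differentiable_th_line P).mul (differentiable_th_line P)

lemma differentiable_qW (c : ℂ) (P : 𝔸) :
    Differentiable ℂ (fun w : ℂ => qW c (w • (1 : 𝔸) + P)) := by
  unfold qW
  have h1 := differentiable_th_line (P + c • (1 : 𝔸))
  have h2 := differentiable_th_line (P - c • (1 : 𝔸))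
  have e1 : (fun w : ℂ => th (w • (1 : 𝔸) + P + c • (1 : 𝔸))) =
      fun w : ℂ => th (w • (1 : 𝔸) + (P + c • (1 : 𝔸))) := by
    funext w; rw [add_assoc]
  have e2 : (fun w : ℂ => th (w • (1 : 𝔸) + P - c • (1 : 𝔸))) =
      fun w : ℂ => th (w • (1 : 𝔸) + (P - c • (1 : 𝔸))) := by
    funext w; rw [add_sub_assoc]
  exact (e1 ▸ h1).mul (e2 ▸ h2)

lemma differentiable_exp_line (T : 𝔸) :
    Differentiable ℂ (fun w : ℂ => NormedSpace.exp (-(w • T))) := by
  intro w
  have h := (hasDerivAt_exp_smul_const (𝕂 := ℂ) (-T) w).differentiableAt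
  have e : (fun w : ℂ => NormedSpace.exp (-(w • T))) = fun w : ℂ => NormedSpace.exp (w • (-T)) := by
    funext w; rw [smul_neg]
  rw [e]; exact h

lemma differentiable_Fm (c : ℂ) (g j : ℕ) (T₁ T₂ : 𝔸) :
    Differentiable ℂ (fun w : ℂ => Fm c g j T₁ T₂ w) := by
  unfold Fm Wg
  exact (((differentiable_pW _).pow _).mul ((differentiable_qW c _).pow _)).mul
    (differentiable_exp_line T₁)

lemma continuous_pW : Continuous (pW : 𝔸 → 𝔸) := continuous_th.mul continuous_th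

lemma continuous_qW (c : ℂ) : Continuous (qW c : 𝔸 → 𝔸) :=
  (continuous_th.comp (continuous_id.add continuous_const)).mul
    (continuous_th.comp (continuous_id.sub continuous_const))

lemma continuous_exp' : Continuous (NormedSpace.exp : 𝔸 → 𝔸) :=
  letI : NormedAlgebra ℚ 𝔸 := NormedAlgebra.restrictScalars ℚ ℂ 𝔸
  NormedSpace.exp_continuous

lemma continuous_Fm (c : ℂ) (g j : ℕ) :
    Continuous (fun x : (𝔸 × 𝔸) × ℂ => Fm c g j x.1.1 x.1.2 x.2) := by
  unfold Fm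
  have hW : Continuous (fun x : (𝔸 × 𝔸) × ℂ => Wg g x.1.1 x.1.2 x.2) := by
    unfold Wg
    fun_prop
  exact (((continuous_pW.comp hW).pow _).mul (((continuous_qW c).comp hW).pow _)).mul
    (continuous_exp'.comp (by fun_prop))

lemma th_zero_case (w : ℂ) (z : ℂ) : th (w • (1 : 𝔸) + z • (1 : 𝔸)) = (th (w + z) : ℂ) • (1 : 𝔸) := by
  rw [← add_smul, th_smul_one]

lemma Fm_zero (c : ℂ) (g j : ℕ) (w : ℂ) :
    Fm c g j (0 : 𝔸) 0 w = (pW w ^ j * qW c w ^ (g - j) : ℂ) • (1 : 𝔸) := by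
  unfold Fm Wg pW qW
  have h1 : (th (w • (1 : 𝔸)) : 𝔸) = (th w : ℂ) • (1 : 𝔸) := th_smul_one w
  have h2 := th_zero_case (𝔸 := 𝔸) w c
  have h3 : th (w • (1 : 𝔸) - c • (1 : 𝔸)) = (th (w - c) : ℂ) • (1 : 𝔸) := by
    rw [← sub_smul, th_smul_one]
  simp only [smul_zero, sub_zero, add_zero, neg_zero, NormedSpace.exp_zero, mul_one, h1, h2, h3,
    smul_mul_smul_comm, smul_eq_mul, smul_pow, one_pow]

end General

end Pool.Agent.TorusBundle
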