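import Mathlib
import Pool.Agent.Lib.MP_1d980c_gt.FamL

set_option autoImplicit false
set_option linter.unusedSectionVars false
open scoped Manifold ContDiff Matrix Topology
open Complex Finset ComplexConjugate

namespace Pool.Agent.TorusBundle

variable {m : ℕ}

/-- A complex `m × 2m` matrix is nondegenerate if it is injective on real vectors. -/
def ND (L : Matrix (Fin m) (Fin (2 * m)) ℂ) : Prop :=
  ∀ v : Fin (2 * m) → ℝ, L *ᵥ (fun k => (v k : ℂ)) = 0 → v = 0

/-- The square matrix with rows those of `L` and their conjugates. -/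
noncomputable def Sf (L : Matrix (Fin m) (Fin (2 * m)) ℂ) : Matrix (Fin (2 * m)) (Fin (2 * m)) ℂ :=
  fun x => if h : x.val < m then L ⟨x.val, h⟩ else fun y => conj (L ⟨x.val - m, by omega⟩ y)

lemma conj_mulVec (L : Matrix (Fin m) (Fin (2 * m)) ℂ) (u : Fin (2 * m) → ℂ) (i : Fin m) :
    conj ((L *ᵥ u) i) = ∑ k, conj (L i k) * conj (u k) := by
  simp [Matrix.mulVec, dotProduct, map_sum, map_mul]

lemma ND_of_det {L : Matrix (Fin m) (Fin (2 * m)) ℂ} (h : (Sf L).det ≠ 0) : ND L := by
  intro v hv
  have h1 : Sf L *ᵥ (fun k => (v k : ℂ)) = 0 := by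
    funext x
    by_cases hx : x.val < m
    · have h2 := congrFun hv ⟨x.val, hx⟩
      simp only [Matrix.mulVec, dotProduct, Sf, hx, dif_pos] at h2 ⊢
      exact h2
    · have h2 := congrArg conj (congrFun hv ⟨x.val - m, by omega⟩)
      rw [conj_mulVec] at h2
      simp only [Matrix.mulVec, dotProduct, Sf, hx, dif_neg, not_false_iff]
      simpa using h2
  have h3 := Matrix.eq_zero_of_mulVec_eq_zero h h1
  funext k
  have := congrFun h3 k
  simpa using this

lemma det_of_ND {L : Matrix (Fin m) (Fin (2 * m)) ℂ} (h : ND L) : (Sf L).det ≠ 0 := by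
  intro hdet
  obtain ⟨u, hu0, hu⟩ := Matrix.exists_mulVec_eq_zero_iff.2 hdet
  have h1 : ∀ i, (∑ k, L i k * u k) = 0 := by
    intro i
    have h2 := congrFun hu ⟨i.val, by omega⟩
    simp only [Matrix.mulVec, dotProduct, Sf, i.isLt, dif_pos] at h2
    exact h2
  have h2 : ∀ i, (∑ k, L i k * conj (u k)) = 0 := by
    intro i
    have h2 := congrFun hu ⟨i.val + m, by omega⟩
    have hlt : ¬ (i.val + m < m) := by omega
    simp only [Matrix.mulVec, dotProduct, Sf, hlt, dif_neg, not_false_iff, Nat.add_sub_cancel] at h2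
    have h3 := congrArg conj h2
    rw [map_sum] at h3
    simp only [map_mul, conj_conj, Pi.zero_apply, map_zero] at h3
    exact h3
  have hre : (fun k => (u k).re) = 0 := by
    apply h
    funext i
    simp only [Matrix.mulVec, dotProduct, Pi.zero_apply]
    have : ∀ k, ((u k).re : ℂ) = (u k + conj (u k)) / 2 := fun k => Complex.re_eq_add_conj (u k)
    simp only [this]
    have e : ∑ k, L i k * ((u k + conj (u k)) / 2) = (∑ k, L i k * u k + ∑ k, L i k * conj (u k)) / 2 := by
      rw [← Finset.sum_add_distrib, Finset.sum_div]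
      exact Finset.sum_congr rfl fun k _ => by ring
    rw [e, h1, h2]; simp
  have him : (fun k => (u k).im) = 0 := by
    apply h
    funext i
    simp only [Matrix.mulVec, dotProduct, Pi.zero_apply]
    have : ∀ k, ((u k).im : ℂ) = (u k - conj (u k)) / (2 * I) := fun k => Complex.im_eq_sub_conj (u k)
    simp only [this]
    have e : ∑ k, L i k * ((u k - conj (u k)) / (2 * I)) =
        (∑ k, L i k * u k - ∑ k, L i k * conj (u k)) / (2 * I) := by
      rw [← Finset.sum_sub_distrib, Finset.sum_div]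
      exact Finset.sum_congr rfl fun k _ => by ring
    rw [e, h1, h2]; simp
  apply hu0
  funext k
  apply Complex.ext
  · exact congrFun hre k
  · exact congrFun him k

/-- The complex coordinates. -/
noncomputable def zeta (m : ℕ) (v : Fin (2 * m) → ℝ) (k : ℕ) : ℂ :=
  if h : k < m then (v ⟨k, by omega⟩ : ℂ) + I * v ⟨m + k, by omega⟩ else 0

lemma Zr_dot {k : ℕ} (hk : k < m) (v : Fin (2 * m) → ℝ) :
    ∑ x, Zr m k x * (v x : ℂ) = zeta m v k := by
  have e : ∀ x : Fin (2 * m), Zr m k x * (v x : ℂ) =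
      (if x = ⟨k, by omega⟩ then (v x : ℂ) else 0) + (if x = ⟨m + k, by omega⟩ then I * v x else 0) := by
    intro x
    unfold Zr
    by_cases h1 : x.val = k
    · have : x = ⟨k, by omega⟩ := Fin.ext h1
      have h3 : ¬ (x = ⟨m + k, by omega⟩) := by
        intro h; rw [h] at h1; simp at h1; omega
      rw [if_pos h1, if_pos this, if_neg h3, one_mul, add_zero]
    · have h2 : ¬ (x = ⟨k, by omega⟩) := fun h => h1 (by rw [h])
      rw [if_neg h1, if_neg h2, zero_add]
      by_cases h3 : x.val = m + k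
      · rw [if_pos h3, if_pos (Fin.ext h3)]
      · rw [if_neg h3, if_neg (fun h => h3 (by rw [h])), zero_mul]
  rw [Finset.sum_congr rfl fun x _ => e x, Finset.sum_add_distrib, Finset.sum_ite_eq' univ,
    Finset.sum_ite_eq' univ, if_pos (mem_univ _), if_pos (mem_univ _)]
  unfold zeta
  rw [dif_pos hk]

lemma Zb_dot {k : ℕ} (hk : k < m) (v : Fin (2 * m) → ℝ) :
    ∑ x, Zb m k x * (v x : ℂ) = conj (zeta m v k) := by
  rw [← Zr_dot hk, map_sum]
  refine Finset.sum_congr rfl fun x _ => ?_
  rw [map_mul, conj_ofReal]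
  congr 1
  unfold Zb Zr
  split_ifs <;> simp

lemma eq_zero_of_zeta {v : Fin (2 * m) → ℝ} (h : ∀ k < m, zeta m v k = 0) : v = 0 := by
  funext x
  by_cases hx : x.val < m
  · have h1 := h x.val hx
    unfold zeta at h1
    rw [dif_pos hx] at h1
    have := congrArg Complex.re h1
    simpa using this
  · have h1 := h (x.val - m) (by omega)
    unfold zeta at h1
    rw [dif_pos (by omega)] at h1
    have := congrArg Complex.im h1
    simp at this
    have e : (⟨m + (x.val - m), by omega⟩ : Fin (2 * m)) = x := Fin.ext (by simp; omega)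
    rw [e] at this
    simpa using this

open scoped Matrix.Norms.Operator in
lemma Lf_zero (c w : ℂ) (i : Fin m) (x : Fin (2 * m)) :
    Lf m c 0 0 w i x = ∑ j ∈ range (deg m i + 1),
      (pW w ^ j * qW c w ^ (deg m i - j) : ℂ) * coef m i j x := by
  unfold Lf
  rw [Finset.sum_apply]
  refine Finset.sum_congr rfl fun j _ => ?_
  have h := Fm_zero (𝔸 := Matrix (Fin (2 * m)) (Fin (2 * m)) ℂ) c (deg m i) j w
  refine (congrFun (congrArg (coef m i j ᵥ* ·) h) x).trans ?_
  rw [Matrix.vecMul_smul, Matrix.vecMul_one]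
  rfl

lemma ND_zero (hm : 2 ≤ m) {c w : ℂ} (h : pW w ≠ 0 ∨ qW c w ≠ 0) : ND (Lf m c 0 0 w) := by
  intro v hv
  apply eq_zero_of_zeta
  set p : ℂ := pW w with hp
  set q : ℂ := qW c w with hq
  have hrow : ∀ i : Fin m, ∑ j ∈ range (deg m i + 1),
      (p ^ j * q ^ (deg m i - j)) * (∑ x, coef m i j x * (v x : ℂ)) = 0 := by
    intro i
    have h1 := congrFun hv i
    simp only [Matrix.mulVec, dotProduct, Pi.zero_apply] at h1
    rw [← h1]
    simp only [Lf_zero, Finset.sum_mul]
    rw [Finset.sum_comm]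
    refine Finset.sum_congr rfl fun j _ => ?_
    rw [Finset.mul_sum]
    exact Finset.sum_congr rfl fun x _ => by ring
  refine nondeg hm h (zeta m v) ?_ ?_ ?_
  · have h1 := hrow ⟨0, by omega⟩
    have hd : deg m ⟨0, by omega⟩ = 1 := by unfold deg; rw [if_pos (by simp; omega)]
    rw [hd, Finset.sum_range_succ, Finset.sum_range_one] at h1
    have c0 : coef m ⟨0, by omega⟩ 0 = Zr m 0 := by
      unfold coef; rw [if_pos (by simp; omega), if_pos rfl]
    have c1 : coef m ⟨0, by omega⟩ 1 = Zb m (m - 1) := by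
      unfold coef; rw [if_pos (by simp; omega), if_neg (by norm_num), if_pos rfl]
    rw [c0, c1, Zr_dot (by omega), Zb_dot (by omega)] at h1
    simpa using h1
  · intro i hi1 hi2
    have h1 := hrow ⟨i, by omega⟩
    have hd : deg m ⟨i, by omega⟩ = 1 := by unfold deg; rw [if_pos (by simpa using hi2)]
    rw [hd, Finset.sum_range_succ, Finset.sum_range_one] at h1
    have c0 : coef m ⟨i, by omega⟩ 0 = Zr m i := by
      unfold coef; rw [if_pos (by simpa using hi2), if_pos rfl]
    have c1 : coef m ⟨i, by omega⟩ 1 = Zr m (i - 1) := by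
      unfold coef
      rw [if_pos (by simpa using hi2), if_neg (by norm_num), if_neg (by simp; omega)]
    rw [c0, c1, Zr_dot (by omega), Zr_dot (by omega)] at h1
    simpa using h1
  · have h1 := hrow ⟨m - 1, by omega⟩
    have hd : deg m ⟨m - 1, by omega⟩ = m - 1 := by
      unfold deg; rw [if_neg (by simp; omega)]
    rw [hd, Nat.sub_add_cancel (by omega), Finset.range_eq_Ico,
      Finset.sum_eq_sum_Ico_succ_bot (by omega)] at h1
    have c0 : coef m ⟨m - 1, by omega⟩ 0 = Zr m (m - 1) := by
      unfold coef; rw [if_neg (by simp; omega), if_pos rfl]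
    rw [c0, Zr_dot (by omega), pow_zero, one_mul, Nat.sub_zero] at h1
    rw [← h1]
    congr 1
    refine Finset.sum_congr rfl fun j hj => ?_
    rw [Finset.mem_Ico] at hj
    have cj : coef m ⟨m - 1, by omega⟩ j = (-1 : ℂ) ^ j • Zb m (j - 1) := by
      unfold coef
      rw [if_neg (by simp; omega), if_neg (by omega)]
      funext x
      simp [Pi.smul_apply]
    have e : ∑ x, coef m ⟨m - 1, by omega⟩ j x * (v x : ℂ) =
        (-1) ^ j * conj (zeta m v (j - 1)) := by
      rw [← Zb_dot (by omega), Finset.mul_sum, cj]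
      refine Finset.sum_congr rfl fun x _ => ?_
      rw [Pi.smul_apply, smul_eq_mul]; ring
    rw [e]; ring

end Pool.Agent.TorusBundle
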