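import Mathlib
import Pool.Agent.Lib.MP_1d980c_gt.Theta

set_option autoImplicit false
open scoped Manifold ContDiff Matrix Topology
open Complex Set Filter

namespace Pool.Agent.TorusBundle

/-- On `ℂ`, `th` is the Jacobi theta function with `τ = i`. -/
theorem th_eq_jacobi (w : ℂ) : th w = jacobiTheta₂ w I := by
  unfold th jacobiTheta₂ jacobiTheta₂_term
  refine tsum_congr fun n => ?_
  rw [← Complex.exp_eq_exp_ℂ, Complex.ofReal_exp, smul_eq_mul, smul_eq_mul, ← Complex.exp_add]
  congr 1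
  push_cast
  linear_combination (Real.pi * (n : ℂ) ^ 2) * (-Complex.I_sq)

theorem differentiable_th_scalar : Differentiable ℂ (fun w : ℂ => th w) := by
  have h : (fun w : ℂ => th w) = fun w => jacobiTheta₂ w I := funext th_eq_jacobi
  rw [h]
  intro w
  exact differentiableAt_jacobiTheta₂_fst w (by simp)

theorem th_zero_ne : th (0 : ℂ) ≠ 0 := by
  have hterm : ∀ n : ℤ, jacobiTheta₂_term n 0 I = ((Real.exp (-Real.pi * (n : ℝ) ^ 2) : ℝ) : ℂ) := by
    intro n
    unfold jacobiTheta₂_term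
    rw [Complex.ofReal_exp]
    congr 1
    push_cast
    linear_combination (Real.pi * (n : ℂ) ^ 2) * (Complex.I_sq)
  have hI : 0 < (I : ℂ).im := by simp
  have hsum : Summable fun n : ℤ => jacobiTheta₂_term n 0 I :=
    (hasSum_jacobiTheta₂_term 0 hI).summable
  have hsumR : Summable fun n : ℤ => Real.exp (-Real.pi * (n : ℝ) ^ 2) := by
    have h2 : Summable fun n : ℤ => ((Real.exp (-Real.pi * (n : ℝ) ^ 2) : ℝ) : ℂ) := by
      refine hsum.congr fun n => ?_
      exact (hterm n)
    exact Complex.summable_ofReal.mp h2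
  have hpos : 0 < ∑' n : ℤ, Real.exp (-Real.pi * (n : ℝ) ^ 2) :=
    hsumR.tsum_pos (fun n => (Real.exp_pos _).le) 0 (Real.exp_pos _)
  have heq : th (0 : ℂ) = ((∑' n : ℤ, Real.exp (-Real.pi * (n : ℝ) ^ 2) : ℝ) : ℂ) := by
    rw [th_eq_jacobi, jacobiTheta₂, Complex.ofReal_tsum]
    exact tsum_congr hterm
  rw [heq]
  exact_mod_cast hpos.ne'

theorem countable_zeros_th : {w : ℂ | th w = 0}.Countable := by
  have han : AnalyticOnNhd ℂ (fun w : ℂ => th w) univ :=
    differentiable_th_scalar.differentiableOn.analyticOnNhd isOpen_univ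
  rcases han.eqOn_zero_or_eventually_ne_zero_of_preconnected isPreconnected_univ with h | h
  · exact absurd (h (mem_univ 0)) th_zero_ne
  · apply (HereditarilyLindelofSpace.isLindelof _).countable_of_isDiscrete
    have h2 : IsDiscrete ({w : ℂ | th w = 0} ∩ univ) := by
      apply isDiscrete_of_codiscreteWithin
      exact h
    rwa [inter_univ] at h2

/-- The products `th w * th w` and `th (w + c) * th (w - c)` have no common zero for a suitable
shift `c`. -/
theorem exists_shift : ∃ c : ℂ, ∀ w : ℂ, th w * th w = 0 → th (w + c) * th (w - c) = (0:ℂ) →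
    False := by
  have hZ := countable_zeros_th
  set Z : Set ℂ := {w : ℂ | th w = 0} with hZdef
  have hbad : ((fun p : ℂ × ℂ => p.1 - p.2) '' (Z ×ˢ Z)).Countable := (hZ.prod hZ).image _
  obtain ⟨c, hc⟩ : ∃ c : ℂ, c ∉ ((fun p : ℂ × ℂ => p.1 - p.2) '' (Z ×ˢ Z)) := by
    by_contra hcon
    push Not at hcon
    have huniv : ((fun p : ℂ × ℂ => p.1 - p.2) '' (Z ×ˢ Z)) = univ := eq_univ_of_forall hcon
    rw [huniv] at hbad
    exact not_countable_complex hbad
  refine ⟨c, fun w h1 h2 => ?_⟩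
  have hw : w ∈ Z := by
    have := mul_self_eq_zero.mp h1
    exact this
  rcases mul_eq_zero.mp h2 with h3 | h3
  · exact hc ⟨(w + c, w), ⟨h3, hw⟩, by simp⟩
  · exact hc ⟨(w, w - c), ⟨hw, h3⟩, by simp⟩

end Pool.Agent.TorusBundle
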