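import Mathlib
import Pool.Agent.Lib.MP_1d980c_gt.ND
import Pool.Agent.Lib.MP_1d980c_gt.Shift

set_option autoImplicit false
set_option linter.unusedSectionVars false
open scoped Manifold ContDiff Matrix Topology
open Complex Finset ComplexConjugate Filter

namespace Pool.Agent.TorusBundle

variable {m : ℕ}

section Norms

open scoped Matrix.Norms.Operator

lemma continuous_Lf (c : ℂ) (i : Fin m) (x : Fin (2 * m)) :
    Continuous (fun z : (Matrix (Fin (2 * m)) (Fin (2 * m)) ℂ × Matrix (Fin (2 * m)) (Fin (2 * m)) ℂ) × ℂ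
      => Lf m c z.1.1 z.1.2 z.2 i x) := by
  unfold Lf
  simp only [Finset.sum_apply]
  refine continuous_finsetSum _ fun j _ => ?_
  let φ : Matrix (Fin (2 * m)) (Fin (2 * m)) ℂ →ₗ[ℂ] ℂ :=
    { toFun := fun M => (coef m i j ᵥ* M) x
      map_add' := fun M N => by rw [Matrix.vecMul_add]; rfl
      map_smul' := fun a M => by rw [Matrix.vecMul_smul]; rfl }
  have hφ : Continuous φ := φ.continuous_of_finiteDimensional
  exact hφ.comp (continuous_Fm c (deg m i) j)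

lemma differentiable_Lf (c : ℂ) (T₁ T₂ : Matrix (Fin (2 * m)) (Fin (2 * m)) ℂ) (i : Fin m)
    (x : Fin (2 * m)) : Differentiable ℂ (fun w : ℂ => Lf m c T₁ T₂ w i x) := by
  unfold Lf
  simp only [Finset.sum_apply]
  refine Differentiable.fun_sum fun j _ => ?_
  let φ : Matrix (Fin (2 * m)) (Fin (2 * m)) ℂ →ₗ[ℂ] ℂ :=
    { toFun := fun M => (coef m i j ᵥ* M) x
      map_add' := fun M N => by rw [Matrix.vecMul_add]; rfl
      map_smul' := fun a M => by rw [Matrix.vecMul_smul]; rfl }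
  exact φ.toContinuousLinearMap.differentiable.comp (differentiable_Fm c (deg m i) j T₁ T₂)

end Norms

lemma continuous_Sf_det (c : ℂ) :
    Continuous (fun z : (Matrix (Fin (2 * m)) (Fin (2 * m)) ℂ × Matrix (Fin (2 * m)) (Fin (2 * m)) ℂ) × ℂ
      => (Sf (Lf m c z.1.1 z.1.2 z.2)).det) := by
  refine Continuous.matrix_det (continuous_matrix fun x y => ?_)
  unfold Sf
  by_cases hx : x.val < m
  · simp only [hx, dif_pos]
    exact continuous_Lf c ⟨x.val, hx⟩ y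
  · simp only [hx, dif_neg, not_false_iff]
    exact Complex.continuous_conj.comp (continuous_Lf c ⟨x.val - m, by omega⟩ y)

/-- The unit square. -/
def KK : Set ℂ := Set.Icc (0 : ℝ) 1 ×ℂ Set.Icc (0 : ℝ) 1

lemma eventually_ND (hm : 2 ≤ m) {c : ℂ} (hc : ∀ w : ℂ, pW w ≠ 0 ∨ qW c w ≠ 0) :
    ∀ᶠ T : Matrix (Fin (2 * m)) (Fin (2 * m)) ℂ × Matrix (Fin (2 * m)) (Fin (2 * m)) ℂ in 𝓝 (0, 0),
      ∀ w ∈ KK, ND (Lf m c T.1 T.2 w) := by
  have hK : IsCompact KK := isCompact_Icc.reProdIm isCompact_Icc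
  have h := hK.eventually_forall_of_forall_eventually (x₀ := ((0, 0) :
    Matrix (Fin (2 * m)) (Fin (2 * m)) ℂ × Matrix (Fin (2 * m)) (Fin (2 * m)) ℂ))
    (P := fun T w => (Sf (Lf m c T.1 T.2 w)).det ≠ 0) (fun w _ => by
      refine (continuous_Sf_det c).continuousAt.eventually_ne ?_
      exact det_of_ND (ND_zero hm (hc w)))
  exact h.mono fun T hT w hw => ND_of_det (hT w hw)

lemma ND_mul_real {L : Matrix (Fin m) (Fin (2 * m)) ℂ} (h : ND L)
    {A : Matrix (Fin (2 * m)) (Fin (2 * m)) ℝ} (hA : IsUnit A) :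
    ND (L * A.map Complex.ofReal) := by
  intro v hv
  have e : (L * A.map Complex.ofReal) *ᵥ (fun k => (v k : ℂ)) =
      L *ᵥ (fun k => ((A *ᵥ v) k : ℂ)) := by
    rw [← Matrix.mulVec_mulVec]
    congr 1
    funext k
    simp [Matrix.mulVec, dotProduct]
  rw [e] at hv
  have h1 := h _ hv
  have h2 := (Matrix.mulVec_injective_iff_isUnit.2 hA)
  exact h2 (by rw [h1, Matrix.mulVec_zero])

lemma ND_diagonal {L : Matrix (Fin m) (Fin (2 * m)) ℂ} (h : ND L) {d : Fin m → ℂ}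
    (hd : ∀ i, d i ≠ 0) : ND (Matrix.diagonal d * L) := by
  intro v hv
  apply h
  rw [← Matrix.mulVec_mulVec] at hv
  funext i
  have := congrFun hv i
  rw [Matrix.mulVec_diagonal, Pi.zero_apply, mul_eq_zero, or_iff_right (hd i)] at this
  exact this

lemma map_exp_real {n : ℕ} (N : Matrix (Fin n) (Fin n) ℝ) :
    (NormedSpace.exp N).map Complex.ofReal = NormedSpace.exp (N.map Complex.ofReal) := by
  open scoped Matrix.Norms.Operator in
  exact NormedSpace.map_exp (Complex.ofRealHom.mapMatrix :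
    Matrix (Fin n) (Fin n) ℝ →+* Matrix (Fin n) (Fin n) ℂ)
    (Continuous.matrix_map continuous_id Complex.continuous_ofReal) N

lemma map_mul_inv {n : ℕ} {A : Matrix (Fin n) (Fin n) ℝ} (hA : IsUnit A) :
    A.map Complex.ofReal * (A⁻¹).map Complex.ofReal = 1 := by
  have h := Matrix.mul_nonsing_inv A ((Matrix.isUnit_iff_isUnit_det A).1 hA)
  have h2 : (A * A⁻¹).map Complex.ofReal = (1 : Matrix (Fin n) (Fin n) ℝ).map Complex.ofReal :=
    congrArg (fun M => Matrix.map M Complex.ofReal) h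
  rw [Matrix.map_one _ (by simp) (by simp)] at h2
  rw [← h2]
  exact (Matrix.map_mul (f := Complex.ofRealHom)).symm

lemma isUnit_inv {n : ℕ} {A : Matrix (Fin n) (Fin n) ℝ} (hA : IsUnit A) : IsUnit A⁻¹ := by
  rw [Matrix.isUnit_iff_isUnit_det] at hA ⊢
  exact Matrix.isUnit_nonsing_inv_det A hA

section Period

variable {c : ℂ} {N₁ N₂ : Matrix (Fin (2 * m)) (Fin (2 * m)) ℝ}

/-- The family for real matrices. -/
noncomputable def Lr (m : ℕ) (c : ℂ) (N₁ N₂ : Matrix (Fin (2 * m)) (Fin (2 * m)) ℝ) (w : ℂ) :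
    Matrix (Fin m) (Fin (2 * m)) ℂ :=
  Lf m c (N₁.map Complex.ofReal) (N₂.map Complex.ofReal) w

/-- The automorphy factors. -/
noncomputable def ee (m : ℕ) (w : ℂ) (i : Fin m) : ℂ :=
  Complex.exp (deg m i * (2 * Real.pi - 4 * Real.pi * I * w))

lemma ee_ne (w : ℂ) (i : Fin m) : ee m w i ≠ 0 := Complex.exp_ne_zero _

lemma Lr_add_one (w : ℂ) :
    Lr m c N₁ N₂ (w + 1) * (NormedSpace.exp N₁).map Complex.ofReal = Lr m c N₁ N₂ w := by
  rw [map_exp_real]; exact Lf_add_one c _ _ w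

lemma Lr_add_I (hm : 2 ≤ m) (h : N₁ * N₂ = N₂ * N₁) (w : ℂ) :
    Lr m c N₁ N₂ (w + I) * (NormedSpace.exp N₂).map Complex.ofReal =
      Matrix.diagonal (ee m w) * Lr m c N₁ N₂ w := by
  rw [map_exp_real]
  refine Lf_add_I hm c ?_ w
  show N₁.map Complex.ofReal * N₂.map Complex.ofReal = N₂.map Complex.ofReal * N₁.map Complex.ofReal
  have e1 : (N₁ * N₂).map Complex.ofReal = N₁.map Complex.ofReal * N₂.map Complex.ofReal :=
    Matrix.map_mul (f := Complex.ofRealHom)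
  have e2 : (N₂ * N₁).map Complex.ofReal = N₂.map Complex.ofReal * N₁.map Complex.ofReal :=
    Matrix.map_mul (f := Complex.ofRealHom)
  rw [← e1, ← e2, h]

lemma ND_add_one (w : ℂ) : ND (Lr m c N₁ N₂ (w + 1)) ↔ ND (Lr m c N₁ N₂ w) := by
  have hU := Matrix.isUnit_exp N₁
  constructor
  · intro h
    rw [← Lr_add_one]
    exact ND_mul_real h hU
  · intro h
    have e : Lr m c N₁ N₂ (w + 1) = Lr m c N₁ N₂ w * ((NormedSpace.exp N₁)⁻¹).map Complex.ofReal := by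
      rw [← Lr_add_one w, Matrix.mul_assoc, map_mul_inv hU, Matrix.mul_one]
    rw [e]
    exact ND_mul_real h (isUnit_inv hU)

lemma ND_add_I (hm : 2 ≤ m) (hN : N₁ * N₂ = N₂ * N₁) (w : ℂ) :
    ND (Lr m c N₁ N₂ (w + I)) ↔ ND (Lr m c N₁ N₂ w) := by
  have hU := Matrix.isUnit_exp N₂
  constructor
  · intro h
    have e : Lr m c N₁ N₂ w = Matrix.diagonal (fun i => (ee m w i)⁻¹) *
        (Lr m c N₁ N₂ (w + I) * (NormedSpace.exp N₂).map Complex.ofReal) := by
      rw [Lr_add_I hm hN, ← Matrix.mul_assoc, Matrix.diagonal_mul_diagonal]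
      simp only [inv_mul_cancel₀ (ee_ne w _)]
      rw [Matrix.diagonal_one, Matrix.one_mul]
    rw [e]
    exact ND_diagonal (ND_mul_real h hU) fun i => inv_ne_zero (ee_ne w i)
  · intro h
    have e : Lr m c N₁ N₂ (w + I) = Matrix.diagonal (ee m w) * Lr m c N₁ N₂ w *
        ((NormedSpace.exp N₂)⁻¹).map Complex.ofReal := by
      rw [← Lr_add_I hm hN, Matrix.mul_assoc, map_mul_inv hU, Matrix.mul_one]
    rw [e]
    exact ND_mul_real (ND_diagonal h (ee_ne w)) (isUnit_inv hU)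

lemma ND_add_int (n : ℤ) : ∀ w : ℂ, ND (Lr m c N₁ N₂ (w + n)) ↔ ND (Lr m c N₁ N₂ w) := by
  induction n with
  | zero => intro w; simp
  | succ k ih =>
    intro w
    rw [← ih w, ← ND_add_one (w + (k : ℤ))]
    push_cast
    rw [add_assoc]
  | pred k ih =>
    intro w
    rw [← ih w, ← ND_add_one (w + ((-(k : ℤ) - 1 : ℤ) : ℂ))]
    push_cast
    rw [show w + (-(k : ℂ) - 1) + 1 = w + -(k : ℂ) by ring]

lemma ND_add_int_I (hm : 2 ≤ m) (hN : N₁ * N₂ = N₂ * N₁) (n : ℤ) :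
    ∀ w : ℂ, ND (Lr m c N₁ N₂ (w + n * I)) ↔ ND (Lr m c N₁ N₂ w) := by
  induction n with
  | zero => intro w; simp
  | succ k ih =>
    intro w
    rw [← ih w, ← ND_add_I hm hN (w + (k : ℤ) * I)]
    push_cast
    rw [show w + ((k : ℂ) + 1) * I = w + k * I + I by ring]
  | pred k ih =>
    intro w
    rw [← ih w, ← ND_add_I hm hN (w + ((-(k : ℤ) - 1 : ℤ) : ℂ) * I)]
    push_cast
    rw [show w + (-(k : ℂ) - 1) * I + I = w + -(k : ℂ) * I by ring]

lemma ND_all (hm : 2 ≤ m) (hN : N₁ * N₂ = N₂ * N₁) (h : ∀ w ∈ KK, ND (Lr m c N₁ N₂ w)) (w : ℂ) :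
    ND (Lr m c N₁ N₂ w) := by
  have hw : w = (⟨Int.fract w.re, Int.fract w.im⟩ : ℂ) + (⌊w.re⌋ : ℤ) + (⌊w.im⌋ : ℤ) * I := by
    apply Complex.ext <;> simp
  rw [hw, ND_add_int_I hm hN, ND_add_int]
  apply h
  unfold KK
  rw [Complex.mem_reProdIm]
  exact ⟨⟨Int.fract_nonneg _, (Int.fract_lt_one _).le⟩, ⟨Int.fract_nonneg _, (Int.fract_lt_one _).le⟩⟩

lemma Lr_add_nat (k : ℕ) (w : ℂ) :
    Lr m c N₁ N₂ (w + k) * ((NormedSpace.exp N₁) ^ k).map Complex.ofReal = Lr m c N₁ N₂ w := by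
  induction k with
  | zero => simp [Matrix.map_one]
  | succ k ih =>
    have e : ((NormedSpace.exp N₁) ^ (k + 1)).map Complex.ofReal =
        (NormedSpace.exp N₁).map Complex.ofReal * ((NormedSpace.exp N₁) ^ k).map Complex.ofReal := by
      rw [pow_succ']; exact Matrix.map_mul (f := Complex.ofRealHom)
    rw [e, ← Matrix.mul_assoc]
    push_cast
    rw [← add_assoc, Lr_add_one, ih]

lemma Lr_add_nat_I (hm : 2 ≤ m) (hN : N₁ * N₂ = N₂ * N₁) (k : ℕ) (w : ℂ) :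
    Lr m c N₁ N₂ (w + k * I) * ((NormedSpace.exp N₂) ^ k).map Complex.ofReal =
      Matrix.diagonal (fun i => ∏ l ∈ range k, ee m (w + l * I) i) * Lr m c N₁ N₂ w := by
  induction k with
  | zero => simp [Matrix.map_one]
  | succ k ih =>
    have e : ((NormedSpace.exp N₂) ^ (k + 1)).map Complex.ofReal =
        (NormedSpace.exp N₂).map Complex.ofReal * ((NormedSpace.exp N₂) ^ k).map Complex.ofReal := by
      rw [pow_succ']; exact Matrix.map_mul (f := Complex.ofRealHom)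
    rw [e, ← Matrix.mul_assoc]
    push_cast
    rw [show w + ((k : ℂ) + 1) * I = w + k * I + I by ring, Lr_add_I hm hN, Matrix.mul_assoc, ih,
      ← Matrix.mul_assoc, Matrix.diagonal_mul_diagonal]
    congr 2
    funext i
    rw [Finset.prod_range_succ, mul_comm]

end Period

theorem exists_L (m : ℕ) (hm : 2 ≤ m) (N₁ N₂ : Matrix (Fin (2 * m)) (Fin (2 * m)) ℝ)
    (hN : N₁ * N₂ = N₂ * N₁) :
    ∃ (L : ℂ → Matrix (Fin m) (Fin (2 * m)) ℂ) (e : ℂ → Fin m → ℂ),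
      (∀ i j, Differentiable ℂ (fun w => L w i j)) ∧ (∀ i, Differentiable ℂ (fun w => e w i)) ∧
      (∀ w i, e w i ≠ 0) ∧
      (∀ w, L (w + 1) * (NormedSpace.exp N₁).map Complex.ofReal = L w) ∧
      (∀ w, L (w + I) * (NormedSpace.exp N₂).map Complex.ofReal = Matrix.diagonal (e w) * L w) ∧
      ∀ w (v : Fin (2 * m) → ℝ), L w *ᵥ (fun k => (v k : ℂ)) = 0 → v = 0 := by
  obtain ⟨c, hc⟩ := exists_shift
  have hc' : ∀ w : ℂ, pW w ≠ 0 ∨ qW c w ≠ 0 := by
    intro w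
    by_contra h
    push Not at h
    refine hc w h.1 ?_
    have := h.2
    unfold qW at this
    simpa using this
  have hev := eventually_ND hm hc'
  have htend : Tendsto (fun n : ℕ =>
      ((((n : ℝ) + 1)⁻¹ • N₁).map Complex.ofReal, (((n : ℝ) + 1)⁻¹ • N₂).map Complex.ofReal)) atTop
      (𝓝 ((0, 0) : Matrix (Fin (2 * m)) (Fin (2 * m)) ℂ × Matrix (Fin (2 * m)) (Fin (2 * m)) ℂ)) := by
    have h0 : Tendsto (fun n : ℕ => ((n : ℝ) + 1)⁻¹) atTop (𝓝 0) := by
      have := tendsto_one_div_add_atTop_nhds_zero_nat (𝕜 := ℝ)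
      simpa [one_div] using this
    have h1 : ∀ N : Matrix (Fin (2 * m)) (Fin (2 * m)) ℝ,
        Tendsto (fun n : ℕ => (((n : ℝ) + 1)⁻¹ • N).map Complex.ofReal) atTop
        (𝓝 (0 : Matrix (Fin (2 * m)) (Fin (2 * m)) ℂ)) := by
      intro N
      have h2 : Continuous (fun t : ℝ => (t • N).map Complex.ofReal) :=
        Continuous.matrix_map (by fun_prop) Complex.continuous_ofReal
      have h3 := (h2.tendsto 0).comp h0
      have h4 : ((0 : ℝ) • N).map Complex.ofReal = 0 := by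
        rw [zero_smul]; exact Matrix.map_zero _ (by simp)
      rw [h4] at h3
      exact h3
    exact (h1 N₁).prodMk_nhds (h1 N₂)
  obtain ⟨n, hn⟩ := (htend.eventually hev).exists
  obtain ⟨N₁', hN₁'⟩ : ∃ X, X = ((n : ℝ) + 1)⁻¹ • N₁ := ⟨_, rfl⟩
  obtain ⟨N₂', hN₂'⟩ : ∃ X, X = ((n : ℝ) + 1)⁻¹ • N₂ := ⟨_, rfl⟩
  have hn0 : ((n : ℝ) + 1) ≠ 0 := by positivity
  have hcomm : N₁' * N₂' = N₂' * N₁' := by
    rw [hN₁', hN₂', smul_mul_smul_comm, smul_mul_smul_comm, hN]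
  rw [← hN₁', ← hN₂'] at hn
  have hall : ∀ w, ND (Lr m c N₁' N₂' w) := ND_all hm hcomm hn
  have hE : ∀ {N N' : Matrix (Fin (2 * m)) (Fin (2 * m)) ℝ}, N' = ((n : ℝ) + 1)⁻¹ • N →
      (NormedSpace.exp N') ^ (n + 1) = NormedSpace.exp N := by
    intro N N' h
    rw [← Matrix.exp_nsmul, h, ← Nat.cast_smul_eq_nsmul ℝ, smul_smul]
    push_cast
    rw [mul_inv_cancel₀ hn0, one_smul]
  refine ⟨fun w => Lr m c N₁' N₂' (((n + 1 : ℕ) : ℂ) * w),
    fun w i => ∏ l ∈ range (n + 1), ee m (((n + 1 : ℕ) : ℂ) * w + l * I) i, ?_, ?_, ?_, ?_, ?_, ?_⟩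
  · intro i j
    exact (differentiable_Lf c _ _ i j).comp (by fun_prop)
  · intro i
    refine Differentiable.fun_finsetProd fun l _ => ?_
    unfold ee
    fun_prop
  · intro w i
    exact Finset.prod_ne_zero_iff.2 fun l _ => ee_ne _ _
  · intro w
    have h := Lr_add_nat (m := m) (c := c) (N₁ := N₁') (N₂ := N₂') (n + 1) (((n + 1 : ℕ) : ℂ) * w)
    rw [hE hN₁'] at h
    simp only
    rw [mul_add, mul_one]
    exact h
  · intro w
    have h := Lr_add_nat_I (c := c) hm hcomm (n + 1) (((n + 1 : ℕ) : ℂ) * w)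
    rw [hE hN₂'] at h
    simp only
    rw [mul_add]
    exact h
  · intro w v hv
    exact hall _ v hv

end Pool.Agent.TorusBundle
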