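import Mathlib
import Pool.Agent.Lib.MP_1d980c_gt.ExistsL
import Pool.Agent.Lib.MP_1d980c_gt.BaseV

set_option autoImplicit false
set_option linter.unusedSectionVars false
open scoped Topology Matrix
open Complex Finset Filter

namespace Pool.Agent.TorusBundle

/-- `exists_L` with explicit automorphy factors. -/
theorem exists_L_exp (m : ℕ) (hm : 2 ≤ m) (N₁ N₂ : Matrix (Fin (2 * m)) (Fin (2 * m)) ℝ)
    (hN : N₁ * N₂ = N₂ * N₁) :
    ∃ (L : ℂ → Matrix (Fin m) (Fin (2 * m)) ℂ) (a d : Fin m → ℂ),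
      (∀ i j, Differentiable ℂ (fun w => L w i j)) ∧ (∀ i, a i ≠ 0) ∧
      (∀ w, L (w + 1) * (NormedSpace.exp N₁).map Complex.ofReal = L w) ∧
      (∀ w, L (w + I) * (NormedSpace.exp N₂).map Complex.ofReal =
        Matrix.diagonal (fun i => cexp (a i * w + d i)) * L w) ∧
      ∀ w (v : Fin (2 * m) → ℝ), L w *ᵥ (fun k => (v k : ℂ)) = 0 → v = 0 := by
  obtain ⟨c, hc⟩ := exists_shift
  have hc' : ∀ w : ℂ, pW w ≠ 0 ∨ qW c w ≠ 0 := by
    intro w
    by_contra h
    push Not at h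
    refine hc w h.1 ?_
    have := h.2
    unfold qW at this
    simpa using this
  have hev := eventually_ND hm hc'
  have htend : Tendsto (fun n : ℕ =>
      ((((n : ℝ) + 1)⁻¹ • N₁).map Complex.ofReal, (((n : ℝ) + 1)⁻¹ • N₂).map Complex.ofReal)) atTop
      (𝓝 ((0, 0) : Matrix (Fin (2 * m)) (Fin (2 * m)) ℂ × Matrix (Fin (2 * m)) (Fin (2 * m)) ℂ)) := by
    have h0 : Tendsto (fun n : ℕ => ((n : ℝ) + 1)⁻¹) atTop (𝓝 0) := by
      have := tendsto_one_div_add_atTop_nhds_zero_nat (𝕜 := ℝ)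
      simpa [one_div] using this
    have h1 : ∀ N : Matrix (Fin (2 * m)) (Fin (2 * m)) ℝ,
        Tendsto (fun n : ℕ => (((n : ℝ) + 1)⁻¹ • N).map Complex.ofReal) atTop
        (𝓝 (0 : Matrix (Fin (2 * m)) (Fin (2 * m)) ℂ)) := by
      intro N
      have h2 : Continuous (fun t : ℝ => (t • N).map Complex.ofReal) :=
        Continuous.matrix_map (by fun_prop) Complex.continuous_ofReal
      have h3 := (h2.tendsto 0).comp h0
      have h4 : ((0 : ℝ) • N).map Complex.ofReal = 0 := by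
        rw [zero_smul]; exact Matrix.map_zero _ (by simp)
      rw [h4] at h3
      exact h3
    exact (h1 N₁).prodMk_nhds (h1 N₂)
  obtain ⟨n, hn⟩ := (htend.eventually hev).exists
  obtain ⟨N₁', hN₁'⟩ : ∃ X, X = ((n : ℝ) + 1)⁻¹ • N₁ := ⟨_, rfl⟩
  obtain ⟨N₂', hN₂'⟩ : ∃ X, X = ((n : ℝ) + 1)⁻¹ • N₂ := ⟨_, rfl⟩
  have hn0 : ((n : ℝ) + 1) ≠ 0 := by positivity
  have hcomm : N₁' * N₂' = N₂' * N₁' := by
    rw [hN₁', hN₂', smul_mul_smul_comm, smul_mul_smul_comm, hN]
  rw [← hN₁', ← hN₂'] at hn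
  have hall : ∀ w, ND (Lr m c N₁' N₂' w) := ND_all hm hcomm hn
  have hE : ∀ {N N' : Matrix (Fin (2 * m)) (Fin (2 * m)) ℝ}, N' = ((n : ℝ) + 1)⁻¹ • N →
      (NormedSpace.exp N') ^ (n + 1) = NormedSpace.exp N := by
    intro N N' h
    rw [← Matrix.exp_nsmul, h, ← Nat.cast_smul_eq_nsmul ℝ, smul_smul]
    push_cast
    rw [mul_inv_cancel₀ hn0, one_smul]
  refine ⟨fun w => Lr m c N₁' N₂' (((n + 1 : ℕ) : ℂ) * w),
    fun i => -4 * Real.pi * I * deg m i * ((n + 1 : ℕ) : ℂ) ^ 2,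
    fun i => ∑ l ∈ range (n + 1), (deg m i * (2 * Real.pi + 4 * Real.pi * l) : ℂ), ?_, ?_, ?_, ?_, ?_⟩
  · intro i j
    exact (differentiable_Lf c _ _ i j).comp (by fun_prop)
  · intro i
    have h1 : (deg m i : ℂ) ≠ 0 := by exact_mod_cast deg_ne_zero hm i
    have h2 : (((n + 1 : ℕ) : ℂ)) ≠ 0 := by exact_mod_cast Nat.succ_ne_zero n
    have h3 : (Real.pi : ℂ) ≠ 0 := by exact_mod_cast Real.pi_ne_zero
    have h4 := I_ne_zero
    simp [h1, h3]
    exact_mod_cast Nat.succ_ne_zero n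
  · intro w
    have h := Lr_add_nat (m := m) (c := c) (N₁ := N₁') (N₂ := N₂') (n + 1) (((n + 1 : ℕ) : ℂ) * w)
    rw [hE hN₁'] at h
    simp only
    rw [mul_add, mul_one]
    exact h
  · intro w
    have h := Lr_add_nat_I (c := c) hm hcomm (n + 1) (((n + 1 : ℕ) : ℂ) * w)
    rw [hE hN₂'] at h
    simp only
    rw [mul_add]
    refine h.trans ?_
    congr 2
    funext i
    unfold ee
    rw [← Complex.exp_sum]
    congr 1
    have e : ∀ l : ℕ, (deg m i : ℂ) * (2 * Real.pi - 4 * Real.pi * I * (((n + 1 : ℕ) : ℂ) * w + l * I)) =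
        -4 * Real.pi * I * deg m i * ((n + 1 : ℕ) : ℂ) * w + (deg m i * (2 * Real.pi + 4 * Real.pi * l) : ℂ) := by
      intro l
      linear_combination (-4 * (deg m i : ℂ) * Real.pi * l) * I_mul_I
    rw [Finset.sum_congr rfl fun l _ => e l, Finset.sum_add_distrib, Finset.sum_const, card_range,
      nsmul_eq_mul]
    push_cast
    ring
  · intro w v hv
    exact hall _ v hv

/-- The even base family: `ℂ^l` with signs. -/
theorem exists_even (l : ℕ) (hl : 2 ≤ l) (s t : Fin l → ℝ) (hs : ∀ i, s i = 1 ∨ s i = -1)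
    (ht : ∀ i, t i = 1 ∨ t i = -1) :
    Nonempty (BFam (Fin l → ℂ) (fun v i => s i * v i) (fun v i => t i * v i) (Fin l)) := by
  have hfr : Module.finrank ℝ (Fin l → ℂ) = 2 * l := by
    rw [Module.finrank_pi_fintype]
    simp [mul_comm]
  let b : Module.Basis (Fin (2 * l)) ℝ (Fin l → ℂ) := Module.finBasisOfFinrankEq ℝ _ hfr
  let Ψ := Algebra.leftMulMatrix b
  have hcont : Continuous Ψ := Ψ.toLinearMap.continuous_of_finiteDimensional
  -- logarithms of signs
  have hlog : ∀ s : Fin l → ℝ, (∀ i, s i = 1 ∨ s i = -1) → ∃ z : Fin l → ℂ,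
      NormedSpace.exp (Ψ z) = Ψ (fun i => (s i : ℂ)) := by
    intro s hs
    refine ⟨fun i => if s i = 1 then 0 else Real.pi * I, ?_⟩
    have h1 : NormedSpace.exp (fun i => if s i = 1 then 0 else Real.pi * I : Fin l → ℂ) =
        (fun i => (s i : ℂ)) := by
      funext i
      rw [Pi.coe_exp]
      show NormedSpace.exp (if s i = 1 then (0 : ℂ) else Real.pi * I) = (s i : ℂ)
      rw [← Complex.exp_eq_exp_ℂ]
      rcases hs i with h | h
      · rw [if_pos h, h]; simp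
      · rw [if_neg (by rw [h]; norm_num), h, Complex.exp_pi_mul_I]; simp
    rw [← h1]
    open scoped Matrix.Norms.Operator in
    exact (NormedSpace.map_exp Ψ hcont _).symm
  obtain ⟨z₁, hz₁⟩ := hlog s hs
  obtain ⟨z₂, hz₂⟩ := hlog t ht
  obtain ⟨L, a, d, hL, ha, hL1, hL2, hnd⟩ := exists_L_exp l hl (Ψ z₁) (Ψ z₂)
    ((map_mul Ψ z₁ z₂).symm.trans ((congrArg Ψ (mul_comm z₁ z₂)).trans (map_mul Ψ z₂ z₁)))
  have hmul : ∀ (s : Fin l → ℝ) (z v : Fin l → ℂ), NormedSpace.exp (Ψ z) = Ψ (fun i => (s i : ℂ)) →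
      (fun k => (((b.equivFun (fun i => s i * v i)) k : ℝ) : ℂ)) =
        (NormedSpace.exp (Ψ z)).map Complex.ofReal *ᵥ (fun k => ((b.equivFun v k : ℝ) : ℂ)) := by
    intro s z v h
    rw [h]
    have h2 : (b.equivFun (fun i => s i * v i)) = Ψ (fun i => (s i : ℂ)) *ᵥ b.equivFun v :=
      (Algebra.leftMulMatrix_mulVec_repr b (fun i => (s i : ℂ)) v).symm
    rw [h2]
    funext k
    simp [Matrix.mulVec, dotProduct]
  let Fl : ℂ → (Fin l → ℂ) →ₗ[ℝ] (Fin l → ℂ) := fun w =>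
    { toFun := fun v => L w *ᵥ (fun k => ((b.equivFun v k : ℝ) : ℂ))
      map_add' := fun v v' => by
        rw [← Matrix.mulVec_add]
        congr 1
        funext k
        simp
      map_smul' := fun x v => by
        rw [← Matrix.mulVec_smul]
        congr 1
        funext k
        simp }
  have hFl : ∀ w v, Fl w v = L w *ᵥ (fun k => ((b.equivFun v k : ℝ) : ℂ)) := fun _ _ => rfl
  refine ⟨⟨Fl, a, d, 1, 1, ?_, ?_, ha, ?_, ?_, isUnit_one, isUnit_one, ?_, ?_⟩⟩
  · intro v r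
    simp only [hFl, Matrix.mulVec, dotProduct]
    exact Differentiable.fun_sum fun k _ => (hL r k).mul_const _
  · intro w v h
    have h1 := hnd w (b.equivFun v) h
    simpa using h1
  · intro r q h
    exact Matrix.one_apply_ne (fun h' => h (by rw [h']))
  · intro r q h
    exact Matrix.one_apply_ne (fun h' => h (by rw [h']))
  · intro w v
    rw [Matrix.one_mulVec, hFl, hFl, hmul s z₁ v hz₁, Matrix.mulVec_mulVec, hL1]
  · intro w v
    have e : Gam a d 1 w = Matrix.diagonal (fun i => cexp (a i * w + d i)) := by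
      ext r q
      by_cases h : r = q
      · subst h; simp [Gam]
      · simp [Gam, Matrix.one_apply_ne h, Matrix.diagonal_apply_ne _ h]
    rw [e, hFl, hFl, hmul t z₂ v hz₂, Matrix.mulVec_mulVec, hL2, Matrix.mulVec_mulVec]

end Pool.Agent.TorusBundle
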