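import Mathlib

/-!
# Task S2: normal form of two commuting involutions of positive determinant
-/

set_option autoImplicit false
open scoped Matrix
open Complex

namespace Pool.Agent.TorusBundle

namespace NF

/-- the sign of a boolean -/
def sg (b : Bool) : ℝ := if b then -1 else 1

theorem sg_true : sg true = -1 := rfl
theorem sg_false : sg false = 1 := rfl

theorem sg_mul_self (b : Bool) : sg b * sg b = 1 := by
  cases b <;> simp [sg]

theorem sg_eq (b : Bool) : sg b = 1 ∨ sg b = -1 := by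
  cases b <;> simp [sg]

variable {n : ℕ} (E D : Matrix (Fin n) (Fin n) ℝ)

/-- joint eigenspaces -/
def JE (c : Bool × Bool) : Submodule ℝ (Fin n → ℝ) where
  carrier := {v | E *ᵥ v = sg c.1 • v ∧ D *ᵥ v = sg c.2 • v}
  add_mem' := by
    rintro a b ⟨h1, h2⟩ ⟨h3, h4⟩
    exact ⟨by rw [Matrix.mulVec_add, h1, h3, smul_add], by rw [Matrix.mulVec_add, h2, h4, smul_add]⟩
  zero_mem' := ⟨by simp, by simp⟩
  smul_mem' := by
    rintro r a ⟨h1, h2⟩
    exact ⟨by rw [Matrix.mulVec_smul, h1, smul_comm], by rw [Matrix.mulVec_smul, h2, smul_comm]⟩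

/-- the projections -/
noncomputable def pr (c : Bool × Bool) (v : Fin n → ℝ) : Fin n → ℝ :=
  (1 / 4 : ℝ) • (v + sg c.1 • (E *ᵥ v) + sg c.2 • (D *ᵥ v) + (sg c.1 * sg c.2) • (E *ᵥ (D *ᵥ v)))

variable {E D}

theorem pr_mem (hE : E * E = 1) (hD : D * D = 1) (hED : E * D = D * E) (c : Bool × Bool)
    (v : Fin n → ℝ) : pr E D c v ∈ JE E D c := by
  have hEE : ∀ u : Fin n → ℝ, E *ᵥ (E *ᵥ u) = u := fun u => by
    rw [Matrix.mulVec_mulVec, hE, Matrix.one_mulVec]
  have hDD : ∀ u : Fin n → ℝ, D *ᵥ (D *ᵥ u) = u := fun u => by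
    rw [Matrix.mulVec_mulVec, hD, Matrix.one_mulVec]
  have hDE : ∀ u : Fin n → ℝ, D *ᵥ (E *ᵥ u) = E *ᵥ (D *ᵥ u) := fun u => by
    rw [Matrix.mulVec_mulVec, Matrix.mulVec_mulVec, hED]
  have h1 := sg_mul_self c.1
  have h2 := sg_mul_self c.2
  constructor
  · unfold pr
    simp only [Matrix.mulVec_smul, Matrix.mulVec_add, hEE]
    ext i
    simp only [Pi.smul_apply, Pi.add_apply, smul_eq_mul]
    rcases sg_eq c.1 with h | h <;> rw [h] <;> ring
  · unfold pr
    simp only [Matrix.mulVec_smul, Matrix.mulVec_add, hDD, hDE]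
    ext i
    simp only [Pi.smul_apply, Pi.add_apply, smul_eq_mul]
    rcases sg_eq c.2 with h | h <;> rw [h] <;> ring

theorem sum_pr (v : Fin n → ℝ) : ∑ c, pr E D c v = v := by
  rw [Fintype.sum_prod_type]
  simp only [Fintype.sum_bool, pr, sg_true, sg_false]
  ext i
  simp only [Pi.smul_apply, Pi.add_apply, smul_eq_mul]
  ring

theorem pr_of_mem {c c' : Bool × Bool} {v : Fin n → ℝ} (hv : v ∈ JE E D c') :
    pr E D c v = if c = c' then v else 0 := by
  obtain ⟨h1, h2⟩ := hv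
  unfold pr
  rw [h2, Matrix.mulVec_smul, h1]
  obtain ⟨c1, c2⟩ := c
  obtain ⟨c1', c2'⟩ := c'
  ext i
  cases c1 <;> cases c2 <;> cases c1' <;> cases c2' <;>
    simp only [sg_true, sg_false, Pi.smul_apply, Pi.add_apply, smul_eq_mul, if_true, if_false,
      Prod.mk.injEq, reduceCtorEq, and_true, and_false, and_self, Pi.zero_apply] <;> ring

/-- the decomposition into joint eigenspaces -/
noncomputable def Phi0 (hE : E * E = 1) (hD : D * D = 1) (hED : E * D = D * E) :
    (Fin n → ℝ) ≃ₗ[ℝ] ((c : Bool × Bool) → JE E D c) where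
  toFun v := fun c => ⟨pr E D c v, pr_mem hE hD hED c v⟩
  map_add' u v := by
    ext c i
    simp only [pr, Matrix.mulVec_add, Pi.smul_apply, Pi.add_apply, smul_eq_mul, smul_add,
      Submodule.coe_add]
    ring
  map_smul' r v := by
    ext c i
    simp only [pr, Matrix.mulVec_smul, Pi.smul_apply, Pi.add_apply, smul_eq_mul,
      Submodule.coe_smul, RingHom.id_apply]
    ring
  invFun w := ∑ c, (w c : Fin n → ℝ)
  left_inv v := sum_pr v
  right_inv w := by
    funext c
    refine Subtype.ext ?_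
    show pr E D c (∑ c', (w c' : Fin n → ℝ)) = w c
    have h1 : pr E D c (∑ c', (w c' : Fin n → ℝ)) = ∑ c', pr E D c (w c' : Fin n → ℝ) := by
      have : ∀ s : Finset (Bool × Bool), pr E D c (∑ c' ∈ s, (w c' : Fin n → ℝ)) =
          ∑ c' ∈ s, pr E D c (w c' : Fin n → ℝ) := by
        intro s
        induction s using Finset.induction_on with
        | empty => simp [pr]
        | insert a s ha ih =>
          rw [Finset.sum_insert ha, Finset.sum_insert ha, ← ih]
          ext i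
          simp only [pr, Matrix.mulVec_add, Pi.smul_apply, Pi.add_apply, smul_eq_mul]
          ring
      exact this Finset.univ
    rw [h1]
    have h2 : ∀ c', pr E D c (w c' : Fin n → ℝ) = if c = c' then (w c' : Fin n → ℝ) else 0 :=
      fun c' => pr_of_mem (w c').2
    simp only [h2, Finset.sum_ite_eq, Finset.mem_univ, if_true]

theorem Phi0_E (hE : E * E = 1) (hD : D * D = 1) (hED : E * D = D * E) (v : Fin n → ℝ)
    (c : Bool × Bool) : Phi0 hE hD hED (E *ᵥ v) c = sg c.1 • Phi0 hE hD hED v c := by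
  have h : E *ᵥ (pr E D c v) = sg c.1 • pr E D c v := (pr_mem hE hD hED c v).1
  refine Subtype.ext ?_
  show pr E D c (E *ᵥ v) = sg c.1 • pr E D c v
  rw [← h]
  unfold pr
  simp only [Matrix.mulVec_smul, Matrix.mulVec_add, Matrix.mulVec_mulVec, hED]

theorem Phi0_D (hE : E * E = 1) (hD : D * D = 1) (hED : E * D = D * E) (v : Fin n → ℝ)
    (c : Bool × Bool) : Phi0 hE hD hED (D *ᵥ v) c = sg c.2 • Phi0 hE hD hED v c := by
  have h : D *ᵥ (pr E D c v) = sg c.2 • pr E D c v := (pr_mem hE hD hED c v).2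
  refine Subtype.ext ?_
  show pr E D c (D *ᵥ v) = sg c.2 • pr E D c v
  rw [← h]
  unfold pr
  simp only [Matrix.mulVec_smul, Matrix.mulVec_add, Matrix.mulVec_mulVec, ← hED]
  have : D * (E * D) = E * D * D := by rw [hED, Matrix.mul_assoc, ← hED]
  have h2 : D * (E * D) = E * (D * D) := by rw [← Matrix.mul_assoc, ← hED, Matrix.mul_assoc]
  simp only [h2, ← Matrix.mul_assoc]

/-- currying -/
def cur {l : Bool × Bool → ℕ} (K : Type) [AddCommMonoid K] [Module ℝ K] :
    ((c : Bool × Bool) → (Fin (l c) → K)) ≃ₗ[ℝ] ((Σ c : Bool × Bool, Fin (l c)) → K) where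
  toFun w := fun x => w x.1 x.2
  map_add' _ _ := rfl
  map_smul' _ _ := rfl
  invFun w := fun c i => w ⟨c, i⟩
  left_inv _ := rfl
  right_inv _ := rfl

/-- the determinant of a matrix acting diagonally in some coordinates -/
theorem det_eq_prod {X : Type} [Fintype X] [DecidableEq X] (A : Matrix (Fin n) (Fin n) ℝ)
    (Ψ : (Fin n → ℝ) ≃ₗ[ℝ] (X → ℝ)) (a : X → ℝ) (h : ∀ v x, Ψ (A *ᵥ v) x = a x * Ψ v x) :
    A.det = ∏ x, a x := by
  rw [← LinearMap.det_toLin', ← LinearMap.det_conj (Matrix.toLin' A) Ψ,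
    ← Matrix.det_diagonal, ← LinearMap.det_toLin']
  congr 1
  refine LinearMap.ext fun w => ?_
  ext x
  simp only [LinearMap.coe_comp, Function.comp_apply, LinearEquiv.coe_coe, Matrix.toLin'_apply]
  rw [h, LinearEquiv.apply_symm_apply, Matrix.mulVec_diagonal]

theorem even_of_pos {k : ℕ} (h : (0 : ℝ) < (-1) ^ k) : Even k := by
  rcases Nat.even_or_odd k with h1 | h1
  · exact h1
  · rw [h1.neg_one_pow] at h
    norm_num at h

theorem parity (hE : E * E = 1) (hD : D * D = 1) (hED : E * D = D * E) (hE' : 0 < E.det)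
    (hD' : 0 < D.det) (hn : Even n) :
    (∀ c, Even (Module.finrank ℝ (JE E D c))) ∨ (∀ c, Odd (Module.finrank ℝ (JE E D c))) := by
  classical
  set d : Bool × Bool → ℕ := fun c => Module.finrank ℝ (JE E D c) with hd
  set Ψ : (Fin n → ℝ) ≃ₗ[ℝ] ((Σ c : Bool × Bool, Fin (d c)) → ℝ) :=
    (Phi0 hE hD hED).trans ((LinearEquiv.piCongrRight
      (fun c => (Module.finBasis ℝ (JE E D c)).equivFun)).trans (cur ℝ)) with hΨ
  have hΨa : ∀ v x, Ψ v x = (Module.finBasis ℝ (JE E D x.1)).equivFun (Phi0 hE hD hED v x.1) x.2 :=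
    fun v x => rfl
  have hEΨ : ∀ v x, Ψ (E *ᵥ v) x = sg x.1.1 * Ψ v x := by
    intro v x
    rw [hΨa, hΨa, Phi0_E, map_smul]
    rfl
  have hDΨ : ∀ v x, Ψ (D *ᵥ v) x = sg x.1.2 * Ψ v x := by
    intro v x
    rw [hΨa, hΨa, Phi0_D, map_smul]
    rfl
  have h1 := det_eq_prod E Ψ _ hEΨ
  have h2 := det_eq_prod D Ψ _ hDΨ
  have h3 : n = ∑ c, d c := by
    have := Ψ.finrank_eq
    rw [Module.finrank_fintype_fun_eq_card, Module.finrank_fintype_fun_eq_card, Fintype.card_fin,
      Fintype.card_sigma] at this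
    simpa using this
  rw [Fintype.prod_sigma] at h1 h2
  simp only [Finset.prod_const, Finset.card_univ, Fintype.card_fin, Fintype.prod_prod_type,
    Fintype.prod_bool, sg_true, sg_false, one_pow, mul_one] at h1 h2
  rw [Fintype.sum_prod_type] at h3
  simp only [Fintype.sum_bool] at h3
  rw [h1, ← pow_add] at hE'
  rw [h2, ← pow_add] at hD'
  have e1 := even_of_pos hE'
  have e2 := even_of_pos hD'
  rw [h3] at hn
  rcases Nat.even_or_odd (d (true, true)) with h | h
  · left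
    have a1 : Even (d (true, false)) := (Nat.even_add.1 e1).1 h
    have a2 : Even (d (false, true)) := (Nat.even_add.1 e2).1 h
    have a3 : Even (d (false, false)) := by
      have := (Nat.even_add.1 hn).1 (h.add a1)
      exact (Nat.even_add.1 this).1 a2
    rintro ⟨c1, c2⟩
    cases c1 <;> cases c2 <;> assumption
  · right
    have h' := Nat.not_even_iff_odd.2 h
    have a1 : Odd (d (true, false)) := by
      rw [← Nat.not_even_iff_odd]
      exact fun hc => h' ((Nat.even_add.1 e1).2 hc)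
    have a2 : Odd (d (false, true)) := by
      rw [← Nat.not_even_iff_odd]
      exact fun hc => h' ((Nat.even_add.1 e2).2 hc)
    have a3 : Odd (d (false, false)) := by
      rw [← Nat.not_even_iff_odd]
      intro hc
      have h4 : Even (d (false, true) + d (false, false)) := by
        refine (Nat.even_add.1 hn).1 ?_
        exact h.add_odd a1
      exact (Nat.not_even_iff_odd.2 a2) ((Nat.even_add.1 h4).2 hc)
    rintro ⟨c1, c2⟩
    cases c1 <;> cases c2 <;> assumption

/-- splitting off the real coordinates -/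
def split4 {l : Bool × Bool → ℕ} :
    ((c : Bool × Bool) → (ℝ × (Fin (l c) → ℂ))) ≃ₗ[ℝ]
      ((ℝ × ℝ × ℝ × ℝ) × ((Σ c : Bool × Bool, Fin (l c)) → ℂ)) where
  toFun w := (((w (false, false)).1, (w (false, true)).1, (w (true, true)).1, (w (true, false)).1),
    fun x => (w x.1).2 x.2)
  map_add' _ _ := rfl
  map_smul' _ _ := rfl
  invFun p := fun c => ((match c with
    | (false, false) => p.1.1
    | (false, true) => p.1.2.1
    | (true, true) => p.1.2.2.1
    | (true, false) => p.1.2.2.2), fun i => p.2 ⟨c, i⟩)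
  left_inv w := by
    funext c
    obtain ⟨c1, c2⟩ := c
    cases c1 <;> cases c2 <;> rfl
  right_inv _ := rfl

end NF

open NF

theorem normal_form {n : ℕ} (E D : Matrix (Fin n) (Fin n) ℝ) (hE : E * E = 1) (hD : D * D = 1)
    (hED : E * D = D * E) (hE' : 0 < E.det) (hD' : 0 < D.det) (hn : Even n) :
    (∃ (l : ℕ) (s t : Fin l → ℝ) (φ : (Fin n → ℝ) ≃ₗ[ℝ] (Fin l → ℂ)),
      (∀ i, s i = 1 ∨ s i = -1) ∧ (∀ i, t i = 1 ∨ t i = -1) ∧
      (∀ v i, φ (E *ᵥ v) i = s i * φ v i) ∧ (∀ v i, φ (D *ᵥ v) i = t i * φ v i)) ∨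
    (∃ (l : ℕ) (s t : Fin l → ℝ) (φ : (Fin n → ℝ) ≃ₗ[ℝ] ((ℝ × ℝ × ℝ × ℝ) × (Fin l → ℂ))),
      (∀ i, s i = 1 ∨ s i = -1) ∧ (∀ i, t i = 1 ∨ t i = -1) ∧
      (∀ v, (φ (E *ᵥ v)).1 = ((φ v).1.1, (φ v).1.2.1, -(φ v).1.2.2.1, -(φ v).1.2.2.2)) ∧
      (∀ v, (φ (D *ᵥ v)).1 = ((φ v).1.1, -(φ v).1.2.1, -(φ v).1.2.2.1, (φ v).1.2.2.2)) ∧
      (∀ v i, (φ (E *ᵥ v)).2 i = s i * (φ v).2 i) ∧ (∀ v i, (φ (D *ᵥ v)).2 i = t i * (φ v).2 i)) := by
  classical
  have hC : ∀ l : ℕ, Module.finrank ℝ (Fin l → ℂ) = 2 * l := by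
    intro l
    rw [Module.finrank_pi_fintype]
    simp [Complex.finrank_real_complex, mul_comm]
  rcases parity hE hD hED hE' hD' hn with hp | hp
  · left
    choose l hl using hp
    have e : ∀ c, JE E D c ≃ₗ[ℝ] (Fin (l c) → ℂ) := fun c =>
      LinearEquiv.ofFinrankEq _ _ (by rw [hC, hl c]; ring)
    set X := (Σ c : Bool × Bool, Fin (l c)) with hX
    set r : X ≃ Fin (Fintype.card X) := Fintype.equivFin X with hr
    set φ : (Fin n → ℝ) ≃ₗ[ℝ] (Fin (Fintype.card X) → ℂ) :=
      (Phi0 hE hD hED).trans (((LinearEquiv.piCongrRight e).trans (cur ℂ)).trans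
        (LinearEquiv.funCongrLeft ℝ ℂ r.symm)) with hφ
    have hφa : ∀ v i, φ v i = e (r.symm i).1 (Phi0 hE hD hED v (r.symm i).1) (r.symm i).2 :=
      fun v i => rfl
    refine ⟨Fintype.card X, fun i => sg (r.symm i).1.1, fun i => sg (r.symm i).1.2, φ,
      fun i => sg_eq _, fun i => sg_eq _, ?_, ?_⟩
    · intro v i
      rw [hφa, hφa, Phi0_E, map_smul]
      simp [Pi.smul_apply]
    · intro v i
      rw [hφa, hφa, Phi0_D, map_smul]
      simp [Pi.smul_apply]
  · right
    choose l hl using hp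
    have e : ∀ c, JE E D c ≃ₗ[ℝ] (ℝ × (Fin (l c) → ℂ)) := fun c =>
      LinearEquiv.ofFinrankEq _ _ (by rw [Module.finrank_prod, hC, hl c, Module.finrank_self]; ring)
    set X := (Σ c : Bool × Bool, Fin (l c)) with hX
    set r : X ≃ Fin (Fintype.card X) := Fintype.equivFin X with hr
    set φ : (Fin n → ℝ) ≃ₗ[ℝ] ((ℝ × ℝ × ℝ × ℝ) × (Fin (Fintype.card X) → ℂ)) :=
      (Phi0 hE hD hED).trans (((LinearEquiv.piCongrRight e).trans split4).trans
        (LinearEquiv.prodCongr (LinearEquiv.refl ℝ _) (LinearEquiv.funCongrLeft ℝ ℂ r.symm)))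
      with hφ
    have hφ1 : ∀ v, (φ v).1 = ((e (false, false) (Phi0 hE hD hED v (false, false))).1,
        (e (false, true) (Phi0 hE hD hED v (false, true))).1,
        (e (true, true) (Phi0 hE hD hED v (true, true))).1,
        (e (true, false) (Phi0 hE hD hED v (true, false))).1) := fun v => rfl
    have hφa : ∀ v i, (φ v).2 i =
        (e (r.symm i).1 (Phi0 hE hD hED v (r.symm i).1)).2 (r.symm i).2 := fun v i => rfl
    refine ⟨Fintype.card X, fun i => sg (r.symm i).1.1, fun i => sg (r.symm i).1.2, φ,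
      fun i => sg_eq _, fun i => sg_eq _, ?_, ?_, ?_, ?_⟩
    · intro v
      simp only [hφ1, Phi0_E, map_smul, sg_true, sg_false, one_smul, neg_smul, Prod.fst_neg]
    · intro v
      simp only [hφ1, Phi0_D, map_smul, sg_true, sg_false, one_smul, neg_smul, Prod.fst_neg]
    · intro v i
      rw [hφa, hφa, Phi0_E, map_smul]
      simp [Pi.smul_apply]
    · intro v i
      rw [hφa, hφa, Phi0_D, map_smul]
      simp [Pi.smul_apply]

end Pool.Agent.TorusBundle
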