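import Mathlib
import Pool.Agent.Lib.MP_1d980c_gt.Shift

set_option autoImplicit false
open scoped Manifold ContDiff Matrix Topology
open Complex

namespace Pool.Agent.TorusBundle

/-- Splitting `ℤ × ℤ` according to the parity of the sum of the coordinates. -/
def parityMap : (ℤ × ℤ) ⊕ (ℤ × ℤ) → ℤ × ℤ
  | Sum.inl x => (x.1 + x.2, x.1 - x.2)
  | Sum.inr x => (x.1 + x.2 + 1, x.1 - x.2)

theorem parityMap_bijective : Function.Bijective parityMap := by
  constructor
  · rintro (⟨a, b⟩ | ⟨a, b⟩) (⟨c, d⟩ | ⟨c, d⟩) h <;>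
      simp only [parityMap, Prod.mk.injEq, Sum.inl.injEq, Sum.inr.injEq, reduceCtorEq] at h ⊢ <;>
      omega
  · rintro ⟨n, k⟩
    rcases Int.emod_two_eq_zero_or_one (n + k) with h | h
    · refine ⟨Sum.inl ((n + k) / 2, (n - k) / 2), ?_⟩
      simp only [parityMap, Prod.mk.injEq]
      omega
    · refine ⟨Sum.inr ((n + k - 1) / 2, (n - k - 1) / 2), ?_⟩
      simp only [parityMap, Prod.mk.injEq]
      omega

theorem summable_norm_term (z : ℂ) {τ : ℂ} (hτ : 0 < τ.im) :
    Summable (fun n : ℤ => ‖jacobiTheta₂_term n z τ‖) :=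
  (hasSum_jacobiTheta₂_term z hτ).summable.norm

theorem im_two_I : 0 < (2 * I : ℂ).im := by simp

/-- The second theta function. -/
noncomputable def gth (w : ℂ) : ℂ :=
  cexp (-(Real.pi / 2) + Real.pi * I * w) * jacobiTheta₂ (w + I) (2 * I)

theorem term_even (a b : ℤ) (u v : ℂ) :
    jacobiTheta₂_term (a + b) u I * jacobiTheta₂_term (a - b) v I
      = jacobiTheta₂_term a (u + v) (2 * I) * jacobiTheta₂_term b (u - v) (2 * I) := by
  unfold jacobiTheta₂_term
  rw [← Complex.exp_add, ← Complex.exp_add]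
  congr 1
  push_cast
  ring

theorem term_odd (a b : ℤ) (u v : ℂ) :
    jacobiTheta₂_term (a + b + 1) u I * jacobiTheta₂_term (a - b) v I
      = (cexp (-(Real.pi / 2) + Real.pi * I * (u + v)) *
          jacobiTheta₂_term a (u + v + I) (2 * I)) *
        (cexp (-(Real.pi / 2) + Real.pi * I * (u - v)) *
          jacobiTheta₂_term b (u - v + I) (2 * I)) := by
  unfold jacobiTheta₂_term
  rw [← Complex.exp_add, ← Complex.exp_add, ← Complex.exp_add, ← Complex.exp_add]
  congr 1
  push_cast
  linear_combination (Real.pi : ℂ) * Complex.I_sq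

theorem theta_product (u v : ℂ) :
    jacobiTheta₂ u I * jacobiTheta₂ v I
      = jacobiTheta₂ (u + v) (2 * I) * jacobiTheta₂ (u - v) (2 * I) + gth (u + v) * gth (u - v) := by
  have hI : 0 < (I : ℂ).im := by simp
  have hu := summable_norm_term u hI
  have hv := summable_norm_term v hI
  have h1 : jacobiTheta₂ u I * jacobiTheta₂ v I
      = ∑' z : ℤ × ℤ, jacobiTheta₂_term z.1 u I * jacobiTheta₂_term z.2 v I := by
    unfold jacobiTheta₂
    exact tsum_mul_tsum_of_summable_norm hu hv
  rw [h1, ← (Equiv.ofBijective parityMap parityMap_bijective).tsum_eq]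
  have e1 : ∀ x : ℤ × ℤ, (jacobiTheta₂_term ((Equiv.ofBijective parityMap parityMap_bijective)
      (Sum.inl x)).1 u I * jacobiTheta₂_term ((Equiv.ofBijective parityMap parityMap_bijective)
      (Sum.inl x)).2 v I)
      = jacobiTheta₂_term x.1 (u + v) (2 * I) * jacobiTheta₂_term x.2 (u - v) (2 * I) :=
    fun x => term_even x.1 x.2 u v
  have e2 : ∀ x : ℤ × ℤ, (jacobiTheta₂_term ((Equiv.ofBijective parityMap parityMap_bijective)
      (Sum.inr x)).1 u I * jacobiTheta₂_term ((Equiv.ofBijective parityMap parityMap_bijective)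
      (Sum.inr x)).2 v I)
      = (cexp (-(Real.pi / 2) + Real.pi * I * (u + v)) *
          jacobiTheta₂_term x.1 (u + v + I) (2 * I)) *
        (cexp (-(Real.pi / 2) + Real.pi * I * (u - v)) *
          jacobiTheta₂_term x.2 (u - v + I) (2 * I)) :=
    fun x => term_odd x.1 x.2 u v
  have s1 := summable_norm_term (u + v) im_two_I
  have s2 := summable_norm_term (u - v) im_two_I
  have s3 : Summable fun n : ℤ => ‖cexp (-(Real.pi / 2) + Real.pi * I * (u + v)) *
          jacobiTheta₂_term n (u + v + I) (2 * I)‖ := by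
    simp_rw [norm_mul]
    exact (summable_norm_term (u + v + I) im_two_I).mul_left _
  have s4 : Summable fun n : ℤ => ‖cexp (-(Real.pi / 2) + Real.pi * I * (u - v)) *
          jacobiTheta₂_term n (u - v + I) (2 * I)‖ := by
    simp_rw [norm_mul]
    exact (summable_norm_term (u - v + I) im_two_I).mul_left _
  rw [Summable.tsum_sum]
  · simp_rw [e1, e2]
    rw [← tsum_mul_tsum_of_summable_norm s1 s2, ← tsum_mul_tsum_of_summable_norm s3 s4,
      tsum_mul_left, tsum_mul_left]
    rfl
  · refine (summable_mul_of_summable_norm s1 s2).congr fun x => ?_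
    exact (e1 x).symm
  · refine (summable_mul_of_summable_norm s3 s4).congr fun x => ?_
    exact (e2 x).symm

/-- The two theta functions of the twisted case. -/
theorem exists_pair : ∃ f g : ℂ → ℂ, Differentiable ℂ f ∧ Differentiable ℂ g ∧
    (∀ w, f (w + 1) = f w) ∧ (∀ w, g (w + 1) = -g w) ∧
    (∀ w, f (w + I) = cexp (Real.pi / 2 - Real.pi * I * w) * g w) ∧
    (∀ w, g (w + I) = cexp (Real.pi / 2 - Real.pi * I * w) * f w) ∧
    ∀ w, f w ≠ 0 ∨ g w ≠ 0 := by
  refine ⟨fun w => jacobiTheta₂ w (2 * I), gth, ?_, ?_, ?_, ?_, ?_, ?_, ?_⟩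
  · intro w
    exact differentiableAt_jacobiTheta₂_fst w im_two_I
  · unfold gth
    apply Differentiable.mul
    · exact ((differentiable_const _).add (differentiable_id.const_mul _)).cexp
    · have h : Differentiable ℂ (fun w => jacobiTheta₂ w (2 * I)) := fun w =>
        differentiableAt_jacobiTheta₂_fst w im_two_I
      exact h.comp (differentiable_id.add_const I)
  · intro w
    exact jacobiTheta₂_add_left w _
  · intro w
    unfold gth
    have e1 : w + 1 + I = (w + I) + 1 := by ring
    rw [e1, jacobiTheta₂_add_left]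
    have e2 : (-(Real.pi / 2) + Real.pi * I * (w + 1) : ℂ)
        = (-(Real.pi / 2) + Real.pi * I * w) + Real.pi * I := by ring
    rw [e2, Complex.exp_add, Complex.exp_pi_mul_I]
    ring
  · intro w
    unfold gth
    rw [← mul_assoc, ← Complex.exp_add]
    have e : (Real.pi / 2 - Real.pi * I * w + (-(Real.pi / 2) + Real.pi * I * w) : ℂ) = 0 := by ring
    rw [e, Complex.exp_zero, one_mul]
  · intro w
    unfold gth
    have e1 : w + I + I = w + 2 * I := by ring
    rw [e1, jacobiTheta₂_add_left', ← mul_assoc, ← Complex.exp_add]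
    congr 2
    linear_combination (-(Real.pi : ℂ)) * Complex.I_sq
  · intro w
    by_contra hcon
    push Not at hcon
    obtain ⟨hf, hg⟩ := hcon
    have hZ := countable_zeros_th
    set Z : Set ℂ := {w : ℂ | th w = 0} with hZdef
    -- choose `c` with `w/2 + c ∉ Z` and `w/2 - c ∉ Z`
    have hbad : (((fun z : ℂ => z - w / 2) '' Z) ∪ ((fun z : ℂ => w / 2 - z) '' Z)).Countable :=
      (hZ.image _).union (hZ.image _)
    obtain ⟨c, hc⟩ : ∃ c : ℂ, c ∉ (((fun z : ℂ => z - w / 2) '' Z) ∪
        ((fun z : ℂ => w / 2 - z) '' Z)) := by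
      by_contra hcon
      push Not at hcon
      have huniv := Set.eq_univ_of_forall hcon
      rw [huniv] at hbad
      exact not_countable_complex hbad
    have hprod := theta_product (w / 2 + c) (w / 2 - c)
    have e1 : w / 2 + c + (w / 2 - c) = w := by ring
    rw [e1] at hprod
    rw [hf, hg, zero_mul, zero_mul, add_zero] at hprod
    rcases mul_eq_zero.1 hprod with h | h
    · apply hc
      left
      refine ⟨w / 2 + c, ?_, by ring⟩
      rw [hZdef, Set.mem_ofPred_eq, th_eq_jacobi]
      exact h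
    · apply hc
      right
      refine ⟨w / 2 - c, ?_, by ring⟩
      rw [hZdef, Set.mem_ofPred_eq, th_eq_jacobi]
      exact h

end Pool.Agent.TorusBundle
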