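import Mathlib
import Pool.Agent.Lib.MP_1d980c_gt.BaseV
import Pool.Agent.Lib.MP_1d980c_gt.Pair

set_option autoImplicit false
set_option linter.unusedSectionVars false
open scoped Topology Matrix
open Complex Finset Filter ComplexConjugate

namespace Pool.Agent.TorusBundle

lemma quat_inj {f g a b : ℂ} (h : f ≠ 0 ∨ g ≠ 0) (h1 : f * a + g * conj b = 0)
    (h2 : f * b - g * conj a = 0) : a = 0 ∧ b = 0 := by
  have hN : (f * conj f + g * conj g) ≠ 0 := by
    rw [Complex.mul_conj, Complex.mul_conj]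
    intro h0
    have h3 : Complex.normSq f + Complex.normSq g = 0 := by exact_mod_cast h0
    have h4 := Complex.normSq_nonneg f
    have h5 := Complex.normSq_nonneg g
    rcases h with h | h
    · exact h (Complex.normSq_eq_zero.1 (by linarith))
    · exact h (Complex.normSq_eq_zero.1 (by linarith))
  have h2' := congrArg conj h2
  simp only [map_sub, map_mul, conj_conj, map_zero] at h2'
  have h1' := congrArg conj h1
  simp only [map_add, map_mul, conj_conj, map_zero] at h1'
  have ha : (f * conj f + g * conj g) * a = 0 := by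
    linear_combination (conj f) * h1 - g * h2'
  have hb : (f * conj f + g * conj g) * b = 0 := by
    linear_combination (conj f) * h2 + g * h1'
  exact ⟨(mul_eq_zero.1 ha).resolve_left hN, (mul_eq_zero.1 hb).resolve_left hN⟩

/-- the first involution on `ℝ⁴` -/
def eps4 (v : ℝ × ℝ × ℝ × ℝ) : ℝ × ℝ × ℝ × ℝ := (v.1, v.2.1, -v.2.2.1, -v.2.2.2)

/-- the second involution on `ℝ⁴` -/
def del4 (v : ℝ × ℝ × ℝ × ℝ) : ℝ × ℝ × ℝ × ℝ := (v.1, -v.2.1, -v.2.2.1, v.2.2.2)

/-- The quaternionic block. -/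
theorem exists_quat : Nonempty (BFam (ℝ × ℝ × ℝ × ℝ) eps4 del4 (Fin 2)) := by
  obtain ⟨f, g, hf, hg, hf1, hg1, hfI, hgI, hfg⟩ := exists_pair
  let Fl : ℂ → (ℝ × ℝ × ℝ × ℝ) →ₗ[ℝ] (Fin 2 → ℂ) := fun w =>
    { toFun := fun v => ![f w * ((v.1 : ℂ) + v.2.1 * I) + g w * ((v.2.2.1 : ℂ) - v.2.2.2 * I),
        f w * ((v.2.2.1 : ℂ) + v.2.2.2 * I) - g w * ((v.1 : ℂ) - v.2.1 * I)]
      map_add' := fun v v' => by
        funext r
        fin_cases r <;> simp <;> ring
      map_smul' := fun x v => by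
        funext r
        fin_cases r <;> simp <;> ring }
  have hFl : ∀ w v, Fl w v = ![f w * ((v.1 : ℂ) + v.2.1 * I) + g w * ((v.2.2.1 : ℂ) - v.2.2.2 * I),
        f w * ((v.2.2.1 : ℂ) + v.2.2.2 * I) - g w * ((v.1 : ℂ) - v.2.1 * I)] := fun _ _ => rfl
  refine ⟨⟨Fl, fun _ => -Real.pi * I, fun _ => Real.pi / 2, !![1, 0; 0, -1], !![0, -1; -1, 0],
    ?_, ?_, ?_, ?_, ?_, ?_, ?_, ?_, ?_⟩⟩
  · intro v r
    simp only [hFl]
    fin_cases r
    · exact (hf.mul_const _).add (hg.mul_const _)
    · exact (hf.mul_const _).sub (hg.mul_const _)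
  · intro w v h
    rw [hFl] at h
    have h0 := congrFun h 0
    have h1 := congrFun h 1
    simp at h0 h1
    obtain ⟨h2, h3⟩ := quat_inj (a := (v.1 : ℂ) + v.2.1 * I) (b := (v.2.2.1 : ℂ) + v.2.2.2 * I)
      (hfg w) (by simpa [sub_eq_add_neg] using h0) (by simpa [sub_eq_add_neg] using h1)
    have h4 := congrArg Complex.re h2
    have h5 := congrArg Complex.im h2
    have h6 := congrArg Complex.re h3
    have h7 := congrArg Complex.im h3
    simp at h4 h5 h6 h7
    ext <;> assumption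
  · intro r
    simp
  · intro r q h; exact absurd rfl h
  · intro r q h; exact absurd rfl h
  · rw [Matrix.isUnit_iff_isUnit_det, Matrix.det_fin_two_of]; simp
  · rw [Matrix.isUnit_iff_isUnit_det, Matrix.det_fin_two_of]; simp
  · intro w v
    rw [hFl, hFl, hf1, hg1]
    funext r
    fin_cases r <;> simp [eps4, Matrix.mulVec, dotProduct, Fin.sum_univ_two] <;> ring
  · intro w v
    have e : ∀ w, cexp (-Real.pi * I * w + Real.pi / 2) = cexp (Real.pi / 2 - Real.pi * I * w) := by
      intro w; congr 1; ring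
    rw [hFl, hFl, hfI, hgI, ← e]
    funext r
    fin_cases r <;> simp [del4, Gam, Matrix.mulVec, dotProduct, Fin.sum_univ_two] <;> ring

end Pool.Agent.TorusBundle
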