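import Mathlib
import Pool.Agent.Lib.MP_1d980c_gt.Odd

set_option autoImplicit false
set_option linter.unusedSectionVars false
open scoped Topology Matrix
open Complex Finset Filter ComplexConjugate

namespace Pool.Agent.TorusBundle

/-- A maximal isotropic system of rows is nondegenerate. -/
lemma NDg_of_isotropic {ι κ : Type} [Fintype ι] [Fintype κ] [DecidableEq ι] [DecidableEq κ]
    (hcard : Fintype.card κ = 2 * Fintype.card ι) (R : Matrix ι κ ℂ) (h1 : R * Rᵀ = 0)
    (h2 : ∀ α : ι → ℂ, α ᵥ* R = 0 → α = 0) : NDg R := by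
  intro v hv
  set u : κ → ℂ := fun k => (v k : ℂ) with hu
  -- the transpose is injective
  have hinj : Function.Injective (Rᵀ.mulVecLin) := by
    rw [injective_iff_map_eq_zero]
    intro α hα
    apply h2 α
    rw [Matrix.mulVecLin_apply, Matrix.mulVec_transpose] at hα
    exact hα
  have hle : LinearMap.range (Rᵀ.mulVecLin) ≤ LinearMap.ker (R.mulVecLin) := by
    rintro _ ⟨α, rfl⟩
    rw [LinearMap.mem_ker, Matrix.mulVecLin_apply, Matrix.mulVecLin_apply, Matrix.mulVec_mulVec, h1,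
      Matrix.zero_mulVec]
  have hr1 : Module.finrank ℂ (LinearMap.range (Rᵀ.mulVecLin)) = Fintype.card ι := by
    rw [LinearMap.finrank_range_of_inj hinj, Module.finrank_fintype_fun_eq_card]
  have hr2 : Module.finrank ℂ (LinearMap.ker (R.mulVecLin)) = Fintype.card ι := by
    have h3 := LinearMap.finrank_range_add_finrank_ker (R.mulVecLin)
    rw [Module.finrank_fintype_fun_eq_card, hcard] at h3
    have h4 : Module.finrank ℂ (LinearMap.range (R.mulVecLin)) = Fintype.card ι := by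
      have h5 : R.rank = Rᵀ.rank := (Matrix.rank_transpose R).symm
      unfold Matrix.rank at h5
      rw [h5, hr1]
    omega
  have heq := Submodule.eq_of_le_of_finrank_eq hle (by rw [hr1, hr2])
  have hmem : u ∈ LinearMap.ker (R.mulVecLin) := by
    rw [LinearMap.mem_ker, Matrix.mulVecLin_apply]; exact hv
  rw [← heq] at hmem
  obtain ⟨α, hα⟩ := hmem
  rw [Matrix.mulVecLin_apply] at hα
  have h6 : u ⬝ᵥ u = 0 := by
    calc u ⬝ᵥ u = (Rᵀ *ᵥ α) ⬝ᵥ u := by rw [hα]
      _ = α ⬝ᵥ (R *ᵥ u) := by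
        rw [Matrix.mulVec_transpose, ← Matrix.dotProduct_mulVec]
      _ = 0 := by rw [hv, dotProduct_zero]
  have h7 : ∑ k, v k * v k = 0 := by
    have h8 : ((∑ k, v k * v k : ℝ) : ℂ) = 0 := by
      rw [← h6]
      simp [dotProduct, hu]
    exact_mod_cast h8
  funext k
  have h9 := (Finset.sum_eq_zero_iff_of_nonneg (fun k _ => mul_self_nonneg (v k))).1 h7 k
    (Finset.mem_univ k)
  exact mul_self_eq_zero.1 h9

/-- the `3 × 6` system attached to a null vector -/
noncomputable def R36 (n₁ n₂ n₃ : ℂ) : Matrix (Fin 3) (Fin 6) ℂ :=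
  !![n₁, 0, 0, 0, n₃, n₂; -n₂, n₂, I * n₂, n₃, 0, n₁; -n₃, -n₃, I * n₃, n₂, n₁, 0]

lemma R36_ND {n₁ n₂ n₃ : ℂ} (h0 : n₁ ^ 2 + n₂ ^ 2 + n₃ ^ 2 = 0) (h1 : n₁ ≠ 0 ∨ n₂ ≠ 0 ∨ n₃ ≠ 0) :
    NDg (R36 n₁ n₂ n₃) := by
  refine NDg_of_isotropic (by simp) _ ?_ ?_
  · ext i j
    rw [Matrix.mul_apply, Fin.sum_univ_six]
    simp only [Matrix.transpose_apply]
    fin_cases i <;> fin_cases j <;> simp [R36] <;>
      first
      | ring1
      | linear_combination h0
      | linear_combination h0 + n₂ ^ 2 * I_mul_I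
      | linear_combination h0 + n₃ ^ 2 * I_mul_I
      | linear_combination n₂ * n₃ * I_mul_I
  · intro α hα
    have c : ∀ k, ∑ i, α i * R36 n₁ n₂ n₃ i k = 0 := fun k => congrFun hα k
    have c0 := c 0
    have c1 := c 1
    have c2 := c 2
    have c3 := c 3
    have c4 := c 4
    have c5 := c 5
    simp [R36, Fin.sum_univ_three] at c0 c1 c2 c3 c4 c5
    have e2 : α 1 * n₂ = 0 := by
      have h : 2 * (I * (α 1 * n₂)) = 0 := by linear_combination c2 + I * c1
      simpa using h
    have e3 : α 2 * n₃ = 0 := by linear_combination -c1 + e2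
    have e1 : α 0 * n₁ = 0 := by linear_combination c0 + e2 + e3
    have f : ∀ {x y z : ℂ}, x * y = 0 → x ≠ 0 → y = 0 := fun h hx => (mul_eq_zero.1 h).resolve_left hx
    funext i
    fin_cases i
    · show α 0 = 0
      by_contra h
      have g1 : n₁ = 0 := (mul_eq_zero.1 e1).resolve_left h
      rw [g1] at c4 c5
      simp at c4 c5
      rcases h1 with h1 | h1 | h1
      · exact h1 g1
      · exact h1 (c5.resolve_left h)
      · exact h1 (c4.resolve_left h)
    · show α 1 = 0
      by_contra h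
      have g2 : n₂ = 0 := (mul_eq_zero.1 e2).resolve_left h
      rw [g2] at c3 c5
      simp at c3 c5
      rcases h1 with h1 | h1 | h1
      · exact h1 (c5.resolve_left h)
      · exact h1 g2
      · exact h1 (c3.resolve_left h)
    · show α 2 = 0
      by_contra h
      have g3 : n₃ = 0 := (mul_eq_zero.1 e3).resolve_left h
      rw [g3] at c3 c4
      simp at c3 c4
      rcases h1 with h1 | h1 | h1
      · exact h1 (c4.resolve_left h)
      · exact h1 (c3.resolve_left h)
      · exact h1 g3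

/-- the coordinates -/
def vec6 (v : (ℝ × ℝ × ℝ × ℝ) × (Fin 1 → ℂ)) : Fin 6 → ℝ :=
  ![v.1.1, (v.2 0).re, (v.2 0).im, v.1.2.1, v.1.2.2.1, v.1.2.2.2]

/-- The three-dimensional twisted block. -/
theorem exists_three : Nonempty (BFam ((ℝ × ℝ × ℝ × ℝ) × (Fin 1 → ℂ)) (fun v => (eps4 v.1, v.2))
    (fun v => (del4 v.1, v.2)) (Fin 3)) := by
  obtain ⟨f, g, hf, hg, hf1, hg1, hfI, hgI, hfg⟩ := exists_pair
  let Rw : ℂ → Matrix (Fin 3) (Fin 6) ℂ := fun w =>
    R36 (2 * I * f w * g w) (f w ^ 2 + g w ^ 2) (I * (f w ^ 2 - g w ^ 2))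
  have hRw : ∀ w, Rw w = R36 (2 * I * f w * g w) (f w ^ 2 + g w ^ 2) (I * (f w ^ 2 - g w ^ 2)) :=
    fun _ => rfl
  let Fl : ℂ → ((ℝ × ℝ × ℝ × ℝ) × (Fin 1 → ℂ)) →ₗ[ℝ] (Fin 3 → ℂ) := fun w =>
    { toFun := fun v => Rw w *ᵥ (fun k => (vec6 v k : ℂ))
      map_add' := fun v v' => by
        rw [← Matrix.mulVec_add]
        congr 1
        funext r
        fin_cases r <;> simp [vec6]
      map_smul' := fun x v => by
        rw [← Matrix.mulVec_smul]
        congr 1
        funext r
        fin_cases r <;> simp [vec6] }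
  have hFl : ∀ w v, Fl w v = Rw w *ᵥ (fun k => (vec6 v k : ℂ)) := fun _ _ => rfl
  refine ⟨⟨Fl, fun _ => -2 * Real.pi * I, fun _ => Real.pi, Matrix.diagonal ![-1, 1, 1],
    Matrix.diagonal ![1, 1, -1], ?_, ?_, ?_, ?_, ?_, ?_, ?_, ?_, ?_⟩⟩
  · intro v r
    simp only [hFl, hRw, Matrix.mulVec, dotProduct]
    refine Differentiable.fun_sum fun k _ => Differentiable.mul_const ?_ _
    fin_cases r <;> fin_cases k <;> simp [R36] <;> fun_prop
  · intro w v h
    rw [hFl] at h
    have h1 := R36_ND (n₁ := 2 * I * f w * g w) (n₂ := f w ^ 2 + g w ^ 2)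
      (n₃ := I * (f w ^ 2 - g w ^ 2)) (by
        linear_combination (4 * f w ^ 2 * g w ^ 2 + (f w ^ 2 - g w ^ 2) ^ 2) * I_mul_I) (by
        by_contra h0
        push Not at h0
        obtain ⟨-, h2, h3⟩ := h0
        have h3' : f w ^ 2 - g w ^ 2 = 0 := (mul_eq_zero.1 h3).resolve_left I_ne_zero
        have h4 : f w ^ 2 = 0 := by linear_combination (h2 + h3') / 2
        have h5 : g w ^ 2 = 0 := by linear_combination (h2 - h3') / 2
        rcases hfg w with h6 | h6
        · exact h6 (pow_eq_zero_iff (two_ne_zero) |>.1 h4)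
        · exact h6 (pow_eq_zero_iff (two_ne_zero) |>.1 h5)) (vec6 v) h
    have g0 := congrFun h1 0
    have g1 := congrFun h1 1
    have g2 := congrFun h1 2
    have g3 := congrFun h1 3
    have g4 := congrFun h1 4
    have g5 := congrFun h1 5
    simp [vec6] at g0 g1 g2 g3 g4 g5
    refine Prod.ext ?_ ?_
    · ext <;> assumption
    · funext i
      have : i = 0 := Subsingleton.elim _ _
      subst this
      exact Complex.ext g1 g2
  · intro r
    simp
  · intro r q h; exact absurd rfl h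
  · intro r q h; exact absurd rfl h
  · rw [Matrix.isUnit_iff_isUnit_det, Matrix.det_diagonal, Fin.prod_univ_three]; simp
  · rw [Matrix.isUnit_iff_isUnit_det, Matrix.det_diagonal, Fin.prod_univ_three]; simp
  · intro w v
    rw [hFl, hFl, hRw, hRw, hf1, hg1]
    funext r
    rw [Matrix.mulVec_diagonal]
    fin_cases r <;> simp [R36, eps4, vec6, Matrix.mulVec, dotProduct, Fin.sum_univ_six] <;> ring
  · intro w v
    have e : ∀ w, cexp (-2 * Real.pi * I * w + Real.pi) = cexp (Real.pi / 2 - Real.pi * I * w) ^ 2 := by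
      intro w; rw [← Complex.exp_nat_mul]; congr 1; push_cast; ring
    have e2 : Gam (fun _ : Fin 3 => -2 * Real.pi * I) (fun _ => (Real.pi : ℂ))
        (Matrix.diagonal ![1, 1, -1]) w =
        cexp (Real.pi / 2 - Real.pi * I * w) ^ 2 • Matrix.diagonal ![1, 1, -1] := by
      funext r q
      simp only [Gam, Matrix.smul_apply, smul_eq_mul, e]
    rw [hFl, hFl, hRw, hRw, hfI, hgI, e2, Matrix.smul_mulVec]
    funext r
    rw [Pi.smul_apply, Matrix.mulVec_diagonal]
    fin_cases r <;> simp [R36, del4, vec6, Matrix.mulVec, dotProduct, Fin.sum_univ_six] <;> ring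

end Pool.Agent.TorusBundle
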