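import Mathlib
import Pool.Agent.Lib.MP_1d980c_gt.Even
import Pool.Agent.Lib.MP_1d980c_gt.Odd3
import Pool.Agent.Lib.MP_1d980c_gt.NormalForm

set_option autoImplicit false
set_option linter.unusedSectionVars false
open scoped Topology Matrix
open Complex Finset Filter ComplexConjugate

namespace Pool.Agent.TorusBundle

/-- the type of the three-dimensional block -/
abbrev V6 : Type := (ℝ × ℝ × ℝ × ℝ) × (Fin 1 → ℂ)

/-- exchange of coordinates -/
def sw1 : V6 ≃ₗ[ℝ] V6 where
  toFun v := ((v.1.2.1, v.1.1, v.1.2.2.2, v.1.2.2.1), v.2)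
  invFun v := ((v.1.2.1, v.1.1, v.1.2.2.2, v.1.2.2.1), v.2)
  map_add' _ _ := rfl
  map_smul' _ _ := rfl
  left_inv _ := rfl
  right_inv _ := rfl

/-- exchange of coordinates -/
def sw2 : V6 ≃ₗ[ℝ] V6 where
  toFun v := ((v.1.2.2.1, v.1.2.2.2, v.1.1, v.1.2.1), v.2)
  invFun v := ((v.1.2.2.1, v.1.2.2.2, v.1.1, v.1.2.1), v.2)
  map_add' _ _ := rfl
  map_smul' _ _ := rfl
  left_inv _ := rfl
  right_inv _ := rfl

/-- exchange of coordinates -/
def sw3 : V6 ≃ₗ[ℝ] V6 where
  toFun v := ((v.1.2.2.2, v.1.2.2.1, v.1.2.1, v.1.1), v.2)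
  invFun v := ((v.1.2.2.2, v.1.2.2.1, v.1.2.1, v.1.1), v.2)
  map_add' _ _ := rfl
  map_smul' _ _ := rfl
  left_inv _ := rfl
  right_inv _ := rfl

lemma exists_three_signs (s t : Fin 1 → ℝ) (hs : ∀ i, s i = 1 ∨ s i = -1)
    (ht : ∀ i, t i = 1 ∨ t i = -1) :
    Nonempty (BFam V6 (fun v => (eps4 v.1, fun i => s i * v.2 i))
      (fun v => (del4 v.1, fun i => t i * v.2 i)) (Fin 3)) := by
  obtain ⟨f⟩ := exists_three
  have hi : ∀ i : Fin 1, i = 0 := fun i => Subsingleton.elim _ _
  rcases hs 0 with h | h <;> rcases ht 0 with h' | h'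
  · refine ⟨f.map (LinearEquiv.refl ℝ V6) (fun v => ?_) (fun v => ?_)⟩
    · refine Prod.ext rfl (funext fun i => ?_)
      rw [hi i]; simp [h]
    · refine Prod.ext rfl (funext fun i => ?_)
      rw [hi i]; simp [h']
  · refine ⟨(f.twist 1 (-1) one_ne_zero (by norm_num)).map sw1 (fun v => ?_) (fun v => ?_)⟩
    · refine Prod.ext ?_ (funext fun i => ?_)
      · simp [sw1, eps4]
      · rw [hi i]; simp [h, sw1]
    · refine Prod.ext ?_ (funext fun i => ?_)
      · simp [sw1, del4]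
      · rw [hi i]; simp [h', sw1]
  · refine ⟨(f.twist (-1) 1 (by norm_num) one_ne_zero).map sw3 (fun v => ?_) (fun v => ?_)⟩
    · refine Prod.ext ?_ (funext fun i => ?_)
      · simp [sw3, eps4]
      · rw [hi i]; simp [h, sw3]
    · refine Prod.ext ?_ (funext fun i => ?_)
      · simp [sw3, del4]
      · rw [hi i]; simp [h', sw3]
  · refine ⟨(f.twist (-1) (-1) (by norm_num) (by norm_num)).map sw2 (fun v => ?_) (fun v => ?_)⟩
    · refine Prod.ext ?_ (funext fun i => ?_)
      · simp [sw2, eps4]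
      · rw [hi i]; simp [h, sw2]
    · refine Prod.ext ?_ (funext fun i => ?_)
      · simp [sw2, del4]
      · rw [hi i]; simp [h', sw2]

lemma finrank_Cl (l : ℕ) : Module.finrank ℝ (Fin l → ℂ) = 2 * l := by
  rw [Module.finrank_pi_fintype]
  simp [mul_comm]

/-- Every pair of commuting involutions of positive determinant has a base family. -/
theorem exists_base (m : ℕ) (hm : 2 ≤ m) (E D : Matrix (Fin (2 * m)) (Fin (2 * m)) ℝ)
    (hE : E * E = 1) (hD : D * D = 1) (hED : E * D = D * E) (hE' : 0 < E.det) (hD' : 0 < D.det) :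
    Nonempty (BFam (Fin (2 * m) → ℝ) (fun v => E *ᵥ v) (fun v => D *ᵥ v) (Fin m)) := by
  rcases normal_form E D hE hD hED hE' hD' (even_two_mul m) with
    ⟨l, s, t, φ, hs, ht, hφE, hφD⟩ | ⟨l, s, t, φ, hs, ht, hφE1, hφD1, hφE2, hφD2⟩
  · have hl : l = m := by
      have h := φ.finrank_eq
      rw [finrank_Cl, Module.finrank_fintype_fun_eq_card, Fintype.card_fin] at h
      omega
    subst hl
    obtain ⟨f⟩ := exists_even l hm s t hs ht
    exact ⟨f.map φ (fun v => funext fun i => hφE v i) (fun v => funext fun i => hφD v i)⟩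
  · have hl : m = l + 2 := by
      have h := φ.finrank_eq
      rw [Module.finrank_prod, finrank_Cl, Module.finrank_fintype_fun_eq_card, Fintype.card_fin] at h
      simp at h
      omega
    subst hl
    have hE2 : ∀ v, φ (E *ᵥ v) = (eps4 (φ v).1, fun i => s i * (φ v).2 i) := fun v =>
      Prod.ext (hφE1 v) (funext fun i => hφE2 v i)
    have hD2 : ∀ v, φ (D *ᵥ v) = (del4 (φ v).1, fun i => t i * (φ v).2 i) := fun v =>
      Prod.ext (hφD1 v) (funext fun i => hφD2 v i)
    obtain ⟨q⟩ := exists_quat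
    rcases Nat.lt_or_ge l 2 with hl2 | hl2
    · interval_cases l
      · refine ⟨q.map (φ.trans (LinearEquiv.prodUnique)) (fun v => ?_) (fun v => ?_)⟩
        · simp [hE2]
        · simp [hD2]
      · obtain ⟨f⟩ := exists_three_signs s t hs ht
        exact ⟨f.map φ hE2 hD2⟩
    · obtain ⟨f⟩ := exists_even l hl2 s t hs ht
      exact ⟨((q.sum f).map φ hE2 hD2).reindex
        ((finCongr (Nat.add_comm l 2)).trans finSumFinEquiv.symm)⟩

end Pool.Agent.TorusBundle
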