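import Mathlib

set_option autoImplicit false
open scoped Manifold ContDiff Matrix
open Complex

namespace Pool.Agent.TorusBundle

/-! ### Task E: the affine part -/

section TaskE

/-- The binomial polynomials. -/
noncomputable def bn : ℕ → ℂ → ℂ
  | 0, _ => 1
  | j + 1, w => bn j w * ((w - (j : ℂ)) / ((j : ℂ) + 1))

theorem bn_aux (j : ℕ) (w : ℂ) : bn j (w + 1) * (w + 1 - (j : ℂ)) = (w + 1) * bn j w := by
  induction j with
  | zero => simp [bn]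
  | succ j ih =>
    have hj : (j : ℂ) + 1 ≠ 0 := Nat.cast_add_one_ne_zero j
    calc bn (j + 1) (w + 1) * (w + 1 - ((j + 1 : ℕ) : ℂ))
        = (bn j (w + 1) * (w + 1 - (j : ℂ))) * ((w - j) / ((j : ℂ) + 1)) := by
          simp only [bn]; push_cast; ring
      _ = ((w + 1) * bn j w) * ((w - j) / ((j : ℂ) + 1)) := by rw [ih]
      _ = (w + 1) * bn (j + 1) w := by simp only [bn]; ring

theorem bn_succ (j : ℕ) (w : ℂ) : bn (j + 1) (w + 1) = bn (j + 1) w + bn j w := by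
  have hj : (j : ℂ) + 1 ≠ 0 := Nat.cast_add_one_ne_zero j
  have h := bn_aux j w
  have h1 : bn (j + 1) (w + 1) = (bn j (w + 1) * (w + 1 - (j : ℂ))) / ((j : ℂ) + 1) := by
    simp only [bn]; ring
  rw [h1, h]
  simp only [bn]
  field_simp
  ring

theorem contDiff_bn (j : ℕ) : ContDiff ℂ ∞ (bn j) := by
  induction j with
  | zero =>
    have : bn 0 = fun _ => (1 : ℂ) := by funext w; rfl
    rw [this]; exact contDiff_const
  | succ j ih =>
    have : bn (j + 1) = fun w => bn j w * ((w - (j : ℂ)) / ((j : ℂ) + 1)) := by funext w; rfl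
    rw [this]
    exact ih.mul ((contDiff_id.sub contDiff_const).div_const _)

theorem exists_sigma {n : ℕ} (A : Matrix (Fin n) (Fin n) ℂ) (c : Fin n → ℂ) :
    ∃ σ : ℂ → (Fin n → ℂ), ContDiff ℂ ∞ σ ∧ ∀ w, σ (w + 1) = A *ᵥ (σ w) - c := by
  -- Fitting decomposition of `A - 1`
  set f : (Fin n → ℂ) →ₗ[ℂ] (Fin n → ℂ) := Matrix.mulVecLin (A - 1) with hf
  have hA : ∀ v, A *ᵥ v = v + f v := by
    intro v
    rw [hf, Matrix.mulVecLin_apply, Matrix.sub_mulVec, Matrix.one_mulVec]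
    abel
  obtain ⟨k, hk1, hk⟩ : ∃ k : ℕ, 1 ≤ k ∧
      Codisjoint (LinearMap.ker (f ^ k)) (LinearMap.range (f ^ k)) := by
    have h := (LinearMap.eventually_codisjoint_ker_pow_range_pow f).and
      (Filter.eventually_ge_atTop 1)
    obtain ⟨k, hk⟩ := h.exists
    exact ⟨k, hk.2, hk.1⟩
  obtain ⟨c₀, hc₀, c₁, hc₁, hc⟩ := Submodule.mem_sup.mp
    (show c ∈ LinearMap.ker (f ^ k) ⊔ LinearMap.range (f ^ k) by
      rw [codisjoint_iff.mp hk]; exact Submodule.mem_top)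
  obtain ⟨y, hy⟩ := hc₁
  obtain ⟨l, rfl⟩ : ∃ l, k = l + 1 := ⟨k - 1, by omega⟩
  rw [LinearMap.mem_ker] at hc₀
  set x : Fin n → ℂ := (f ^ l) y with hx
  have hc₁' : c₁ = f x := by
    rw [← hy, hx, pow_succ']
    rfl
  refine ⟨fun w => x - ∑ j ∈ Finset.range (l + 1), bn (j + 1) w • (f ^ j) c₀, ?_, ?_⟩
  · apply ContDiff.sub contDiff_const
    apply ContDiff.sum
    intro j _
    exact (contDiff_bn (j + 1)).smul contDiff_const
  · intro w
    have h1 : ∑ j ∈ Finset.range (l + 1), bn (j + 1) (w + 1) • (f ^ j) c₀ =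
        ∑ j ∈ Finset.range (l + 1), bn (j + 1) w • (f ^ j) c₀ +
        ∑ j ∈ Finset.range (l + 1), bn j w • (f ^ j) c₀ := by
      rw [← Finset.sum_add_distrib]
      refine Finset.sum_congr rfl fun j _ => ?_
      rw [bn_succ, add_smul]
    have h2 : ∑ j ∈ Finset.range (l + 1), bn j w • (f ^ j) c₀ =
        c₀ + f (∑ j ∈ Finset.range (l + 1), bn (j + 1) w • (f ^ j) c₀) := by
      have e1 : ∑ j ∈ Finset.range (l + 2), bn j w • (f ^ j) c₀ =
          ∑ j ∈ Finset.range (l + 1), bn j w • (f ^ j) c₀ := by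
        rw [Finset.sum_range_succ, hc₀, smul_zero, add_zero]
      rw [← e1, Finset.sum_range_succ']
      simp only [bn, pow_zero, one_smul, Module.End.one_apply]
      rw [add_comm]
      congr 1
      rw [map_sum]
      refine Finset.sum_congr rfl fun j _ => ?_
      rw [map_smul, pow_succ']
      rfl
    simp only
    rw [hA, h1, h2, map_sub, ← hc, hc₁']
    abel

/-- Partial sums of the solution of the difference equation. -/
noncomputable def Tsum {n : ℕ} (A : Matrix (Fin n) (Fin n) ℂ) (F : ℝ × ℝ → (Fin n → ℂ))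
    (N : ℕ) (p : ℝ × ℝ) : Fin n → ℂ :=
  ∑ k ∈ Finset.range N, (A ^ k) *ᵥ F (p.1 - k - 1, p.2)

theorem Tsum_indep {n : ℕ} (A : Matrix (Fin n) (Fin n) ℂ) (F : ℝ × ℝ → (Fin n → ℂ))
    (hF : ∀ s t : ℝ, s ≤ 0 → F (s, t) = 0) {N M : ℕ} (hNM : N ≤ M) (s t : ℝ)
    (hs : s ≤ N) : Tsum A F M (s, t) = Tsum A F N (s, t) := by
  unfold Tsum
  symm
  apply Finset.sum_subset
  · exact Finset.range_mono hNM
  · intro k _ hk
    rw [Finset.mem_range, not_lt] at hk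
    have hk' : (N : ℝ) ≤ k := by exact_mod_cast hk
    rw [hF _ _ (by simp only; linarith), Matrix.mulVec_zero]

theorem contDiff_Tsum {n : ℕ} (A : Matrix (Fin n) (Fin n) ℂ) (F : ℝ × ℝ → (Fin n → ℂ))
    (hF : ContDiff ℝ ∞ F) (N : ℕ) : ContDiff ℝ ∞ (Tsum A F N) := by
  unfold Tsum
  apply ContDiff.sum
  intro k _
  have h1 : ContDiff ℝ ∞ (fun p : ℝ × ℝ => F (p.1 - k - 1, p.2)) := by
    apply hF.comp
    exact ((contDiff_fst.sub contDiff_const).sub contDiff_const).prodMk contDiff_snd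
  let L : (Fin n → ℂ) →L[ℝ] (Fin n → ℂ) :=
    LinearMap.toContinuousLinearMap ((Matrix.mulVecLin (A ^ k)).restrictScalars ℝ)
  exact L.contDiff.comp h1

theorem diff_plus {n : ℕ} (A : Matrix (Fin n) (Fin n) ℂ) (F : ℝ × ℝ → (Fin n → ℂ))
    (hF : ContDiff ℝ ∞ F) (hF0 : ∀ s t : ℝ, s ≤ 0 → F (s, t) = 0) :
    ∃ g : ℝ × ℝ → (Fin n → ℂ), ContDiff ℝ ∞ g ∧
      (∀ s t : ℝ, g (s + 1, t) = A *ᵥ g (s, t) + F (s, t)) ∧
      (∀ C : Matrix (Fin n) (Fin n) ℂ, A * C = C * A →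
        (∀ s t : ℝ, F (s, t + 1) = C *ᵥ F (s, t)) → ∀ s t : ℝ, g (s, t + 1) = C *ᵥ g (s, t)) := by
  have hg : ∀ (N : ℕ) (s t : ℝ), s ≤ N → Tsum A F ⌈s⌉₊ (s, t) = Tsum A F N (s, t) := by
    intro N s t hs
    exact (Tsum_indep A F hF0 (Nat.ceil_le.mpr hs) s t (Nat.le_ceil s)).symm
  refine ⟨fun p => Tsum A F ⌈p.1⌉₊ p, ?_, ?_, ?_⟩
  · rw [contDiff_iff_contDiffAt]
    rintro ⟨s₀, t₀⟩
    apply ((contDiff_Tsum A F hF (⌈s₀⌉₊ + 1)).contDiffAt).congr_of_eventuallyEq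
    have hopen : IsOpen {p : ℝ × ℝ | p.1 < (⌈s₀⌉₊ : ℝ) + 1} :=
      isOpen_lt continuous_fst continuous_const
    have hmem : (s₀, t₀) ∈ {p : ℝ × ℝ | p.1 < (⌈s₀⌉₊ : ℝ) + 1} := by
      have := Nat.le_ceil s₀
      simp only [Set.mem_ofPred_eq]
      linarith
    filter_upwards [hopen.mem_nhds hmem]
    rintro ⟨s, t⟩ hs
    simp only at hs
    exact hg _ s t (by push_cast; exact hs.le)
  · intro s t
    simp only
    have h1 : s + 1 ≤ ((⌈s⌉₊ + 1 : ℕ) : ℝ) := by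
      have := Nat.le_ceil s
      push_cast; linarith
    rw [hg _ _ _ h1]
    unfold Tsum
    rw [Finset.sum_range_succ']
    simp only [pow_zero, Matrix.one_mulVec, Nat.cast_zero, sub_zero, add_sub_cancel_right]
    congr 1
    rw [Matrix.mulVec_sum]
    refine Finset.sum_congr rfl fun k _ => ?_
    rw [Matrix.mulVec_mulVec, ← pow_succ']
    congr 2
    push_cast
    simp only [Prod.mk.injEq, and_true]
    ring
  · intro C hC hFC s t
    simp only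
    unfold Tsum
    rw [Matrix.mulVec_sum]
    refine Finset.sum_congr rfl fun k _ => ?_
    simp only
    rw [hFC, Matrix.mulVec_mulVec, Matrix.mulVec_mulVec]
    have h : A ^ k * C = C * A ^ k := (Commute.pow_left (show Commute A C from hC) k)
    rw [h]

theorem diff_eq {n : ℕ} (A : Matrix (Fin n) (Fin n) ℂ) (hA : IsUnit A)
    (f : ℝ × ℝ → (Fin n → ℂ)) (hf : ContDiff ℝ ∞ f) :
    ∃ g : ℝ × ℝ → (Fin n → ℂ), ContDiff ℝ ∞ g ∧
      (∀ s t : ℝ, g (s + 1, t) = A *ᵥ g (s, t) + f (s, t)) ∧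
      (∀ C : Matrix (Fin n) (Fin n) ℂ, A * C = C * A →
        (∀ s t : ℝ, f (s, t + 1) = C *ᵥ f (s, t)) → ∀ s t : ℝ, g (s, t + 1) = C *ᵥ g (s, t)) := by
  obtain ⟨u, rfl⟩ := hA
  set ψ : ℝ → ℝ := Real.smoothTransition with hψ
  have hψs : ContDiff ℝ ∞ ψ := Real.smoothTransition.contDiff
  -- the positive part
  obtain ⟨g₁, hg₁s, hg₁r, hg₁C⟩ := diff_plus (u : Matrix (Fin n) (Fin n) ℂ)
    (fun p => ψ p.1 • f p) ((hψs.comp contDiff_fst).smul hf)
    (fun s t hs => by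
      simp only [hψ]
      rw [Real.smoothTransition.zero_of_nonpos hs, zero_smul])
  -- the negative part
  have hsm : ContDiff ℝ ∞ (fun p : ℝ × ℝ => -((↑(u⁻¹) : Matrix (Fin n) (Fin n) ℂ) *ᵥ
      ((1 - ψ (1 - p.1)) • f (1 - p.1, p.2)))) := by
    let L : (Fin n → ℂ) →L[ℝ] (Fin n → ℂ) :=
      LinearMap.toContinuousLinearMap
        ((Matrix.mulVecLin (↑(u⁻¹) : Matrix (Fin n) (Fin n) ℂ)).restrictScalars ℝ)
    have h1 : ContDiff ℝ ∞ (fun p : ℝ × ℝ => (1 - ψ (1 - p.1)) • f (1 - p.1, p.2)) := by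
      have h2 : ContDiff ℝ ∞ (fun p : ℝ × ℝ => 1 - p.1) := contDiff_const.sub contDiff_fst
      exact (contDiff_const.sub (hψs.comp h2)).smul (hf.comp (h2.prodMk contDiff_snd))
    exact (L.contDiff.comp h1).neg
  obtain ⟨h, hhs, hhr, hhC⟩ := diff_plus (↑(u⁻¹) : Matrix (Fin n) (Fin n) ℂ)
    (fun p : ℝ × ℝ => -((↑(u⁻¹) : Matrix (Fin n) (Fin n) ℂ) *ᵥ
      ((1 - ψ (1 - p.1)) • f (1 - p.1, p.2)))) hsm
    (fun s t hs => by
      simp only [hψ]
      rw [Real.smoothTransition.one_of_one_le (by linarith), sub_self, zero_smul,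
        Matrix.mulVec_zero, neg_zero])
  have huu : (u : Matrix (Fin n) (Fin n) ℂ) * (↑(u⁻¹) : Matrix (Fin n) (Fin n) ℂ) = 1 :=
    Units.mul_inv u
  refine ⟨fun p => g₁ p + h (2 - p.1, p.2), ?_, ?_, ?_⟩
  · apply hg₁s.add
    exact hhs.comp ((contDiff_const.sub contDiff_fst).prodMk contDiff_snd)
  · intro s t
    simp only
    have e := hhr (1 - s) t
    rw [show (1 - s + 1 : ℝ) = 2 - s by ring] at e
    rw [show (2 - (s + 1) : ℝ) = 1 - s by ring, hg₁r, e]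
    simp only [sub_sub_cancel]
    rw [Matrix.mulVec_add, Matrix.mulVec_add, Matrix.mulVec_mulVec, huu, Matrix.one_mulVec,
      Matrix.mulVec_neg, Matrix.mulVec_mulVec, huu, Matrix.one_mulVec, sub_smul, one_smul]
    abel
  · intro C hC hfC s t
    simp only
    have hC' : (↑(u⁻¹) : Matrix (Fin n) (Fin n) ℂ) * C =
        C * (↑(u⁻¹) : Matrix (Fin n) (Fin n) ℂ) :=
      (Commute.units_inv_left (show Commute (u : Matrix (Fin n) (Fin n) ℂ) C from hC))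
    rw [hg₁C C hC (fun s t => by simp only; rw [hfC, Matrix.mulVec_smul]),
      hhC C hC' (fun s t => by
        simp only
        rw [hfC, ← Matrix.mulVec_smul, Matrix.mulVec_mulVec, Matrix.mulVec_neg,
          Matrix.mulVec_mulVec, hC']),
      Matrix.mulVec_add]

theorem solve_cocycle {n : ℕ} (A B : Matrix (Fin n) (Fin n) ℂ) (hA : IsUnit A) (hB : IsUnit B)
    (hAB : A * B = B * A) (a b : ℝ × ℝ → (Fin n → ℂ)) (ha : ContDiff ℝ ∞ a) (hb : ContDiff ℝ ∞ b)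
    (c : Fin n → ℂ)
    (hc : ∀ s t : ℝ, A *ᵥ (b (s, t)) + a (s, t + 1) - B *ᵥ (a (s, t)) - b (s + 1, t) = c) :
    ∃ (ρ : ℝ × ℝ → (Fin n → ℂ)) (σ : ℂ → (Fin n → ℂ)), ContDiff ℝ ∞ ρ ∧ ContDiff ℂ ∞ σ ∧
      (∀ s t : ℝ, a (s, t) + ρ (s + 1, t) = A *ᵥ (ρ (s, t))) ∧
      (∀ s t : ℝ, b (s, t) + ρ (s, t + 1) = B *ᵥ (ρ (s, t)) + σ (s + t * I)) := by
  obtain ⟨σ, hσs, hσ⟩ := exists_sigma A c
  obtain ⟨ρ₁, hρ₁s, hρ₁, -⟩ := diff_eq A hA (fun p => -a p) ha.neg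
  have hσr : ContDiff ℝ ∞ (fun p : ℝ × ℝ => σ ((p.1 : ℂ) + (p.2 : ℂ) * I)) := by
    have h1 : ContDiff ℝ ∞ σ := hσs.restrict_scalars ℝ
    have h2 : ContDiff ℝ ∞ (fun p : ℝ × ℝ => ((p.1 : ℂ) + (p.2 : ℂ) * I)) := by
      have hr : ContDiff ℝ ∞ (fun x : ℝ => (x : ℂ)) := Complex.ofRealCLM.contDiff
      exact (hr.comp contDiff_fst).add ((hr.comp contDiff_snd).mul contDiff_const)
    exact h1.comp h2
  have hBs : ContDiff ℝ ∞ (fun p : ℝ × ℝ => B *ᵥ ρ₁ p) := by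
    let L : (Fin n → ℂ) →L[ℝ] (Fin n → ℂ) :=
      LinearMap.toContinuousLinearMap ((Matrix.mulVecLin B).restrictScalars ℝ)
    exact L.contDiff.comp hρ₁s
  set β : ℝ × ℝ → (Fin n → ℂ) := fun p =>
    b p + ρ₁ (p.1, p.2 + 1) - B *ᵥ ρ₁ p - σ ((p.1 : ℂ) + (p.2 : ℂ) * I) with hβ
  have hβs : ContDiff ℝ ∞ β := by
    have h1 : ContDiff ℝ ∞ (fun p : ℝ × ℝ => ρ₁ (p.1, p.2 + 1)) :=
      hρ₁s.comp (contDiff_fst.prodMk (contDiff_snd.add contDiff_const))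
    exact ((hb.add h1).sub hBs).sub hσr
  have hβA : ∀ s t : ℝ, β (s + 1, t) = A *ᵥ β (s, t) := by
    intro s t
    simp only [hβ]
    have e1 := hc s t
    have e2 : σ ((((s + 1 : ℝ)) : ℂ) + (t : ℂ) * I) = A *ᵥ σ ((s : ℂ) + (t : ℂ) * I) - c := by
      rw [← hσ]
      congr 1
      push_cast
      ring
    rw [e2, hρ₁, hρ₁, Matrix.mulVec_sub, Matrix.mulVec_sub, Matrix.mulVec_add, Matrix.mulVec_add,
      Matrix.mulVec_neg, Matrix.mulVec_mulVec, Matrix.mulVec_mulVec, hAB, ← e1]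
    abel
  obtain ⟨g, hgs, hg, hgC⟩ := diff_eq B hB (fun p => -β (p.2, p.1))
    ((hβs.comp (contDiff_snd.prodMk contDiff_fst)).neg)
  have hgA : ∀ s t : ℝ, g (s, t + 1) = A *ᵥ g (s, t) := by
    refine hgC A hAB.symm ?_
    intro s t
    simp only
    rw [hβA, Matrix.mulVec_neg]
  refine ⟨fun p => ρ₁ p + g (p.2, p.1), σ, ?_, hσs, ?_, ?_⟩
  · exact hρ₁s.add (hgs.comp (contDiff_snd.prodMk contDiff_fst))
  · intro s t
    simp only
    rw [hρ₁, hgA, Matrix.mulVec_add]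
    abel
  · intro s t
    simp only
    rw [hg, Matrix.mulVec_add]
    simp only [hβ]
    abel

end TaskE

end Pool.Agent.TorusBundle
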