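import Mathlib

set_option autoImplicit false
open scoped Matrix Topology
open Polynomial

namespace Pool.Agent.TorusBundle

/-- in a commutative real Banach algebra the endpoint of a path of units starting at 1 is an
exponential -/
theorem exists_log_of_path {K : Type*} [NormedRing K] [NormedAlgebra ℝ K] [CompleteSpace K]
    (hcomm : ∀ x y : K, Commute x y) (γ : unitInterval → K) (hγ : Continuous γ)
    (hu : ∀ t, IsUnit (γ t)) (h0 : γ 0 = 1) : ∃ X : K, NormedSpace.exp X = γ 1 := by
  let _ : NormedAlgebra ℚ K := NormedAlgebra.restrictScalars ℚ ℝ K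
  have hnhds : ∀ᶠ y in 𝓝 (1 : K), ∃ Z : K, NormedSpace.exp Z = y := by
    have h1 : HasStrictFDerivAt (NormedSpace.exp : K → K)
        ((ContinuousLinearEquiv.refl ℝ K : K ≃L[ℝ] K) : K →L[ℝ] K) 0 := by
      have := hasStrictFDerivAt_exp_zero (𝕂 := ℝ) (𝔸 := K)
      exact this
    have h2 := h1.map_nhds_eq_of_equiv
    rw [NormedSpace.exp_zero] at h2
    rw [← h2, Filter.eventually_map]
    exact Filter.Eventually.of_forall fun x => ⟨x, rfl⟩
  let S : unitInterval → Prop := fun t => ∃ X : K, NormedSpace.exp X = γ t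
  have hS : IsLocallyConstant S := by
    rw [IsLocallyConstant.iff_eventually_eq]
    intro s
    obtain ⟨u, hu'⟩ := hu s
    have hc : ContinuousAt (fun t => γ t * (↑u⁻¹ : K)) s := by fun_prop
    have hc1 : γ s * (↑u⁻¹ : K) = 1 := by rw [← hu']; exact u.mul_inv
    have := hc.eventually (hc1 ▸ hnhds : ∀ᶠ y in 𝓝 (γ s * (↑u⁻¹ : K)), ∃ Z : K, NormedSpace.exp Z = y)
    filter_upwards [this] with t ht
    obtain ⟨Z, hZ⟩ := ht
    have e1 : γ t = NormedSpace.exp Z * γ s := by
      rw [hZ, ← hu', mul_assoc, u.inv_mul, mul_one]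
    apply propext
    constructor
    · rintro ⟨X, hX⟩
      refine ⟨-Z + X, ?_⟩
      rw [NormedSpace.exp_add_of_commute (hcomm _ _), hX, e1, ← mul_assoc,
        ← NormedSpace.exp_add_of_commute (hcomm _ _), neg_add_cancel, NormedSpace.exp_zero, one_mul]
    · rintro ⟨X, hX⟩
      refine ⟨Z + X, ?_⟩
      rw [NormedSpace.exp_add_of_commute (hcomm _ _), hX, e1]
  have : S 1 = S 0 := hS.apply_eq_of_preconnectedSpace 1 0
  have h00 : S 0 := ⟨0, by rw [NormedSpace.exp_zero, h0]⟩
  show S 1
  rw [this]; exact h00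


/-- an element of a commutative subalgebra of a finite-dimensional algebra, joined to 1 by a segment
of invertible elements, is the exponential of an element of the subalgebra -/
theorem exists_log_mem {A : Type*} [NormedRing A] [NormedAlgebra ℝ A] [FiniteDimensional ℝ A]
    (K : Subalgebra ℝ A)
    (hcomm : ∀ x ∈ K, ∀ y ∈ K, x * y = y * x) (M : A) (hM : M ∈ K)
    (hu : ∀ s : ℝ, 0 ≤ s → s ≤ 1 → IsUnit ((1 - s) • (1 : A) + s • M)) :
    ∃ X ∈ K, NormedSpace.exp X = M := by
  have hfd : FiniteDimensional ℝ K := by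
    change FiniteDimensional ℝ (Subalgebra.toSubmodule K)
    infer_instance
  have hcA : CompleteSpace A := FiniteDimensional.complete ℝ A
  have hcs : CompleteSpace K := FiniteDimensional.complete ℝ K
  let γ : unitInterval → K := fun t => (1 - (t : ℝ)) • (1 : K) + (t : ℝ) • (⟨M, hM⟩ : K)
  have hγ : Continuous γ := by fun_prop
  have hK : ∀ x : K, IsUnit (x : A) → IsUnit x := by
    intro x hx
    have hinj : Function.Injective (LinearMap.mulLeft ℝ x) := by
      intro a b hab
      have : (x : A) * a = x * b := congrArg Subtype.val hab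
      exact Subtype.ext (hx.mul_left_cancel this)
    obtain ⟨y, hy⟩ := (LinearMap.injective_iff_surjective.mp hinj) 1
    have hy' : x * y = 1 := hy
    have hy2 : y * x = 1 := by
      rw [← hy']; exact Subtype.ext (hcomm _ y.2 _ x.2)
    exact ⟨⟨x, y, hy', hy2⟩, rfl⟩
  obtain ⟨X, hX⟩ := exists_log_of_path (K := K) (fun x y => Subtype.ext (hcomm _ x.2 _ y.2)) γ hγ
    (fun t => hK _ (hu t t.2.1 t.2.2)) (by
      apply Subtype.ext
      simp [γ])
  refine ⟨X, X.2, ?_⟩
  let _ : NormedAlgebra ℚ K := NormedAlgebra.restrictScalars ℚ ℝ K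
  let _ : NormedAlgebra ℚ A := NormedAlgebra.restrictScalars ℚ ℝ _
  have h1 := NormedSpace.map_exp K.val continuous_subtype_val X
  have h2 : K.val (NormedSpace.exp X) = M := by
    rw [hX]; simp [γ]
  rw [← h2, h1]; rfl

theorem exists_log_matrix {n : ℕ} (K : Subalgebra ℝ (Matrix (Fin n) (Fin n) ℝ))
    (hcomm : ∀ x ∈ K, ∀ y ∈ K, x * y = y * x) (M : Matrix (Fin n) (Fin n) ℝ) (hM : M ∈ K)
    (hu : ∀ s : ℝ, 0 ≤ s → s ≤ 1 → IsUnit ((1 - s) • (1 : Matrix (Fin n) (Fin n) ℝ) + s • M)) :
    ∃ X ∈ K, NormedSpace.exp X = M := by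
  let _ : NormedRing (Matrix (Fin n) (Fin n) ℝ) := Matrix.linftyOpNormedRing
  let _ : NormedAlgebra ℝ (Matrix (Fin n) (Fin n) ℝ) := Matrix.linftyOpNormedAlgebra
  exact exists_log_mem K hcomm M hM hu

theorem aeval_mulVec_eig {n : ℕ} (A : Matrix (Fin n) (Fin n) ℝ) (w : Fin n → ℝ) (r : ℝ)
    (h : A *ᵥ w = r • w) (P : ℝ[X]) : (aeval A P) *ᵥ w = P.eval r • w := by
  induction P using Polynomial.induction_on' with
  | add p q hp hq => rw [map_add, Matrix.add_mulVec, hp, hq, eval_add, add_smul]
  | monomial k a =>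
    have hk : ∀ k : ℕ, (A ^ k) *ᵥ w = r ^ k • w := by
      intro k
      induction k with
      | zero => simp
      | succ k ih => rw [pow_succ, ← Matrix.mulVec_mulVec, h, Matrix.mulVec_smul, ih, smul_smul,
          pow_succ, mul_comm]
    rw [aeval_monomial, eval_monomial, ← Matrix.mulVec_mulVec, hk, Algebra.algebraMap_eq_smul_one,
      Matrix.smul_mulVec, Matrix.one_mulVec, smul_smul]

theorem commute_aeval {n : ℕ} (A B : Matrix (Fin n) (Fin n) ℝ) (h : Commute A B) (P : ℝ[X]) :
    Commute A (aeval B P) := by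
  induction P using Polynomial.induction_on' with
  | add p q hp hq => rw [map_add]; exact hp.add_right hq
  | monomial k a =>
    rw [aeval_monomial]
    exact Commute.mul_right (Algebra.commutes a A).symm (h.pow_right k)

theorem commute_aeval_aeval {n : ℕ} (A B : Matrix (Fin n) (Fin n) ℝ) (h : Commute A B)
    (P Q : ℝ[X]) : Commute (aeval A P) (aeval B Q) :=
  commute_aeval _ _ (commute_aeval _ _ h.symm P).symm Q

theorem isCoprime_prod {s : Multiset ℝ} {p : ℝ[X]} (h : ∀ a ∈ s, p.eval a ≠ 0) :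
    IsCoprime (s.map fun a => X - C a).prod p := by
  induction s using Multiset.induction_on with
  | empty => simpa using isCoprime_one_left
  | cons a s ih =>
    rw [Multiset.map_cons, Multiset.prod_cons]
    refine IsCoprime.mul_left ?_ (ih fun b hb => h b (Multiset.mem_cons_of_mem hb))
    rw [(Polynomial.irreducible_X_sub_C a).coprime_iff_not_dvd, Polynomial.dvd_iff_isRoot]
    exact h a (Multiset.mem_cons_self a s)

theorem eval_prod_ne {s : Multiset ℝ} {r : ℝ} (h : ∀ a ∈ s, r ≠ a) :
    ((s.map fun a => X - C a).prod).eval r ≠ 0 := by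
  rw [Polynomial.eval_multiset_prod, Multiset.map_map]
  apply Multiset.prod_ne_zero
  intro h0
  obtain ⟨a, ha, ha'⟩ := Multiset.mem_map.mp h0
  simp at ha'
  exact h a ha (sub_eq_zero.mp ha')

theorem exists_sign_single {n : ℕ} (A : Matrix (Fin n) (Fin n) ℝ) (hA : 0 < A.det) :
    ∃ P Q : ℝ[X], aeval A P * aeval A P = 1 ∧ 0 < (aeval A P).det ∧
      aeval A P * NormedSpace.exp (aeval A Q) = A := by
  classical
  obtain ⟨q, hq, -, hq0⟩ := exists_prod_multiset_X_sub_C_mul A.charpoly
  have hch : A.charpoly ≠ 0 := A.charpoly_monic.ne_zero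
  have hqne : q ≠ 0 := by
    rintro rfl; rw [mul_zero] at hq; exact hch hq.symm
  have hqr : ∀ r, q.eval r ≠ 0 := by
    intro r hr
    have : r ∈ q.roots := (mem_roots hqne).mpr hr
    rw [hq0] at this; exact absurd this (Multiset.notMem_zero r)
  set pm : ℝ[X] := ((A.charpoly.roots.filter (· < 0)).map fun a => X - C a).prod with hpm
  set p0 : ℝ[X] := ((A.charpoly.roots.filter (fun a => ¬ a < 0)).map fun a => X - C a).prod
    with hp0
  set pp : ℝ[X] := p0 * q with hpp
  have hprod : pm * pp = A.charpoly := by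
    rw [hpp, ← mul_assoc, hpm, hp0, ← Multiset.prod_add, ← Multiset.map_add,
      Multiset.filter_add_not]
    exact hq
  have hpm_ne : ∀ r : ℝ, 0 ≤ r → pm.eval r ≠ 0 := by
    intro r hr
    apply eval_prod_ne
    intro a ha
    have := (Multiset.mem_filter.mp ha).2
    exact (lt_of_lt_of_le this hr).ne'
  have hdet0 : A.charpoly.eval 0 ≠ 0 := by
    rw [Matrix.eval_charpoly]
    simp [Matrix.det_neg, hA.ne']
  have hpp_ne : ∀ r : ℝ, r ≤ 0 → pp.eval r ≠ 0 := by
    intro r hr
    rcases hr.lt_or_eq with hr | rfl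
    · rw [hpp, eval_mul]
      refine mul_ne_zero (eval_prod_ne ?_) (hqr r)
      intro a ha h
      have := (Multiset.mem_filter.mp ha).2
      rw [← h] at this; exact this hr
    · intro h
      rw [← hprod, eval_mul, h, mul_zero] at hdet0
      exact hdet0 rfl
  have hcop : IsCoprime pm pp := by
    apply isCoprime_prod
    intro a ha
    exact hpp_ne a (Multiset.mem_filter.mp ha).2.le
  obtain ⟨a, b, hab⟩ := hcop
  set e : Matrix (Fin n) (Fin n) ℝ := aeval A (b * pp) with he
  have he' : 1 - e = aeval A (a * pm) := by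
    rw [he, sub_eq_iff_eq_add, ← map_add, hab, map_one]
  have hCH : aeval A (pm * pp) = 0 := by rw [hprod]; exact Matrix.aeval_self_charpoly A
  have hee : e * e = e := by
    have : e * (1 - e) = 0 := by
      rw [he', he, ← map_mul, show b * pp * (a * pm) = (a * b) * (pm * pp) by ring, map_mul, hCH,
        mul_zero]
    rw [mul_sub, mul_one, sub_eq_zero] at this
    exact this.symm
  have heA : e * A = A * e := ((commute_aeval A A (Commute.refl A) (b * pp)).eq).symm
  set E : Matrix (Fin n) (Fin n) ℝ := 1 - (2 : ℝ) • e with hE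
  have hEE : E * E = 1 := by
    rw [hE, sub_mul, one_mul, mul_sub, mul_one, smul_mul_smul_comm, hee]
    module
  have heE : e * E = -e := by
    rw [hE, mul_sub, mul_one, mul_smul_comm, hee]; module
  have heE' : (1 - e) * E = 1 - e := by
    rw [sub_mul, one_mul, heE, hE]; module
  have hpme : aeval A pm * e = 0 := by
    rw [he, ← map_mul, show pm * (b * pp) = b * (pm * pp) by ring, map_mul, hCH, mul_zero]
  have hppe : aeval A pp * (1 - e) = 0 := by
    rw [he', ← map_mul, show pp * (a * pm) = a * (pm * pp) by ring, map_mul, hCH, mul_zero]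
  have hunit : ∀ s : ℝ, 0 ≤ s → s ≤ 1 →
      IsUnit ((1 - s) • (1 : Matrix (Fin n) (Fin n) ℝ) + s • (E * A)) := by
    intro s hs0 hs1
    rw [← Matrix.mulVec_injective_iff_isUnit]
    have key : ∀ v, ((1 - s) • (1 : Matrix (Fin n) (Fin n) ℝ) + s • (E * A)) *ᵥ v = 0 → v = 0 := by
      intro v hv
      have h1 : (1 - s) • (e *ᵥ v) - s • (A *ᵥ (e *ᵥ v)) = 0 := by
        have := congrArg (fun w => e *ᵥ w) hv
        simp only [Matrix.mulVec_mulVec, Matrix.mulVec_zero] at this
        rw [mul_add, mul_smul_comm, mul_one, mul_smul_comm, ← mul_assoc, heE, neg_mul, heA,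
          Matrix.add_mulVec, Matrix.smul_mulVec, Matrix.smul_mulVec, Matrix.neg_mulVec] at this
        rw [Matrix.mulVec_mulVec, sub_eq_add_neg, ← smul_neg]
        exact this
      have h2 : (1 - s) • ((1 - e) *ᵥ v) + s • (A *ᵥ ((1 - e) *ᵥ v)) = 0 := by
        have := congrArg (fun w => (1 - e) *ᵥ w) hv
        simp only [Matrix.mulVec_mulVec, Matrix.mulVec_zero] at this
        have hcA : (1 - e) * A = A * (1 - e) := by rw [sub_mul, mul_sub, one_mul, mul_one, heA]
        rw [mul_add, mul_smul_comm, mul_one, mul_smul_comm, ← mul_assoc, heE', hcA,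
          Matrix.add_mulVec, Matrix.smul_mulVec, Matrix.smul_mulVec] at this
        rw [Matrix.mulVec_mulVec]
        exact this
      have hv1 : e *ᵥ v = 0 := by
        rcases hs0.eq_or_lt with hs | hs
        · rw [← hs] at h1; simpa using h1
        · have h3 : A *ᵥ (e *ᵥ v) = ((1 - s) / s) • (e *ᵥ v) := by
            have : s • (A *ᵥ (e *ᵥ v)) = (1 - s) • (e *ᵥ v) := (sub_eq_zero.mp h1).symm
            rw [div_eq_inv_mul, mul_smul, ← this, smul_smul, inv_mul_cancel₀ hs.ne', one_smul]
          have h4 := aeval_mulVec_eig A _ _ h3 pm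
          rw [Matrix.mulVec_mulVec, hpme, Matrix.zero_mulVec] at h4
          have h5 := hpm_ne ((1 - s) / s) (div_nonneg (by linarith) hs.le)
          exact (smul_eq_zero.mp h4.symm).resolve_left h5
      have hv2 : (1 - e) *ᵥ v = 0 := by
        rcases hs0.eq_or_lt with hs | hs
        · rw [← hs] at h2; simpa using h2
        · have h3 : A *ᵥ ((1 - e) *ᵥ v) = (-((1 - s) / s)) • ((1 - e) *ᵥ v) := by
            have : s • (A *ᵥ ((1 - e) *ᵥ v)) = -((1 - s) • ((1 - e) *ᵥ v)) :=
              (neg_eq_of_add_eq_zero_right h2).symm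
            rw [neg_smul, div_eq_inv_mul, mul_smul, ← smul_neg, ← this, smul_smul,
              inv_mul_cancel₀ hs.ne', one_smul]
          have h4 := aeval_mulVec_eig A _ _ h3 pp
          rw [Matrix.mulVec_mulVec, hppe, Matrix.zero_mulVec] at h4
          have h5 := hpp_ne (-((1 - s) / s)) (neg_nonpos.mpr (div_nonneg (by linarith) hs.le))
          exact (smul_eq_zero.mp h4.symm).resolve_left h5
      have : v = e *ᵥ v + (1 - e) *ᵥ v := by
        rw [← Matrix.add_mulVec, add_sub_cancel, Matrix.one_mulVec]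
      rw [this, hv1, hv2, add_zero]
    intro v w hvw
    have := key (v - w) (by rw [Matrix.mulVec_sub]; exact sub_eq_zero.mpr hvw)
    exact sub_eq_zero.mp this
  have hE_eq : E = aeval A (1 - 2 * (b * pp)) := by
    rw [map_sub, map_one, map_mul, ← he, hE, show (2 : ℝ[X]) = C 2 from rfl, aeval_C,
      Algebra.algebraMap_eq_smul_one, smul_mul_assoc, one_mul]
  obtain ⟨Y, hY, hY'⟩ := exists_log_matrix (aeval A).range (by
      rintro _ ⟨x, rfl⟩ _ ⟨y, rfl⟩
      exact ((commute_aeval_aeval A A (Commute.refl A) x y).eq)) (E * A)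
      ⟨(1 - 2 * (b * pp)) * X, by
        show aeval A ((1 - 2 * (b * pp)) * X) = E * A
        rw [map_mul, ← hE_eq, aeval_X]⟩ hunit
  obtain ⟨Q, rfl⟩ := hY
  refine ⟨1 - 2 * (b * pp), Q, ?_, ?_, ?_⟩
  · rw [← hE_eq]; exact hEE
  · rw [← hE_eq]
    have h1 : NormedSpace.exp (aeval A Q) = E * A := hY'
    have h2 : 0 ≤ (NormedSpace.exp (aeval A Q)).det := by
      have : aeval A Q = (1 / 2 : ℝ) • aeval A Q + (1 / 2 : ℝ) • aeval A Q := by module
      rw [this, Matrix.exp_add_of_commute _ _ (Commute.refl _), Matrix.det_mul]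
      exact mul_self_nonneg _
    rw [h1, Matrix.det_mul] at h2
    have h3 : 0 ≤ E.det := nonneg_of_mul_nonneg_left h2 hA
    have h4 : E.det ≠ 0 := by
      intro h
      have := congrArg Matrix.det hEE
      rw [Matrix.det_mul, h, mul_zero, Matrix.det_one] at this
      exact zero_ne_one this
    exact lt_of_le_of_ne h3 h4.symm
  · rw [← hE_eq]
    have h1 : NormedSpace.exp (aeval A Q) = E * A := hY'
    rw [h1, ← mul_assoc, hEE, one_mul]

theorem exists_signs {n : ℕ} (A B : Matrix (Fin n) (Fin n) ℝ) (hAB : A * B = B * A)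
    (hA : 0 < A.det) (hB : 0 < B.det) :
    ∃ E D X Y : Matrix (Fin n) (Fin n) ℝ, E * E = 1 ∧ D * D = 1 ∧ 0 < E.det ∧ 0 < D.det ∧
      Commute E D ∧ Commute X Y ∧ Commute E X ∧ Commute E Y ∧ Commute D X ∧ Commute D Y ∧
      E * NormedSpace.exp X = A ∧ D * NormedSpace.exp Y = B := by
  obtain ⟨P, Q, h1, h2, h3⟩ := exists_sign_single A hA
  obtain ⟨P', Q', h1', h2', h3'⟩ := exists_sign_single B hB
  have hc : Commute A B := hAB
  exact ⟨aeval A P, aeval B P', aeval A Q, aeval B Q', h1, h1', h2, h2',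
    commute_aeval_aeval _ _ hc _ _, commute_aeval_aeval _ _ hc _ _,
    commute_aeval_aeval _ _ (Commute.refl A) _ _, commute_aeval_aeval _ _ hc _ _,
    commute_aeval_aeval _ _ hc.symm _ _, commute_aeval_aeval _ _ (Commute.refl B) _ _, h3, h3'⟩

end Pool.Agent.TorusBundle
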