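import Mathlib
import Pool.Agent.Lib.MP_1d980c_gt.Base
import Pool.Agent.Lib.MP_1d980c_gt.Signs

set_option autoImplicit false
set_option linter.unusedSectionVars false
open scoped Topology Matrix
open Complex Finset Filter ComplexConjugate

namespace Pool.Agent.TorusBundle

section Aut

variable {ι κ : Type} [Fintype ι] [Fintype κ] [DecidableEq ι] [DecidableEq κ]

/-- Quasi-periodicity of a family with respect to the period `s` and the matrix `B`. -/
def Aut (s : ℂ) (B : Matrix κ κ ℂ) (L : ℂ → Matrix ι κ ℂ) : Prop :=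
  ∃ G H : ℂ → Matrix ι ι ℂ, (∀ r q, Differentiable ℂ (fun w => G w r q)) ∧
    (∀ r q, Differentiable ℂ (fun w => H w r q)) ∧ (∀ w, G w * H w = 1) ∧ (∀ w, H w * G w = 1) ∧
    ∀ w, L (w + s) * B = G w * L w

lemma Aut.pow {s : ℂ} {B : Matrix κ κ ℂ} {L : ℂ → Matrix ι κ ℂ} (h : Aut s B L) (n : ℕ) :
    Aut (n * s) (B ^ n) L := by
  obtain ⟨G, H, hG, hH, hGH, hHG, hL⟩ := h
  induction n with
  | zero =>
    refine ⟨fun _ => 1, fun _ => 1, fun r q => differentiable_const _, fun r q => differentiable_const _,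
      fun _ => one_mul _, fun _ => one_mul _, fun w => ?_⟩
    simp
  | succ n ih =>
    obtain ⟨G', H', hG', hH', hGH', hHG', hL'⟩ := ih
    refine ⟨fun w => G (w + n * s) * G' w, fun w => H' w * H (w + n * s), ?_, ?_, ?_, ?_, ?_⟩
    · intro r q
      simp only [Matrix.mul_apply]
      exact Differentiable.fun_sum fun k _ =>
        ((hG r k).comp (differentiable_id.add_const _)).mul (hG' k q)
    · intro r q
      simp only [Matrix.mul_apply]
      exact Differentiable.fun_sum fun k _ =>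
        (hH' r k).mul ((hH k q).comp (differentiable_id.add_const _))
    · intro w
      show G (w + n * s) * G' w * (H' w * H (w + n * s)) = 1
      rw [Matrix.mul_assoc, ← Matrix.mul_assoc (G' w), hGH', Matrix.one_mul, hGH]
    · intro w
      show H' w * H (w + n * s) * (G (w + n * s) * G' w) = 1
      rw [Matrix.mul_assoc, ← Matrix.mul_assoc (H (w + n * s)), hHG, Matrix.one_mul, hHG']
    · intro w
      have e : w + ((n + 1 : ℕ) : ℂ) * s = (w + n * s) + s := by push_cast; ring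
      rw [e, pow_succ', ← Matrix.mul_assoc, hL, Matrix.mul_assoc, hL', ← Matrix.mul_assoc]

lemma Aut.scale {s : ℂ} {B : Matrix κ κ ℂ} {L : ℂ → Matrix ι κ ℂ} {n : ℂ} (h : Aut (n * s) B L) :
    Aut s B (fun w => L (n * w)) := by
  obtain ⟨G, H, hG, hH, hGH, hHG, hL⟩ := h
  refine ⟨fun w => G (n * w), fun w => H (n * w), ?_, ?_, fun w => hGH _, fun w => hHG _, fun w => ?_⟩
  · intro r q
    exact (hG r q).comp (differentiable_id.const_mul n)
  · intro r q
    exact (hH r q).comp (differentiable_id.const_mul n)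
  · show L (n * (w + s)) * B = _
    rw [mul_add]
    exact hL (n * w)

lemma map_mulVec_real (B : Matrix κ κ ℝ) (v : κ → ℝ) :
    B.map Complex.ofReal *ᵥ (fun k => (v k : ℂ)) = fun k => ((B *ᵥ v) k : ℂ) := by
  funext k
  simp [Matrix.mulVec, dotProduct]

lemma Aut.NDg_iff {s : ℂ} {B : Matrix κ κ ℝ} (hB : IsUnit B) {L : ℂ → Matrix ι κ ℂ}
    (h : Aut s (B.map Complex.ofReal) L) (w : ℂ) : NDg (L (w + s)) ↔ NDg (L w) := by
  obtain ⟨G, H, -, -, hGH, hHG, hL⟩ := h
  have hinj := Matrix.mulVec_injective_iff_isUnit.2 hB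
  have key : ∀ v : κ → ℝ, L (w + s) *ᵥ (fun k => ((B *ᵥ v) k : ℂ)) =
      G w *ᵥ (L w *ᵥ (fun k => (v k : ℂ))) := by
    intro v
    rw [← map_mulVec_real, Matrix.mulVec_mulVec, hL, Matrix.mulVec_mulVec]
  constructor
  · intro h v hv
    have h1 := h (B *ᵥ v) (by rw [key, hv, Matrix.mulVec_zero])
    exact hinj (by rw [h1, Matrix.mulVec_zero])
  · intro h v hv
    obtain ⟨u, rfl⟩ : ∃ u, B *ᵥ u = v := by
      have hdet := (Matrix.isUnit_iff_isUnit_det B).1 hB
      exact ⟨B⁻¹ *ᵥ v, by rw [Matrix.mulVec_mulVec, Matrix.mul_nonsing_inv B hdet, Matrix.one_mulVec]⟩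
    rw [key] at hv
    have h1 : L w *ᵥ (fun k => (u k : ℂ)) = 0 := by
      have h2 := congrArg (fun x => H w *ᵥ x) hv
      simp only [Matrix.mulVec_mulVec, Matrix.mulVec_zero] at h2
      rw [← Matrix.mul_assoc, hHG, Matrix.one_mul] at h2
      exact h2
    rw [h u h1, Matrix.mulVec_zero]

lemma NDg_add_int {s : ℂ} {L : ℂ → Matrix ι κ ℂ} (h : ∀ w, NDg (L (w + s)) ↔ NDg (L w)) (n : ℤ) :
    ∀ w : ℂ, NDg (L (w + n * s)) ↔ NDg (L w) := by
  induction n with
  | zero => intro w; simp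
  | succ k ih =>
    intro w
    rw [← ih w, ← h (w + (k : ℤ) * s)]
    push_cast
    rw [show w + ((k : ℂ) + 1) * s = w + k * s + s by ring]
  | pred k ih =>
    intro w
    rw [← ih w, ← h (w + ((-(k : ℤ) - 1 : ℤ) : ℂ) * s)]
    push_cast
    rw [show w + (-(k : ℂ) - 1) * s + s = w + -(k : ℂ) * s by ring]

lemma NDg_all {L : ℂ → Matrix ι κ ℂ} (h1 : ∀ w, NDg (L (w + 1)) ↔ NDg (L w))
    (h2 : ∀ w, NDg (L (w + I)) ↔ NDg (L w)) (h : ∀ w ∈ KK, NDg (L w)) (w : ℂ) : NDg (L w) := by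
  have hw : w = ((⟨Int.fract w.re, Int.fract w.im⟩ : ℂ) + (⌊w.re⌋ : ℤ) * 1) + (⌊w.im⌋ : ℤ) * I := by
    apply Complex.ext <;> simp
  rw [hw, NDg_add_int h2, NDg_add_int h1]
  apply h
  unfold KK
  rw [Complex.mem_reProdIm]
  exact ⟨⟨Int.fract_nonneg _, (Int.fract_lt_one _).le⟩, ⟨Int.fract_nonneg _, (Int.fract_lt_one _).le⟩⟩

lemma Aut_Gam {a c : ι → ℂ} {G : Matrix ι ι ℂ} (hG : IsUnit G) {s : ℂ} {B : Matrix κ κ ℂ}
    {L : ℂ → Matrix ι κ ℂ} (h : ∀ w, L (w + s) * B = Gam a c G w * L w) : Aut s B L := by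
  have hdet := (Matrix.isUnit_iff_isUnit_det G).1 hG
  have e : ∀ w, Gam a c G w = Matrix.diagonal (fun r => cexp (a r * w + c r)) * G := by
    intro w
    ext r q
    rw [Matrix.diagonal_mul]; rfl
  refine ⟨fun w => Gam a c G w, fun w => G⁻¹ * Matrix.diagonal (fun r => cexp (-(a r * w + c r))),
    ?_, ?_, ?_, ?_, h⟩
  · intro r q
    unfold Gam
    fun_prop
  · intro r q
    simp only [Matrix.mul_diagonal]
    fun_prop
  · intro w
    show Gam a c G w * _ = 1
    rw [e, Matrix.mul_assoc, ← Matrix.mul_assoc G, Matrix.mul_nonsing_inv G hdet, Matrix.one_mul,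
      Matrix.diagonal_mul_diagonal]
    simp only [← Complex.exp_add, add_neg_cancel, Complex.exp_zero]
    exact Matrix.diagonal_one
  · intro w
    show _ * Gam a c G w = 1
    rw [e, Matrix.mul_assoc, ← Matrix.mul_assoc (Matrix.diagonal _), Matrix.diagonal_mul_diagonal]
    simp only [← Complex.exp_add, neg_add_cancel, Complex.exp_zero]
    rw [Matrix.diagonal_one, Matrix.one_mul, Matrix.nonsing_inv_mul G hdet]

lemma Aut_const {G : Matrix ι ι ℂ} (hG : IsUnit G) {s : ℂ} {B : Matrix κ κ ℂ}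
    {L : ℂ → Matrix ι κ ℂ} (h : ∀ w, L (w + s) * B = G * L w) : Aut s B L := by
  refine Aut_Gam (a := 0) (c := 0) hG fun w => ?_
  rw [h]
  congr 1
  funext r q
  simp [Gam]

end Aut

/-- Existence of the equivariant family for commuting matrices of positive determinant. -/
theorem exists_fam (m : ℕ) (hm : 2 ≤ m) (A B : Matrix (Fin (2 * m)) (Fin (2 * m)) ℝ)
    (hAB : A * B = B * A) (hA : 0 < A.det) (hB : 0 < B.det) :
    ∃ L : ℂ → Matrix (Fin m) (Fin (2 * m)) ℂ, (∀ i j, Differentiable ℂ (fun w => L w i j)) ∧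
      Aut 1 (A.map Complex.ofReal) L ∧ Aut I (B.map Complex.ofReal) L ∧
      ∀ w (v : Fin (2 * m) → ℝ), L w *ᵥ (fun k => (v k : ℂ)) = 0 → v = 0 := by
  obtain ⟨E, D, X, Y, hE, hD, hE', hD', hED, hXY, hEX, hEY, hDX, hDY, rfl, rfl⟩ :=
    exists_signs A B hAB hA hB
  obtain ⟨f⟩ := exists_base m hm E D hE hD hED.eq hE' hD'
  -- matrix form of the base family
  set F : ℂ → Matrix (Fin m) (Fin (2 * m)) ℂ := fun w r k => f.F w (Pi.single k 1) r with hFdef
  have hFv : ∀ w (v : Fin (2 * m) → ℝ), F w *ᵥ (fun k => (v k : ℂ)) = f.F w v := by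
    intro w v
    have hv : v = ∑ k, v k • (Pi.single k (1 : ℝ) : Fin (2 * m) → ℝ) := by
      funext j
      simp [Finset.sum_apply, Pi.single_apply]
    conv_rhs => rw [hv, map_sum]
    funext r
    simp only [Matrix.mulVec, dotProduct, Finset.sum_apply, map_smul, Pi.smul_apply, hFdef]
    exact Finset.sum_congr rfl fun k _ => by rw [Complex.real_smul, mul_comm]
  have hcol : ∀ {M N : Matrix (Fin m) (Fin (2 * m)) ℂ},
      (∀ v : Fin (2 * m) → ℝ, M *ᵥ (fun k => (v k : ℂ)) = N *ᵥ (fun k => (v k : ℂ))) → M = N := by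
    intro M N h
    ext r k
    have h1 := congrFun (h (Pi.single k 1)) r
    have e : (fun j => ((Pi.single k (1 : ℝ) : Fin (2 * m) → ℝ) j : ℂ)) = Pi.single k (1 : ℂ) := by
      funext j
      by_cases hj : j = k
      · subst hj; simp
      · simp [Pi.single_eq_of_ne hj]
    rw [e, Matrix.mulVec_single_one, Matrix.mulVec_single_one] at h1
    exact h1
  have hF : ∀ r k, Differentiable ℂ (fun z => F z r k) := fun r k => f.hF _ _
  have hND : ∀ w, NDg (F w) := by
    intro w v hv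
    rw [hFv] at hv
    exact f.inj w v hv
  have h1 : ∀ w, F (w + 1) * E.map Complex.ofReal = f.G₁ * F w := by
    intro w
    apply hcol
    intro v
    rw [← Matrix.mulVec_mulVec, map_mulVec_real, hFv, ← Matrix.mulVec_mulVec, hFv]
    exact f.p₁ w v
  have h2 : ∀ w, F (w + I) * D.map Complex.ofReal = Gam f.a f.c f.G₂ w * F w := by
    intro w
    apply hcol
    intro v
    rw [← Matrix.mulVec_mulVec, map_mulVec_real, hFv, ← Matrix.mulVec_mulVec, hFv]
    exact f.p₂ w v
  -- commutation after complexification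
  have hmapc : ∀ {P Q : Matrix (Fin (2 * m)) (Fin (2 * m)) ℝ}, Commute P Q →
      Commute (P.map Complex.ofReal) (Q.map Complex.ofReal) := fun h =>
    h.map (Complex.ofRealHom.mapMatrix : Matrix (Fin (2 * m)) (Fin (2 * m)) ℝ →+*
      Matrix (Fin (2 * m)) (Fin (2 * m)) ℂ)
  have hKK : IsCompact KK := isCompact_Icc.reProdIm isCompact_Icc
  have hev := perturb hF hND (hmapc hXY) (hmapc hEX) (hmapc hEY) (hmapc hDX) (hmapc hDY) f.ha
    f.hG₁ f.hG₂ h1 h2 hKK
  have htend : Tendsto (fun n : ℕ => ((((2 * n + 1 : ℕ) : ℝ))⁻¹)) atTop (𝓝 0) := by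
    refine tendsto_inv_atTop_zero.comp ?_
    refine tendsto_natCast_atTop_atTop.comp ?_
    refine tendsto_atTop_mono (fun n => ?_) tendsto_id
    simp only [id]; omega
  obtain ⟨n, L, hL, hL1, hL2, hLK⟩ := (htend.eventually hev).exists
  set M : ℕ := 2 * n + 1 with hMdef
  have hM0 : (M : ℝ) ≠ 0 := by exact_mod_cast Nat.succ_ne_zero (2 * n)
  set t : ℝ := ((M : ℝ))⁻¹ with ht
  -- the real matrices at small scale
  have hmapexp : ∀ Z : Matrix (Fin (2 * m)) (Fin (2 * m)) ℝ,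
      NormedSpace.exp ((t : ℂ) • Z.map Complex.ofReal) = (NormedSpace.exp (t • Z)).map Complex.ofReal := by
    intro Z
    rw [map_exp_real]
    congr 1
    ext i j
    simp
  have hprod : ∀ P Z : Matrix (Fin (2 * m)) (Fin (2 * m)) ℝ,
      P.map Complex.ofReal * NormedSpace.exp ((t : ℂ) • Z.map Complex.ofReal) =
        (P * NormedSpace.exp (t • Z)).map Complex.ofReal := by
    intro P Z
    rw [hmapexp]
    exact (Matrix.map_mul (f := Complex.ofRealHom)).symm
  have hpow : ∀ {P Z : Matrix (Fin (2 * m)) (Fin (2 * m)) ℝ}, P * P = 1 → Commute P Z →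
      (P * NormedSpace.exp (t • Z)) ^ M = P * NormedSpace.exp Z := by
    intro P Z hP hPZ
    have hc : Commute P (NormedSpace.exp (t • Z)) := (hPZ.smul_right t).exp_right
    rw [hc.mul_pow, ← Matrix.exp_nsmul]
    congr 1
    · rw [hMdef, pow_succ, pow_mul, pow_two, hP, one_pow, one_mul]
    · congr 1
      rw [← Nat.cast_smul_eq_nsmul ℝ, smul_smul, ht, mul_inv_cancel₀ hM0, one_smul]
  have hunit : ∀ {P Z : Matrix (Fin (2 * m)) (Fin (2 * m)) ℝ}, P * P = 1 →
      IsUnit (P * NormedSpace.exp (t • Z)) := by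
    intro P Z hP
    exact (IsUnit.of_mul_eq_one P hP).mul (Matrix.isUnit_exp _)
  have a1 : Aut 1 ((E * NormedSpace.exp (t • X)).map Complex.ofReal) L :=
    Aut_const f.u₁ fun w => by rw [← hprod]; exact hL1 w
  have a2 : Aut I ((D * NormedSpace.exp (t • Y)).map Complex.ofReal) L :=
    Aut_Gam f.u₂ fun w => by rw [← hprod]; exact hL2 w
  have hall : ∀ w, NDg (L w) := NDg_all (a1.NDg_iff (hunit hE)) (a2.NDg_iff (hunit hD)) hLK
  have hmappow : ∀ P : Matrix (Fin (2 * m)) (Fin (2 * m)) ℝ,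
      (P.map Complex.ofReal) ^ M = (P ^ M).map Complex.ofReal := fun P =>
    (map_pow (Complex.ofRealHom.mapMatrix : Matrix (Fin (2 * m)) (Fin (2 * m)) ℝ →+*
      Matrix (Fin (2 * m)) (Fin (2 * m)) ℂ) P M).symm
  have b1 := (a1.pow M).scale
  have b2 := (a2.pow M).scale
  rw [hmappow, hpow hE hEX] at b1
  rw [hmappow, hpow hD hDY] at b2
  refine ⟨fun w => L ((M : ℂ) * w), ?_, b1, b2, fun w => hall _⟩
  intro i j
  exact (hL i j).comp (differentiable_id.const_mul _)

end Pool.Agent.TorusBundle
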