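import Mathlib

set_option autoImplicit false
open scoped Manifold ContDiff
open Set

namespace Pool.Agent.TorusBundle

section Charts

variable {k : ℕ} {P : Type} [NormedAddCommGroup P] [NormedSpace ℝ P]
    {M : Type} [TopologicalSpace M] [ChartedSpace (EuclideanSpace ℝ (Fin (2 * k))) M]

/-- the chart of the quotient given by a local section of the projection followed by `Φ`. -/
noncomputable def qchart (Ψ : PartialDiffeomorph 𝓘(ℝ, P) (𝓡 (2 * k)) P M ∞)
    (Φ : Diffeomorph 𝓘(ℝ, P) 𝓘(ℝ, EuclideanSpace ℂ (Fin k)) P (EuclideanSpace ℂ (Fin k)) ∞) :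
    OpenPartialHomeomorph M (EuclideanSpace ℂ (Fin k)) :=
  Ψ.toOpenPartialHomeomorph.symm.transHomeomorph Φ.toHomeomorph

lemma qchart_source (Ψ : PartialDiffeomorph 𝓘(ℝ, P) (𝓡 (2 * k)) P M ∞)
    (Φ : Diffeomorph 𝓘(ℝ, P) 𝓘(ℝ, EuclideanSpace ℂ (Fin k)) P (EuclideanSpace ℂ (Fin k)) ∞) :
    (qchart Ψ Φ).source = Ψ.target := rfl

lemma qchart_target (Ψ : PartialDiffeomorph 𝓘(ℝ, P) (𝓡 (2 * k)) P M ∞)
    (Φ : Diffeomorph 𝓘(ℝ, P) 𝓘(ℝ, EuclideanSpace ℂ (Fin k)) P (EuclideanSpace ℂ (Fin k)) ∞) :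
    (qchart Ψ Φ).target = Φ.symm ⁻¹' Ψ.source := rfl

lemma qchart_apply (Ψ : PartialDiffeomorph 𝓘(ℝ, P) (𝓡 (2 * k)) P M ∞)
    (Φ : Diffeomorph 𝓘(ℝ, P) 𝓘(ℝ, EuclideanSpace ℂ (Fin k)) P (EuclideanSpace ℂ (Fin k)) ∞)
    (m : M) : qchart Ψ Φ m = Φ (Ψ.symm m) := rfl

lemma qchart_symm_apply (Ψ : PartialDiffeomorph 𝓘(ℝ, P) (𝓡 (2 * k)) P M ∞)
    (Φ : Diffeomorph 𝓘(ℝ, P) 𝓘(ℝ, EuclideanSpace ℂ (Fin k)) P (EuclideanSpace ℂ (Fin k)) ∞)
    (z : EuclideanSpace ℂ (Fin k)) : (qchart Ψ Φ).symm z = Ψ (Φ.symm z) := rfl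

end Charts

theorem exists_complex_structure {k : ℕ} {P : Type} [NormedAddCommGroup P] [NormedSpace ℝ P]
    {M : Type} [TopologicalSpace M] [ChartedSpace (EuclideanSpace ℝ (Fin (2 * k))) M]
    [IsManifold (𝓡 (2 * k)) ∞ M]
    (π : P → M) (hπ : IsLocalDiffeomorph 𝓘(ℝ, P) (𝓡 (2 * k)) ∞ π) (hs : Function.Surjective π)
    (Φ : Diffeomorph 𝓘(ℝ, P) 𝓘(ℝ, EuclideanSpace ℂ (Fin k)) P (EuclideanSpace ℂ (Fin k)) ∞)
    (hdeck : ∀ p p' : P, π p = π p' → ∃ g : P → P, Continuous g ∧ g p = p' ∧ (∀ x, π (g x) = π x) ∧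
      ContDiff ℂ ∞ (fun z => Φ (g (Φ.symm z)))) :
    ∃ (N : Type) (_ : TopologicalSpace N) (_ : ChartedSpace (EuclideanSpace ℂ (Fin k)) N),
      IsManifold 𝓘(ℂ, EuclideanSpace ℂ (Fin k)) ∞ N ∧
      Nonempty (Diffeomorph (𝓡 (2 * k)) 𝓘(ℝ, EuclideanSpace ℂ (Fin k)) M N ∞) := by
  classical
  choose Ψ hΨ heq using hπ
  choose q hq using hs
  have hmem : ∀ m : M, m ∈ (Ψ (q m)).target := by
    intro m
    have h := (Ψ (q m)).map_source (hΨ (q m))
    have h2 : (Ψ (q m)) (q m) = m := by rw [← heq (q m) (hΨ (q m)), hq]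
    rwa [show (Ψ (q m)).toPartialEquiv (q m) = m from h2] at h
  let cs : ChartedSpace (EuclideanSpace ℂ (Fin k)) M :=
    { atlas := {e | ∃ p, e = qchart (Ψ p) Φ}
      chartAt := fun m => qchart (Ψ (q m)) Φ
      mem_chart_source := fun m => by rw [qchart_source]; exact hmem m
      chart_mem_atlas := fun m => ⟨q m, rfl⟩ }
  refine ⟨M, inferInstance, cs, ?_, ⟨?_⟩⟩
  · apply isManifold_of_contDiffOn
    rintro e e' ⟨p, rfl⟩ ⟨p', rfl⟩
    intro z hz
    apply ContDiffAt.contDiffWithinAt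
    simp only [modelWithCornersSelf_coe_symm, modelWithCornersSelf_coe, preimage_id, range_id,
      inter_univ, OpenPartialHomeomorph.trans_source, OpenPartialHomeomorph.symm_source,
      mem_inter_iff, mem_preimage] at hz
    obtain ⟨hz1, hz2⟩ := hz
    rw [qchart_target] at hz1
    rw [qchart_source, qchart_symm_apply] at hz2
    -- `x` the point upstairs
    set x : P := Φ.symm z with hx
    have hx1 : x ∈ (Ψ p).source := hz1
    have hx2 : (Ψ p) x = π x := (heq p hx1).symm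
    rw [hx2] at hz2
    set x' : P := (Ψ p').symm (π x) with hx'
    have hx'1 : x' ∈ (Ψ p').source := (Ψ p').map_target hz2
    have hx'2 : π x' = π x := by
      rw [heq p' hx'1]; exact (Ψ p').right_inv hz2
    obtain ⟨g, hg1, hg2, hg3, hg4⟩ := hdeck x x' hx'2.symm
    have hev : ∀ᶠ y in nhds z, (fun z => Φ (g (Φ.symm z))) y
        = (𝓘(ℂ, EuclideanSpace ℂ (Fin k)) ∘ ((qchart (Ψ p) Φ).symm.trans (qchart (Ψ p') Φ)) ∘
          𝓘(ℂ, EuclideanSpace ℂ (Fin k)).symm) y := by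
      have h1 : ∀ᶠ y in nhds z, Φ.symm y ∈ (Ψ p).source :=
        Φ.symm.continuous.continuousAt.eventually ((Ψ p).open_source.mem_nhds hx1)
      have h2 : ∀ᶠ y in nhds z, g (Φ.symm y) ∈ (Ψ p').source := by
        have hc : ContinuousAt (fun y => g (Φ.symm y)) z :=
          (hg1.comp Φ.symm.continuous).continuousAt
        apply hc.eventually
        apply (Ψ p').open_source.mem_nhds
        change g x ∈ _
        rw [hg2]; exact hx'1
      filter_upwards [h1, h2] with y hy1 hy2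
      simp only [Function.comp_apply, modelWithCornersSelf_coe_symm, modelWithCornersSelf_coe, id,
        OpenPartialHomeomorph.coe_trans]
      rw [qchart_symm_apply, qchart_apply]
      congr 1
      have h3 : (Ψ p) (Φ.symm y) = π (Φ.symm y) := (heq p hy1).symm
      rw [h3, ← hg3, heq p' hy2]
      exact ((Ψ p').left_inv hy2).symm
    exact (hg4.contDiffAt).congr_of_eventuallyEq (Filter.EventuallyEq.symm hev)
  · refine
      { toEquiv := Equiv.refl M
        contMDiff_toFun := ?_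
        contMDiff_invFun := ?_ }
    · intro m
      rw [contMDiffAt_iff_target]
      refine ⟨continuousAt_id, ?_⟩
      have h1 : ContMDiffOn (𝓡 (2 * k)) 𝓘(ℝ, EuclideanSpace ℂ (Fin k)) ∞
          (fun m' : M => Φ ((Ψ (q m)).symm m')) (Ψ (q m)).target :=
        Φ.contMDiff.comp_contMDiffOn (Ψ (q m)).contMDiffOn_invFun
      exact h1.contMDiffAt ((Ψ (q m)).open_target.mem_nhds (hmem m))
    · intro m
      rw [contMDiffAt_iff_source]
      have h1 : ContMDiffOn 𝓘(ℝ, EuclideanSpace ℂ (Fin k)) (𝓡 (2 * k)) ∞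
          (fun z : EuclideanSpace ℂ (Fin k) => (Ψ (q m)) (Φ.symm z))
          (Φ.symm ⁻¹' (Ψ (q m)).source) :=
        ((Ψ (q m)).contMDiffOn_toFun).comp Φ.symm.contMDiff.contMDiffOn (fun z hz => hz)
      have h2 : (Φ.symm ⁻¹' (Ψ (q m)).source) ∈ nhds (Φ ((Ψ (q m)).symm m)) := by
        apply ((Ψ (q m)).open_source.preimage Φ.symm.continuous).mem_nhds
        change Φ.symm (Φ ((Ψ (q m)).symm m)) ∈ (Ψ (q m)).source
        rw [Φ.symm_apply_apply]
        exact (Ψ (q m)).map_target (hmem m)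
      exact (h1.contMDiffAt h2).contMDiffWithinAt

end Pool.Agent.TorusBundle
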