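import Mathlib
import Pool.Agent.Lib.MP_1d980c_gt.ExistsL
import Pool.Agent.Lib.MP_1d980c_gt.Cocycle
import Pool.Agent.Lib.MP_1d980c_gt.Quot

set_option autoImplicit false
open scoped Manifold ContDiff Matrix Topology
open Complex

namespace Pool.Agent.TorusBundle

section Coord

variable {m : ℕ}

/-- complexification of a real vector -/
noncomputable def cv {n : ℕ} (v : Fin n → ℝ) : Fin n → ℂ := fun k => (v k : ℂ)

lemma cv_add {n : ℕ} (v w : Fin n → ℝ) : cv (v + w) = cv v + cv w := by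
  ext k; simp [cv]

lemma cv_sub {n : ℕ} (v w : Fin n → ℝ) : cv (v - w) = cv v - cv w := by
  ext k; simp [cv]

lemma cv_mulVec {n : ℕ} (A : Matrix (Fin n) (Fin n) ℝ) (v : Fin n → ℝ) :
    cv (A *ᵥ v) = A.map Complex.ofReal *ᵥ cv v := by
  ext k; simp [cv, Matrix.mulVec, dotProduct]

lemma contDiff_cv {n : ℕ} {E : Type*} [NormedAddCommGroup E] [NormedSpace ℝ E] {f : E → (Fin n → ℝ)}
    (hf : ContDiff ℝ ∞ f) : ContDiff ℝ ∞ (fun x => cv (f x)) := by
  rw [contDiff_pi] at hf ⊢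
  intro i
  exact Complex.ofRealCLM.contDiff.comp (hf i)

/-- the point of `ℂ^{m+1}` with coordinates `x` and `w` -/
noncomputable def mk (x : Fin m → ℂ) (w : ℂ) : EuclideanSpace ℂ (Fin (m + 1)) :=
  WithLp.toLp 2 (Fin.snoc (α := fun _ => ℂ) x w)

lemma mk_castSucc (x : Fin m → ℂ) (w : ℂ) (i : Fin m) : (mk x w) (Fin.castSucc i) = x i := by
  simp [mk]

lemma mk_last (x : Fin m → ℂ) (w : ℂ) : (mk x w) (Fin.last m) = w := by
  simp [mk]

/-- the first coordinates -/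
noncomputable def ini (z : EuclideanSpace ℂ (Fin (m + 1))) : Fin m → ℂ := fun i => z (Fin.castSucc i)

/-- the last coordinate -/
noncomputable def lst (z : EuclideanSpace ℂ (Fin (m + 1))) : ℂ := z (Fin.last m)

@[simp] lemma ini_mk (x : Fin m → ℂ) (w : ℂ) : ini (mk x w) = x := by
  ext i; exact mk_castSucc x w i

@[simp] lemma lst_mk (x : Fin m → ℂ) (w : ℂ) : lst (mk x w) = w := mk_last x w

@[simp] lemma mk_ini_lst (z : EuclideanSpace ℂ (Fin (m + 1))) : mk (ini z) (lst z) = z := by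
  ext i
  refine Fin.lastCases ?_ (fun i => ?_) i
  · rw [mk_last]; rfl
  · rw [mk_castSucc]; rfl

lemma contDiff_mkC {E : Type*} [NormedAddCommGroup E] [NormedSpace ℂ E] {f : E → (Fin m → ℂ)}
    {g : E → ℂ} (hf : ContDiff ℂ ∞ f) (hg : ContDiff ℂ ∞ g) :
    ContDiff ℂ ∞ (fun x => mk (f x) (g x)) := by
  rw [contDiff_piLp]
  intro i
  refine Fin.lastCases ?_ (fun i => ?_) i
  · simpa only [mk_last] using hg
  · simp only [mk_castSucc]; exact (contDiff_pi.1 hf) i

lemma contDiff_mkR {E : Type*} [NormedAddCommGroup E] [NormedSpace ℝ E] {f : E → (Fin m → ℂ)}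
    {g : E → ℂ} (hf : ContDiff ℝ ∞ f) (hg : ContDiff ℝ ∞ g) :
    ContDiff ℝ ∞ (fun x => mk (f x) (g x)) := by
  rw [contDiff_piLp]
  intro i
  refine Fin.lastCases ?_ (fun i => ?_) i
  · simpa only [mk_last] using hg
  · simp only [mk_castSucc]; exact (contDiff_pi.1 hf) i

lemma contDiff_iniC : ContDiff ℂ ∞ (ini : EuclideanSpace ℂ (Fin (m + 1)) → Fin m → ℂ) := by
  rw [contDiff_pi]
  intro i
  exact (contDiff_piLp 2).1 contDiff_id (Fin.castSucc i)

lemma contDiff_lstC : ContDiff ℂ ∞ (lst : EuclideanSpace ℂ (Fin (m + 1)) → ℂ) :=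
  (contDiff_piLp 2).1 contDiff_id (Fin.last m)

lemma contDiff_iniR : ContDiff ℝ ∞ (ini : EuclideanSpace ℂ (Fin (m + 1)) → Fin m → ℂ) := by
  rw [contDiff_pi]
  intro i
  exact (contDiff_piLp 2).1 contDiff_id (Fin.castSucc i)

lemma contDiff_lstR : ContDiff ℝ ∞ (lst : EuclideanSpace ℂ (Fin (m + 1)) → ℂ) :=
  (contDiff_piLp 2).1 contDiff_id (Fin.last m)

end Coord

section Real

variable {m : ℕ} (L : ℂ → Matrix (Fin m) (Fin (2 * m)) ℂ)

/-- the real-linear map `v ↦ L(w) v` -/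
noncomputable def Rm (w : ℂ) : (Fin (2 * m) → ℝ) →L[ℝ] (Fin m → ℂ) :=
  ∑ k, (ContinuousLinearMap.proj k : (Fin (2 * m) → ℝ) →L[ℝ] ℝ).smulRight (fun i => L w i k)

lemma Rm_apply (w : ℂ) (v : Fin (2 * m) → ℝ) : Rm L w v = L w *ᵥ cv v := by
  ext i
  simp [Rm, cv, Matrix.mulVec, dotProduct, mul_comm]

variable (hL : ∀ i j, Differentiable ℂ (fun w => L w i j))

include hL in
lemma contDiff_Lentry (i : Fin m) (j : Fin (2 * m)) : ContDiff ℂ ∞ (fun w => L w i j) :=
  (hL i j).contDiff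

include hL in
lemma contDiff_Rm : ContDiff ℝ ∞ (Rm L) := by
  unfold Rm
  refine ContDiff.sum fun k _ => ?_
  refine ContDiff.smulRight contDiff_const ?_
  rw [contDiff_pi]
  intro i
  exact (contDiff_Lentry L hL i k).restrict_scalars ℝ

variable (hnd : ∀ w (v : Fin (2 * m) → ℝ), L w *ᵥ (fun k => (v k : ℂ)) = 0 → v = 0)

include hnd in
lemma Rm_injective (w : ℂ) : Function.Injective (Rm L w) := by
  rw [injective_iff_map_eq_zero]
  intro v hv
  rw [Rm_apply] at hv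
  exact hnd w v hv

/-- the real-linear isomorphism -/
noncomputable def Re (w : ℂ) : (Fin (2 * m) → ℝ) ≃L[ℝ] (Fin m → ℂ) :=
  (LinearMap.linearEquivOfInjective (Rm L w : (Fin (2 * m) → ℝ) →ₗ[ℝ] (Fin m → ℂ))
    (Rm_injective L hnd w) (by
      rw [Module.finrank_fintype_fun_eq_card, Module.finrank_pi_fintype]
      simp [mul_comm])).toContinuousLinearEquiv

lemma Re_coe (w : ℂ) : ((Re L hnd w : (Fin (2 * m) → ℝ) ≃L[ℝ] (Fin m → ℂ)) :
    (Fin (2 * m) → ℝ) →L[ℝ] (Fin m → ℂ)) = Rm L w := by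
  ext v; rfl

lemma Re_apply (w : ℂ) (v : Fin (2 * m) → ℝ) : Re L hnd w v = L w *ᵥ cv v := by
  rw [← Rm_apply]; rfl

include hL in
lemma contDiff_Re_symm : ContDiff ℝ ∞
    (fun w => ((Re L hnd w).symm : (Fin m → ℂ) →L[ℝ] (Fin (2 * m) → ℝ))) := by
  have h1 : (fun w => ((Re L hnd w).symm : (Fin m → ℂ) →L[ℝ] (Fin (2 * m) → ℝ)))
      = fun w => ContinuousLinearMap.inverse (Rm L w) := by
    funext w
    rw [← Re_coe L hnd w, ContinuousLinearMap.inverse_equiv]
  rw [h1, contDiff_iff_contDiffAt]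
  intro w
  have h2 : ContDiffAt ℝ ∞ (ContinuousLinearMap.inverse :
      ((Fin (2 * m) → ℝ) →L[ℝ] (Fin m → ℂ)) → _) (Rm L w) := by
    rw [← Re_coe L hnd w]
    exact contDiffAt_map_inverse _
  exact h2.comp w (contDiff_Rm L hL).contDiffAt

/-- the diffeomorphism from the universal cover to `ℂ^{m+1}` -/
noncomputable def Phi (hL : ∀ i j, Differentiable ℂ (fun w => L w i j))
    (hnd : ∀ w (v : Fin (2 * m) → ℝ), L w *ᵥ (fun k => (v k : ℂ)) = 0 → v = 0)
    (ρ : ℝ × ℝ → (Fin (2 * m) → ℂ)) (hρ : ContDiff ℝ ∞ ρ) :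
    Diffeomorph 𝓘(ℝ, (Fin (2 * m) → ℝ) × (ℝ × ℝ)) 𝓘(ℝ, EuclideanSpace ℂ (Fin (m + 1)))
      ((Fin (2 * m) → ℝ) × (ℝ × ℝ)) (EuclideanSpace ℂ (Fin (m + 1))) ∞ where
  toFun p := mk (Rm L ((p.2.1 : ℂ) + p.2.2 * I) p.1 + L ((p.2.1 : ℂ) + p.2.2 * I) *ᵥ ρ p.2)
    ((p.2.1 : ℂ) + p.2.2 * I)
  invFun z := ((Re L hnd (lst z)).symm (ini z - L (lst z) *ᵥ ρ ((lst z).re, (lst z).im)),
    ((lst z).re, (lst z).im))
  left_inv := by
    rintro ⟨v, s, t⟩
    have h1 : ((s : ℂ) + t * I).re = s := by simp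
    have h2 : ((s : ℂ) + t * I).im = t := by simp
    simp only [ini_mk, lst_mk, h1, h2, add_sub_cancel_right]
    rw [← Re_coe L hnd]
    simp
  right_inv := by
    intro z
    have h1 : (((lst z).re : ℂ) + (lst z).im * I) = lst z := Complex.re_add_im _
    simp only [h1]
    rw [← Re_coe L hnd]
    simp
  contMDiff_toFun := by
    rw [contMDiff_iff_contDiff]
    have hw : ContDiff ℝ ∞ (fun p : (Fin (2 * m) → ℝ) × (ℝ × ℝ) => ((p.2.1 : ℂ) + p.2.2 * I)) := by
      refine ContDiff.add ?_ (ContDiff.mul ?_ contDiff_const)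
      · exact Complex.ofRealCLM.contDiff.comp (contDiff_fst.comp contDiff_snd)
      · exact Complex.ofRealCLM.contDiff.comp (contDiff_snd.comp contDiff_snd)
    refine contDiff_mkR (ContDiff.add ?_ ?_) hw
    · exact ((contDiff_Rm L hL).comp hw).clm_apply contDiff_fst
    · rw [contDiff_pi]
      intro i
      simp only [Matrix.mulVec, dotProduct]
      refine ContDiff.sum fun j _ => ContDiff.mul ?_ ?_
      · exact ((contDiff_Lentry L hL i j).restrict_scalars ℝ).comp hw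
      · exact (contDiff_pi.1 hρ j).comp contDiff_snd
  contMDiff_invFun := by
    rw [contMDiff_iff_contDiff]
    have hw : ContDiff ℝ ∞ (fun z : EuclideanSpace ℂ (Fin (m + 1)) => ((lst z).re, (lst z).im)) :=
      (Complex.reCLM.contDiff.comp contDiff_lstR).prodMk
        (Complex.imCLM.contDiff.comp contDiff_lstR)
    refine ContDiff.prodMk ?_ hw
    refine ((contDiff_Re_symm L hL hnd).comp contDiff_lstR).clm_apply ?_
    refine ContDiff.sub contDiff_iniR ?_
    rw [contDiff_pi]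
    intro i
    simp only [Matrix.mulVec, dotProduct]
    refine ContDiff.sum fun j _ => ContDiff.mul ?_ ?_
    · exact ((contDiff_Lentry L hL i j).restrict_scalars ℝ).comp contDiff_lstR
    · exact (contDiff_pi.1 hρ j).comp hw

lemma Phi_apply (hL : ∀ i j, Differentiable ℂ (fun w => L w i j))
    (hnd : ∀ w (v : Fin (2 * m) → ℝ), L w *ᵥ (fun k => (v k : ℂ)) = 0 → v = 0)
    (ρ : ℝ × ℝ → (Fin (2 * m) → ℂ)) (hρ : ContDiff ℝ ∞ ρ) (v : Fin (2 * m) → ℝ) (s t : ℝ) :
    Phi L hL hnd ρ hρ (v, (s, t)) = mk (L ((s : ℂ) + t * I) *ᵥ (cv v + ρ (s, t)))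
      ((s : ℂ) + t * I) := by
  change mk (Rm L ((s : ℂ) + t * I) v + L ((s : ℂ) + t * I) *ᵥ ρ (s, t)) _ = _
  rw [Rm_apply, Matrix.mulVec_add]

end Real

section Deck

variable {m : ℕ} (L : ℂ → Matrix (Fin m) (Fin (2 * m)) ℂ) (e : ℂ → Fin m → ℂ)

lemma contDiff_Lmul (hL : ∀ i j, Differentiable ℂ (fun w => L w i j))
    {E : Type*} [NormedAddCommGroup E] [NormedSpace ℂ E] {f : E → ℂ}
    (hf : ContDiff ℂ ∞ f) {g : E → (Fin (2 * m) → ℂ)} (hg : ContDiff ℂ ∞ g) :
    ContDiff ℂ ∞ (fun x => L (f x) *ᵥ g x) := by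
  rw [contDiff_pi]
  intro i
  simp only [Matrix.mulVec, dotProduct]
  exact ContDiff.sum fun j _ => ContDiff.mul ((contDiff_Lentry L hL i j).comp hf)
    (contDiff_pi.1 hg j)

/-- translation by a lattice vector -/
noncomputable def deckFibre (c : Fin (2 * m) → ℂ) :
    EuclideanSpace ℂ (Fin (m + 1)) ≃ EuclideanSpace ℂ (Fin (m + 1)) where
  toFun z := mk (ini z + L (lst z) *ᵥ c) (lst z)
  invFun z := mk (ini z - L (lst z) *ᵥ c) (lst z)
  left_inv z := by simp
  right_inv z := by simp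

/-- translation of the last coordinate by one -/
noncomputable def deckFirst :
    EuclideanSpace ℂ (Fin (m + 1)) ≃ EuclideanSpace ℂ (Fin (m + 1)) where
  toFun z := mk (ini z) (lst z + 1)
  invFun z := mk (ini z) (lst z - 1)
  left_inv z := by simp
  right_inv z := by simp

/-- the third deck transformation -/
noncomputable def deckSecond (he : ∀ w i, e w i ≠ 0) (σ : ℂ → (Fin (2 * m) → ℂ)) :
    EuclideanSpace ℂ (Fin (m + 1)) ≃ EuclideanSpace ℂ (Fin (m + 1)) where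
  toFun z := mk (fun i => e (lst z) i * ini z i + (L (lst z + I) *ᵥ σ (lst z)) i) (lst z + I)
  invFun z := mk (fun i => (e (lst z - I) i)⁻¹ * (ini z i - (L (lst z) *ᵥ σ (lst z - I)) i))
    (lst z - I)
  left_inv z := by
    simp only [ini_mk, lst_mk, add_sub_cancel_right]
    have : (fun i => (e (lst z) i)⁻¹ * (e (lst z) i * ini z i)) = ini z := by
      funext i
      rw [← mul_assoc, inv_mul_cancel₀ (he _ _), one_mul]
    rw [this]; simp
  right_inv z := by
    simp only [ini_mk, lst_mk, sub_add_cancel]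
    have : (fun i => e (lst z - I) i * ((e (lst z - I) i)⁻¹ *
        (ini z i - (L (lst z) *ᵥ σ (lst z - I)) i)) + (L (lst z) *ᵥ σ (lst z - I)) i) = ini z := by
      funext i
      rw [← mul_assoc, mul_inv_cancel₀ (he _ _), one_mul, sub_add_cancel]
    rw [this]; simp

lemma contDiff_deckFibre (hL : ∀ i j, Differentiable ℂ (fun w => L w i j)) (c : Fin (2 * m) → ℂ) :
    ContDiff ℂ ∞ (deckFibre L c) ∧ ContDiff ℂ ∞ (deckFibre L c).symm := by
  constructor
  · exact contDiff_mkC (contDiff_iniC.add (contDiff_Lmul L hL contDiff_lstC contDiff_const))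
      contDiff_lstC
  · exact contDiff_mkC (contDiff_iniC.sub (contDiff_Lmul L hL contDiff_lstC contDiff_const))
      contDiff_lstC

lemma contDiff_deckFirst :
    ContDiff ℂ ∞ (deckFirst (m := m)) ∧ ContDiff ℂ ∞ (deckFirst (m := m)).symm := by
  constructor
  · exact contDiff_mkC contDiff_iniC (contDiff_lstC.add contDiff_const)
  · exact contDiff_mkC contDiff_iniC (contDiff_lstC.sub contDiff_const)

lemma contDiff_deckSecond (hL : ∀ i j, Differentiable ℂ (fun w => L w i j))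
    (hed : ∀ i, Differentiable ℂ (fun w => e w i)) (he : ∀ w i, e w i ≠ 0)
    (σ : ℂ → (Fin (2 * m) → ℂ)) (hσ : ContDiff ℂ ∞ σ) :
    ContDiff ℂ ∞ (deckSecond L e he σ) ∧ ContDiff ℂ ∞ (deckSecond L e he σ).symm := by
  constructor
  · refine contDiff_mkC ?_ (contDiff_lstC.add contDiff_const)
    rw [contDiff_pi]
    intro i
    refine ContDiff.add (ContDiff.mul ?_ ?_) ?_
    · exact (hed i).contDiff.comp contDiff_lstC
    · exact contDiff_pi.1 contDiff_iniC i
    · exact contDiff_pi.1 (contDiff_Lmul L hL (contDiff_lstC.add contDiff_const)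
        (hσ.comp contDiff_lstC)) i
  · have h1 : ContDiff ℂ ∞ (fun z : EuclideanSpace ℂ (Fin (m + 1)) => lst z - I) :=
      contDiff_lstC.sub contDiff_const
    refine contDiff_mkC ?_ h1
    rw [contDiff_pi]
    intro i
    refine ContDiff.mul (ContDiff.inv ?_ ?_) (ContDiff.sub ?_ ?_)
    · exact (hed i).contDiff.comp h1
    · intro z; exact he _ _
    · exact contDiff_pi.1 contDiff_iniC i
    · exact contDiff_pi.1 (contDiff_Lmul L hL contDiff_lstC (hσ.comp h1)) i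

end Deck

/-- If consecutive points of a generating relation are joined by biholomorphic deck maps, then the
quotient carries a complex structure. -/
theorem quotient_complex {m : ℕ} {P : Type} [NormedAddCommGroup P] [NormedSpace ℝ P]
    {M : Type} [TopologicalSpace M] [ChartedSpace (EuclideanSpace ℝ (Fin (2 * (m + 1)))) M]
    [IsManifold (𝓡 (2 * (m + 1))) ∞ M]
    (π : P → M) (hπ : IsLocalDiffeomorph 𝓘(ℝ, P) (𝓡 (2 * (m + 1))) ∞ π)
    (hs : Function.Surjective π) (R : P → P → Prop)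
    (hfib : ∀ p p', π p = π p' ↔ Relation.EqvGen R p p')
    (Φ : Diffeomorph 𝓘(ℝ, P) 𝓘(ℝ, EuclideanSpace ℂ (Fin (m + 1))) P
      (EuclideanSpace ℂ (Fin (m + 1))) ∞)
    (hR : ∀ p p', R p p' → ∃ h : EuclideanSpace ℂ (Fin (m + 1)) ≃ EuclideanSpace ℂ (Fin (m + 1)),
      ContDiff ℂ ∞ h ∧ ContDiff ℂ ∞ h.symm ∧ h (Φ p) = Φ p' ∧
      ∀ q, π (Φ.symm (h (Φ q))) = π q) :
    ∃ (N : Type) (_ : TopologicalSpace N) (_ : ChartedSpace (EuclideanSpace ℂ (Fin (m + 1))) N),
      IsManifold 𝓘(ℂ, EuclideanSpace ℂ (Fin (m + 1))) ∞ N ∧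
      Nonempty (Diffeomorph (𝓡 (2 * (m + 1))) 𝓘(ℝ, EuclideanSpace ℂ (Fin (m + 1))) M N ∞) := by
  apply exists_complex_structure π hπ hs Φ
  have key : ∀ p p', Relation.EqvGen R p p' →
      ∃ h : EuclideanSpace ℂ (Fin (m + 1)) ≃ EuclideanSpace ℂ (Fin (m + 1)),
      ContDiff ℂ ∞ h ∧ ContDiff ℂ ∞ h.symm ∧ h (Φ p) = Φ p' ∧
      ∀ q, π (Φ.symm (h (Φ q))) = π q := by
    intro p p' h
    induction h with
    | rel p p' h => exact hR p p' h
    | refl p =>
      refine ⟨Equiv.refl _, contDiff_id, contDiff_id, rfl, fun q => ?_⟩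
      simp
    | symm p p' _ ih =>
      obtain ⟨h, h1, h2, h3, h4⟩ := ih
      refine ⟨h.symm, h2, h1, ?_, fun q => ?_⟩
      · rw [← h3]; simp
      · have h5 := h4 (Φ.symm (h.symm (Φ q)))
        simpa using h5.symm
    | trans p p' p'' _ _ ih ih' =>
      obtain ⟨h, h1, h2, h3, h4⟩ := ih
      obtain ⟨k, k1, k2, k3, k4⟩ := ih'
      refine ⟨h.trans k, k1.comp h1, h2.comp k2, ?_, fun q => ?_⟩
      · simp [h3, k3]
      · have h5 := k4 (Φ.symm (h (Φ q)))
        simp only [Φ.apply_symm_apply] at h5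
        simp only [Equiv.trans_apply]
        rw [h5, h4]
  intro p p' hpp
  obtain ⟨h, h1, h2, h3, h4⟩ := key p p' ((hfib p p').1 hpp)
  refine ⟨fun q => Φ.symm (h (Φ q)), ?_, ?_, h4, ?_⟩
  · exact Φ.symm.continuous.comp (h1.continuous.comp Φ.continuous)
  · simp only [h3, Φ.symm_apply_apply]
  · simpa using h1

end Pool.Agent.TorusBundle
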