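import Mathlib

set_option autoImplicit false
open scoped Matrix

namespace Pool.Agent.TorusBundle

/-- The identifications defining an affine torus bundle over the two-torus:
on `ℝⁿ × ℝ²` with coordinates `(v, (s, t))`, translate `v` by a vector `u ∈ Λ`, or apply
`(v, (s, t)) ↦ (A v + a(s,t), (s+1, t))`, or apply `(v, (s, t)) ↦ (B v + b(s,t), (s, t+1))`. -/
inductive Step {n : ℕ} (A B : Matrix (Fin n) (Fin n) ℝ) (Λ : Set (Fin n → ℝ))
    (a b : ℝ × ℝ → (Fin n → ℝ)) : (Fin n → ℝ) × (ℝ × ℝ) → (Fin n → ℝ) × (ℝ × ℝ) → Prop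
  | fibre (u : Fin n → ℝ) (hu : u ∈ Λ) (v : Fin n → ℝ) (s t : ℝ) :
      Step A B Λ a b (v, (s, t)) (v + u, (s, t))
  | first (v : Fin n → ℝ) (s t : ℝ) :
      Step A B Λ a b (v, (s, t)) (A *ᵥ v + a (s, t), (s + 1, t))
  | second (v : Fin n → ℝ) (s t : ℝ) :
      Step A B Λ a b (v, (s, t)) (B *ᵥ v + b (s, t), (s, t + 1))

end Pool.Agent.TorusBundle
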