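import Mathlib
import Pool.Agent.Lib.MP_1d980c_gt.Main
import Pool.Agent.Lib.MP_1d980c_gt.ExistsFam
import Pool.Agent.Lib.MP_1d980c_gt.StepDef

set_option autoImplicit false
set_option linter.unusedSectionVars false
open scoped Manifold ContDiff Matrix Topology
open Complex

namespace Pool.Agent.TorusBundle

section Deck

variable {m : ℕ} (L : ℂ → Matrix (Fin m) (Fin (2 * m)) ℂ) (G H : ℂ → Matrix (Fin m) (Fin m) ℂ)

/-- the deck transformation over the translation by `s` -/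
noncomputable def deckGen (s : ℂ) (hGH : ∀ w, G w * H w = 1) (hHG : ∀ w, H w * G w = 1)
    (σ : ℂ → (Fin (2 * m) → ℂ)) :
    EuclideanSpace ℂ (Fin (m + 1)) ≃ EuclideanSpace ℂ (Fin (m + 1)) where
  toFun z := mk (G (lst z) *ᵥ ini z + L (lst z + s) *ᵥ σ (lst z)) (lst z + s)
  invFun z := mk (H (lst z - s) *ᵥ (ini z - L (lst z) *ᵥ σ (lst z - s))) (lst z - s)
  left_inv z := by
    simp only [ini_mk, lst_mk, add_sub_cancel_right]
    rw [Matrix.mulVec_mulVec, hHG, Matrix.one_mulVec, mk_ini_lst]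
  right_inv z := by
    simp only [ini_mk, lst_mk, sub_add_cancel]
    rw [Matrix.mulVec_mulVec, hGH, Matrix.one_mulVec, sub_add_cancel, mk_ini_lst]

lemma contDiff_matMul {M : ℂ → Matrix (Fin m) (Fin m) ℂ}
    (hM : ∀ i j, Differentiable ℂ (fun w => M w i j)) {E : Type*} [NormedAddCommGroup E]
    [NormedSpace ℂ E] {f : E → ℂ} (hf : ContDiff ℂ ∞ f) {g : E → (Fin m → ℂ)}
    (hg : ContDiff ℂ ∞ g) : ContDiff ℂ ∞ (fun x => M (f x) *ᵥ g x) := by
  rw [contDiff_pi]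
  intro i
  simp only [Matrix.mulVec, dotProduct]
  exact ContDiff.sum fun j _ => ContDiff.mul ((hM i j).contDiff.comp hf) (contDiff_pi.1 hg j)

lemma contDiff_deckGen (hL : ∀ i j, Differentiable ℂ (fun w => L w i j))
    (hG : ∀ i j, Differentiable ℂ (fun w => G w i j)) (hH : ∀ i j, Differentiable ℂ (fun w => H w i j))
    (s : ℂ) (hGH : ∀ w, G w * H w = 1) (hHG : ∀ w, H w * G w = 1)
    (σ : ℂ → (Fin (2 * m) → ℂ)) (hσ : ContDiff ℂ ∞ σ) :
    ContDiff ℂ ∞ (deckGen L G H s hGH hHG σ) ∧ ContDiff ℂ ∞ (deckGen L G H s hGH hHG σ).symm := by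
  constructor
  · refine contDiff_mkC ?_ (contDiff_lstC.add contDiff_const)
    refine ContDiff.add (contDiff_matMul hG contDiff_lstC contDiff_iniC) ?_
    exact contDiff_Lmul L hL (contDiff_lstC.add contDiff_const) (hσ.comp contDiff_lstC)
  · have h1 : ContDiff ℂ ∞ (fun z : EuclideanSpace ℂ (Fin (m + 1)) => lst z - s) :=
      contDiff_lstC.sub contDiff_const
    refine contDiff_mkC ?_ h1
    exact contDiff_matMul hH h1
      (contDiff_iniC.sub (contDiff_Lmul L hL contDiff_lstC (hσ.comp h1)))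

end Deck

/-- Affine torus bundles over the two-torus with monodromies of positive determinant are complex. -/
theorem complex_of_det_pos (m : ℕ) (hm : 2 ≤ m) (A B : Matrix (Fin (2 * m)) (Fin (2 * m)) ℝ)
    (hABr : A * B = B * A) (hAd : 0 < A.det) (hBd : 0 < B.det) (Λ : Set (Fin (2 * m) → ℝ))
    (a b : ℝ × ℝ → (Fin (2 * m) → ℝ)) (ha : ContDiff ℝ ∞ a) (hb : ContDiff ℝ ∞ b)
    (c : Fin (2 * m) → ℝ)
    (hc : ∀ s t : ℝ, A *ᵥ b (s, t) + a (s, t + 1) - (B *ᵥ a (s, t) + b (s + 1, t)) = c)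
    (M : Type) [TopologicalSpace M] [ChartedSpace (EuclideanSpace ℝ (Fin (2 * (m + 1)))) M]
    [IsManifold (𝓡 (2 * (m + 1))) ∞ M]
    (π : (Fin (2 * m) → ℝ) × (ℝ × ℝ) → M)
    (hπ : IsLocalDiffeomorph 𝓘(ℝ, (Fin (2 * m) → ℝ) × (ℝ × ℝ)) (𝓡 (2 * (m + 1))) ∞ π)
    (hs : Function.Surjective π)
    (hfib : ∀ p p', π p = π p' ↔ Relation.EqvGen (Step A B Λ a b) p p') :
    ∃ (N : Type) (_ : TopologicalSpace N) (_ : ChartedSpace (EuclideanSpace ℂ (Fin (m + 1))) N),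
      IsManifold 𝓘(ℂ, EuclideanSpace ℂ (Fin (m + 1))) ∞ N ∧
      Nonempty (Diffeomorph (𝓡 (2 * (m + 1))) 𝓘(ℝ, EuclideanSpace ℂ (Fin (m + 1))) M N ∞) := by
  obtain ⟨L, hL, ⟨G₁, H₁, hG₁, hH₁, hGH₁, hHG₁, hL1⟩, ⟨G₂, H₂, hG₂, hH₂, hGH₂, hHG₂, hL2⟩, hnd⟩ :=
    exists_fam m hm A B hABr hAd hBd
  set A' : Matrix (Fin (2 * m)) (Fin (2 * m)) ℂ := A.map Complex.ofReal with hA'
  set B' : Matrix (Fin (2 * m)) (Fin (2 * m)) ℂ := B.map Complex.ofReal with hB'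
  have hAu : IsUnit A' :=
    ((Matrix.isUnit_iff_isUnit_det A).2 hAd.ne'.isUnit).map (Complex.ofRealHom.mapMatrix)
  have hBu : IsUnit B' :=
    ((Matrix.isUnit_iff_isUnit_det B).2 hBd.ne'.isUnit).map (Complex.ofRealHom.mapMatrix)
  have hAB : A' * B' = B' * A' := by
    have h := congrArg (fun X : Matrix (Fin (2 * m)) (Fin (2 * m)) ℝ => Complex.ofRealHom.mapMatrix X)
      hABr
    simp only [map_mul] at h
    exact h
  obtain ⟨ρ, σ, hρ, hσ, h1, h2⟩ := solve_cocycle A' B' hAu hBu hAB (fun p => cv (a p))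
    (fun p => cv (b p)) (contDiff_cv ha) (contDiff_cv hb) (cv c) (by
      intro s t
      rw [← hc s t, cv_sub, cv_add, cv_add, cv_mulVec, cv_mulVec]
      abel)
  refine quotient_complex π hπ hs _ hfib (Phi L hL hnd ρ hρ) ?_
  have key1 : ∀ (u v : Fin (2 * m) → ℝ) (s t : ℝ),
      deckFibre L (cv u) (Phi L hL hnd ρ hρ (v, (s, t))) = Phi L hL hnd ρ hρ (v + u, (s, t)) := by
    intro u v s t
    rw [Phi_apply, Phi_apply]
    change TorusBundle.mk _ _ = _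
    simp only [ini_mk, lst_mk]
    rw [cv_add, ← Matrix.mulVec_add]
    congr 2
    abel
  have key2 : ∀ (v : Fin (2 * m) → ℝ) (s t : ℝ),
      deckGen L G₁ H₁ 1 hGH₁ hHG₁ 0 (Phi L hL hnd ρ hρ (v, (s, t))) =
        Phi L hL hnd ρ hρ (A *ᵥ v + a (s, t), (s + 1, t)) := by
    intro v s t
    rw [Phi_apply, Phi_apply]
    change TorusBundle.mk _ _ = _
    simp only [ini_mk, lst_mk]
    have hw : (((s + 1 : ℝ) : ℂ) + t * I) = ((s : ℂ) + t * I) + 1 := by push_cast; ring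
    rw [hw, cv_add, cv_mulVec, ← hA', add_assoc (A' *ᵥ cv v), h1 s t, ← Matrix.mulVec_add,
      Matrix.mulVec_mulVec, Matrix.mulVec_mulVec, hL1 ((s : ℂ) + t * I), Pi.zero_apply,
      Matrix.mulVec_zero, add_zero]
  have key3 : ∀ (v : Fin (2 * m) → ℝ) (s t : ℝ),
      deckGen L G₂ H₂ I hGH₂ hHG₂ σ (Phi L hL hnd ρ hρ (v, (s, t))) =
        Phi L hL hnd ρ hρ (B *ᵥ v + b (s, t), (s, t + 1)) := by
    intro v s t
    rw [Phi_apply, Phi_apply]
    change TorusBundle.mk _ _ = _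
    simp only [ini_mk, lst_mk]
    have hw : ((s : ℂ) + ((t + 1 : ℝ) : ℂ) * I) = ((s : ℂ) + t * I) + I := by push_cast; ring
    rw [hw, cv_add, cv_mulVec, ← hB', add_assoc (B' *ᵥ cv v), h2 s t, ← add_assoc (B' *ᵥ cv v),
      ← Matrix.mulVec_add, Matrix.mulVec_add (L ((s : ℂ) + t * I + I)), Matrix.mulVec_mulVec,
      Matrix.mulVec_mulVec, hL2 ((s : ℂ) + t * I)]
  rintro _ _ (⟨u, hu, v, s, t⟩ | ⟨v, s, t⟩ | ⟨v, s, t⟩)
  · refine ⟨deckFibre L (cv u), (contDiff_deckFibre L hL _).1, (contDiff_deckFibre L hL _).2,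
      key1 u v s t, ?_⟩
    rintro ⟨v, s, t⟩
    rw [key1, Diffeomorph.symm_apply_apply]
    exact ((hfib _ _).2 (Relation.EqvGen.rel _ _ (Step.fibre u hu v s t))).symm
  · have hd := contDiff_deckGen L G₁ H₁ hL hG₁ hH₁ 1 hGH₁ hHG₁ 0 contDiff_const
    refine ⟨deckGen L G₁ H₁ 1 hGH₁ hHG₁ 0, hd.1, hd.2, key2 v s t, ?_⟩
    rintro ⟨v, s, t⟩
    rw [key2, Diffeomorph.symm_apply_apply]
    exact ((hfib _ _).2 (Relation.EqvGen.rel _ _ (Step.first v s t))).symm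
  · have hd := contDiff_deckGen L G₂ H₂ hL hG₂ hH₂ I hGH₂ hHG₂ σ hσ
    refine ⟨deckGen L G₂ H₂ I hGH₂ hHG₂ σ, hd.1, hd.2, key3 v s t, ?_⟩
    rintro ⟨v, s, t⟩
    rw [key3, Diffeomorph.symm_apply_apply]
    exact ((hfib _ _).2 (Relation.EqvGen.rel _ _ (Step.second v s t))).symm

end Pool.Agent.TorusBundle
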