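import Mathlib

set_option autoImplicit false
open scoped Manifold ContDiff Matrix Topology
open Complex

namespace Pool.Agent.TorusBundle

theorem det_nonneg_of_commute_J {n : ℕ} (J h : Matrix (Fin n) (Fin n) ℝ) (hJ : J * J = -1)
    (hc : h * J = J * h) : 0 ≤ h.det := by
  classical
  let V := Fin n → ℝ
  let J' : Module.End ℝ V := Matrix.toLin' J
  have hJ' : J' * J' = -1 := by
    show Matrix.toLin' J * Matrix.toLin' J = -1
    rw [Module.End.mul_eq_comp, ← Matrix.toLin'_mul, hJ, map_neg, Matrix.toLin'_one]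
    rfl
  let ρ : ℂ →ₐ[ℝ] Module.End ℝ V := Complex.liftAux J' hJ'
  let _ : Module ℂ V := Module.compHom V ρ.toRingHom
  have hsmul : ∀ (z : ℂ) (v : V), z • v = ρ z v := fun z v => rfl
  have : IsScalarTower ℝ ℂ V := by
    refine ⟨fun r z v => ?_⟩
    rw [hsmul, hsmul, map_smul]; rfl
  have hcv : ∀ v : V, h *ᵥ (J' v) = J' (h *ᵥ v) := by
    intro v
    show h *ᵥ (Matrix.toLin' J v) = Matrix.toLin' J (h *ᵥ v)
    rw [Matrix.toLin'_apply, Matrix.toLin'_apply, Matrix.mulVec_mulVec, Matrix.mulVec_mulVec, hc]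
  let H : V →ₗ[ℂ] V :=
    { toFun := fun v => h *ᵥ v
      map_add' := fun v w => Matrix.mulVec_add _ _ _
      map_smul' := by
        intro z v
        simp only [RingHom.id_apply]
        rw [hsmul, hsmul]
        show h *ᵥ (ρ z v) = ρ z (h *ᵥ v)
        simp only [ρ, Complex.liftAux_apply, LinearMap.add_apply, Module.algebraMap_end_apply,
          LinearMap.smul_apply]
        rw [Matrix.mulVec_add h (z.re • v) (z.im • J' v), Matrix.mulVec_smul, Matrix.mulVec_smul,
          hcv] }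
  have e : (H.restrictScalars ℝ) = Matrix.toLin' h := by
    ext; rfl
  have : h.det = Algebra.norm ℝ (LinearMap.det H) := by
    rw [← LinearMap.det_restrictScalars, e, LinearMap.det_toLin']
  rw [this, Algebra.norm_complex_apply]
  exact Complex.normSq_nonneg _

theorem det_pos_of_intertwine {n : ℕ} {P : Type} [TopologicalSpace P] [ConnectedSpace P]
    (J : P → Matrix (Fin n) (Fin n) ℝ) (hJ : Continuous J) (hJ2 : ∀ p, J p * J p = -1)
    (p q : P) (g : Matrix (Fin n) (Fin n) ℝ) (hg : IsUnit g) (h : g * J p = J q * g) :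
    0 < g.det := by
  classical
  let S : P → Prop := fun q => ∃ T : Matrix (Fin n) (Fin n) ℝ, 0 < T.det ∧ T * J p = J q * T
  have hS : IsLocallyConstant S := by
    rw [IsLocallyConstant.iff_eventually_eq]
    intro x
    have hcont : Continuous (fun y => ((1 / 2 : ℝ) • (1 - J y * J x)).det) := by
      fun_prop
    have h1 : 0 < ((1 / 2 : ℝ) • (1 - J x * J x)).det := by
      rw [hJ2]
      have : ((1 / 2 : ℝ) • (1 - (-1 : Matrix (Fin n) (Fin n) ℝ))) = 1 := by
        rw [sub_neg_eq_add, ← two_smul ℝ (1 : Matrix (Fin n) (Fin n) ℝ), smul_smul]; norm_num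
      rw [this]; simp
    filter_upwards [hcont.continuousAt.eventually (lt_mem_nhds h1)] with y hy
    set T : Matrix (Fin n) (Fin n) ℝ := (1 / 2 : ℝ) • (1 - J y * J x) with hT
    have hTc : T * J x = J y * T := by
      rw [hT, smul_mul_assoc, mul_smul_comm, sub_mul, mul_sub, mul_assoc, hJ2 x, ← mul_assoc (J y),
        hJ2 y]
      congr 1
      simp [add_comm]
    have hTu : IsUnit T.det := (ne_of_gt hy).isUnit
    apply propext
    constructor
    · rintro ⟨T1, h1, h2⟩
      refine ⟨T⁻¹ * T1, ?_, ?_⟩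
      · rw [Matrix.det_mul, Matrix.det_nonsing_inv]
        have : 0 < Ring.inverse T.det := by
          rw [Ring.inverse_eq_inv']; exact inv_pos.mpr hy
        positivity
      · have e1 : T⁻¹ * J y = J x * T⁻¹ := by
          have : T⁻¹ * (T * J x) * T⁻¹ = T⁻¹ * (J y * T) * T⁻¹ := by rw [hTc]
          rw [← mul_assoc, Matrix.nonsing_inv_mul _ hTu, one_mul, mul_assoc, mul_assoc,
            Matrix.mul_nonsing_inv _ hTu, mul_one] at this
          exact this.symm
        rw [mul_assoc, h2, ← mul_assoc, e1, mul_assoc]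
    · rintro ⟨T1, h1, h2⟩
      refine ⟨T * T1, ?_, ?_⟩
      · rw [Matrix.det_mul]; positivity
      · rw [mul_assoc, h2, ← mul_assoc, hTc, mul_assoc]
  have hp : S p := ⟨1, by simp, by simp⟩
  have hq : S q := by
    rw [hS.apply_eq_of_preconnectedSpace q p]; exact hp
  obtain ⟨T, hT, hTc⟩ := hq
  have hTu : IsUnit T.det := (ne_of_gt hT).isUnit
  have e1 : T⁻¹ * J q = J p * T⁻¹ := by
    have : T⁻¹ * (T * J p) * T⁻¹ = T⁻¹ * (J q * T) * T⁻¹ := by rw [hTc]
    rw [← mul_assoc, Matrix.nonsing_inv_mul _ hTu, one_mul, mul_assoc, mul_assoc,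
      Matrix.mul_nonsing_inv _ hTu, mul_one] at this
    exact this.symm
  have hc : (T⁻¹ * g) * J p = J p * (T⁻¹ * g) := by
    rw [mul_assoc, h, ← mul_assoc, e1, mul_assoc]
  have h0 := det_nonneg_of_commute_J (J p) (T⁻¹ * g) (hJ2 p) hc
  have hge : g = T * (T⁻¹ * g) := by
    rw [← mul_assoc, Matrix.mul_nonsing_inv _ hTu, one_mul]
  have h2 : 0 ≤ g.det := by
    rw [hge, Matrix.det_mul]; positivity
  have h3 : g.det ≠ 0 := ((Matrix.isUnit_iff_isUnit_det g).mp hg).ne_zero
  exact lt_of_le_of_ne h2 h3.symm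

end Pool.Agent.TorusBundle
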