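import Mathlib

/-! Pullback of an almost complex structure along a local diffeomorphism from a normed space
(helper51, task U3-S4b). -/

set_option autoImplicit false
open scoped Manifold ContDiff Matrix Topology


namespace Pool.Agent.TorusBundle

/-- the coordinate change of the tangent bundle and its inverse -/
theorem coordChange_inv {d : ℕ} {M : Type} [TopologicalSpace M]
    [ChartedSpace (EuclideanSpace ℝ (Fin d)) M] [IsManifold (𝓡 d) ∞ M]
    (i j : atlas (EuclideanSpace ℝ (Fin d)) M) (x : M) (hi : x ∈ i.1.source)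
    (hj : x ∈ j.1.source) :
    ((tangentBundleCore (𝓡 d) M).coordChange j i x).comp
      ((tangentBundleCore (𝓡 d) M).coordChange i j x) = ContinuousLinearMap.id ℝ _ := by
  ext v
  have h1 := (tangentBundleCore (𝓡 d) M).coordChange_comp i j i x ⟨⟨hi, hj⟩, hi⟩ v
  have h2 := (tangentBundleCore (𝓡 d) M).coordChange_self i x hi v
  simp only [ContinuousLinearMap.comp_apply, ContinuousLinearMap.id_apply]
  rw [h1, h2]

/-- An almost complex structure pulls back along a local diffeomorphism from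
a normed space to a continuous field of linear complex structures, equivariant under deck maps. -/
theorem exists_pullback_J {d : ℕ} {P : Type} [NormedAddCommGroup P] [NormedSpace ℝ P]
    {M : Type} [TopologicalSpace M] [ChartedSpace (EuclideanSpace ℝ (Fin d)) M]
    [IsManifold (𝓡 d) ∞ M]
    (π : P → M) (hπ : IsLocalDiffeomorph 𝓘(ℝ, P) (𝓡 d) ∞ π)
    (J : ContMDiffSection (𝓡 d)
          (EuclideanSpace ℝ (Fin d) →L[ℝ] EuclideanSpace ℝ (Fin d)) ∞
          (fun x : M => TangentSpace (𝓡 d) x →L[ℝ] TangentSpace (𝓡 d) x))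
    (hJ : ∀ x : M, (J x).comp (J x) = -ContinuousLinearMap.id ℝ (TangentSpace (𝓡 d) x)) :
    ∃ J' : P → (P →L[ℝ] P), Continuous J' ∧
      (∀ p, (J' p).comp (J' p) = -ContinuousLinearMap.id ℝ P) ∧
      ∀ h : P → P, Differentiable ℝ h → (∀ p, π (h p) = π p) →
        ∀ p, (fderiv ℝ h p).comp (J' p) = (J' (h p)).comp (fderiv ℝ h p) := by
  classical
  have hn : (∞ : WithTop ℕ∞) ≠ 0 := by simp
  -- derivative equivalences
  let D : P → (P ≃L[ℝ] EuclideanSpace ℝ (Fin d)) :=
    fun p => (hπ p).mfderivToContinuousLinearEquiv hn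
  have hD : ∀ p, (D p : P →L[ℝ] EuclideanSpace ℝ (Fin d)) = mfderiv 𝓘(ℝ, P) (𝓡 d) π p :=
    fun p => (hπ p).mfderivToContinuousLinearEquiv_coe hn
  let JJ : M → (EuclideanSpace ℝ (Fin d) →L[ℝ] EuclideanSpace ℝ (Fin d)) := fun x => J x
  have hJJ : ∀ x, (JJ x).comp (JJ x) = -ContinuousLinearMap.id ℝ _ := fun x => hJ x
  let J' : P → (P →L[ℝ] P) := fun p =>
    ((D p).symm : EuclideanSpace ℝ (Fin d) →L[ℝ] P).comp
      ((JJ (π p)).comp (D p : P →L[ℝ] EuclideanSpace ℝ (Fin d)))
  have hπc : ContMDiff 𝓘(ℝ, P) (𝓡 d) ∞ π := hπ.contMDiff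
  refine ⟨J', ?_, ?_, ?_⟩
  · rw [continuous_iff_continuousAt]
    intro p₀
    have : CompleteSpace P := by
      have e := D p₀
      exact (completeSpace_congr (e := e.toLinearEquiv.toEquiv)
        e.isUniformEmbedding).mpr inferInstance
    -- the derivative in coordinates
    have ha : ContinuousAt (inTangentCoordinates 𝓘(ℝ, P) (𝓡 d) id π
        (mfderiv 𝓘(ℝ, P) (𝓡 d) π) p₀) p₀ :=
      ((hπc p₀).mfderiv_const (m := 0) (by simp)).continuousAt
    -- the section in coordinates
    have hb : ContinuousAt (fun x => inTangentCoordinates (𝓡 d) (𝓡 d) id id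
        (fun x => JJ x) (π p₀) x) (π p₀) :=
      ((contMDiffAt_hom_bundle _).1 (J.contMDiff (π p₀))).2.continuousAt
    have hπ0 : ContinuousAt π p₀ := hπc.continuous.continuousAt
    have hb' : ContinuousAt (fun p => inTangentCoordinates (𝓡 d) (𝓡 d) id id
        (fun x => JJ x) (π p₀) (π p)) p₀ := ContinuousAt.comp (f := π) hb hπ0
    -- near the base point
    have hev : ∀ᶠ p in 𝓝 p₀, π p ∈ (chartAt (EuclideanSpace ℝ (Fin d)) (π p₀)).source :=
      hπ0.eventually ((chartAt (EuclideanSpace ℝ (Fin d)) (π p₀)).open_source.mem_nhds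
        (mem_chart_source _ _))
    set C : P → (EuclideanSpace ℝ (Fin d) →L[ℝ] EuclideanSpace ℝ (Fin d)) := fun p =>
      (tangentBundleCore (𝓡 d) M).coordChange (achart _ (π p)) (achart _ (π p₀)) (π p) with hC
    set C' : P → (EuclideanSpace ℝ (Fin d) →L[ℝ] EuclideanSpace ℝ (Fin d)) := fun p =>
      (tangentBundleCore (𝓡 d) M).coordChange (achart _ (π p₀)) (achart _ (π p)) (π p) with hC'
    have hCC : ∀ p, π p ∈ (chartAt (EuclideanSpace ℝ (Fin d)) (π p₀)).source →
        (C' p).comp (C p) = ContinuousLinearMap.id ℝ _ ∧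
        (C p).comp (C' p) = ContinuousLinearMap.id ℝ _ := by
      intro p hp
      exact ⟨coordChange_inv _ _ _ (mem_chart_source _ _) hp,
        coordChange_inv _ _ _ hp (mem_chart_source _ _)⟩
    have hA : ∀ p, π p ∈ (chartAt (EuclideanSpace ℝ (Fin d)) (π p₀)).source →
        inTangentCoordinates 𝓘(ℝ, P) (𝓡 d) id π (mfderiv 𝓘(ℝ, P) (𝓡 d) π) p₀ p =
          (C p).comp (D p : P →L[ℝ] EuclideanSpace ℝ (Fin d)) := by
      intro p hp
      rw [inTangentCoordinates_eq (I := 𝓘(ℝ, P)) (I' := 𝓡 d) id π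
        (mfderiv 𝓘(ℝ, P) (𝓡 d) π) (x₀ := p₀) (x := p) (by rw [chartAt_self_eq]; trivial) hp]
      rw [hD p]
      have : (tangentBundleCore 𝓘(ℝ, P) P).coordChange (achart P (id p₀)) (achart P (id p))
          (id p) = ContinuousLinearMap.id ℝ P := by
        rw [tangentBundleCore_coordChange_model_space]
        
      rw [this]
      rfl
    have hB : ∀ p, π p ∈ (chartAt (EuclideanSpace ℝ (Fin d)) (π p₀)).source →
        inTangentCoordinates (𝓡 d) (𝓡 d) id id (fun x => JJ x) (π p₀) (π p) =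
          (C p).comp ((JJ (π p)).comp (C' p)) := by
      intro p hp
      rw [inTangentCoordinates_eq (I := 𝓡 d) (I' := 𝓡 d) id id (fun x => JJ x)
        (x₀ := π p₀) (x := π p) hp hp]
      rfl
    have hp0 : π p₀ ∈ (chartAt (EuclideanSpace ℝ (Fin d)) (π p₀)).source :=
      mem_chart_source _ _
    -- the equivalence
    let eC : ∀ p, π p ∈ (chartAt (EuclideanSpace ℝ (Fin d)) (π p₀)).source →
        (EuclideanSpace ℝ (Fin d) ≃L[ℝ] EuclideanSpace ℝ (Fin d)) := fun p hp =>
      ContinuousLinearEquiv.equivOfInverse (C p) (C' p)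
        (fun v => by
          have := congrArg (fun f : EuclideanSpace ℝ (Fin d) →L[ℝ] EuclideanSpace ℝ (Fin d) => f v)
            (hCC p hp).1
          simpa using this)
        (fun v => by
          have := congrArg (fun f : EuclideanSpace ℝ (Fin d) →L[ℝ] EuclideanSpace ℝ (Fin d) => f v)
            (hCC p hp).2
          simpa using this)
    have heA : ∀ p (hp : π p ∈ (chartAt (EuclideanSpace ℝ (Fin d)) (π p₀)).source),
        inTangentCoordinates 𝓘(ℝ, P) (𝓡 d) id π (mfderiv 𝓘(ℝ, P) (𝓡 d) π) p₀ p =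
          (((D p).trans (eC p hp) : P ≃L[ℝ] EuclideanSpace ℝ (Fin d)) :
            P →L[ℝ] EuclideanSpace ℝ (Fin d)) := by
      intro p hp
      rw [hA p hp]
      rfl
    have hinv : ContinuousAt (fun p => ContinuousLinearMap.inverse
        (inTangentCoordinates 𝓘(ℝ, P) (𝓡 d) id π (mfderiv 𝓘(ℝ, P) (𝓡 d) π) p₀ p)) p₀ := by
      have h1 : ContinuousAt (ContinuousLinearMap.inverse :
          (P →L[ℝ] EuclideanSpace ℝ (Fin d)) → _)
          (inTangentCoordinates 𝓘(ℝ, P) (𝓡 d) id π (mfderiv 𝓘(ℝ, P) (𝓡 d) π) p₀ p₀) := by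
        rw [heA p₀ hp0]
        exact (contDiffAt_map_inverse (𝕜 := ℝ) (n := 0) _).continuousAt
      exact ContinuousAt.comp h1 ha
    have hfin : ContinuousAt (fun p => (ContinuousLinearMap.inverse
        (inTangentCoordinates 𝓘(ℝ, P) (𝓡 d) id π (mfderiv 𝓘(ℝ, P) (𝓡 d) π) p₀ p)).comp
        ((inTangentCoordinates (𝓡 d) (𝓡 d) id id (fun x => JJ x) (π p₀) (π p)).comp
        (inTangentCoordinates 𝓘(ℝ, P) (𝓡 d) id π (mfderiv 𝓘(ℝ, P) (𝓡 d) π) p₀ p))) p₀ :=
      hinv.clm_comp (hb'.clm_comp ha)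
    refine hfin.congr ?_
    filter_upwards [hev] with p hp
    rw [heA p hp, hB p hp, ContinuousLinearMap.inverse_equiv]
    ext v
    have h1 : ∀ w, (C' p) (C p w) = w := fun w => by
      have := congrArg (fun f : EuclideanSpace ℝ (Fin d) →L[ℝ] EuclideanSpace ℝ (Fin d) => f w)
        (hCC p hp).1
      simpa using this
    have h2 : ∀ w, (eC p hp) w = C p w := fun w => rfl
    have h3 : ∀ w, (eC p hp).symm w = C' p w := fun w => rfl
    simp only [ContinuousLinearMap.comp_apply, ContinuousLinearEquiv.coe_coe,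
      ContinuousLinearEquiv.trans_apply, ContinuousLinearEquiv.symm_trans_apply, h2, h3, h1, J']
  · intro p
    ext v
    have h := congrArg (fun f : EuclideanSpace ℝ (Fin d) →L[ℝ] EuclideanSpace ℝ (Fin d) =>
      f (D p v)) (hJJ (π p))
    simp only [ContinuousLinearMap.comp_apply, neg_apply,
      ContinuousLinearMap.id_apply] at h
    simp only [J', ContinuousLinearMap.comp_apply, ContinuousLinearEquiv.coe_coe,
      ContinuousLinearEquiv.apply_symm_apply, neg_apply,
      ContinuousLinearMap.id_apply, h, map_neg, ContinuousLinearEquiv.symm_apply_apply]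
  · intro h hh hπh p
    -- chain rule
    have hchain : (D (h p) : P →L[ℝ] EuclideanSpace ℝ (Fin d)).comp (fderiv ℝ h p) =
        (D p : P →L[ℝ] EuclideanSpace ℝ (Fin d)) := by
      rw [hD, hD]
      have h1 : MDifferentiableAt 𝓘(ℝ, P) (𝓡 d) π (h p) := hπ.mdifferentiable hn (h p)
      have h2 : MDifferentiableAt 𝓘(ℝ, P) 𝓘(ℝ, P) h p := (hh p).mdifferentiableAt
      have h3 := mfderiv_comp p h1 h2
      have h4 : π ∘ h = π := funext hπh
      rw [← mfderiv_eq_fderiv]
      refine h3.symm.trans ?_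
      rw [h4]
    have hchain' : ∀ v, D (h p) (fderiv ℝ h p v) = D p v := fun v => by
      have := congrArg (fun f : P →L[ℝ] EuclideanSpace ℝ (Fin d) => f v) hchain
      simpa using this
    ext v
    simp only [J', ContinuousLinearMap.comp_apply, ContinuousLinearEquiv.coe_coe]
    rw [hchain', hπh]
    apply (D (h p)).injective
    rw [hchain', ContinuousLinearEquiv.apply_symm_apply, ContinuousLinearEquiv.apply_symm_apply]

end Pool.Agent.TorusBundle
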