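import Mathlib
import Pool.Agent.Lib.MP_1d980c_gt.PullJ

set_option autoImplicit false
open scoped Manifold ContDiff Matrix Topology

namespace Pool.Agent.TorusBundle

/-- Variant of `exists_pullback_J` for a bundle endomorphism given as a continuous map of the
tangent bundle. -/
theorem exists_pullback_J2 {d : ℕ} {P : Type} [NormedAddCommGroup P] [NormedSpace ℝ P]
    [FiniteDimensional ℝ P]
    {M : Type} [TopologicalSpace M] [ChartedSpace (EuclideanSpace ℝ (Fin d)) M]
    [IsManifold (𝓡 d) ∞ M]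
    (π : P → M) (hπ : IsLocalDiffeomorph 𝓘(ℝ, P) (𝓡 d) ∞ π)
    (J : (x : M) → TangentSpace (𝓡 d) x → TangentSpace (𝓡 d) x)
    (hlin : ∀ x, IsLinearMap ℝ (J x)) (hJ : ∀ (x : M) v, J x (J x v) = -v)
    (hcont : Continuous (fun v : TangentBundle (𝓡 d) M =>
      (⟨v.1, J v.1 v.2⟩ : TangentBundle (𝓡 d) M))) :
    ∃ J' : P → (P →L[ℝ] P), Continuous J' ∧
      (∀ p, (J' p).comp (J' p) = -ContinuousLinearMap.id ℝ P) ∧
      ∀ h : P → P, Differentiable ℝ h → (∀ p, π (h p) = π p) →
        ∀ p, (fderiv ℝ h p).comp (J' p) = (J' (h p)).comp (fderiv ℝ h p) := by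
  classical
  have hn : (∞ : WithTop ℕ∞) ≠ 0 := by simp
  -- derivative equivalences
  let D : P → (P ≃L[ℝ] EuclideanSpace ℝ (Fin d)) :=
    fun p => (hπ p).mfderivToContinuousLinearEquiv hn
  have hD : ∀ p, (D p : P →L[ℝ] EuclideanSpace ℝ (Fin d)) = mfderiv 𝓘(ℝ, P) (𝓡 d) π p :=
    fun p => (hπ p).mfderivToContinuousLinearEquiv_coe hn
  let JJ : M → (EuclideanSpace ℝ (Fin d) →L[ℝ] EuclideanSpace ℝ (Fin d)) := fun x =>
    LinearMap.toContinuousLinearMap ((hlin x).mk' (J x) :
      EuclideanSpace ℝ (Fin d) →ₗ[ℝ] EuclideanSpace ℝ (Fin d))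
  have hJJa : ∀ x (v : EuclideanSpace ℝ (Fin d)), JJ x v = J x v := fun x v => rfl
  have hJJ : ∀ x, (JJ x).comp (JJ x) = -ContinuousLinearMap.id ℝ _ := by
    intro x
    ext1 v
    exact hJ x v
  let J' : P → (P →L[ℝ] P) := fun p =>
    ((D p).symm : EuclideanSpace ℝ (Fin d) →L[ℝ] P).comp
      ((JJ (π p)).comp (D p : P →L[ℝ] EuclideanSpace ℝ (Fin d)))
  have hπc : ContMDiff 𝓘(ℝ, P) (𝓡 d) ∞ π := hπ.contMDiff
  refine ⟨J', ?_, ?_, ?_⟩
  · rw [continuous_clm_apply]
    intro y
    rw [continuous_iff_continuousAt]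
    intro p₀
    have : CompleteSpace P := FiniteDimensional.complete ℝ P
    -- the derivative in coordinates
    have ha : ContinuousAt (inTangentCoordinates 𝓘(ℝ, P) (𝓡 d) id π
        (mfderiv 𝓘(ℝ, P) (𝓡 d) π) p₀) p₀ :=
      ((hπc p₀).mfderiv_const (m := 0) (by simp)).continuousAt
    have hπ0 : ContinuousAt π p₀ := hπc.continuous.continuousAt
    -- near the base point
    have hev : ∀ᶠ p in 𝓝 p₀, π p ∈ (chartAt (EuclideanSpace ℝ (Fin d)) (π p₀)).source :=
      hπ0.eventually ((chartAt (EuclideanSpace ℝ (Fin d)) (π p₀)).open_source.mem_nhds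
        (mem_chart_source _ _))
    set C : P → (EuclideanSpace ℝ (Fin d) →L[ℝ] EuclideanSpace ℝ (Fin d)) := fun p =>
      (tangentBundleCore (𝓡 d) M).coordChange (achart _ (π p)) (achart _ (π p₀)) (π p) with hC
    set C' : P → (EuclideanSpace ℝ (Fin d) →L[ℝ] EuclideanSpace ℝ (Fin d)) := fun p =>
      (tangentBundleCore (𝓡 d) M).coordChange (achart _ (π p₀)) (achart _ (π p)) (π p) with hC'
    have hCC : ∀ p, π p ∈ (chartAt (EuclideanSpace ℝ (Fin d)) (π p₀)).source →
        (C' p).comp (C p) = ContinuousLinearMap.id ℝ _ ∧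
        (C p).comp (C' p) = ContinuousLinearMap.id ℝ _ := by
      intro p hp
      exact ⟨coordChange_inv _ _ _ (mem_chart_source _ _) hp,
        coordChange_inv _ _ _ hp (mem_chart_source _ _)⟩
    have hA : ∀ p, π p ∈ (chartAt (EuclideanSpace ℝ (Fin d)) (π p₀)).source →
        inTangentCoordinates 𝓘(ℝ, P) (𝓡 d) id π (mfderiv 𝓘(ℝ, P) (𝓡 d) π) p₀ p =
          (C p).comp (D p : P →L[ℝ] EuclideanSpace ℝ (Fin d)) := by
      intro p hp
      rw [inTangentCoordinates_eq (I := 𝓘(ℝ, P)) (I' := 𝓡 d) id π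
        (mfderiv 𝓘(ℝ, P) (𝓡 d) π) (x₀ := p₀) (x := p) (by rw [chartAt_self_eq]; trivial) hp]
      rw [hD p]
      have : (tangentBundleCore 𝓘(ℝ, P) P).coordChange (achart P (id p₀)) (achart P (id p))
          (id p) = ContinuousLinearMap.id ℝ P := by
        rw [tangentBundleCore_coordChange_model_space]
        
      rw [this]
      rfl
    have hp0 : π p₀ ∈ (chartAt (EuclideanSpace ℝ (Fin d)) (π p₀)).source :=
      mem_chart_source _ _
    -- the equivalence
    let eC : ∀ p, π p ∈ (chartAt (EuclideanSpace ℝ (Fin d)) (π p₀)).source →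
        (EuclideanSpace ℝ (Fin d) ≃L[ℝ] EuclideanSpace ℝ (Fin d)) := fun p hp =>
      ContinuousLinearEquiv.equivOfInverse (C p) (C' p)
        (fun v => by
          have := congrArg (fun f : EuclideanSpace ℝ (Fin d) →L[ℝ] EuclideanSpace ℝ (Fin d) => f v)
            (hCC p hp).1
          simpa using this)
        (fun v => by
          have := congrArg (fun f : EuclideanSpace ℝ (Fin d) →L[ℝ] EuclideanSpace ℝ (Fin d) => f v)
            (hCC p hp).2
          simpa using this)
    have heA : ∀ p (hp : π p ∈ (chartAt (EuclideanSpace ℝ (Fin d)) (π p₀)).source),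
        inTangentCoordinates 𝓘(ℝ, P) (𝓡 d) id π (mfderiv 𝓘(ℝ, P) (𝓡 d) π) p₀ p =
          (((D p).trans (eC p hp) : P ≃L[ℝ] EuclideanSpace ℝ (Fin d)) :
            P →L[ℝ] EuclideanSpace ℝ (Fin d)) := by
      intro p hp
      rw [hA p hp]
      rfl
    have hinv : ContinuousAt (fun p => ContinuousLinearMap.inverse
        (inTangentCoordinates 𝓘(ℝ, P) (𝓡 d) id π (mfderiv 𝓘(ℝ, P) (𝓡 d) π) p₀ p)) p₀ := by
      have h1 : ContinuousAt (ContinuousLinearMap.inverse :
          (P →L[ℝ] EuclideanSpace ℝ (Fin d)) → _)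
          (inTangentCoordinates 𝓘(ℝ, P) (𝓡 d) id π (mfderiv 𝓘(ℝ, P) (𝓡 d) π) p₀ p₀) := by
        rw [heA p₀ hp0]
        exact (contDiffAt_map_inverse (𝕜 := ℝ) (n := 0) _).continuousAt
      exact ContinuousAt.comp h1 ha
    -- the tangent vector `y` moved by the derivative
    set u : P → TangentBundle (𝓡 d) M := fun p => ⟨π p, D p y⟩ with hu
    have hu0 : ContinuousAt u p₀ := by
      rw [FiberBundle.continuousAt_totalSpace]
      refine ⟨hπ0, ?_⟩
      have h1 : ContinuousAt (fun p => inTangentCoordinates 𝓘(ℝ, P) (𝓡 d) id π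
        (mfderiv 𝓘(ℝ, P) (𝓡 d) π) p₀ p y) p₀ := ha.clm_apply continuousAt_const
      refine h1.congr ?_
      filter_upwards [hev] with p hp
      rw [hA p hp]
      rfl
    have hJu : ContinuousAt (fun p => (⟨π p, J (π p) (D p y)⟩ : TangentBundle (𝓡 d) M)) p₀ :=
      ContinuousAt.comp (f := u) hcont.continuousAt hu0
    rw [FiberBundle.continuousAt_totalSpace] at hJu
    have ht : ContinuousAt (fun p => C p (JJ (π p) (D p y))) p₀ := hJu.2
    have hfin := hinv.clm_apply ht
    refine hfin.congr ?_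
    filter_upwards [hev] with p hp
    rw [heA p hp, ContinuousLinearMap.inverse_equiv]
    have h1 : ∀ w, (C' p) (C p w) = w := fun w => by
      have := congrArg (fun f : EuclideanSpace ℝ (Fin d) →L[ℝ] EuclideanSpace ℝ (Fin d) => f w)
        (hCC p hp).1
      simpa using this
    have h3 : ∀ w, (eC p hp).symm w = C' p w := fun w => rfl
    simp only [ContinuousLinearMap.comp_apply, ContinuousLinearEquiv.coe_coe,
      ContinuousLinearEquiv.symm_trans_apply, h3, h1, J']
  · intro p
    ext v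
    have h := congrArg (fun f : EuclideanSpace ℝ (Fin d) →L[ℝ] EuclideanSpace ℝ (Fin d) =>
      f (D p v)) (hJJ (π p))
    simp only [ContinuousLinearMap.comp_apply, neg_apply,
      ContinuousLinearMap.id_apply] at h
    simp only [J', ContinuousLinearMap.comp_apply, ContinuousLinearEquiv.coe_coe,
      ContinuousLinearEquiv.apply_symm_apply, neg_apply,
      ContinuousLinearMap.id_apply, h, map_neg, ContinuousLinearEquiv.symm_apply_apply]
  · intro h hh hπh p
    -- chain rule
    have hchain : (D (h p) : P →L[ℝ] EuclideanSpace ℝ (Fin d)).comp (fderiv ℝ h p) =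
        (D p : P →L[ℝ] EuclideanSpace ℝ (Fin d)) := by
      rw [hD, hD]
      have h1 : MDifferentiableAt 𝓘(ℝ, P) (𝓡 d) π (h p) := hπ.mdifferentiable hn (h p)
      have h2 : MDifferentiableAt 𝓘(ℝ, P) 𝓘(ℝ, P) h p := (hh p).mdifferentiableAt
      have h3 := mfderiv_comp p h1 h2
      have h4 : π ∘ h = π := funext hπh
      rw [← mfderiv_eq_fderiv]
      refine h3.symm.trans ?_
      rw [h4]
    have hchain' : ∀ v, D (h p) (fderiv ℝ h p v) = D p v := fun v => by
      have := congrArg (fun f : P →L[ℝ] EuclideanSpace ℝ (Fin d) => f v) hchain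
      simpa using this
    ext v
    simp only [J', ContinuousLinearMap.comp_apply, ContinuousLinearEquiv.coe_coe]
    rw [hchain', hπh]
    apply (D (h p)).injective
    rw [hchain', ContinuousLinearEquiv.apply_symm_apply, ContinuousLinearEquiv.apply_symm_apply]

end Pool.Agent.TorusBundle
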