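import Mathlib
import Pool.Agent.Lib.MP_1d980c_gt.Main2
import Pool.Agent.Lib.MP_1d980c_gt.Orient
import Pool.Agent.Lib.MP_1d980c_gt.PullJ2

set_option autoImplicit false
set_option linter.unusedSectionVars false
open scoped Manifold ContDiff Matrix Topology
open Complex

namespace Pool.Agent.TorusBundle

lemma det_block {n : ℕ} (A : Matrix (Fin n) (Fin n) ℝ) (N : (ℝ × ℝ) →ₗ[ℝ] (Fin n → ℝ))
    (f : ((Fin n → ℝ) × (ℝ × ℝ)) →ₗ[ℝ] ((Fin n → ℝ) × (ℝ × ℝ)))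
    (hf : ∀ v x, f (v, x) = (A *ᵥ v + N x, x)) : LinearMap.det f = A.det := by
  classical
  let b0 := (Pi.basisFun ℝ (Fin n)).prod (Module.Basis.finTwoProd ℝ)
  rw [← LinearMap.det_toMatrix b0 f]
  have e : LinearMap.toMatrix b0 b0 f =
      Matrix.fromBlocks A (Matrix.of fun i j => N (Module.Basis.finTwoProd ℝ j) i) 0 1 := by
    ext i j
    rcases i with i | i <;> rcases j with j | j
    · rw [LinearMap.toMatrix_apply]
      simp [b0, hf]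
    · rw [LinearMap.toMatrix_apply]
      simp [b0, hf]
    · rw [LinearMap.toMatrix_apply]
      simp [b0, hf]
    · rw [LinearMap.toMatrix_apply]
      simp only [b0, Module.Basis.prod_apply, Sum.elim_inr, LinearMap.coe_inr, Function.comp_apply, hf,
        Module.Basis.prod_repr_inr, Matrix.fromBlocks_apply₂₂, Matrix.one_apply]
      rw [Module.Basis.repr_self, Finsupp.single_apply]
      simp [eq_comm]
  rw [e, Matrix.det_fromBlocks_zero₂₁, Matrix.det_one, mul_one]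

lemma det_pos_of_field {n : ℕ} {A : Matrix (Fin n) (Fin n) ℝ} (hA : IsUnit A)
    (N : (ℝ × ℝ) →L[ℝ] (Fin n → ℝ))
    (f : ((Fin n → ℝ) × (ℝ × ℝ)) →L[ℝ] ((Fin n → ℝ) × (ℝ × ℝ)))
    (hf : ∀ v x, f (v, x) = (A *ᵥ v + N x, x))
    (J : ((Fin n → ℝ) × (ℝ × ℝ)) → (((Fin n → ℝ) × (ℝ × ℝ)) →L[ℝ] ((Fin n → ℝ) × (ℝ × ℝ))))
    (hJ : Continuous J) (hJ2 : ∀ p, (J p).comp (J p) = -ContinuousLinearMap.id ℝ _)
    (p q : (Fin n → ℝ) × (ℝ × ℝ)) (h : f.comp (J p) = (J q).comp f) : 0 < A.det := by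
  classical
  let b := ((Pi.basisFun ℝ (Fin n)).prod (Module.Basis.finTwoProd ℝ)).reindex finSumFinEquiv
  have hdet : (LinearMap.toMatrix b b (f : _ →ₗ[ℝ] _)).det = A.det := by
    rw [LinearMap.det_toMatrix]
    exact det_block A (N : (ℝ × ℝ) →ₗ[ℝ] (Fin n → ℝ)) _ hf
  rw [← hdet]
  refine det_pos_of_intertwine (fun p => LinearMap.toMatrix b b (J p : _ →ₗ[ℝ] _)) ?_ ?_ p q _ ?_ ?_
  · let T : (((Fin n → ℝ) × (ℝ × ℝ)) →L[ℝ] ((Fin n → ℝ) × (ℝ × ℝ))) →ₗ[ℝ]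
        Matrix (Fin (n + 2)) (Fin (n + 2)) ℝ :=
      (LinearMap.toMatrix b b).toLinearMap.comp (ContinuousLinearMap.coeLM ℝ)
    exact (T.continuous_of_finiteDimensional).comp hJ
  · intro p
    have h1 := congrArg (fun g : ((Fin n → ℝ) × (ℝ × ℝ)) →L[ℝ] ((Fin n → ℝ) × (ℝ × ℝ)) =>
      LinearMap.toMatrix b b (g : _ →ₗ[ℝ] _)) (hJ2 p)
    simp only [ContinuousLinearMap.toLinearMap_comp, ContinuousLinearMap.toLinearMap_neg,
      map_neg] at h1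
    have h2 : LinearMap.toMatrix b b ((ContinuousLinearMap.id ℝ ((Fin n → ℝ) × (ℝ × ℝ)) : _ →L[ℝ] _) :
        _ →ₗ[ℝ] _) = 1 := LinearMap.toMatrix_id b
    rw [h2] at h1
    rw [← h1, LinearMap.toMatrix_comp b b b]
  · rw [Matrix.isUnit_iff_isUnit_det, hdet]
    exact (Matrix.isUnit_iff_isUnit_det A).1 hA
  · have h1 := congrArg (fun g : ((Fin n → ℝ) × (ℝ × ℝ)) →L[ℝ] ((Fin n → ℝ) × (ℝ × ℝ)) =>
      LinearMap.toMatrix b b (g : _ →ₗ[ℝ] _)) h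
    simp only [ContinuousLinearMap.toLinearMap_comp] at h1
    rw [← LinearMap.toMatrix_comp b b b, ← LinearMap.toMatrix_comp b b b]
    exact h1

theorem det_pos_of_J (m : ℕ) (A B : Matrix (Fin (2 * m)) (Fin (2 * m)) ℝ)
    (hA : IsUnit A) (hB : IsUnit B) (Λ : Set (Fin (2 * m) → ℝ))
    (a b : ℝ × ℝ → (Fin (2 * m) → ℝ)) (ha : ContDiff ℝ ∞ a) (hb : ContDiff ℝ ∞ b)
    (M : Type) [TopologicalSpace M] [ChartedSpace (EuclideanSpace ℝ (Fin (2 * (m + 1)))) M]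
    [IsManifold (𝓡 (2 * (m + 1))) ∞ M]
    (π : (Fin (2 * m) → ℝ) × (ℝ × ℝ) → M)
    (hπ : IsLocalDiffeomorph 𝓘(ℝ, (Fin (2 * m) → ℝ) × (ℝ × ℝ)) (𝓡 (2 * (m + 1))) ∞ π)
    (hfib : ∀ p p', π p = π p' ↔ Relation.EqvGen (Step A B Λ a b) p p')
    (J : (x : M) → TangentSpace (𝓡 (2 * (m + 1))) x → TangentSpace (𝓡 (2 * (m + 1))) x)
    (hlin : ∀ x, IsLinearMap ℝ (J x)) (hJ : ∀ (x : M) v, J x (J x v) = -v)
    (hcont : Continuous (fun v : TangentBundle (𝓡 (2 * (m + 1))) M =>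
      (⟨v.1, J v.1 v.2⟩ : TangentBundle (𝓡 (2 * (m + 1))) M))) :
    0 < A.det ∧ 0 < B.det := by
  obtain ⟨J', hc, hJ2, heq⟩ := exists_pullback_J2 π hπ J hlin hJ hcont
  have key : ∀ (C : Matrix (Fin (2 * m)) (Fin (2 * m)) ℝ) (hC : IsUnit C)
      (e : ℝ × ℝ → (Fin (2 * m) → ℝ)) (he : ContDiff ℝ ∞ e) (x₀ : ℝ × ℝ)
      (hπe : ∀ v x, π (C *ᵥ v + e x, x + x₀) = π (v, x)), 0 < C.det := by
    intro C hC e he x₀ hπe
    let Cl : (Fin (2 * m) → ℝ) →L[ℝ] (Fin (2 * m) → ℝ) :=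
      LinearMap.toContinuousLinearMap (Matrix.mulVecLin C)
    have hCl : ∀ v, Cl v = C *ᵥ v := fun v => rfl
    let h : (Fin (2 * m) → ℝ) × (ℝ × ℝ) → (Fin (2 * m) → ℝ) × (ℝ × ℝ) :=
      fun p => (Cl p.1 + e p.2, p.2 + x₀)
    have hed : Differentiable ℝ e := he.differentiable (by simp)
    have hder : ∀ p, HasFDerivAt h (((Cl.comp (ContinuousLinearMap.fst ℝ _ _)) +
        ((fderiv ℝ e p.2).comp (ContinuousLinearMap.snd ℝ _ _))).prod
        (ContinuousLinearMap.snd ℝ _ _)) p := by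
      intro p
      refine HasFDerivAt.prodMk (HasFDerivAt.add ?_ ?_) ?_
      · exact (Cl.hasFDerivAt).comp p hasFDerivAt_fst
      · exact (hed p.2).hasFDerivAt.comp p hasFDerivAt_snd
      · exact hasFDerivAt_snd.add_const x₀
    have hdiff : Differentiable ℝ h := fun p => (hder p).differentiableAt
    have h1 := heq h hdiff (fun p => hπe p.1 p.2) 0
    rw [(hder 0).fderiv] at h1
    exact det_pos_of_field hC (fderiv ℝ e (0 : (Fin (2 * m) → ℝ) × (ℝ × ℝ)).2) _ (fun v x => rfl) J' hc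
      hJ2 0 (h 0) h1
  constructor
  · refine key A hA a ha (1, 0) fun v x => ?_
    obtain ⟨s, t⟩ := x
    have h1 := (hfib _ _).2 (Relation.EqvGen.rel _ _ (Step.first (A := A) (B := B) (Λ := Λ) (a := a)
      (b := b) v s t))
    rw [h1]
    simp
  · refine key B hB b hb (0, 1) fun v x => ?_
    obtain ⟨s, t⟩ := x
    have h1 := (hfib _ _).2 (Relation.EqvGen.rel _ _ (Step.second (A := A) (B := B) (Λ := Λ) (a := a)
      (b := b) v s t))
    rw [h1]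
    simp

end Pool.Agent.TorusBundle
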