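import Mathlib

set_option autoImplicit false
open scoped Manifold ContDiff
open Set

namespace Pool.Agent.TorusBundle

/-- A smooth manifold `M` which is covered by the images of local diffeomorphisms `π i` defined on
the sources of real partial diffeomorphisms `φ i : P → ℂ^k`, such that any two points with the same
image are related by a local transformation which is holomorphic in the coordinates `φ i`, carries
a complex structure. -/
theorem exists_complex_structure_multi {k : ℕ} {EP HP P : Type} [NormedAddCommGroup EP]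
    [NormedSpace ℝ EP] [TopologicalSpace HP] {IP : ModelWithCorners ℝ EP HP}
    [TopologicalSpace P] [ChartedSpace HP P]
    {M : Type} [TopologicalSpace M] [ChartedSpace (EuclideanSpace ℝ (Fin (2 * k))) M]
    [IsManifold (𝓡 (2 * k)) ∞ M]
    {ι : Type} (π : ι → P → M)
    (φ : ι → PartialDiffeomorph IP 𝓘(ℝ, EuclideanSpace ℂ (Fin k)) P
      (EuclideanSpace ℂ (Fin k)) ∞)
    (hπ : ∀ i, ∀ p ∈ (φ i).source, IsLocalDiffeomorphAt IP (𝓡 (2 * k)) ∞ (π i) p)
    (hs : ∀ x : M, ∃ i, ∃ p ∈ (φ i).source, π i p = x)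
    (hdeck : ∀ (i i' : ι) (p p' : P), p ∈ (φ i).source → p' ∈ (φ i').source → π i p = π i' p' →
      ∃ g : P → P, ContinuousAt g p ∧ g p = p' ∧ (∀ᶠ x in nhds p, π i' (g x) = π i x) ∧
      ContDiffAt ℂ ∞ (fun z => φ i' (g ((φ i).symm z))) (φ i p)) :
    ∃ (N : Type) (_ : TopologicalSpace N) (_ : ChartedSpace (EuclideanSpace ℂ (Fin k)) N),
      IsManifold 𝓘(ℂ, EuclideanSpace ℂ (Fin k)) ∞ N ∧
      Nonempty (Diffeomorph (𝓡 (2 * k)) 𝓘(ℝ, EuclideanSpace ℂ (Fin k)) M N ∞) := by
  classical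
  -- local inverses
  have hΨ' : ∀ (a : {a : ι × P // a.2 ∈ (φ a.1).source}),
      ∃ Φ : PartialDiffeomorph IP (𝓡 (2 * k)) P M ∞, a.1.2 ∈ Φ.source ∧
        EqOn (π a.1.1) Φ Φ.source := fun a => hπ a.1.1 a.1.2 a.2
  choose Ψ hΨ heq using hΨ'
  have hq' : ∀ x : M, ∃ a : {a : ι × P // a.2 ∈ (φ a.1).source}, π a.1.1 a.1.2 = x := by
    intro x
    obtain ⟨i, p, hp, hx⟩ := hs x
    exact ⟨⟨(i, p), hp⟩, hx⟩
  choose q hq using hq'
  let qc : {a : ι × P // a.2 ∈ (φ a.1).source} →
      PartialDiffeomorph (𝓡 (2 * k)) 𝓘(ℝ, EuclideanSpace ℂ (Fin k)) M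
      (EuclideanSpace ℂ (Fin k)) ∞ := fun a => (Ψ a).symm.trans (φ a.1.1)
  have hsrc : ∀ a m, m ∈ (qc a).source ↔ m ∈ (Ψ a).target ∧ (Ψ a).symm m ∈ (φ a.1.1).source := by
    intro a m
    exact Iff.rfl
  have htgt : ∀ a z, z ∈ (qc a).target ↔ z ∈ (φ a.1.1).target ∧
      (φ a.1.1).symm z ∈ (Ψ a).source := by
    intro a z
    exact Iff.rfl
  have hmem : ∀ m : M, m ∈ (qc (q m)).source := by
    intro m
    have h := (Ψ (q m)).map_source (hΨ (q m))
    have h2 : (Ψ (q m)) (q m).1.2 = m := by rw [← heq (q m) (hΨ (q m)), hq]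
    have h3 : m ∈ (Ψ (q m)).target := by
      rwa [show (Ψ (q m)).toPartialEquiv (q m).1.2 = m from h2] at h
    rw [hsrc]
    refine ⟨h3, ?_⟩
    have h4 : (Ψ (q m)).symm m = (q m).1.2 := by
      have h5 := (Ψ (q m)).left_inv (hΨ (q m))
      rw [show (Ψ (q m)).toPartialEquiv (q m).1.2 = m from h2] at h5
      exact h5
    rw [h4]
    exact (q m).2
  let cs : ChartedSpace (EuclideanSpace ℂ (Fin k)) M :=
    { atlas := {e | ∃ a, e = (qc a).toOpenPartialHomeomorph}
      chartAt := fun m => (qc (q m)).toOpenPartialHomeomorph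
      mem_chart_source := fun m => hmem m
      chart_mem_atlas := fun m => ⟨q m, rfl⟩ }
  refine ⟨M, inferInstance, cs, ?_, ⟨?_⟩⟩
  · apply isManifold_of_contDiffOn
    rintro e e' ⟨a, rfl⟩ ⟨a', rfl⟩
    intro z hz
    apply ContDiffAt.contDiffWithinAt
    simp only [modelWithCornersSelf_coe_symm, modelWithCornersSelf_coe, preimage_id, range_id,
      inter_univ, OpenPartialHomeomorph.trans_source, OpenPartialHomeomorph.symm_source,
      mem_inter_iff, mem_preimage] at hz
    obtain ⟨hz1, hz2⟩ := hz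
    have hz1' : z ∈ (φ a.1.1).target ∧ (φ a.1.1).symm z ∈ (Ψ a).source := hz1
    set x : P := (φ a.1.1).symm z with hx
    have hzx : (φ a.1.1) x = z := (φ a.1.1).right_inv hz1'.1
    have hxi : x ∈ (φ a.1.1).source := (φ a.1.1).map_target hz1'.1
    have hx1 : x ∈ (Ψ a).source := hz1'.2
    have hx2 : (Ψ a) x = π a.1.1 x := (heq a hx1).symm
    have hz2' : (Ψ a) x ∈ (qc a').source := hz2
    rw [hx2, hsrc] at hz2'
    set x' : P := (Ψ a').symm (π a.1.1 x) with hx'
    have hx'1 : x' ∈ (Ψ a').source := (Ψ a').map_target hz2'.1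
    have hx'i : x' ∈ (φ a'.1.1).source := hz2'.2
    have hx'2 : π a'.1.1 x' = π a.1.1 x := by
      rw [heq a' hx'1]; exact (Ψ a').right_inv hz2'.1
    obtain ⟨g, hg1, hg2, hg3, hg4⟩ := hdeck a.1.1 a'.1.1 x x' hxi hx'i hx'2.symm
    rw [hzx] at hg4
    have hcont : ContinuousAt (fun y => (φ a.1.1).symm y) z :=
      (φ a.1.1).symm.toOpenPartialHomeomorph.continuousAt hz1'.1
    have hev : ∀ᶠ y in nhds z, (fun z => φ a'.1.1 (g ((φ a.1.1).symm z))) y
        = (𝓘(ℂ, EuclideanSpace ℂ (Fin k)) ∘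
          ((qc a).toOpenPartialHomeomorph.symm.trans (qc a').toOpenPartialHomeomorph) ∘
          𝓘(ℂ, EuclideanSpace ℂ (Fin k)).symm) y := by
      have h1 : ∀ᶠ y in nhds z, (φ a.1.1).symm y ∈ (Ψ a).source :=
        hcont.eventually ((Ψ a).open_source.mem_nhds hx1)
      have h2 : ∀ᶠ y in nhds z, g ((φ a.1.1).symm y) ∈ (Ψ a').source := by
        have hc : ContinuousAt (fun y => g ((φ a.1.1).symm y)) z := by
          refine ContinuousAt.comp (f := fun y => (φ a.1.1).symm y) (g := g) ?_ hcont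
          exact hg1
        apply hc.eventually
        apply (Ψ a').open_source.mem_nhds
        change g x ∈ _
        rw [hg2]; exact hx'1
      have h3 : ∀ᶠ y in nhds z, π a'.1.1 (g ((φ a.1.1).symm y)) = π a.1.1 ((φ a.1.1).symm y) :=
        hcont.eventually hg3
      filter_upwards [h1, h2, h3] with y hy1 hy2 hy3
      change φ a'.1.1 (g ((φ a.1.1).symm y)) =
        φ a'.1.1 ((Ψ a').symm ((Ψ a) ((φ a.1.1).symm y)))
      congr 1
      have h3 : (Ψ a) ((φ a.1.1).symm y) = π a.1.1 ((φ a.1.1).symm y) := (heq a hy1).symm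
      rw [h3, ← hy3, heq a' hy2]
      exact ((Ψ a').left_inv hy2).symm
    exact hg4.congr_of_eventuallyEq (Filter.EventuallyEq.symm hev)
  · refine
      { toEquiv := Equiv.refl M
        contMDiff_toFun := ?_
        contMDiff_invFun := ?_ }
    · intro m
      rw [contMDiffAt_iff_target]
      refine ⟨continuousAt_id, ?_⟩
      have h1 : ContMDiffOn (𝓡 (2 * k)) 𝓘(ℝ, EuclideanSpace ℂ (Fin k)) ∞
          (fun m' : M => (qc (q m)) m') (qc (q m)).source :=
        (qc (q m)).contMDiffOn_toFun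
      exact h1.contMDiffAt ((qc (q m)).open_source.mem_nhds (hmem m))
    · intro m
      rw [contMDiffAt_iff_source]
      have h1 : ContMDiffOn 𝓘(ℝ, EuclideanSpace ℂ (Fin k)) (𝓡 (2 * k)) ∞
          (fun z : EuclideanSpace ℂ (Fin k) => (qc (q m)).symm z)
          (qc (q m)).target :=
        (qc (q m)).contMDiffOn_invFun
      have h2 : (qc (q m)).target ∈ nhds ((qc (q m)) m) :=
        (qc (q m)).open_target.mem_nhds ((qc (q m)).map_source (hmem m))
      exact (h1.contMDiffAt h2).contMDiffWithinAt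

end Pool.Agent.TorusBundle
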