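import Mathlib
import Pool.Agent.Lib.MP_1d980c_gt.Main
import Pool.Agent.Lib.MP_1d980c_gt.ND

set_option autoImplicit false
open scoped Manifold ContDiff Matrix Topology
open Complex Set Filter Finset ComplexConjugate

namespace Pool.Agent.EllipticTwist

open Pool.Agent.TorusBundle

/-! ### Theta functions for an arbitrary modulus -/

/-- The theta function does not vanish identically. -/
theorem exists_theta_ne {τ : ℂ} (hτ : 0 < τ.im) : ∃ w : ℂ, jacobiTheta₂ w τ ≠ 0 := by
  by_contra hcon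
  push Not at hcon
  have hterm : ∀ (n : ℤ) (x : ℝ), jacobiTheta₂_term n x τ =
      Complex.exp (Real.pi * I * n ^ 2 * τ) * Complex.exp ((2 * Real.pi * I * n) * x) := by
    intro n x
    unfold jacobiTheta₂_term
    rw [← Complex.exp_add]
    congr 1
    ring
  have hcont : ∀ n : ℤ, Continuous (fun x : ℝ => jacobiTheta₂_term n x τ) := by
    intro n
    simp only [hterm]
    fun_prop
  have hnorm : ∀ (n : ℤ) (x : ℝ), ‖jacobiTheta₂_term n x τ‖ = ‖jacobiTheta₂_term n (0 : ℝ) τ‖ := by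
    intro n x
    rw [hterm, hterm, norm_mul, norm_mul]
    congr 1
    rw [Complex.norm_exp, Complex.norm_exp]
    congr 1
    simp
  have hsumm : Summable (fun n : ℤ => ‖jacobiTheta₂_term n (0 : ℝ) τ‖) := by
    have := (hasSum_jacobiTheta₂_term (0 : ℂ) hτ).summable.norm
    simpa using this
  have h := intervalIntegral.hasSum_intervalIntegral_of_summable_norm (a := (0 : ℝ)) (b := 1)
    (f := fun n : ℤ => (⟨fun x : ℝ => jacobiTheta₂_term n x τ, hcont n⟩ : C(ℝ, ℂ))) (by
      refine hsumm.of_nonneg_of_le (fun n => norm_nonneg _) (fun n => ?_)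
      rw [ContinuousMap.norm_le _ (norm_nonneg _)]
      intro x
      exact (hnorm n x).le)
  have h0 : ∀ n : ℤ, (∫ x in (0 : ℝ)..1, jacobiTheta₂_term n x τ) = if n = 0 then 1 else 0 := by
    intro n
    simp only [hterm]
    rw [intervalIntegral.integral_const_mul]
    split_ifs with hn
    · subst hn
      simp
    · have hc : (2 * (Real.pi : ℂ) * I * n) ≠ 0 := by
        refine mul_ne_zero (mul_ne_zero (mul_ne_zero two_ne_zero ?_) I_ne_zero) ?_
        · exact_mod_cast Real.pi_ne_zero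
        · exact_mod_cast hn
      rw [integral_exp_mul_complex hc]
      have e1 : Complex.exp (2 * Real.pi * I * n * (1 : ℝ)) = 1 := by
        rw [Complex.exp_eq_one_iff]
        exact ⟨n, by push_cast; ring⟩
      have e2 : Complex.exp (2 * Real.pi * I * n * (0 : ℝ)) = 1 := by simp
      rw [e1, e2]
      simp
  have h1 : (fun n : ℤ => ∫ x in (0 : ℝ)..1, (⟨fun x : ℝ => jacobiTheta₂_term n x τ, hcont n⟩ :
      C(ℝ, ℂ)) x) = fun n : ℤ => if n = 0 then (1 : ℂ) else 0 := funext h0
  rw [h1] at h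
  have h2 : (∫ x in (0 : ℝ)..1, ∑' n : ℤ, (⟨fun x : ℝ => jacobiTheta₂_term n x τ, hcont n⟩ :
      C(ℝ, ℂ)) x) = 0 := by
    have e : ∀ x : ℝ, (∑' n : ℤ, (⟨fun x : ℝ => jacobiTheta₂_term n x τ, hcont n⟩ :
      C(ℝ, ℂ)) x) = 0 := fun x => hcon x
    simp only [e]
    simp
  rw [h2] at h
  have h3 : HasSum (fun n : ℤ => if n = 0 then (1 : ℂ) else 0) 1 := hasSum_ite_eq 0 1
  exact one_ne_zero (h3.unique h)

theorem countable_zeros_theta {τ : ℂ} (hτ : 0 < τ.im) : {w : ℂ | jacobiTheta₂ w τ = 0}.Countable := by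
  have hd : Differentiable ℂ (fun w : ℂ => jacobiTheta₂ w τ) :=
    fun w => differentiableAt_jacobiTheta₂_fst w hτ
  have han : AnalyticOnNhd ℂ (fun w : ℂ => jacobiTheta₂ w τ) univ :=
    hd.differentiableOn.analyticOnNhd isOpen_univ
  rcases han.eqOn_zero_or_eventually_ne_zero_of_preconnected isPreconnected_univ with h | h
  · obtain ⟨w, hw⟩ := exists_theta_ne hτ
    exact absurd (h (Set.mem_univ w)) hw
  · apply (HereditarilyLindelofSpace.isLindelof _).countable_of_isDiscrete
    have h2 : IsDiscrete ({w : ℂ | jacobiTheta₂ w τ = 0} ∩ univ) := by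
      apply isDiscrete_of_codiscreteWithin
      exact h
    rwa [Set.inter_univ] at h2

/-- Two products of translates of the theta function without common zeros. -/
theorem exists_shift_tau {τ : ℂ} (hτ : 0 < τ.im) : ∃ c : ℂ, ∀ w : ℂ,
    jacobiTheta₂ w τ * jacobiTheta₂ w τ ≠ 0 ∨ jacobiTheta₂ (w + c) τ * jacobiTheta₂ (w - c) τ ≠ 0 := by
  have hZ := countable_zeros_theta hτ
  set Z : Set ℂ := {w : ℂ | jacobiTheta₂ w τ = 0} with hZdef
  have hbad : ((fun p : ℂ × ℂ => p.1 - p.2) '' (Z ×ˢ Z)).Countable := (hZ.prod hZ).image _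
  obtain ⟨c, hc⟩ : ∃ c : ℂ, c ∉ ((fun p : ℂ × ℂ => p.1 - p.2) '' (Z ×ˢ Z)) := by
    by_contra hcon
    push Not at hcon
    have huniv : ((fun p : ℂ × ℂ => p.1 - p.2) '' (Z ×ˢ Z)) = univ := eq_univ_of_forall hcon
    rw [huniv] at hbad
    exact not_countable_complex hbad
  refine ⟨c, fun w => ?_⟩
  by_contra hcon
  push Not at hcon
  obtain ⟨h1, h2⟩ := hcon
  have hw : w ∈ Z := mul_self_eq_zero.mp h1
  rcases mul_eq_zero.mp h2 with h3 | h3
  · exact hc ⟨(w + c, w), ⟨h3, hw⟩, by simp⟩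
  · exact hc ⟨(w, w - c), ⟨hw, h3⟩, by simp⟩

/-! ### The algebraic family -/

variable {m : ℕ}

/-- The twistor family, as a function of the homogeneous coordinates `p, q`. -/
noncomputable def Lpq (m : ℕ) (p q : ℂ) : Matrix (Fin m) (Fin (2 * m)) ℂ :=
  fun i x => ∑ j ∈ range (deg m i + 1), (p ^ j * q ^ (deg m i - j)) * coef m i j x

lemma Lpq_smul (g p q : ℂ) (i : Fin m) (x : Fin (2 * m)) :
    Lpq m (g * p) (g * q) i x = g ^ (deg m i) * Lpq m p q i x := by
  unfold Lpq
  rw [Finset.mul_sum]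
  refine Finset.sum_congr rfl fun j hj => ?_
  rw [Finset.mem_range] at hj
  rw [mul_pow, mul_pow]
  have e : g ^ deg m i = g ^ j * g ^ (deg m i - j) := by rw [← pow_add]; congr 1; omega
  rw [e]; ring

lemma ND_Lpq (hm : 2 ≤ m) {p q : ℂ} (h : p ≠ 0 ∨ q ≠ 0) (v : Fin (2 * m) → ℝ)
    (hv : Lpq m p q *ᵥ (fun k => (v k : ℂ)) = 0) : v = 0 := by
  apply eq_zero_of_zeta
  have hrow : ∀ i : Fin m, ∑ j ∈ range (deg m i + 1),
      (p ^ j * q ^ (deg m i - j)) * (∑ x, coef m i j x * (v x : ℂ)) = 0 := by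
    intro i
    have h1 := congrFun hv i
    simp only [Matrix.mulVec, dotProduct, Pi.zero_apply] at h1
    rw [← h1]
    simp only [Lpq, Finset.sum_mul]
    rw [Finset.sum_comm]
    refine Finset.sum_congr rfl fun j _ => ?_
    rw [Finset.mul_sum]
    exact Finset.sum_congr rfl fun x _ => by ring
  refine nondeg hm h (zeta m v) ?_ ?_ ?_
  · have h1 := hrow ⟨0, by omega⟩
    have hd : deg m ⟨0, by omega⟩ = 1 := by unfold deg; rw [if_pos (by simp; omega)]
    rw [hd, Finset.sum_range_succ, Finset.sum_range_one] at h1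
    have c0 : coef m ⟨0, by omega⟩ 0 = Zr m 0 := by
      unfold coef; rw [if_pos (by simp; omega), if_pos rfl]
    have c1 : coef m ⟨0, by omega⟩ 1 = Zb m (m - 1) := by
      unfold coef; rw [if_pos (by simp; omega), if_neg (by norm_num), if_pos rfl]
    rw [c0, c1, Zr_dot (by omega), Zb_dot (by omega)] at h1
    simpa using h1
  · intro i hi1 hi2
    have h1 := hrow ⟨i, by omega⟩
    have hd : deg m ⟨i, by omega⟩ = 1 := by unfold deg; rw [if_pos (by simpa using hi2)]
    rw [hd, Finset.sum_range_succ, Finset.sum_range_one] at h1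
    have c0 : coef m ⟨i, by omega⟩ 0 = Zr m i := by
      unfold coef; rw [if_pos (by simpa using hi2), if_pos rfl]
    have c1 : coef m ⟨i, by omega⟩ 1 = Zr m (i - 1) := by
      unfold coef
      rw [if_pos (by simpa using hi2), if_neg (by norm_num), if_neg (by simp; omega)]
    rw [c0, c1, Zr_dot (by omega), Zr_dot (by omega)] at h1
    simpa using h1
  · have h1 := hrow ⟨m - 1, by omega⟩
    have hd : deg m ⟨m - 1, by omega⟩ = m - 1 := by
      unfold deg; rw [if_neg (by simp; omega)]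
    rw [hd, Nat.sub_add_cancel (by omega), Finset.range_eq_Ico,
      Finset.sum_eq_sum_Ico_succ_bot (by omega)] at h1
    have c0 : coef m ⟨m - 1, by omega⟩ 0 = Zr m (m - 1) := by
      unfold coef; rw [if_neg (by simp; omega), if_pos rfl]
    rw [c0, Zr_dot (by omega), pow_zero, one_mul, Nat.sub_zero] at h1
    rw [← h1]
    congr 1
    refine Finset.sum_congr rfl fun j hj => ?_
    rw [Finset.mem_Ico] at hj
    have cj : coef m ⟨m - 1, by omega⟩ j = (-1 : ℂ) ^ j • Zb m (j - 1) := by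
      unfold coef
      rw [if_neg (by simp; omega), if_neg (by omega)]
      funext x
      simp [Pi.smul_apply]
    have e : ∑ x, coef m ⟨m - 1, by omega⟩ j x * (v x : ℂ) =
        (-1) ^ j * conj (zeta m v (j - 1)) := by
      rw [← Zb_dot (by omega), Finset.mul_sum, cj]
      refine Finset.sum_congr rfl fun x _ => ?_
      rw [Pi.smul_apply, smul_eq_mul]; ring
    rw [e]; ring

/-! ### The family over the elliptic curve -/

/-- The automorphy factor of degree `d` for the translation by `τ`. -/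
noncomputable def ft (τ : ℂ) (d : ℕ) (w : ℂ) : ℂ :=
  Complex.exp (d * (-(2 * Real.pi * I * (τ + 2 * w))))

/-- The family `L(w)` over `ℂ/(ℤ + ℤτ)`. -/
theorem exists_L_tau {τ : ℂ} (hτ : 0 < τ.im) (m : ℕ) (hm : 2 ≤ m) :
    ∃ (L : ℂ → Matrix (Fin m) (Fin (2 * m)) ℂ) (d : Fin m → ℕ),
      (∀ i, d i ≠ 0) ∧ (∀ i j, Differentiable ℂ (fun w => L w i j)) ∧
      (∀ w, L (w + 1) = L w) ∧
      (∀ w i j, L (w + τ) i j = ft τ (d i) w * L w i j) ∧
      ∀ w (v : Fin (2 * m) → ℝ), L w *ᵥ (fun k => (v k : ℂ)) = 0 → v = 0 := by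
  obtain ⟨c, hc⟩ := exists_shift_tau hτ
  have hd : Differentiable ℂ (fun w : ℂ => jacobiTheta₂ w τ) :=
    fun w => differentiableAt_jacobiTheta₂_fst w hτ
  refine ⟨fun w => Lpq m (jacobiTheta₂ w τ * jacobiTheta₂ w τ)
    (jacobiTheta₂ (w + c) τ * jacobiTheta₂ (w - c) τ), deg m, deg_ne_zero hm, ?_, ?_, ?_, ?_⟩
  · intro i j
    unfold Lpq
    refine Differentiable.fun_sum fun k _ => ?_
    have h1 : Differentiable ℂ (fun w : ℂ => jacobiTheta₂ (w + c) τ) :=
      hd.comp (differentiable_id.add_const c)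
    have h2 : Differentiable ℂ (fun w : ℂ => jacobiTheta₂ (w - c) τ) :=
      hd.comp (differentiable_id.sub_const c)
    exact (((hd.mul hd).pow k).mul ((h1.mul h2).pow _)).mul_const _
  · intro w
    have e1 : w + 1 + c = (w + c) + 1 := by ring
    have e2 : w + 1 - c = (w - c) + 1 := by ring
    simp only [e1, e2, jacobiTheta₂_add_left]
  · intro w i j
    have e1 : w + τ + c = (w + c) + τ := by ring
    have e2 : w + τ - c = (w - c) + τ := by ring
    simp only [e1, e2, jacobiTheta₂_add_left']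
    have e3 : Complex.exp (-Real.pi * I * (τ + 2 * w)) * jacobiTheta₂ w τ *
        (Complex.exp (-Real.pi * I * (τ + 2 * w)) * jacobiTheta₂ w τ) =
        Complex.exp (-(2 * Real.pi * I * (τ + 2 * w))) * (jacobiTheta₂ w τ * jacobiTheta₂ w τ) := by
      have : Complex.exp (-(2 * Real.pi * I * (τ + 2 * w))) =
          Complex.exp (-Real.pi * I * (τ + 2 * w)) * Complex.exp (-Real.pi * I * (τ + 2 * w)) := by
        rw [← Complex.exp_add]; congr 1; ring
      rw [this]; ring
    have e4 : Complex.exp (-Real.pi * I * (τ + 2 * (w + c))) * jacobiTheta₂ (w + c) τ *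
        (Complex.exp (-Real.pi * I * (τ + 2 * (w - c))) * jacobiTheta₂ (w - c) τ) =
        Complex.exp (-(2 * Real.pi * I * (τ + 2 * w))) *
          (jacobiTheta₂ (w + c) τ * jacobiTheta₂ (w - c) τ) := by
      have : Complex.exp (-(2 * Real.pi * I * (τ + 2 * w))) =
          Complex.exp (-Real.pi * I * (τ + 2 * (w + c))) *
            Complex.exp (-Real.pi * I * (τ + 2 * (w - c))) := by
        rw [← Complex.exp_add]; congr 1; ring
      rw [this]; ring
    rw [e3, e4, Lpq_smul]
    congr 1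
    unfold ft
    rw [← Complex.exp_nat_mul]
  · intro w v hv
    exact ND_Lpq hm (hc w) v hv

end Pool.Agent.EllipticTwist
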