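import Mathlib
import Pool.Agent.Lib.MP_1d980c_gt.TauFamily

set_option autoImplicit false
open scoped Manifold ContDiff Matrix Topology
open Complex

namespace Pool.Agent.EllipticTwist

open Pool.Agent.TorusBundle

/-- The automorphy factor of degree `d` for the translation by `a + b τ`. -/
noncomputable def Eft (τ : ℂ) (d : ℕ) (b : ℤ) (w : ℂ) : ℂ :=
  Complex.exp (d * (-(2 * Real.pi * I * τ * b ^ 2) - 4 * Real.pi * I * b * w))

lemma contDiff_Eft (τ : ℂ) (d : ℕ) (b : ℤ) : ContDiff ℂ ∞ (Eft τ d b) := by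
  unfold Eft
  fun_prop

lemma Eft_zero (τ : ℂ) (d : ℕ) (w : ℂ) : Eft τ d 0 w = 1 := by simp [Eft]

lemma Eft_succ (τ : ℂ) (d : ℕ) (b : ℤ) (w : ℂ) :
    Eft τ d (b + 1) w = ft τ d (w + b * τ) * Eft τ d b w := by
  unfold Eft ft
  rw [← Complex.exp_add]
  congr 1
  push_cast
  ring

variable {τ : ℂ} {m : ℕ} {L : ℂ → Matrix (Fin m) (Fin (2 * m)) ℂ} {d : Fin m → ℕ}

lemma L_add_int_one (h1 : ∀ w, L (w + 1) = L w) (a : ℤ) : ∀ w, L (w + a) = L w := by
  induction a using Int.induction_on with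
  | zero => intro w; simp
  | succ n ih =>
    intro w
    have : w + ((n : ℤ) + 1 : ℤ) = (w + (n : ℤ)) + 1 := by push_cast; ring
    rw [this, h1, ih]
  | pred n ih =>
    intro w
    have h := h1 (w + (-(n : ℤ) - 1 : ℤ))
    have e : w + (-(n : ℤ) - 1 : ℤ) + 1 = w + (-(n : ℤ) : ℤ) := by push_cast; ring
    rw [e, ih] at h
    exact h.symm

lemma L_add_int_tau (h2 : ∀ w i j, L (w + τ) i j = ft τ (d i) w * L w i j) (b : ℤ) :
    ∀ w i j, L (w + b * τ) i j = Eft τ (d i) b w * L w i j := by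
  induction b using Int.induction_on with
  | zero => intro w i j; simp [Eft_zero]
  | succ n ih =>
    intro w i j
    have : w + (((n : ℤ) + 1 : ℤ) : ℂ) * τ = (w + ((n : ℤ) : ℂ) * τ) + τ := by push_cast; ring
    rw [this, h2, ih, Eft_succ]
    ring
  | pred n ih =>
    intro w i j
    have h := h2 (w + ((-(n : ℤ) - 1 : ℤ) : ℂ) * τ) i j
    have e : w + ((-(n : ℤ) - 1 : ℤ) : ℂ) * τ + τ = w + ((-(n : ℤ) : ℤ) : ℂ) * τ := by
      push_cast; ring
    rw [e, ih] at h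
    have h3 := Eft_succ τ (d i) (-(n : ℤ) - 1) w
    rw [sub_add_cancel] at h3
    rw [h3] at h
    have h4 : ft τ (d i) (w + ((-(n : ℤ) - 1 : ℤ) : ℂ) * τ) ≠ 0 := Complex.exp_ne_zero _
    have h5 : ft τ (d i) (w + ((-(n : ℤ) - 1 : ℤ) : ℂ) * τ) *
        (L (w + ((-(n : ℤ) - 1 : ℤ) : ℂ) * τ) i j -
          Eft τ (d i) (-(n : ℤ) - 1) w * L w i j) = 0 := by
      rw [mul_sub, ← h]; ring
    rcases mul_eq_zero.1 h5 with h6 | h6
    · exact absurd h6 h4
    · exact sub_eq_zero.1 h6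

/-- The translation law for an arbitrary lattice vector. -/
lemma L_add_lattice (h1 : ∀ w, L (w + 1) = L w)
    (h2 : ∀ w i j, L (w + τ) i j = ft τ (d i) w * L w i j)
    (a b : ℤ) (w : ℂ) (i : Fin m) (j : Fin (2 * m)) :
    L (w + (a + b * τ)) i j = Eft τ (d i) b w * L w i j := by
  have e : w + ((a : ℂ) + b * τ) = (w + b * τ) + a := by ring
  rw [e, L_add_int_one h1, L_add_int_tau h2]

lemma Ld_add_lattice (hL : ∀ i j, Differentiable ℂ (fun w => L w i j)) (h1 : ∀ w, L (w + 1) = L w)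
    (h2 : ∀ w i j, L (w + τ) i j = ft τ (d i) w * L w i j)
    (a b : ℤ) (w : ℂ) (i : Fin m) (j : Fin (2 * m)) :
    deriv (fun w => L w i j) (w + (a + b * τ)) =
      Eft τ (d i) b w * (deriv (fun w => L w i j) w - 4 * Real.pi * I * b * d i * L w i j) := by
  have e1 : (fun w => L (w + (a + b * τ)) i j) = fun w => Eft τ (d i) b w * L w i j := by
    funext w; exact L_add_lattice h1 h2 a b w i j
  have e2 : deriv (fun w => L (w + (a + b * τ)) i j) w =
      deriv (fun w => L w i j) (w + (a + b * τ)) :=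
    deriv_comp_add_const (fun w => L w i j) ((a : ℂ) + b * τ) w
  have hE : HasDerivAt (Eft τ (d i) b)
      (Eft τ (d i) b w * (d i * (-(4 * Real.pi * I * b)))) w := by
    unfold Eft
    have h3 : HasDerivAt (fun w : ℂ => (d i : ℂ) *
        (-(2 * Real.pi * I * τ * b ^ 2) - 4 * Real.pi * I * b * w))
        (d i * (-(4 * Real.pi * I * b))) w := by
      have h4 : HasDerivAt (fun w : ℂ => (4 * Real.pi * I * b) * w) (4 * Real.pi * I * b) w := by
        simpa using (hasDerivAt_id w).const_mul (4 * Real.pi * I * b : ℂ)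
      have h5 := (h4.const_sub (-(2 * Real.pi * I * τ * (b : ℂ) ^ 2))).const_mul (d i : ℂ)
      exact h5
    exact h3.cexp
  have hLd : HasDerivAt (fun w => L w i j) (deriv (fun w => L w i j) w) w := (hL i j w).hasDerivAt
  have h3 := (hE.mul hLd).deriv
  rw [← e2, e1]
  refine h3.trans ?_
  ring

/-- The entrywise derivative of `L`. -/
noncomputable def Ldt (L : ℂ → Matrix (Fin m) (Fin (2 * m)) ℂ) (w : ℂ) :
    Matrix (Fin m) (Fin (2 * m)) ℂ := fun i j => deriv (fun w => L w i j) w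

lemma differentiable_Ldt (hL : ∀ i j, Differentiable ℂ (fun w => L w i j)) (i : Fin m)
    (j : Fin (2 * m)) : Differentiable ℂ (fun w => Ldt L w i j) := by
  have h : ContDiff ℂ 2 (fun w => L w i j) := (hL i j).contDiff
  have h2 : ContDiff ℂ 1 (deriv (fun w => L w i j)) := by
    have h3 : ContDiff ℂ (1 + 1) (fun w => L w i j) := by norm_num; exact h
    exact (contDiff_succ_iff_deriv.1 h3).2.2
  exact h2.differentiable (by norm_num)

/-- The holomorphic function attached to a pair of vectors. -/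
noncomputable def Ht (τ : ℂ) (L : ℂ → Matrix (Fin m) (Fin (2 * m)) ℂ) (d : Fin m → ℕ)
    (x y : Fin (2 * m) → ℂ) (w : ℂ) : Fin m → ℂ :=
  fun i => -w * (L w *ᵥ x) i - ((4 : ℂ) * Real.pi * I * d i)⁻¹ * (Ldt L w *ᵥ (τ • x - y)) i

lemma Ht_add_vec (x y x' y' : Fin (2 * m) → ℂ) (w : ℂ) :
    Ht τ L d (x + x') (y + y') w = Ht τ L d x y w + Ht τ L d x' y' w := by
  funext i
  simp only [Ht, Pi.add_apply]
  have : τ • (x + x') - (y + y') = (τ • x - y) + (τ • x' - y') := by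
    rw [smul_add]; abel
  rw [this, Matrix.mulVec_add, Matrix.mulVec_add, Pi.add_apply, Pi.add_apply]
  ring

lemma Ht_translate (hd : ∀ i, d i ≠ 0) (hL : ∀ i j, Differentiable ℂ (fun w => L w i j))
    (h1 : ∀ w, L (w + 1) = L w) (h2 : ∀ w i j, L (w + τ) i j = ft τ (d i) w * L w i j)
    (a b : ℤ) (x y : Fin (2 * m) → ℂ) (w : ℂ) (i : Fin m) :
    Ht τ L d x y (w + (a + b * τ)) i =
      Eft τ (d i) b w * (Ht τ L d x y w i - (L w *ᵥ ((a : ℂ) • x + (b : ℂ) • y)) i) := by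
  have e1 : ∀ v : Fin (2 * m) → ℂ, (L (w + (a + b * τ)) *ᵥ v) i =
      Eft τ (d i) b w * (L w *ᵥ v) i := by
    intro v
    simp only [Matrix.mulVec, dotProduct, Finset.mul_sum]
    refine Finset.sum_congr rfl fun j _ => ?_
    rw [L_add_lattice h1 h2]; ring
  have e2 : ∀ v : Fin (2 * m) → ℂ, (Ldt L (w + (a + b * τ)) *ᵥ v) i =
      Eft τ (d i) b w * ((Ldt L w *ᵥ v) i - 4 * Real.pi * I * b * d i * (L w *ᵥ v) i) := by
    intro v
    simp only [Matrix.mulVec, dotProduct, Finset.mul_sum, ← Finset.sum_sub_distrib, Ldt]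
    refine Finset.sum_congr rfl fun j _ => ?_
    rw [Ld_add_lattice hL h1 h2]; ring
  have e3 : (L w *ᵥ (τ • x - y)) i = τ * (L w *ᵥ x) i - (L w *ᵥ y) i := by
    rw [Matrix.mulVec_sub, Matrix.mulVec_smul]; rfl
  have e4 : (L w *ᵥ ((a : ℂ) • x + (b : ℂ) • y)) i = a * (L w *ᵥ x) i + b * (L w *ᵥ y) i := by
    rw [Matrix.mulVec_add, Matrix.mulVec_smul, Matrix.mulVec_smul]; rfl
  have hdi : (d i : ℂ) ≠ 0 := by exact_mod_cast hd i
  have hpi : (Real.pi : ℂ) ≠ 0 := by exact_mod_cast Real.pi_ne_zero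
  have hI : (I : ℂ) ≠ 0 := I_ne_zero
  simp only [Ht]
  rw [e1, e2, e4, e3]
  field_simp
  ring

end Pool.Agent.EllipticTwist
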