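import Mathlib
import Pool.Agent.Lib.MP_1d980c_gt.TauSections

set_option autoImplicit false
set_option maxHeartbeats 1000000
open scoped Manifold ContDiff Matrix Topology
open Complex Set

namespace Pool.Agent.EllipticTwist

open Pool.Agent.TorusBundle

/-! ### Real and complex smoothness on a complex manifold -/

section RealX

variable {n : ℕ} {X : Type} [TopologicalSpace X] [ChartedSpace (EuclideanSpace ℂ (Fin n)) X]

/-- A complex manifold is a smooth real manifold. -/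
theorem isManifold_real [hX : IsManifold 𝓘(ℂ, EuclideanSpace ℂ (Fin n)) ∞ X] :
    IsManifold 𝓘(ℝ, EuclideanSpace ℂ (Fin n)) ∞ X := by
  apply isManifold_of_contDiffOn
  intro e e' he he'
  have h := (contDiffGroupoid ∞ 𝓘(ℂ, EuclideanSpace ℂ (Fin n))).compatible he he'
  rw [contDiffGroupoid, mem_groupoid_of_pregroupoid] at h
  have h1 := h.1
  simp only [contDiffPregroupoid, ContDiffOn] at h1
  intro z hz
  exact (h1 z hz).restrict_scalars ℝ

/-- Holomorphic functions are smooth. -/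
theorem contMDiffOn_real {F : Type} [NormedAddCommGroup F] [NormedSpace ℂ F] {f : X → F} {s : Set X}
    (hf : ContMDiffOn 𝓘(ℂ, EuclideanSpace ℂ (Fin n)) 𝓘(ℂ, F) ∞ f s) :
    ContMDiffOn 𝓘(ℝ, EuclideanSpace ℂ (Fin n)) 𝓘(ℝ, F) ∞ f s := by
  intro x hx
  exact ⟨(hf x hx).1, (hf x hx).2.restrict_scalars ℝ⟩

/-- A holomorphic function read in a chart. -/
theorem contDiffAt_chart_symm [hX : IsManifold 𝓘(ℂ, EuclideanSpace ℂ (Fin n)) ∞ X] {F : Type}
    [NormedAddCommGroup F] [NormedSpace ℂ F] {f : X → F} {s : Set X} (hs : IsOpen s)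
    (hf : ContMDiffOn 𝓘(ℂ, EuclideanSpace ℂ (Fin n)) 𝓘(ℂ, F) ∞ f s) (x0 : X)
    {ζ : EuclideanSpace ℂ (Fin n)} (h1 : ζ ∈ (chartAt (EuclideanSpace ℂ (Fin n)) x0).target)
    (h2 : (chartAt (EuclideanSpace ℂ (Fin n)) x0).symm ζ ∈ s) :
    ContDiffAt ℂ ∞ (fun z => f ((chartAt (EuclideanSpace ℂ (Fin n)) x0).symm z)) ζ := by
  have hsymm : ContMDiffAt 𝓘(ℂ, EuclideanSpace ℂ (Fin n)) 𝓘(ℂ, EuclideanSpace ℂ (Fin n)) ∞
      (chartAt (EuclideanSpace ℂ (Fin n)) x0).symm ζ :=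
    (contMDiffOn_chart_symm (I := 𝓘(ℂ, EuclideanSpace ℂ (Fin n))) (x := x0)).contMDiffAt
      ((chartAt (EuclideanSpace ℂ (Fin n)) x0).open_target.mem_nhds h1)
  have hff : ContMDiffAt 𝓘(ℂ, EuclideanSpace ℂ (Fin n)) 𝓘(ℂ, F) ∞ f
      ((chartAt (EuclideanSpace ℂ (Fin n)) x0).symm ζ) := hf.contMDiffAt (hs.mem_nhds h2)
  exact (hff.comp ζ hsymm).contDiffAt

end RealX

variable {m n : ℕ}

/-- The local model of the total space: fibre coordinate and base point. -/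
abbrev PX (m : ℕ) (X : Type) : Type := (Fin (2 * m) → ℝ) × X

/-- The model with corners of the local model. -/
noncomputable abbrev IX (m n : ℕ) := 𝓘(ℝ, Fin (2 * m) → ℝ).prod 𝓘(ℝ, EuclideanSpace ℂ (Fin n))

/-- The complex model space. -/
noncomputable def eX (m n : ℕ) : ((Fin m → ℂ) × EuclideanSpace ℂ (Fin n)) ≃L[ℂ]
    EuclideanSpace ℂ (Fin (m + n)) :=
  ContinuousLinearEquiv.ofFinrankEq (by simp)

section Functions

variable {τ : ℂ} {L : ℂ → Matrix (Fin m) (Fin (2 * m)) ℂ} {d : Fin m → ℕ}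

/-- The part of the fibre coordinate which does not involve the point `v` of the fibre. -/
noncomputable def Zr0 (τ : ℂ) (L : ℂ → Matrix (Fin m) (Fin (2 * m)) ℂ) (d : Fin m → ℕ)
    (x y r : Fin (2 * m) → ℝ) (w : ℂ) : Fin m → ℂ :=
  L w *ᵥ (I • cv r) + Ht τ L d (cv x) (cv y) w

/-- The fibre coordinate. -/
noncomputable def Zt (τ : ℂ) (L : ℂ → Matrix (Fin m) (Fin (2 * m)) ℂ) (d : Fin m → ℕ)
    (v x y r : Fin (2 * m) → ℝ) (w : ℂ) : Fin m → ℂ :=
  L w *ᵥ cv v + Zr0 τ L d x y r w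

/-- The effect of a change of local data on the fibre coordinate. -/
lemma Zt_trans (hd : ∀ i, d i ≠ 0) (hL : ∀ i j, Differentiable ℂ (fun w => L w i j))
    (h1 : ∀ w, L (w + 1) = L w) (h2 : ∀ w i j, L (w + τ) i j = ft τ (d i) w * L w i j)
    (a b : ℤ) (v x y r u x₁ y₁ : Fin (2 * m) → ℝ) (Λ : Fin (2 * m) → ℂ) (w : ℂ) (i : Fin m) :
    Zt τ L d (v + (a : ℝ) • x + (b : ℝ) • y + u + fun k => (Λ k).re) (x + x₁) (y + y₁)
      (r + fun k => (Λ k).im) (w + (a + b * τ)) i =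
      Eft τ (d i) b w * (Zt τ L d v x y r w i + (L w *ᵥ (cv u + Λ)) i) +
        Ht τ L d (cv x₁) (cv y₁) (w + (a + b * τ)) i := by
  have e1 : ∀ (X : Fin (2 * m) → ℂ), (L (w + (a + b * τ)) *ᵥ X) i =
      Eft τ (d i) b w * (L w *ᵥ X) i := by
    intro X
    simp only [Matrix.mulVec, dotProduct, Finset.mul_sum]
    refine Finset.sum_congr rfl fun j _ => ?_
    rw [L_add_lattice h1 h2]; ring
  have ev : cv (v + (a : ℝ) • x + (b : ℝ) • y + u + fun k => (Λ k).re) +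
      I • cv (r + fun k => (Λ k).im) =
      (cv v + I • cv r) + (cv u + Λ) + ((a : ℂ) • cv x + (b : ℂ) • cv y) := by
    funext k
    simp only [cv, Pi.add_apply, Pi.smul_apply, smul_eq_mul]
    have h := Complex.re_add_im (Λ k)
    push_cast
    linear_combination h
  simp only [Zt, Zr0]
  rw [cv_add x, cv_add y, Ht_add_vec]
  simp only [Pi.add_apply]
  rw [e1, e1, Ht_translate hd hL h1 h2]
  have e2 := congrArg (fun X => (L w *ᵥ X) i) ev
  simp only [Matrix.mulVec_add, Pi.add_apply] at e2 ⊢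
  linear_combination (Eft τ (d i) b w) * e2

lemma contDiff_mulVec_R {L' : ℂ → Matrix (Fin m) (Fin (2 * m)) ℂ}
    (hL' : ∀ i j, Differentiable ℂ (fun w => L' w i j))
    {E : Type*} [NormedAddCommGroup E] [NormedSpace ℝ E] {f : E → ℂ}
    (hf : ContDiff ℝ ∞ f) {g : E → (Fin (2 * m) → ℂ)} (hg : ContDiff ℝ ∞ g) :
    ContDiff ℝ ∞ (fun x => L' (f x) *ᵥ g x) := by
  rw [contDiff_pi]
  intro i
  simp only [Matrix.mulVec, dotProduct]
  refine ContDiff.sum fun j _ => ContDiff.mul ?_ (contDiff_pi.1 hg j)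
  exact ((hL' i j).contDiff.restrict_scalars ℝ).comp hf

lemma contDiff_Zr0 (hL : ∀ i j, Differentiable ℂ (fun w => L w i j))
    {E : Type*} [NormedAddCommGroup E] [NormedSpace ℝ E]
    {x y r : E → (Fin (2 * m) → ℝ)} {w : E → ℂ} (hx : ContDiff ℝ ∞ x) (hy : ContDiff ℝ ∞ y)
    (hr : ContDiff ℝ ∞ r) (hw : ContDiff ℝ ∞ w) :
    ContDiff ℝ ∞ (fun q => Zr0 τ L d (x q) (y q) (r q) (w q)) := by
  unfold Zr0
  refine ContDiff.add ?_ ?_
  · refine contDiff_mulVec_R hL hw ?_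
    rw [contDiff_pi]
    intro j
    simp only [Pi.smul_apply, smul_eq_mul]
    exact contDiff_const.mul (contDiff_pi.1 (contDiff_cv hr) j)
  · rw [contDiff_pi]
    intro i
    unfold Ht
    refine ContDiff.sub (ContDiff.mul hw.neg ?_) (ContDiff.mul contDiff_const ?_)
    · exact contDiff_pi.1 (contDiff_mulVec_R hL hw (contDiff_cv hx)) i
    · refine contDiff_pi.1 (contDiff_mulVec_R (differentiable_Ldt hL) hw ?_) i
      refine ContDiff.sub ?_ (contDiff_cv hy)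
      rw [contDiff_pi]
      intro j
      simp only [Pi.smul_apply, smul_eq_mul]
      exact contDiff_const.mul (contDiff_pi.1 (contDiff_cv hx) j)

lemma contDiff_Zt (hL : ∀ i j, Differentiable ℂ (fun w => L w i j))
    {E : Type*} [NormedAddCommGroup E] [NormedSpace ℝ E]
    {v x y r : E → (Fin (2 * m) → ℝ)} {w : E → ℂ} (hv : ContDiff ℝ ∞ v)
    (hx : ContDiff ℝ ∞ x) (hy : ContDiff ℝ ∞ y)
    (hr : ContDiff ℝ ∞ r) (hw : ContDiff ℝ ∞ w) :
    ContDiff ℝ ∞ (fun q => Zt τ L d (v q) (x q) (y q) (r q) (w q)) := by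
  unfold Zt
  exact (contDiff_mulVec_R hL hw (contDiff_cv hv)).add (contDiff_Zr0 hL hx hy hr hw)

/-- The point `v` of the fibre as a function of the fibre coordinate. -/
noncomputable def Vt (τ : ℂ)
    (hnd : ∀ w (v : Fin (2 * m) → ℝ), L w *ᵥ (fun k => (v k : ℂ)) = 0 → v = 0)
    (d : Fin m → ℕ) (z : Fin m → ℂ) (x y r : Fin (2 * m) → ℝ) (w : ℂ) : Fin (2 * m) → ℝ :=
  (Re L hnd w).symm (z - Zr0 τ L d x y r w)

variable (hnd : ∀ w (v : Fin (2 * m) → ℝ), L w *ᵥ (fun k => (v k : ℂ)) = 0 → v = 0)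

lemma Vt_Zt (v x y r : Fin (2 * m) → ℝ) (w : ℂ) :
    Vt τ hnd d (Zt τ L d v x y r w) x y r w = v := by
  unfold Vt Zt
  rw [add_sub_cancel_right, ← Re_apply L hnd, ContinuousLinearEquiv.symm_apply_apply]

lemma Zt_Vt (z : Fin m → ℂ) (x y r : Fin (2 * m) → ℝ) (w : ℂ) :
    Zt τ L d (Vt τ hnd d z x y r w) x y r w = z := by
  unfold Vt Zt
  rw [← Re_apply L hnd, ContinuousLinearEquiv.apply_symm_apply, sub_add_cancel]

lemma contDiff_Vt (hL : ∀ i j, Differentiable ℂ (fun w => L w i j))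
    {E : Type*} [NormedAddCommGroup E] [NormedSpace ℝ E]
    {z : E → (Fin m → ℂ)} {x y r : E → (Fin (2 * m) → ℝ)} {w : E → ℂ} (hz : ContDiff ℝ ∞ z)
    (hx : ContDiff ℝ ∞ x) (hy : ContDiff ℝ ∞ y) (hr : ContDiff ℝ ∞ r) (hw : ContDiff ℝ ∞ w) :
    ContDiff ℝ ∞ (fun q => Vt τ hnd d (z q) (x q) (y q) (r q) (w q)) := by
  unfold Vt
  exact ((contDiff_Re_symm L hL hnd).comp hw).clm_apply (hz.sub (contDiff_Zr0 hL hx hy hr hw))

end Functions

/-! ### The coordinate charts -/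

variable {X : Type} [TopologicalSpace X] [ChartedSpace (EuclideanSpace ℂ (Fin n)) X]

/-- A local datum: a chart of `X`, a holomorphic function and three smooth vector valued functions
on an open subset. -/
structure LX (m n : ℕ) (X : Type) [TopologicalSpace X]
    [ChartedSpace (EuclideanSpace ℂ (Fin n)) X] where
  x0 : X
  w : X → ℂ
  x : X → (Fin (2 * m) → ℝ)
  y : X → (Fin (2 * m) → ℝ)
  r : X → (Fin (2 * m) → ℝ)
  U : Set X
  isOpen : IsOpen U
  sub : U ⊆ (chartAt (EuclideanSpace ℂ (Fin n)) x0).source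
  hw : ContMDiffOn 𝓘(ℂ, EuclideanSpace ℂ (Fin n)) 𝓘(ℂ, ℂ) ∞ w U
  hx : ContMDiffOn 𝓘(ℝ, EuclideanSpace ℂ (Fin n)) 𝓘(ℝ, Fin (2 * m) → ℝ) ∞ x U
  hy : ContMDiffOn 𝓘(ℝ, EuclideanSpace ℂ (Fin n)) 𝓘(ℝ, Fin (2 * m) → ℝ) ∞ y U
  hr : ContMDiffOn 𝓘(ℝ, EuclideanSpace ℂ (Fin n)) 𝓘(ℝ, Fin (2 * m) → ℝ) ∞ r U

variable {τ : ℂ} {L : ℂ → Matrix (Fin m) (Fin (2 * m)) ℂ} {d : Fin m → ℕ}

/-- The coordinate map attached to a local datum. -/
noncomputable def chTo (τ : ℂ) (L : ℂ → Matrix (Fin m) (Fin (2 * m)) ℂ) (d : Fin m → ℕ)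
    (D : LX m n X) (p : PX m X) : EuclideanSpace ℂ (Fin (m + n)) :=
  eX m n (Zt τ L d p.1 (D.x p.2) (D.y p.2) (D.r p.2) (D.w p.2),
    chartAt (EuclideanSpace ℂ (Fin n)) D.x0 p.2)

/-- The base point of a point of the coordinate space. -/
noncomputable def bX (D : LX m n X) (z : EuclideanSpace ℂ (Fin (m + n))) : X :=
  (chartAt (EuclideanSpace ℂ (Fin n)) D.x0).symm ((eX m n).symm z).2

/-- The inverse of the coordinate map. -/
noncomputable def chInv (τ : ℂ)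
    (hnd : ∀ w (v : Fin (2 * m) → ℝ), L w *ᵥ (fun k => (v k : ℂ)) = 0 → v = 0)
    (d : Fin m → ℕ) (D : LX m n X)
    (z : EuclideanSpace ℂ (Fin (m + n))) : PX m X :=
  (Vt τ hnd d ((eX m n).symm z).1 (D.x (bX D z)) (D.y (bX D z)) (D.r (bX D z)) (D.w (bX D z)),
    bX D z)

/-- The source of the coordinate map. -/
def chS (D : LX m n X) : Set (PX m X) := (fun p : PX m X => p.2) ⁻¹' D.U

/-- The target of the coordinate map. -/
noncomputable def chT (D : LX m n X) : Set (EuclideanSpace ℂ (Fin (m + n))) :=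
  (fun z => ((eX m n).symm z).2) ⁻¹' ((chartAt (EuclideanSpace ℂ (Fin n)) D.x0).target ∩
    (chartAt (EuclideanSpace ℂ (Fin n)) D.x0).symm ⁻¹' D.U)

lemma isOpen_chS (D : LX m n X) : IsOpen (chS (m := m) D) :=
  D.isOpen.preimage continuous_snd

lemma isOpen_chT (D : LX m n X) : IsOpen (chT (m := m) D) := by
  have h1 : Continuous (fun z : EuclideanSpace ℂ (Fin (m + n)) => ((eX m n).symm z).2) :=
    continuous_snd.comp (eX m n).symm.continuous
  exact ((chartAt _ D.x0).isOpen_inter_preimage_symm D.isOpen).preimage h1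

variable (hnd : ∀ w (v : Fin (2 * m) → ℝ), L w *ᵥ (fun k => (v k : ℂ)) = 0 → v = 0)

lemma ch_left (D : LX m n X) {p : PX m X} (hp : p ∈ chS (m := m) D) :
    chInv τ hnd d D (chTo τ L d D p) = p := by
  obtain ⟨v, y⟩ := p
  have hp' : y ∈ D.U := hp
  have hb : bX D (chTo τ L d D (v, y)) = y := by
    unfold bX chTo
    rw [ContinuousLinearEquiv.symm_apply_apply]
    exact (chartAt _ D.x0).left_inv (D.sub hp')
  unfold chInv
  rw [hb]
  unfold chTo
  rw [ContinuousLinearEquiv.symm_apply_apply]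
  simp only
  rw [Vt_Zt]

lemma ch_right (D : LX m n X) {z : EuclideanSpace ℂ (Fin (m + n))}
    (hz : z ∈ chT (m := m) D) : chTo τ L d D (chInv τ hnd d D z) = z := by
  unfold chInv chTo
  simp only
  rw [Zt_Vt]
  unfold bX
  rw [(chartAt _ D.x0).right_inv hz.1]
  exact (eX m n).apply_symm_apply z

variable [IsManifold 𝓘(ℝ, EuclideanSpace ℂ (Fin n)) ∞ X]

lemma contMDiffOn_chTo (hL : ∀ i j, Differentiable ℂ (fun w => L w i j)) (D : LX m n X) :
    ContMDiffOn (IX m n) 𝓘(ℝ, EuclideanSpace ℂ (Fin (m + n))) ∞ (chTo τ L d D)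
      (chS (m := m) D) := by
  have hy : ContMDiffOn (IX m n) 𝓘(ℝ, EuclideanSpace ℂ (Fin n)) ∞
      (fun p : PX m X => p.2) (chS (m := m) D) := contMDiff_snd.contMDiffOn
  have hmaps : MapsTo (fun p : PX m X => p.2) (chS (m := m) D) D.U := fun p hp => hp
  have hχ : ContMDiffOn (IX m n) 𝓘(ℝ, EuclideanSpace ℂ (Fin n)) ∞
      (fun p : PX m X => chartAt (EuclideanSpace ℂ (Fin n)) D.x0 p.2) (chS (m := m) D) :=
    (contMDiffOn_chart (I := 𝓘(ℝ, EuclideanSpace ℂ (Fin n))) (x := D.x0)).comp hy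
      (fun p hp => D.sub hp)
  have hx1 : ContMDiffOn (IX m n) 𝓘(ℝ, Fin (2 * m) → ℝ) ∞ (fun p : PX m X => D.x p.2)
      (chS (m := m) D) := D.hx.comp hy hmaps
  have hy1 : ContMDiffOn (IX m n) 𝓘(ℝ, Fin (2 * m) → ℝ) ∞ (fun p : PX m X => D.y p.2)
      (chS (m := m) D) := D.hy.comp hy hmaps
  have hr1 : ContMDiffOn (IX m n) 𝓘(ℝ, Fin (2 * m) → ℝ) ∞ (fun p : PX m X => D.r p.2)
      (chS (m := m) D) := D.hr.comp hy hmaps
  have hw1 : ContMDiffOn (IX m n) 𝓘(ℝ, ℂ) ∞ (fun p : PX m X => D.w p.2)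
      (chS (m := m) D) := (contMDiffOn_real D.hw).comp hy hmaps
  have hv : ContMDiffOn (IX m n) 𝓘(ℝ, Fin (2 * m) → ℝ) ∞ (fun p : PX m X => p.1)
      (chS (m := m) D) := contMDiff_fst.contMDiffOn
  have hall := (hv.prodMk_space (hx1.prodMk_space (hy1.prodMk_space
    (hr1.prodMk_space (hw1.prodMk_space hχ)))))
  have hF : ContDiff ℝ ∞ (fun q : (Fin (2 * m) → ℝ) × ((Fin (2 * m) → ℝ) ×
      ((Fin (2 * m) → ℝ) × ((Fin (2 * m) → ℝ) × (ℂ × EuclideanSpace ℂ (Fin n))))) =>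
      eX m n (Zt τ L d q.1 q.2.1 q.2.2.1 q.2.2.2.1 q.2.2.2.2.1, q.2.2.2.2.2)) := by
    have he : ContDiff ℝ ∞ (eX m n) := (eX m n).contDiff.restrict_scalars ℝ
    refine he.comp (ContDiff.prodMk ?_ ?_)
    · exact contDiff_Zt hL (by fun_prop) (by fun_prop) (by fun_prop) (by fun_prop) (by fun_prop)
    · fun_prop
  refine ContMDiffOn.congr (hF.contMDiff.comp_contMDiffOn hall) (fun p _ => ?_)
  simp only [chTo, Function.comp]

lemma contMDiffOn_chInv (hL : ∀ i j, Differentiable ℂ (fun w => L w i j)) (D : LX m n X) :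
    ContMDiffOn 𝓘(ℝ, EuclideanSpace ℂ (Fin (m + n))) (IX m n) ∞ (chInv τ hnd d D)
      (chT (m := m) D) := by
  have he : ContDiff ℝ ∞ (eX m n).symm := (eX m n).symm.contDiff.restrict_scalars ℝ
  have hζ : ContMDiffOn 𝓘(ℝ, EuclideanSpace ℂ (Fin (m + n)))
      𝓘(ℝ, EuclideanSpace ℂ (Fin n)) ∞ (fun z => ((eX m n).symm z).2) (chT (m := m) D) :=
    (contDiff_snd.comp he).contMDiff.contMDiffOn
  have hy : ContMDiffOn 𝓘(ℝ, EuclideanSpace ℂ (Fin (m + n)))
      𝓘(ℝ, EuclideanSpace ℂ (Fin n)) ∞ (bX D) (chT (m := m) D) :=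
    (contMDiffOn_chart_symm (I := 𝓘(ℝ, EuclideanSpace ℂ (Fin n))) (x := D.x0)).comp hζ
      (fun z hz => hz.1)
  have hmaps : MapsTo (bX D) (chT (m := m) D) D.U := fun z hz => hz.2
  have hx1 : ContMDiffOn 𝓘(ℝ, EuclideanSpace ℂ (Fin (m + n))) 𝓘(ℝ, Fin (2 * m) → ℝ) ∞
      (fun z => D.x (bX D z)) (chT (m := m) D) := D.hx.comp hy hmaps
  have hy1 : ContMDiffOn 𝓘(ℝ, EuclideanSpace ℂ (Fin (m + n))) 𝓘(ℝ, Fin (2 * m) → ℝ) ∞
      (fun z => D.y (bX D z)) (chT (m := m) D) := D.hy.comp hy hmaps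
  have hr1 : ContMDiffOn 𝓘(ℝ, EuclideanSpace ℂ (Fin (m + n))) 𝓘(ℝ, Fin (2 * m) → ℝ) ∞
      (fun z => D.r (bX D z)) (chT (m := m) D) := D.hr.comp hy hmaps
  have hw1 : ContMDiffOn 𝓘(ℝ, EuclideanSpace ℂ (Fin (m + n))) 𝓘(ℝ, ℂ) ∞
      (fun z => D.w (bX D z)) (chT (m := m) D) := (contMDiffOn_real D.hw).comp hy hmaps
  have hz1 : ContDiff ℝ ∞ (fun z => ((eX m n).symm z).1) := contDiff_fst.comp he
  have hall := (hz1.contMDiff.contMDiffOn (s := chT (m := m) D)).prodMk_space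
    (hx1.prodMk_space (hy1.prodMk_space (hr1.prodMk_space hw1)))
  have hF : ContDiff ℝ ∞ (fun q : (Fin m → ℂ) × ((Fin (2 * m) → ℝ) ×
      ((Fin (2 * m) → ℝ) × ((Fin (2 * m) → ℝ) × ℂ))) =>
      Vt τ hnd d q.1 q.2.1 q.2.2.1 q.2.2.2.1 q.2.2.2.2) :=
    contDiff_Vt hnd hL (by fun_prop) (by fun_prop) (by fun_prop) (by fun_prop) (by fun_prop)
  refine ContMDiffOn.congr ((hF.contMDiff.comp_contMDiffOn hall).prodMk hy) (fun z _ => ?_)
  simp only [chInv, Function.comp]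

/-- The coordinates attached to a local datum. -/
noncomputable def ch (τ : ℂ) (hL : ∀ i j, Differentiable ℂ (fun w => L w i j))
    (hnd : ∀ w (v : Fin (2 * m) → ℝ), L w *ᵥ (fun k => (v k : ℂ)) = 0 → v = 0)
    (d : Fin m → ℕ) (D : LX m n X) :
    PartialDiffeomorph (IX m n) 𝓘(ℝ, EuclideanSpace ℂ (Fin (m + n))) (PX m X)
      (EuclideanSpace ℂ (Fin (m + n))) ∞ where
  toFun := chTo τ L d D
  invFun := chInv τ hnd d D
  source := chS (m := m) D
  target := chT (m := m) D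
  map_source' := by
    intro p hp
    have hp' : p.2 ∈ D.U := hp
    refine ⟨?_, ?_⟩
    · simp only [chTo, ContinuousLinearEquiv.symm_apply_apply]
      exact (chartAt _ D.x0).map_source (D.sub hp')
    · simp only [chTo, ContinuousLinearEquiv.symm_apply_apply]
      show (chartAt _ D.x0).symm (chartAt _ D.x0 p.2) ∈ D.U
      rw [(chartAt _ D.x0).left_inv (D.sub hp')]
      exact hp'
  map_target' := fun z hz => hz.2
  left_inv' := fun p hp => ch_left hnd D hp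
  right_inv' := fun z hz => ch_right hnd D hz
  open_source := isOpen_chS D
  open_target := isOpen_chT D
  contMDiffOn_toFun := contMDiffOn_chTo hL D
  contMDiffOn_invFun := contMDiffOn_chInv hnd hL D

end Pool.Agent.EllipticTwist
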