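import Mathlib
import Pool.Agent.Lib.MP_1d980c_gt.TauChart

set_option autoImplicit false
set_option maxHeartbeats 1000000
open scoped Manifold ContDiff Matrix Topology
open Complex Set

namespace Pool.Agent.EllipticTwist

open Pool.Agent.TorusBundle

variable {m n : ℕ} {X : Type} [TopologicalSpace X] [ChartedSpace (EuclideanSpace ℂ (Fin n)) X]
variable {τ : ℂ} {L : ℂ → Matrix (Fin m) (Fin (2 * m)) ℂ} {d : Fin m → ℕ}

/-- The local transformation attached to local data. -/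
noncomputable def dk (x y : X → (Fin (2 * m) → ℝ)) (Λ : X → (Fin (2 * m) → ℂ))
    (u : Fin (2 * m) → ℝ) (a b : ℤ) (p : PX m X) : PX m X :=
  (p.1 + (a : ℝ) • x p.2 + (b : ℝ) • y p.2 + u + (fun k => (Λ p.2 k).re), p.2)

/-- The local transformation in the holomorphic coordinates. -/
noncomputable def dkF (τ : ℂ) (L : ℂ → Matrix (Fin m) (Fin (2 * m)) ℂ) (d : Fin m → ℕ)
    (u x₁ y₁ : Fin (2 * m) → ℝ) (a b : ℤ) (W : EuclideanSpace ℂ (Fin n) → ℂ)
    (Λ : EuclideanSpace ℂ (Fin n) → (Fin (2 * m) → ℂ))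
    (f : EuclideanSpace ℂ (Fin n) → EuclideanSpace ℂ (Fin n))
    (q : (Fin m → ℂ) × EuclideanSpace ℂ (Fin n)) : (Fin m → ℂ) × EuclideanSpace ℂ (Fin n) :=
  (fun i => Eft τ (d i) b (W q.2) * (q.1 i + (L (W q.2) *ᵥ (cv u + Λ q.2)) i) +
      Ht τ L d (cv x₁) (cv y₁) (W q.2 + (a + b * τ)) i, f q.2)

lemma contDiffAt_mulVec {E : Type*} [NormedAddCommGroup E] [NormedSpace ℂ E]
    {L' : ℂ → Matrix (Fin m) (Fin (2 * m)) ℂ}
    (hL' : ∀ i j, Differentiable ℂ (fun w => L' w i j)) {f : E → ℂ} {g : E → (Fin (2 * m) → ℂ)}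
    {z : E} (hf : ContDiffAt ℂ ∞ f z) (hg : ContDiffAt ℂ ∞ g z) (i : Fin m) :
    ContDiffAt ℂ ∞ (fun x => (L' (f x) *ᵥ g x) i) z := by
  simp only [Matrix.mulVec, dotProduct]
  refine ContDiffAt.sum fun j _ => ContDiffAt.mul ?_ (contDiffAt_pi.1 hg j)
  exact (hL' i j).contDiff.contDiffAt.comp z hf

lemma contDiffAt_dkF (hL : ∀ i j, Differentiable ℂ (fun w => L w i j))
    (u x₁ y₁ : Fin (2 * m) → ℝ) (a b : ℤ) {W : EuclideanSpace ℂ (Fin n) → ℂ}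
    {Λ : EuclideanSpace ℂ (Fin n) → (Fin (2 * m) → ℂ)}
    {f : EuclideanSpace ℂ (Fin n) → EuclideanSpace ℂ (Fin n)}
    {q : (Fin m → ℂ) × EuclideanSpace ℂ (Fin n)} (hW : ContDiffAt ℂ ∞ W q.2)
    (hΛ : ContDiffAt ℂ ∞ Λ q.2) (hf : ContDiffAt ℂ ∞ f q.2) :
    ContDiffAt ℂ ∞ (dkF τ L d u x₁ y₁ a b W Λ f) q := by
  unfold dkF
  have hs : ContDiffAt ℂ ∞ (fun q : (Fin m → ℂ) × EuclideanSpace ℂ (Fin n) => q.2) q :=
    contDiff_snd.contDiffAt
  have hW' : ContDiffAt ℂ ∞ (fun q : (Fin m → ℂ) × EuclideanSpace ℂ (Fin n) => W q.2) q :=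
    hW.comp q hs
  have hΛ' : ContDiffAt ℂ ∞ (fun q : (Fin m → ℂ) × EuclideanSpace ℂ (Fin n) => Λ q.2) q :=
    hΛ.comp q hs
  refine ContDiffAt.prodMk ?_ (hf.comp q hs)
  rw [contDiffAt_pi]
  intro i
  refine ContDiffAt.add (ContDiffAt.mul ((contDiff_Eft τ (d i) b).contDiffAt.comp q hW')
    (ContDiffAt.add ?_ ?_)) ?_
  · exact (contDiff_pi.1 contDiff_fst i).contDiffAt
  · exact contDiffAt_mulVec hL hW' (contDiffAt_const.add hΛ') i
  · have hWt : ContDiffAt ℂ ∞ (fun q : (Fin m → ℂ) × EuclideanSpace ℂ (Fin n) =>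
        W q.2 + (a + b * τ)) q := hW'.add contDiffAt_const
    unfold Ht
    refine ContDiffAt.sub (ContDiffAt.mul hWt.neg ?_) (ContDiffAt.mul contDiffAt_const ?_)
    · exact contDiffAt_mulVec hL hWt contDiffAt_const i
    · exact contDiffAt_mulVec (differentiable_Ldt hL) hWt contDiffAt_const i

/-- The local transformation in coordinates. -/
lemma chTo_dk (hd : ∀ i, d i ≠ 0) (hL : ∀ i j, Differentiable ℂ (fun w => L w i j))
    (h1 : ∀ w, L (w + 1) = L w) (h2 : ∀ w i j, L (w + τ) i j = ft τ (d i) w * L w i j)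
    (D D' : LX m n X) (Λ : X → (Fin (2 * m) → ℂ)) (u x₁ y₁ : Fin (2 * m) → ℝ) (a b : ℤ)
    (p : PX m X) (hp : p ∈ chS (m := m) D) (hw : D'.w p.2 = D.w p.2 + (a + b * τ))
    (hx : D'.x p.2 = D.x p.2 + x₁) (hy : D'.y p.2 = D.y p.2 + y₁)
    (hr : D'.r p.2 = D.r p.2 + fun k => (Λ p.2 k).im) :
    chTo τ L d D' (dk D.x D.y Λ u a b p) =
      eX m n (dkF τ L d u x₁ y₁ a b
        (fun z => D.w ((chartAt (EuclideanSpace ℂ (Fin n)) D.x0).symm z))
        (fun z => Λ ((chartAt (EuclideanSpace ℂ (Fin n)) D.x0).symm z))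
        (fun z => chartAt (EuclideanSpace ℂ (Fin n)) D'.x0
          ((chartAt (EuclideanSpace ℂ (Fin n)) D.x0).symm z))
        ((eX m n).symm (chTo τ L d D p))) := by
  obtain ⟨v, y⟩ := p
  have hp' : y ∈ D.U := hp
  simp only at hw hx hy hr
  unfold chTo dk dkF
  simp only [ContinuousLinearEquiv.symm_apply_apply]
  rw [(chartAt _ D.x0).left_inv (D.sub hp'), hx, hy, hr, hw]
  congr 2
  funext i
  exact Zt_trans hd hL h1 h2 a b v (D.x y) (D.y y) (D.r y) u x₁ y₁ (Λ y) (D.w y) i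

end Pool.Agent.EllipticTwist
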