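import Mathlib
import Pool.Agent.Lib.MP_1d980c_gt.TauDeck

set_option autoImplicit false
set_option maxHeartbeats 1000000
open scoped Manifold ContDiff Matrix Topology
open Complex Set

namespace Pool.Agent.EllipticTwist

variable {n N : ℕ} {X : Type} [TopologicalSpace X] [ChartedSpace (EuclideanSpace ℂ (Fin n)) X]

/-- The exponential `e(r) = exp(2πi r)`. -/
noncomputable def ex (z : ℂ) : ℂ := Complex.exp (2 * Real.pi * I * z)

lemma ex_add (z w : ℂ) : ex (z + w) = ex z * ex w := by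
  unfold ex; rw [mul_add, Complex.exp_add]

lemma ex_sub (z w : ℂ) : ex (z - w) = ex z / ex w := by
  unfold ex; rw [mul_sub, Complex.exp_sub]

lemma ex_ne_zero (z : ℂ) : ex z ≠ 0 := Complex.exp_ne_zero _

lemma ex_int_mul (a : ℤ) (z : ℂ) : ex (a * z) = ex z ^ a := by
  unfold ex
  rw [← Complex.exp_int_mul]
  congr 1; ring

lemma ex_eq_one_iff (z : ℂ) : ex z = 1 ↔ ∃ k : ℤ, z = k := by
  unfold ex
  rw [Complex.exp_eq_one_iff]
  have h2 : (2 * (Real.pi : ℂ) * I) ≠ 0 := Complex.two_pi_I_ne_zero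
  constructor
  · rintro ⟨k, hk⟩
    refine ⟨k, ?_⟩
    have : (2 * (Real.pi : ℂ) * I) * (z - k) = 0 := by rw [mul_sub, hk]; ring
    rcases mul_eq_zero.1 this with h | h
    · exact absurd h h2
    · exact sub_eq_zero.1 h
  · rintro ⟨k, hk⟩
    exact ⟨k, by rw [hk]; ring⟩

lemma ex_int (k : ℤ) : ex (k : ℂ) = 1 := (ex_eq_one_iff _).2 ⟨k, rfl⟩

lemma norm_ex (z : ℂ) : ‖ex z‖ = Real.exp (-(2 * Real.pi * z.im)) := by
  unfold ex
  rw [Complex.norm_exp]
  congr 1
  simp

/-- The unitary part of `ex z`. -/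
lemma ex_re (z : ℂ) : ex ((z.re : ℝ) : ℂ) = ex z / ‖ex z‖ := by
  rw [norm_ex, Complex.ofReal_exp]
  unfold ex
  rw [← Complex.exp_sub]
  congr 1
  have h := Complex.re_add_im z
  have hI : I * I = -1 := Complex.I_mul_I
  push_cast
  linear_combination (2 * (Real.pi : ℂ) * I) * h - (2 * (Real.pi : ℂ) * z.im) * hI

/-- Local holomorphic logarithms. -/
lemma exists_log {g : X → (Fin N → ℂ)} {W : Set X} (hW : IsOpen W)
    (hg : ContMDiffOn 𝓘(ℂ, EuclideanSpace ℂ (Fin n)) 𝓘(ℂ, Fin N → ℂ) ∞ g W) {x0 : X}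
    (hx0 : x0 ∈ W) (h0 : ∀ k, g x0 k ≠ 0) :
    ∃ V : Set X, IsOpen V ∧ x0 ∈ V ∧ V ⊆ W ∧ ∃ Λ : X → (Fin N → ℂ),
      ContMDiffOn 𝓘(ℂ, EuclideanSpace ℂ (Fin n)) 𝓘(ℂ, Fin N → ℂ) ∞ Λ V ∧
      ∀ y ∈ V, ∀ k, g y k = ex (Λ y k) := by
  have h2 : (2 * (Real.pi : ℂ) * I) ≠ 0 := Complex.two_pi_I_ne_zero
  -- the set where the quotients lie in the slit plane
  set S : Set (Fin N → ℂ) := {z | ∀ k, z k / g x0 k ∈ slitPlane} with hS
  have hSo : IsOpen S := by
    rw [hS, Set.ofPred_forall]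
    refine isOpen_iInter_of_finite fun k => ?_
    have hc : Continuous (fun z : Fin N → ℂ => z k / g x0 k) := (continuous_apply k).div_const _
    exact Complex.isOpen_slitPlane.preimage hc
  have hVo : IsOpen (W ∩ g ⁻¹' S) := hg.continuousOn.isOpen_inter_preimage hW hSo
  set F : (Fin N → ℂ) → (Fin N → ℂ) := fun z k =>
    (Complex.log (z k / g x0 k) + Complex.log (g x0 k)) / (2 * Real.pi * I) with hF
  have hFs : ContDiffOn ℂ ∞ F S := by
    rw [contDiffOn_pi]
    intro k z hz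
    apply ContDiffAt.contDiffWithinAt
    have h3 : ContDiffAt ℂ ∞ (fun z : Fin N → ℂ => z k / g x0 k) z :=
      (contDiff_apply ℂ ℂ k).contDiffAt.div_const _
    have h4 : ContDiffAt ℂ ∞ Complex.log (z k / g x0 k) := Complex.contDiffAt_log (hz k)
    exact ((h4.comp z h3).add contDiffAt_const).div_const _
  refine ⟨W ∩ g ⁻¹' S, hVo, ⟨hx0, ?_⟩, inter_subset_left, fun y => F (g y), ?_, ?_⟩
  · intro k
    rw [div_self (h0 k)]
    exact Complex.one_mem_slitPlane
  · exact hFs.contMDiffOn.comp (hg.mono inter_subset_left) (fun y hy => hy.2)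
  · intro y hy k
    have h5 : g y k / g x0 k ≠ 0 := Complex.slitPlane_ne_zero (hy.2 k)
    unfold ex
    simp only [hF]
    rw [mul_div_cancel₀ _ h2, Complex.exp_add, Complex.exp_log h5, Complex.exp_log (h0 k),
      div_mul_cancel₀ _ (h0 k)]

/-- Local smooth arguments. -/
lemma exists_lift {γ : X → (Fin N → Circle)}
    (hγ : ∀ k, ContMDiff 𝓘(ℝ, EuclideanSpace ℂ (Fin n)) 𝓘(ℝ, ℂ) ∞ (fun x => (γ x k : ℂ)))
    (x0 : X) :
    ∃ V : Set X, IsOpen V ∧ x0 ∈ V ∧ ∃ G : X → (Fin N → ℝ),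
      ContMDiffOn 𝓘(ℝ, EuclideanSpace ℂ (Fin n)) 𝓘(ℝ, Fin N → ℝ) ∞ G V ∧
      ∀ y ∈ V, ∀ k, (γ y k : ℂ) = ex (G y k : ℝ) := by
  set S : Fin N → Set ℂ := fun k => {z | z / γ x0 k ∈ slitPlane} with hS
  have hSo : ∀ k, IsOpen (S k) := by
    intro k
    have hc : Continuous (fun z : ℂ => z / γ x0 k) := continuous_id.div_const _
    exact Complex.isOpen_slitPlane.preimage hc
  have h0 : ∀ k, (γ x0 k : ℂ) ≠ 0 := fun k => Circle.coe_ne_zero _
  set F : Fin N → ℂ → ℝ := fun k z =>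
    ((Complex.log (z / γ x0 k)).im + (Complex.log (γ x0 k)).im) / (2 * Real.pi) with hF
  have hFs : ∀ k, ContDiffOn ℝ ∞ (F k) (S k) := by
    intro k z hz
    apply ContDiffAt.contDiffWithinAt
    have h3 : ContDiffAt ℝ ∞ (fun z : ℂ => z / γ x0 k) z := contDiffAt_id.div_const _
    have h4 : ContDiffAt ℝ ∞ Complex.log (z / γ x0 k) :=
      (Complex.contDiffAt_log hz).restrict_scalars ℝ
    have h45 : ContDiffAt ℝ ∞ (fun z : ℂ => Complex.log (z / γ x0 k)) z :=
      ContDiffAt.comp (g := Complex.log) (f := fun z : ℂ => z / γ x0 k) z h4 h3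
    have h5 : ContDiffAt ℝ ∞ (fun z : ℂ => (Complex.log (z / γ x0 k)).im) z :=
      Complex.imCLM.contDiff.contDiffAt.comp z h45
    exact (h5.add contDiffAt_const).div_const _
  have hVo : IsOpen (⋂ k, (fun x => (γ x k : ℂ)) ⁻¹' S k) :=
    isOpen_iInter_of_finite fun k => (hSo k).preimage (hγ k).continuous
  refine ⟨⋂ k, (fun x => (γ x k : ℂ)) ⁻¹' S k, hVo, ?_, fun y k => F k (γ y k), ?_, ?_⟩
  · rw [Set.mem_iInter]
    intro k
    show (γ x0 k : ℂ) / γ x0 k ∈ slitPlane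
    rw [div_self (h0 k)]
    exact Complex.one_mem_slitPlane
  · rw [contMDiffOn_pi_space]
    intro k
    exact (hFs k).contMDiffOn.comp (hγ k).contMDiffOn (fun y hy => Set.mem_iInter.1 hy k)
  · intro y hy k
    have hyk : (γ y k : ℂ) / γ x0 k ∈ slitPlane := Set.mem_iInter.1 hy k
    have h5 : (γ y k : ℂ) / γ x0 k ≠ 0 := Complex.slitPlane_ne_zero hyk
    have e1 : ∀ z : ℂ, ‖z‖ = 1 → Complex.exp (I * (Complex.log z).im) = z := by
      intro z hz
      have hz0 : z ≠ 0 := by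
        intro h; rw [h, norm_zero] at hz; exact zero_ne_one hz
      have hre : (Complex.log z).re = 0 := by rw [Complex.log_re, hz, Real.log_one]
      have h6 := Complex.re_add_im (Complex.log z)
      rw [hre, Complex.ofReal_zero, zero_add, mul_comm] at h6
      rw [h6, Complex.exp_log hz0]
    have n1 : ‖(γ y k : ℂ) / γ x0 k‖ = 1 := by rw [norm_div, Circle.norm_coe, Circle.norm_coe, div_one]
    have hpi : (Real.pi : ℂ) ≠ 0 := by exact_mod_cast Real.pi_ne_zero
    unfold ex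
    simp only [hF]
    have e2 : (2 * (Real.pi : ℂ) * I * (((((Complex.log ((γ y k : ℂ) / γ x0 k)).im +
        (Complex.log (γ x0 k : ℂ)).im) / (2 * Real.pi) : ℝ)) : ℂ)) =
        I * ((Complex.log ((γ y k : ℂ) / γ x0 k)).im : ℂ) + I * ((Complex.log (γ x0 k : ℂ)).im : ℂ) := by
      push_cast
      field_simp
    rw [e2, Complex.exp_add, e1 _ n1, e1 _ (Circle.norm_coe _), div_mul_cancel₀ _ (h0 k)]

/-- Two continuous real lifts of the same circle valued functions differ locally by an integer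
constant. -/
lemma lifts_differ {γ : X → (Fin N → Circle)} {x x' : X → (Fin N → ℝ)} {U : Set X}
    (hU : IsOpen U) (hx : ContinuousOn x U) (hx' : ContinuousOn x' U)
    (h : ∀ y ∈ U, ∀ k, (γ y k : ℂ) = ex (x y k : ℝ))
    (h' : ∀ y ∈ U, ∀ k, (γ y k : ℂ) = ex (x' y k : ℝ)) {y : X} (hy : y ∈ U) :
    ∀ᶠ z in 𝓝 y, x' z = x z + (x' y - x y) := by
  have hk : ∀ k : Fin N, ∀ᶠ z in 𝓝 y, x' z k = x z k + (x' y k - x y k) := by
    intro k
    have hc : ContinuousAt (fun z => x' z k - x z k) y := by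
      have e1 : ContinuousAt x y := hx.continuousAt (hU.mem_nhds hy)
      have e2 : ContinuousAt x' y := hx'.continuousAt (hU.mem_nhds hy)
      exact ((continuous_apply k).continuousAt.comp e2).sub
        ((continuous_apply k).continuousAt.comp e1)
    have hint : ∀ z ∈ U, ∃ j : ℤ, x' z k - x z k = j := by
      intro z hz
      have e : ex ((x' z k : ℂ) - (x z k : ℂ)) = 1 := by
        rw [ex_sub, ← h z hz k, ← h' z hz k, div_self (Circle.coe_ne_zero _)]
      rw [ex_eq_one_iff] at e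
      obtain ⟨j, hj⟩ := e
      exact ⟨j, by exact_mod_cast hj⟩
    have hball := Metric.continuousAt_iff'.1 hc 1 one_pos
    filter_upwards [hball, hU.mem_nhds hy] with z hz hzU
    obtain ⟨j, hj⟩ := hint z hzU
    obtain ⟨j', hj'⟩ := hint y hy
    rw [hj, hj', Real.dist_eq, ← Int.cast_sub, ← Int.cast_abs] at hz
    have h1 : |j - j'| < 1 := by exact_mod_cast hz
    rw [Int.abs_lt_one_iff] at h1
    have h2 : j = j' := by omega
    rw [h2, ← hj'] at hj
    linarith
  filter_upwards [Filter.eventually_all.2 hk] with z hz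
  funext k
  simp only [Pi.add_apply, Pi.sub_apply]
  exact hz k

/-- A continuous function with values in a lattice is locally constant. -/
lemma lattice_const {τ : ℂ} (hτ : 0 < τ.im) {f f' : X → ℂ} {U : Set X} (hU : IsOpen U)
    (hf : ContinuousOn f U) (hf' : ContinuousOn f' U)
    (h : ∀ y ∈ U, ∃ a b : ℤ, f' y = f y + (a + b * τ)) {y : X} (hy : y ∈ U) (a b : ℤ)
    (hab : f' y = f y + (a + b * τ)) : ∀ᶠ z in 𝓝 y, f' z = f z + (a + b * τ) := by
  have hc : ContinuousAt (fun z => f' z - f z) y :=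
    (hf'.continuousAt (hU.mem_nhds hy)).sub (hf.continuousAt (hU.mem_nhds hy))
  have hcim : ContinuousAt (fun z => (f' z - f z).im) y := Complex.continuous_im.continuousAt.comp hc
  have hcre : ContinuousAt (fun z => (f' z - f z).re) y := Complex.continuous_re.continuousAt.comp hc
  filter_upwards [Metric.continuousAt_iff'.1 hcim τ.im hτ, Metric.continuousAt_iff'.1 hcre 1 one_pos,
    hU.mem_nhds hy] with z hz1 hz2 hzU
  obtain ⟨a', b', h'⟩ := h z hzU
  have e1 : f' z - f z = a' + b' * τ := by rw [h']; ring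
  have e2 : f' y - f y = a + b * τ := by rw [hab]; ring
  rw [e1, e2, Real.dist_eq] at hz1 hz2
  have e3 : ((a' : ℂ) + b' * τ).im - ((a : ℂ) + b * τ).im = ((b' - b : ℤ) : ℝ) * τ.im := by
    simp; ring
  rw [e3, abs_mul, abs_of_pos hτ, ← Int.cast_abs] at hz1
  have h3 : ((|b' - b| : ℤ) : ℝ) < 1 := by
    by_contra hcon
    push Not at hcon
    have := mul_le_mul_of_nonneg_right hcon hτ.le
    linarith
  have h4 : |b' - b| < 1 := by exact_mod_cast h3
  rw [Int.abs_lt_one_iff] at h4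
  have hb : b' = b := by omega
  subst hb
  have e4 : ((a' : ℂ) + b' * τ).re - ((a : ℂ) + b' * τ).re = ((a' - a : ℤ) : ℝ) := by
    simp
  rw [e4, ← Int.cast_abs] at hz2
  have h5 : |a' - a| < 1 := by exact_mod_cast hz2
  rw [Int.abs_lt_one_iff] at h5
  have ha : a' = a := by omega
  rw [h', ha]

end Pool.Agent.EllipticTwist
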