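import Mathlib

set_option autoImplicit false
open scoped Manifold ContDiff Matrix Topology
open Complex

namespace Pool.Agent.TorusBundle

section Real

variable {E : Type*} [NormedAddCommGroup E] [NormedSpace ℂ E]
  {N : Type*} [TopologicalSpace N] [ChartedSpace E N]

/-- a complex manifold is a real manifold -/
theorem isManifold_real [IsManifold 𝓘(ℂ, E) ∞ N] : IsManifold 𝓘(ℝ, E) ∞ N := by
  refine isManifold_of_contDiffOn _ _ _ fun e e' he he' => ?_
  have h1 : e.symm ≫ₕ e' ∈ contDiffGroupoid ∞ 𝓘(ℂ, E) :=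
    (contDiffGroupoid ∞ 𝓘(ℂ, E)).compatible he he'
  rw [contDiffGroupoid, mem_groupoid_of_pregroupoid] at h1
  have h2 : ContDiffOn ℂ ∞ (e.symm ≫ₕ e') (e.symm ≫ₕ e').source := by
    simpa [contDiffPregroupoid] using h1.1
  have h3 := h2.restrict_scalars ℝ
  simpa using h3

/-- multiplication by `i` -/
noncomputable def mulI (E : Type*) [NormedAddCommGroup E] [NormedSpace ℂ E] : E →L[ℝ] E :=
  ((Complex.I : ℂ) • ContinuousLinearMap.id ℂ E).restrictScalars ℝ

lemma mulI_apply (v : E) : mulI E v = Complex.I • v := rfl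

lemma mulI_mulI : (mulI E).comp (mulI E) = -ContinuousLinearMap.id ℝ E := by
  ext v
  simp [mulI_apply, smul_smul]

lemma fderiv_mulI {g : E → E} {z : E} (hg : DifferentiableAt ℂ g z) :
    (fderiv ℝ g z).comp (mulI E) = (mulI E).comp (fderiv ℝ g z) := by
  rw [hg.fderiv_restrictScalars ℝ]
  ext v
  simp [mulI_apply]

lemma coordChange_mulI [IsManifold 𝓘(ℂ, E) ∞ N] [IsManifold 𝓘(ℝ, E) ∞ N] (x x' z : N)
    (hx : z ∈ (chartAt E x).source) (hx' : z ∈ (chartAt E x').source) :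
    ((tangentBundleCore 𝓘(ℝ, E) N).coordChange (achart E x) (achart E x') z).comp (mulI E) =
      (mulI E).comp ((tangentBundleCore 𝓘(ℝ, E) N).coordChange (achart E x) (achart E x') z) := by
  rw [tangentBundleCore_coordChange_achart]
  have e : Set.range 𝓘(ℝ, E) = Set.univ := by simp
  rw [e, fderivWithin_univ]
  apply fderiv_mulI
  have h1 : ContDiffWithinAt ℂ ∞ (extChartAt 𝓘(ℂ, E) x' ∘ (extChartAt 𝓘(ℂ, E) x).symm)
      (Set.range 𝓘(ℂ, E)) (extChartAt 𝓘(ℂ, E) x z) := by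
    refine contDiffWithinAt_ext_coord_change x' x ?_
    simp only [mfld_simps]
    exact ⟨(chartAt E x).map_source hx, by rw [(chartAt E x).left_inv hx]; exact hx'⟩
  have e' : Set.range 𝓘(ℂ, E) = Set.univ := by simp
  rw [e', contDiffWithinAt_univ] at h1
  exact h1.differentiableAt (by simp)

end Real

/-- the coordinate change of the tangent bundle and its inverse -/
theorem coordChange_inv' {E : Type*} [NormedAddCommGroup E] [NormedSpace ℝ E]
    {M : Type*} [TopologicalSpace M] [ChartedSpace E M] [IsManifold 𝓘(ℝ, E) ∞ M]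
    (i j : atlas E M) (x : M) (hi : x ∈ i.1.source) (hj : x ∈ j.1.source) :
    ((tangentBundleCore 𝓘(ℝ, E) M).coordChange j i x).comp
      ((tangentBundleCore 𝓘(ℝ, E) M).coordChange i j x) = ContinuousLinearMap.id ℝ _ := by
  ext v
  have h1 := (tangentBundleCore 𝓘(ℝ, E) M).coordChange_comp i j i x ⟨⟨hi, hj⟩, hi⟩ v
  have h2 := (tangentBundleCore 𝓘(ℝ, E) M).coordChange_self i x hi v
  simp only [ContinuousLinearMap.comp_apply, ContinuousLinearMap.id_apply]
  rw [h1, h2]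

/-- A manifold diffeomorphic to a complex manifold carries an almost complex structure. -/
theorem exists_J_of_complex {k : ℕ} {M : Type} [TopologicalSpace M]
    [ChartedSpace (EuclideanSpace ℝ (Fin (2 * k))) M] [IsManifold (𝓡 (2 * k)) ∞ M]
    {N : Type} [TopologicalSpace N] [ChartedSpace (EuclideanSpace ℂ (Fin k)) N]
    [IsManifold 𝓘(ℂ, EuclideanSpace ℂ (Fin k)) ∞ N]
    (φ : Diffeomorph (𝓡 (2 * k)) 𝓘(ℝ, EuclideanSpace ℂ (Fin k)) M N ∞) :
    ∃ J : ContMDiffSection (𝓡 (2 * k))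
          (EuclideanSpace ℝ (Fin (2 * k)) →L[ℝ] EuclideanSpace ℝ (Fin (2 * k))) ∞
          (fun x : M => TangentSpace (𝓡 (2 * k)) x →L[ℝ] TangentSpace (𝓡 (2 * k)) x),
          ∀ x : M, (J x).comp (J x) = -ContinuousLinearMap.id ℝ (TangentSpace (𝓡 (2 * k)) x) := by
  classical
  have hNr : IsManifold 𝓘(ℝ, EuclideanSpace ℂ (Fin k)) ∞ N := isManifold_real
  have hn : (∞ : WithTop ℕ∞) ≠ 0 := by simp
  set H := EuclideanSpace ℝ (Fin (2 * k)) with hH
  set E := EuclideanSpace ℂ (Fin k) with hE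
  let D : M → (H ≃L[ℝ] E) := fun x => φ.mfderivToContinuousLinearEquiv hn x
  have hD : ∀ x, (D x : H →L[ℝ] E) = mfderiv (𝓡 (2 * k)) 𝓘(ℝ, E) φ x := fun x => rfl
  let J0 : M → (H →L[ℝ] H) := fun x =>
    ((D x).symm : E →L[ℝ] H).comp ((mulI E).comp (D x : H →L[ℝ] E))
  have hJ0 : ∀ x, (J0 x).comp (J0 x) = -ContinuousLinearMap.id ℝ H := by
    intro x
    ext1 v
    have h := congrArg (fun f : E →L[ℝ] E => f (D x v)) (mulI_mulI (E := E))
    simp only [ContinuousLinearMap.comp_apply, neg_apply,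
      ContinuousLinearMap.id_apply] at h
    simp only [J0, ContinuousLinearMap.comp_apply, ContinuousLinearEquiv.coe_coe,
      ContinuousLinearEquiv.apply_symm_apply, neg_apply,
      ContinuousLinearMap.id_apply]
    rw [h, map_neg, ContinuousLinearEquiv.symm_apply_apply]
  have hsmooth : ContMDiff (𝓡 (2 * k)) ((𝓡 (2 * k)).prod 𝓘(ℝ, H →L[ℝ] H)) ∞
      (fun x => (Bundle.TotalSpace.mk' (H →L[ℝ] H) x (J0 x) : Bundle.TotalSpace (H →L[ℝ] H)
        (fun x : M => TangentSpace (𝓡 (2 * k)) x →L[ℝ] TangentSpace (𝓡 (2 * k)) x))) := by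
    intro x₀
    rw [contMDiffAt_hom_bundle]
    refine ⟨contMDiffAt_id, ?_⟩
    show ContMDiffAt (𝓡 (2 * k)) 𝓘(ℝ, H →L[ℝ] H) ∞
      (inTangentCoordinates (𝓡 (2 * k)) (𝓡 (2 * k)) id id (fun x => J0 x) x₀) x₀
    have ha : ContMDiffAt (𝓡 (2 * k)) 𝓘(ℝ, H →L[ℝ] E) ∞ (inTangentCoordinates (𝓡 (2 * k)) 𝓘(ℝ, E) id φ
        (mfderiv (𝓡 (2 * k)) 𝓘(ℝ, E) φ) x₀) x₀ :=
      (φ.contMDiff x₀).mfderiv_const (by simp)
    set A := inTangentCoordinates (𝓡 (2 * k)) 𝓘(ℝ, E) id φ (mfderiv (𝓡 (2 * k)) 𝓘(ℝ, E) φ) x₀ with hA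
    -- coordinate changes
    set C : M → (H →L[ℝ] H) := fun x =>
      (tangentBundleCore (𝓡 (2 * k)) M).coordChange (achart _ x) (achart _ x₀) x with hC
    set C' : M → (H →L[ℝ] H) := fun x =>
      (tangentBundleCore (𝓡 (2 * k)) M).coordChange (achart _ x₀) (achart _ x) x with hC'
    set B : M → (E →L[ℝ] E) := fun x =>
      (tangentBundleCore 𝓘(ℝ, E) N).coordChange (achart _ (φ x)) (achart _ (φ x₀)) (φ x) with hB
    set B' : M → (E →L[ℝ] E) := fun x =>
      (tangentBundleCore 𝓘(ℝ, E) N).coordChange (achart _ (φ x₀)) (achart _ (φ x)) (φ x) with hB'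
    have hev : ∀ᶠ x in 𝓝 x₀, x ∈ (chartAt H x₀).source ∧ φ x ∈ (chartAt E (φ x₀)).source :=
      Filter.Eventually.and ((chartAt H x₀).open_source.mem_nhds (mem_chart_source _ _))
        (φ.contMDiff.continuous.continuousAt.eventually
          ((chartAt E (φ x₀)).open_source.mem_nhds (mem_chart_source _ _)))
    have hAeq : ∀ x, x ∈ (chartAt H x₀).source → φ x ∈ (chartAt E (φ x₀)).source →
        A x = (B x).comp ((D x : H →L[ℝ] E).comp (C' x)) := by
      intro x hx hy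
      rw [hA, inTangentCoordinates_eq (I := 𝓡 (2 * k)) (I' := 𝓘(ℝ, E)) id φ
        (mfderiv (𝓡 (2 * k)) 𝓘(ℝ, E) φ) (x₀ := x₀) (x := x) hx hy]
      rfl
    have hJeq : ∀ x, x ∈ (chartAt H x₀).source →
        inTangentCoordinates (𝓡 (2 * k)) (𝓡 (2 * k)) id id (fun x => J0 x) x₀ x =
          (C x).comp ((J0 x).comp (C' x)) := by
      intro x hx
      rw [inTangentCoordinates_eq (I := 𝓡 (2 * k)) (I' := 𝓡 (2 * k)) id id (fun x => J0 x)
        (x₀ := x₀) (x := x) hx hx]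
      rfl
    have hCC : ∀ x, x ∈ (chartAt H x₀).source → (C' x).comp (C x) = ContinuousLinearMap.id ℝ _ ∧
        (C x).comp (C' x) = ContinuousLinearMap.id ℝ _ := fun x hx =>
      ⟨coordChange_inv' _ _ _ (mem_chart_source _ _) hx, coordChange_inv' _ _ _ hx (mem_chart_source _ _)⟩
    have hBB : ∀ x, φ x ∈ (chartAt E (φ x₀)).source →
        (B' x).comp (B x) = ContinuousLinearMap.id ℝ _ ∧
        (B x).comp (B' x) = ContinuousLinearMap.id ℝ _ := fun x hx =>
      ⟨coordChange_inv' _ _ _ (mem_chart_source _ _) hx, coordChange_inv' _ _ _ hx (mem_chart_source _ _)⟩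
    -- the equivalences
    have hequiv : ∀ x, x ∈ (chartAt H x₀).source → φ x ∈ (chartAt E (φ x₀)).source →
        ∃ e : H ≃L[ℝ] E, (e : H →L[ℝ] E) = A x ∧
          (e.symm : E →L[ℝ] H) = (C x).comp (((D x).symm : E →L[ℝ] H).comp (B' x)) := by
      intro x hx hy
      let eC : H ≃L[ℝ] H := ContinuousLinearEquiv.equivOfInverse (C' x) (C x)
        (fun v => by
          have := congrArg (fun f : H →L[ℝ] H => f v) (hCC x hx).2
          simpa using this)
        (fun v => by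
          have := congrArg (fun f : H →L[ℝ] H => f v) (hCC x hx).1
          simpa using this)
      let eB : E ≃L[ℝ] E := ContinuousLinearEquiv.equivOfInverse (B x) (B' x)
        (fun v => by
          have := congrArg (fun f : E →L[ℝ] E => f v) (hBB x hy).1
          simpa using this)
        (fun v => by
          have := congrArg (fun f : E →L[ℝ] E => f v) (hBB x hy).2
          simpa using this)
      refine ⟨(eC.trans (D x)).trans eB, ?_, ?_⟩
      · rw [hAeq x hx hy]; rfl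
      · rfl
    obtain ⟨e₀, he₀, -⟩ := hequiv x₀ (mem_chart_source _ _) (mem_chart_source _ _)
    have hinv : ContMDiffAt (𝓡 (2 * k)) 𝓘(ℝ, E →L[ℝ] H) ∞
        (fun x => ContinuousLinearMap.inverse (A x)) x₀ := by
      have h1 : ContDiffAt ℝ ∞ (ContinuousLinearMap.inverse : (H →L[ℝ] E) → _) (A x₀) := by
        rw [← he₀]
        exact contDiffAt_map_inverse _
      exact h1.contMDiffAt.comp x₀ ha
    have hfin : ContMDiffAt (𝓡 (2 * k)) 𝓘(ℝ, H →L[ℝ] H) ∞
        (fun x => (ContinuousLinearMap.inverse (A x)).comp ((mulI E).comp (A x))) x₀ :=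
      hinv.clm_comp ((contMDiffAt_const (c := mulI E)).clm_comp ha)
    refine hfin.congr_of_eventuallyEq ?_
    filter_upwards [hev] with x hx
    obtain ⟨e, he, hes⟩ := hequiv x hx.1 hx.2
    rw [hJeq x hx.1, ← he, ContinuousLinearMap.inverse_equiv, hes, he, hAeq x hx.1 hx.2]
    have hcomm : (B x).comp (mulI E) = (mulI E).comp (B x) :=
      coordChange_mulI (φ x) (φ x₀) (φ x) (mem_chart_source _ _) hx.2
    ext1 v
    have h1 := congrArg (fun f : E →L[ℝ] E => f (D x (C' x v))) hcomm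
    have h2 := congrArg (fun f : E →L[ℝ] E => f (mulI E (D x (C' x v)))) (hBB x hx.2).1
    simp only [ContinuousLinearMap.comp_apply, ContinuousLinearMap.id_apply] at h1 h2
    simp only [J0, ContinuousLinearMap.comp_apply, ContinuousLinearEquiv.coe_coe]
    rw [← h1, h2]
  exact ⟨⟨fun x => J0 x, hsmooth⟩, fun x => hJ0 x⟩

/-- Bundle-map form of `exists_J_of_complex`. -/
theorem exists_J_of_complex2 {k : ℕ} {M : Type} [TopologicalSpace M]
    [ChartedSpace (EuclideanSpace ℝ (Fin (2 * k))) M] [IsManifold (𝓡 (2 * k)) ∞ M]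
    {N : Type} [TopologicalSpace N] [ChartedSpace (EuclideanSpace ℂ (Fin k)) N]
    [IsManifold 𝓘(ℂ, EuclideanSpace ℂ (Fin k)) ∞ N]
    (φ : Diffeomorph (𝓡 (2 * k)) 𝓘(ℝ, EuclideanSpace ℂ (Fin k)) M N ∞) :
    ∃ J : (x : M) → TangentSpace (𝓡 (2 * k)) x → TangentSpace (𝓡 (2 * k)) x,
      (∀ x, IsLinearMap ℝ (J x)) ∧ (∀ (x : M) v, J x (J x v) = -v) ∧
      ContMDiff (𝓡 (2 * k)).tangent (𝓡 (2 * k)).tangent ∞
        (fun v : TangentBundle (𝓡 (2 * k)) M => (⟨v.1, J v.1 v.2⟩ : TangentBundle (𝓡 (2 * k)) M)) := by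
  obtain ⟨J, hJ⟩ := exists_J_of_complex φ
  refine ⟨fun x => J x, fun x => ⟨fun v w => map_add (J x) v w, fun c v => map_smul (J x) c v⟩,
    fun x v => ?_, ?_⟩
  · have h := congrArg (fun f : TangentSpace (𝓡 (2 * k)) x →L[ℝ] TangentSpace (𝓡 (2 * k)) x => f v)
      (hJ x)
    exact h
  · have h1 : ContMDiff (𝓡 (2 * k)).tangent (𝓡 (2 * k)) ∞
        (fun v : TangentBundle (𝓡 (2 * k)) M => v.1) :=
      Bundle.contMDiff_proj (TangentSpace (𝓡 (2 * k)))
    exact ContMDiff.clm_bundle_apply (b := fun v : TangentBundle (𝓡 (2 * k)) M => v.1)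
      (ϕ := fun v => J v.1) (v := fun v => v.2) (J.contMDiff.comp h1) contMDiff_id

end Pool.Agent.TorusBundle
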