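import Mathlib
import Pool.Agent.Lib.MP_1d980c_gt.Gen.Lrep

set_option autoImplicit false
set_option maxHeartbeats 1000000
open scoped Manifold ContDiff Matrix Topology

namespace Pool.Agent.Results.MP_1d980c_gt.PrincipalOverCurve

open Pool.Agent.TwistGen (Curve)

/-- Data on a complex manifold `X` of dimension `n`, relative to an open cover `(U i)`:
* holomorphic functions `w i` on `U i` with values in the universal cover of the curve `C`, which
  differ on overlaps by deck transformations, i.e. a holomorphic map from `X` to the curve;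
* `N` Hermitian holomorphic line bundles (indexed by `k`): nowhere zero holomorphic transition
  functions `g i j · k` on `U i ∩ U j` and the norms `h i · k` of the local frames. -/
structure BaseData (C : Curve) (n N : ℕ) (X : Type) [TopologicalSpace X]
    [ChartedSpace (EuclideanSpace ℂ (Fin n)) X] where
  /-- the index set of the cover -/
  ι : Type
  /-- the open cover -/
  U : ι → Set X
  isOpen : ∀ i, IsOpen (U i)
  cover : ∀ x, ∃ i, x ∈ U i
  /-- the local lifts of the map to the curve -/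
  w : ι → X → ℂ
  hol_w : ∀ i, ContMDiffOn 𝓘(ℂ, EuclideanSpace ℂ (Fin n)) 𝓘(ℂ, ℂ) ∞ (w i) (U i)
  w_mem : ∀ i, ∀ x ∈ U i, w i x ∈ C.dom
  diff_w : ∀ i j, ∀ x ∈ U i ∩ U j, ∃ δ : C.Grp, w j x = C.act δ (w i x)
  /-- the transition functions of the line bundles -/
  g : ι → ι → X → (Fin N → ℂ)
  hol_g : ∀ i j, ContMDiffOn 𝓘(ℂ, EuclideanSpace ℂ (Fin n)) 𝓘(ℂ, Fin N → ℂ) ∞ (g i j) (U i ∩ U j)
  g_ne_zero : ∀ i j, ∀ x ∈ U i ∩ U j, ∀ k, g i j x k ≠ 0
  g_cocycle : ∀ i j l, ∀ x ∈ U i ∩ U j ∩ U l, ∀ k, g i l x k = g i j x k * g j l x k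
  /-- the norms of the local frames -/
  h : ι → X → (Fin N → ℝ)
  smooth_h : ∀ i, ContMDiffOn 𝓘(ℝ, EuclideanSpace ℂ (Fin n)) 𝓘(ℝ, Fin N → ℝ) ∞ (h i) (U i)
  h_pos : ∀ i, ∀ x ∈ U i, ∀ k, 0 < h i x k
  h_eq : ∀ i j, ∀ x ∈ U i ∩ U j, ∀ k, h i x k = ‖g i j x k‖ * h j x k

/-- The maps `π i : ℝ^N × X → M`, restricted to `ℝ^N × U i`, exhibit the smooth manifold `M` as the
principal `(ℝ/ℤ)^N`-bundle over `X` which is trivial over each `U i` and has the transition
functions `(g i j / |g i j|) ∏_l (γ l) ^ (φ l δ) : U i ∩ U j → (S¹)^N`, where `w j = δ · w i` with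
`δ` in the fundamental group of the curve. Here `φ l` are homomorphisms from this group to `ℤ` and
`γ l : X → (S¹)^N`, so that the Chern classes of the bundle are
`c₁(L_k) + ∑_l [γ l k] ∪ φ l`. -/
structure IsTwistedBundle (r : ℕ) {C : Curve} {n N s : ℕ} {X : Type} [TopologicalSpace X]
    [ChartedSpace (EuclideanSpace ℂ (Fin n)) X] (B : BaseData C n N X)
    (φ : Fin s → (C.Grp →* Multiplicative ℤ)) (γ : Fin s → X → (Fin N → Circle)) {M : Type}
    [TopologicalSpace M] [ChartedSpace (EuclideanSpace ℝ (Fin r)) M]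
    (π : B.ι → (Fin N → ℝ) × X → M) : Prop where
  local_diffeo : ∀ i, ∀ p : (Fin N → ℝ) × X, p.2 ∈ B.U i →
    IsLocalDiffeomorphAt (𝓘(ℝ, Fin N → ℝ).prod 𝓘(ℝ, EuclideanSpace ℂ (Fin n))) (𝓡 r) ∞ (π i) p
  surj : ∀ z : M, ∃ i, ∃ p : (Fin N → ℝ) × X, p.2 ∈ B.U i ∧ π i p = z
  fibres : ∀ i j, ∀ p q : (Fin N → ℝ) × X, p.2 ∈ B.U i → q.2 ∈ B.U j →
    (π i p = π j q ↔ q.2 = p.2 ∧ ∃ δ : C.Grp, B.w j p.2 = C.act δ (B.w i p.2) ∧
      ∀ k, Complex.exp (2 * Real.pi * Complex.I * (q.1 k - p.1 k)) =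
        (B.g i j p.2 k / ‖B.g i j p.2 k‖) *
          ∏ l, (γ l p.2 k : ℂ) ^ (Multiplicative.toAdd (φ l δ) : ℤ))

open Pool.Agent.TorusBundle Pool.Agent.EllipticTwist Pool.Agent.TwistGen Complex Set in
/-- Let `X` be any complex manifold with a holomorphic map to a compact Riemann surface `C` of
genus at least one. The total space of the principal `T^{2m}`-bundle over `X`, `m ≥ 2`, attached
to `2m` Hermitian holomorphic line bundles on `X`, finitely many smooth maps `γ l : X → T^{2m}` and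
homomorphisms `φ l : π₁(C) → ℤ` carries a complex structure compatible with its smooth
structure. -/
theorem result (m n s : ℕ) (hm : 2 ≤ m) (C : Curve)
    (X : Type) [TopologicalSpace X] [ChartedSpace (EuclideanSpace ℂ (Fin n)) X]
    [IsManifold 𝓘(ℂ, EuclideanSpace ℂ (Fin n)) ∞ X]
    (B : BaseData C n (2 * m) X) (φ : Fin s → (C.Grp →* Multiplicative ℤ))
    (γ : Fin s → X → (Fin (2 * m) → Circle))
    (hγ : ∀ l k, ContMDiff 𝓘(ℝ, EuclideanSpace ℂ (Fin n)) 𝓘(ℝ, ℂ) ∞ (fun x => (γ l x k : ℂ)))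
    (M : Type) [TopologicalSpace M] [ChartedSpace (EuclideanSpace ℝ (Fin (2 * (m + n)))) M]
    [IsManifold (𝓡 (2 * (m + n))) ∞ M]
    (π : B.ι → (Fin (2 * m) → ℝ) × X → M) (hM : IsTwistedBundle (2 * (m + n)) B φ γ π) :
    ∃ (N : Type) (_ : TopologicalSpace N) (_ : ChartedSpace (EuclideanSpace ℂ (Fin (m + n))) N),
      IsManifold 𝓘(ℂ, EuclideanSpace ℂ (Fin (m + n))) ∞ N ∧
      Nonempty (Diffeomorph (𝓡 (2 * (m + n))) 𝓘(ℝ, EuclideanSpace ℂ (Fin (m + n))) M N ∞) := by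
  classical
  have _hXr : IsManifold 𝓘(ℝ, EuclideanSpace ℂ (Fin n)) ∞ X := isManifold_real
  obtain ⟨D⟩ := exists_PQ C
  have hdo := C.isOpen_dom
  -- the frame norms give the imaginary parts
  let ρ : B.ι → X → (Fin (2 * m) → ℝ) := fun i x k => Real.log (B.h i x k) / (2 * Real.pi)
  have hρ : ∀ i k, ContMDiffOn 𝓘(ℝ, EuclideanSpace ℂ (Fin n)) 𝓘(ℝ, ℂ) ∞
      (fun x => ((ρ i x k : ℝ) : ℂ)) (B.U i) := by
    intro i k
    have hk : ContMDiffOn 𝓘(ℝ, EuclideanSpace ℂ (Fin n)) 𝓘(ℝ, ℝ) ∞ (fun x => B.h i x k)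
        (B.U i) := (contMDiffOn_pi_space.1 (B.smooth_h i)) k
    have hlog : ContDiffOn ℝ ∞ (fun t : ℝ => ((Real.log t / (2 * Real.pi) : ℝ) : ℂ)) (Ioi 0) := by
      intro t ht
      exact (Complex.ofRealCLM.contDiff.contDiffAt.comp t
        ((Real.contDiffAt_log.2 (ne_of_gt ht)).div_const _)).contDiffWithinAt
    exact hlog.contMDiffOn.comp hk (fun x hx => B.h_pos i x hx k)
  -- the matrices
  let L : B.ι → X → (Fin m → Fin (2 * m) → ℂ) := fun i x =>
    Lrep m (D.p (B.w i x)) (D.q (B.w i x)) (D.p (B.w i x)) (D.q (B.w i x))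
  let H : Fin s → B.ι → X → (Fin m → Fin (2 * m) → ℂ) := fun l i x =>
    Lrep m (D.p (B.w i x)) (D.q (B.w i x)) (D.P (φ l) (B.w i x)) (D.Q (φ l) (B.w i x))
  have hLh : ∀ i a k, ContMDiffOn 𝓘(ℂ, EuclideanSpace ℂ (Fin n)) 𝓘(ℂ, ℂ) ∞
      (fun x => L i x a k) (B.U i) := fun i a k =>
    Lrep_hol hdo D.hp D.hq D.hp D.hq (B.hol_w i) (B.w_mem i) a k
  have hHh : ∀ l i a k, ContMDiffOn 𝓘(ℂ, EuclideanSpace ℂ (Fin n)) 𝓘(ℂ, ℂ) ∞
      (fun x => H l i x a k) (B.U i) := fun l i a k =>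
    Lrep_hol hdo D.hp D.hq (D.hP (φ l)) (D.hQ (φ l)) (B.hol_w i) (B.w_mem i) a k
  -- local lifts
  have hlift : ∀ x : X, ∃ (V : Set X) (G : Fin s → X → (Fin (2 * m) → ℝ)), IsOpen V ∧ x ∈ V ∧
      (∀ l, ContMDiffOn 𝓘(ℝ, EuclideanSpace ℂ (Fin n)) 𝓘(ℝ, Fin (2 * m) → ℝ) ∞ (G l) V) ∧
      ∀ l, ∀ y ∈ V, ∀ k, (γ l y k : ℂ) = ex (G l y k : ℝ) := by
    intro x
    choose V hV hxV G hG hGl using fun l => exists_lift (hγ l) x
    refine ⟨⋂ l, V l, G, isOpen_iInter_of_finite hV, Set.mem_iInter.2 hxV, fun l => ?_, ?_⟩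
    · exact (hG l).mono (Set.iInter_subset _ l)
    · intro l y hy k
      exact hGl l y (Set.mem_iInter.1 hy l) k
  -- the local data
  let ι := {a : B.ι × (Fin s → X → (Fin (2 * m) → ℝ)) × AX m n X //
    a.2.2.U ⊆ B.U a.1 ∧
    (∀ l, ContMDiffOn 𝓘(ℝ, EuclideanSpace ℂ (Fin n)) 𝓘(ℝ, Fin (2 * m) → ℝ) ∞ (a.2.1 l) a.2.2.U) ∧
    (∀ l, ∀ y ∈ a.2.2.U, ∀ k, (γ l y k : ℂ) = ex (a.2.1 l y k : ℝ)) ∧
    a.2.2.A = L a.1 ∧
    a.2.2.B = fun x i => ∑ k, L a.1 x i k * (I * (ρ a.1 x k : ℂ)) +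
      ∑ l, ∑ k, H l a.1 x i k * (a.2.1 l x k : ℂ)}
  refine exists_complex_structure_affine (fun a : ι => π a.1.1) (fun a : ι => a.1.2.2) ?_ ?_ ?_
  · rintro ⟨⟨i, t, A⟩, hU, ht, hγt, hA, hB⟩ p hp
    exact hM.local_diffeo i p (hU hp)
  · intro z
    obtain ⟨i, p, hp, hz⟩ := hM.surj z
    obtain ⟨V, G, hV, hpV, hG, hGl⟩ := hlift p.2
    have hUo : IsOpen (V ∩ (B.U i ∩ (chartAt (EuclideanSpace ℂ (Fin n)) p.2).source)) :=
      hV.inter ((B.isOpen i).inter (chartAt _ p.2).open_source)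
    refine ⟨⟨(i, G,
      { x0 := p.2
        A := L i
        B := fun x a => ∑ k, L i x a k * (I * (ρ i x k : ℂ)) +
          ∑ l, ∑ k, H l i x a k * (G l x k : ℂ)
        U := V ∩ (B.U i ∩ (chartAt (EuclideanSpace ℂ (Fin n)) p.2).source)
        isOpen := hUo
        sub := fun y hy => hy.2.2
        hA := ?_
        hB := ?_
        nd := ?_ }), fun y hy => hy.2.1, fun l => (hG l).mono (fun y hy => hy.1),
          fun l y hy k => hGl l y hy.1 k, rfl, rfl⟩, p, ⟨hpV, hp, mem_chart_source _ _⟩, hz⟩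
    · rw [contMDiffOn_pi_space]
      intro a
      rw [contMDiffOn_pi_space]
      intro k
      exact (contMDiffOn_real (hLh i a k)).mono (fun y hy => hy.2.1)
    · rw [contMDiffOn_pi_space]
      intro a
      have hmul : ∀ {f g : X → ℂ}, ContMDiffOn 𝓘(ℝ, EuclideanSpace ℂ (Fin n)) 𝓘(ℝ, ℂ) ∞ f
            (V ∩ (B.U i ∩ (chartAt (EuclideanSpace ℂ (Fin n)) p.2).source)) →
          ContMDiffOn 𝓘(ℝ, EuclideanSpace ℂ (Fin n)) 𝓘(ℝ, ℂ) ∞ g
            (V ∩ (B.U i ∩ (chartAt (EuclideanSpace ℂ (Fin n)) p.2).source)) →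
          ContMDiffOn 𝓘(ℝ, EuclideanSpace ℂ (Fin n)) 𝓘(ℝ, ℂ) ∞ (fun x => f x * g x)
            (V ∩ (B.U i ∩ (chartAt (EuclideanSpace ℂ (Fin n)) p.2).source)) := by
        intro f g hf hg
        have h3 : ContDiff ℝ ∞ (fun q : ℂ × ℂ => q.1 * q.2) := contDiff_fst.mul contDiff_snd
        exact h3.contMDiff.comp_contMDiffOn (hf.prodMk_space hg)
      have h1 : ∀ k, ContMDiffOn 𝓘(ℝ, EuclideanSpace ℂ (Fin n)) 𝓘(ℝ, ℂ) ∞
          (fun x => L i x a k * (I * (ρ i x k : ℂ)))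
          (V ∩ (B.U i ∩ (chartAt (EuclideanSpace ℂ (Fin n)) p.2).source)) := fun k =>
        hmul ((contMDiffOn_real (hLh i a k)).mono (fun y hy => hy.2.1))
          (hmul contMDiffOn_const ((hρ i k).mono (fun y hy => hy.2.1)))
      have h2 : ∀ l k, ContMDiffOn 𝓘(ℝ, EuclideanSpace ℂ (Fin n)) 𝓘(ℝ, ℂ) ∞
          (fun x => H l i x a k * (G l x k : ℂ))
          (V ∩ (B.U i ∩ (chartAt (EuclideanSpace ℂ (Fin n)) p.2).source)) := by
        intro l k
        refine hmul ((contMDiffOn_real (hHh l i a k)).mono (fun y hy => hy.2.1)) ?_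
        have h4 : ContMDiffOn 𝓘(ℝ, EuclideanSpace ℂ (Fin n)) 𝓘(ℝ, ℝ) ∞ (fun x => G l x k) V :=
          (contMDiffOn_pi_space.1 (hG l)) k
        exact (Complex.ofRealCLM.contDiff.contMDiff.comp_contMDiffOn h4).mono (fun y hy => hy.1)
      exact (contMDiffOn_finsetSum fun k _ => h1 k).add
        (contMDiffOn_finsetSum fun l _ => contMDiffOn_finsetSum fun k _ => h2 l k)
    · intro x hx v hv
      exact Lrep_nd hm (D.pq_ne _ (B.w_mem i x hx.2.1)) v hv
  · rintro ⟨⟨i, t, A⟩, hU, ht, hγt, hA, hB⟩ ⟨⟨j, t', A'⟩, hU', ht', hγt', hA', hB'⟩ v v' y y' hy hy' hpp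
    simp only at hU ht hγt hA hB hU' ht' hγt' hA' hB' hy hy' hpp
    rw [hM.fibres i j _ _ (hU hy) (hU' hy')] at hpp
    obtain ⟨hyy, δ, hwδ, hv⟩ := hpp
    simp only at hyy hwδ hv
    subst hyy
    refine ⟨rfl, ?_⟩
    have hij : y' ∈ B.U i ∩ B.U j := ⟨hU hy, hU' hy'⟩
    have hUij : IsOpen (B.U i ∩ B.U j) := (B.isOpen i).inter (B.isOpen j)
    -- a logarithm of the transition function
    obtain ⟨V, hVo, hyV, hVsub, Λ, hΛ, hΛg⟩ :=
      exists_log hUij (B.hol_g i j) hij (fun k => B.g_ne_zero i j y' hij k)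
    have hgu : ∀ x ∈ V, ∀ k, B.g i j x k / ‖B.g i j x k‖ = ex ((Λ x k).re : ℝ) := by
      intro x hx k
      rw [ex_re, hΛg x hx k]
    set f : Fin s → ℤ := fun l => Multiplicative.toAdd (φ l δ) with hf
    have hγprod : ∀ x ∈ A.U, x ∈ V → ∀ k,
        (B.g i j x k / ‖B.g i j x k‖) * ∏ l, (γ l x k : ℂ) ^ (f l) =
        ex (((Λ x k).re + ∑ l, f l * t l x k : ℝ)) := by
      intro x hx hxV k
      have e1 : ∏ l, (γ l x k : ℂ) ^ (f l) = ex ((∑ l, f l * t l x k : ℝ)) := by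
        have e2 : ∀ S : Finset (Fin s), ∏ l ∈ S, (γ l x k : ℂ) ^ (f l) =
            ex ((∑ l ∈ S, f l * t l x k : ℝ)) := by
          intro S
          induction S using Finset.induction_on with
          | empty => simp [ex]
          | insert a S ha ih =>
            rw [Finset.prod_insert ha, Finset.sum_insert ha, ih, hγt a x hx, ← ex_int_mul,
              ← ex_add]
            congr 1
            push_cast
            ring
        exact e2 _
      rw [hgu x hxV k, e1, ← ex_add]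
      congr 1
      push_cast
      ring
    -- the integer vector
    have hu : ∀ k, ∃ u : ℤ, v' k = v k + ((Λ y' k).re + ∑ l, f l * t l y' k) + u := by
      intro k
      have e : ex ((v' k - v k : ℂ) - (((Λ y' k).re + ∑ l, f l * t l y' k : ℝ) : ℂ)) = 1 := by
        rw [ex_sub, ← hγprod y' hy hyV k, ← hv k]
        exact div_self (Complex.exp_ne_zero _)
      rw [ex_eq_one_iff] at e
      obtain ⟨u, hu⟩ := e
      refine ⟨u, ?_⟩
      have h3 : v' k - v k - ((Λ y' k).re + ∑ l, f l * t l y' k) = u := by exact_mod_cast hu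
      linarith
    choose u hu using hu
    -- the neighbourhood
    have hlat : ∀ᶠ z in 𝓝 y', B.w j z = C.act δ (B.w i z) :=
      C.locally_const hUij ((B.hol_w i).continuousOn.mono inter_subset_left)
        ((B.hol_w j).continuousOn.mono inter_subset_right) (fun y hy => B.w_mem i y hy.1)
        (fun y hy => B.w_mem j y hy.2) (B.diff_w i j) hij δ hwδ
    have hW0 : IsOpen (A.U ∩ A'.U) := A.isOpen.inter A'.isOpen
    have hex : ∀ l, ∀ᶠ z in 𝓝 y', t' l z = t l z + (t' l y' - t l y') := fun l =>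
      lifts_differ hW0 ((ht l).continuousOn.mono inter_subset_left)
        ((ht' l).continuousOn.mono inter_subset_right) (fun y hy => hγt l y hy.1)
        (fun y hy => hγt' l y hy.2) ⟨hy, hy'⟩
    obtain ⟨W, hWsub, hWo, hyW⟩ := mem_nhds_iff.1 (hlat.and ((Filter.eventually_all.2 hex).and
      ((A.isOpen.eventually_mem hy).and ((A'.isOpen.eventually_mem hy').and
        (hVo.eventually_mem hyV)))))
    have hW1 : ∀ z ∈ W, B.w j z = C.act δ (B.w i z) := fun z hz => (hWsub hz).1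
    have hW2 : ∀ z ∈ W, ∀ l, t' l z = t l z + (t' l y' - t l y') := fun z hz => (hWsub hz).2.1
    have hW3 : ∀ z ∈ W, z ∈ A.U := fun z hz => (hWsub hz).2.2.1
    have hW4 : ∀ z ∈ W, z ∈ A'.U := fun z hz => (hWsub hz).2.2.2.1
    have hW5 : ∀ z ∈ W, z ∈ V := fun z hz => (hWsub hz).2.2.2.2
    set nl : Fin s → (Fin (2 * m) → ℝ) := fun l => t' l y' - t l y' with hnl
    have hLh' : ∀ a k, ContMDiffOn 𝓘(ℂ, EuclideanSpace ℂ (Fin n)) 𝓘(ℂ, ℂ) ∞
        (fun x => L i x a k) W := fun a k => (hLh i a k).mono (fun z hz => hU (hW3 z hz))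
    have hHh' : ∀ l a k, ContMDiffOn 𝓘(ℂ, EuclideanSpace ℂ (Fin n)) 𝓘(ℂ, ℂ) ∞
        (fun x => H l i x a k) W := fun l a k => (hHh l i a k).mono (fun z hz => hU (hW3 z hz))
    have hΛh : ∀ k, ContMDiffOn 𝓘(ℂ, EuclideanSpace ℂ (Fin n)) 𝓘(ℂ, ℂ) ∞
        (fun x => Λ x k) W := fun k => ((contMDiffOn_pi_space.1 hΛ) k).mono hW5
    have heh : ContMDiffOn 𝓘(ℂ, EuclideanSpace ℂ (Fin n)) 𝓘(ℂ, ℂ) ∞
        (fun x => D.e δ (B.w i x)) W :=
      comp_hol hdo (D.he δ) ((B.hol_w i).mono (fun z hz => hU (hW3 z hz)))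
        (fun z hz => B.w_mem i z (hU (hW3 z hz)))
    have hmul : ∀ {f g : X → ℂ}, ContMDiffOn 𝓘(ℂ, EuclideanSpace ℂ (Fin n)) 𝓘(ℂ, ℂ) ∞ f W →
        ContMDiffOn 𝓘(ℂ, EuclideanSpace ℂ (Fin n)) 𝓘(ℂ, ℂ) ∞ g W →
        ContMDiffOn 𝓘(ℂ, EuclideanSpace ℂ (Fin n)) 𝓘(ℂ, ℂ) ∞ (fun x => f x * g x) W := by
      intro f g hf hg
      have h3 : ContDiff ℂ ∞ (fun q : ℂ × ℂ => q.1 * q.2) := contDiff_fst.mul contDiff_snd
      exact h3.contMDiff.comp_contMDiffOn (hf.prodMk_space hg)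
    have hpow : ∀ (d : ℕ), ContMDiffOn 𝓘(ℂ, EuclideanSpace ℂ (Fin n)) 𝓘(ℂ, ℂ) ∞
        (fun x => D.e δ (B.w i x) ^ d) W := by
      intro d
      have h3 : ContDiff ℂ ∞ (fun q : ℂ => q ^ d) := contDiff_id.pow d
      exact h3.contMDiff.comp_contMDiffOn heh
    refine ⟨fun x k => (Λ x k).re + ∑ l, f l * t l x k + u k,
      fun x a b => if a = b then D.e δ (B.w i x) ^ deg m a else 0,
      fun x a => D.e δ (B.w i x) ^ deg m a * (∑ k, L i x a k * (Λ x k + (u k : ℂ)) +
        ∑ l, ∑ k, (H l i x a k - (f l : ℂ) * L i x a k) * (nl l k : ℂ)),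
      W, hWo, hyW, ?_, ?_, ?_, ?_, ?_, ?_⟩
    · -- continuity
      refine continuousOn_pi.2 fun k => ?_
      refine ContinuousOn.add (ContinuousOn.add ?_ ?_) continuousOn_const
      · exact Complex.continuous_re.comp_continuousOn (hΛh k).continuousOn
      · refine continuousOn_finsetSum _ fun l _ => ContinuousOn.mul continuousOn_const ?_
        exact (continuousOn_pi.1 ((ht l).continuousOn.mono hW3)) k
    · funext k
      simp only [Pi.add_apply]
      rw [hu k]; ring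
    · -- compatibility with the projections
      intro z hz w
      symm
      refine (hM.fibres i j (w, z) _ (hU (hW3 z hz)) (hU' (hW4 z hz))).2 ⟨rfl, δ, hW1 z hz,
        fun k => ?_⟩
      simp only
      rw [hγprod z (hW3 z hz) (hW5 z hz) k]
      have e5 : Complex.exp (2 * Real.pi * I * ((((w + fun k => (Λ z k).re + ∑ l, f l * t l z k +
          (u k : ℝ)) k : ℝ) : ℂ) - w k)) =
          ex (((Λ z k).re + ∑ l, f l * t l z k : ℝ) + (u k : ℂ)) := by
        unfold ex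
        congr 1
        simp only [Pi.add_apply]
        push_cast
        ring
      rw [e5, ex_add, ex_int, mul_one]
    · rw [contMDiffOn_pi_space]
      intro a
      rw [contMDiffOn_pi_space]
      intro b
      by_cases hab : a = b
      · simp only [hab, if_true]; exact hpow _
      · simp only [hab, if_false]; exact contMDiffOn_const
    · rw [contMDiffOn_pi_space]
      intro a
      refine hmul (hpow _) (ContMDiffOn.add ?_ ?_)
      · exact contMDiffOn_finsetSum fun k _ => hmul (hLh' a k)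
          ((hΛh k).add contMDiffOn_const)
      · exact contMDiffOn_finsetSum fun l _ => contMDiffOn_finsetSum fun k _ =>
          hmul ((hHh' l a k).sub (hmul contMDiffOn_const (hLh' a k))) contMDiffOn_const
    · -- the transformation of the fibre coordinates
      intro z hz w
      have hzi : z ∈ B.U i := hU (hW3 z hz)
      have hzj : z ∈ B.U j := hU' (hW4 z hz)
      have hzd : B.w i z ∈ C.dom := B.w_mem i z hzi
      have hL' : ∀ a k, L j z a k = D.e δ (B.w i z) ^ deg m a * L i z a k := by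
        intro a k
        have h1 := Lrep_act hm (D.e δ (B.w i z)) 0 (D.p (B.w i z)) (D.q (B.w i z))
          (D.p (B.w i z)) (D.q (B.w i z)) a k
        simp only [zero_mul, sub_zero] at h1
        show Lrep m (D.p (B.w j z)) (D.q (B.w j z)) (D.p (B.w j z)) (D.q (B.w j z)) a k = _
        rw [hW1 z hz, D.p_act δ _ hzd, D.q_act δ _ hzd]
        exact h1
      have hH' : ∀ l a k, H l j z a k = D.e δ (B.w i z) ^ deg m a *
          (H l i z a k - (f l : ℂ) * L i z a k) := by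
        intro l a k
        show Lrep m (D.p (B.w j z)) (D.q (B.w j z)) (D.P (φ l) (B.w j z))
          (D.Q (φ l) (B.w j z)) a k = _
        rw [hW1 z hz, D.p_act δ _ hzd, D.q_act δ _ hzd, D.P_act _ δ _ hzd, D.Q_act _ δ _ hzd]
        exact Lrep_act hm _ _ _ _ _ _ a k
      have hρ' : ∀ k, (ρ j z k : ℂ) = ρ i z k + ((Λ z k).im : ℂ) := by
        intro k
        have hzij := hVsub (hW5 z hz)
        have e6 := B.h_eq i j z hzij k
        have hpos := B.h_pos j z hzij.2 k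
        have hpos' : 0 < ‖B.g i j z k‖ := norm_pos_iff.2 (B.g_ne_zero i j z hzij k)
        have e7 : Real.log (B.h i z k) = -(2 * Real.pi * (Λ z k).im) + Real.log (B.h j z k) := by
          rw [e6, Real.log_mul hpos'.ne' hpos.ne', hΛg z (hW5 z hz) k, norm_ex, Real.log_exp]
        have e8 : ρ j z k = ρ i z k + (Λ z k).im := by
          simp only [ρ]
          rw [e7]
          have hpi := Real.pi_ne_zero
          field_simp
          ring
        rw [e8]; push_cast; ring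
      funext a
      show rmap (A'.A z) (w + fun k => (Λ z k).re + ∑ l, f l * t l z k + (u k : ℝ)) a + A'.B z a =
        ∑ b, (if a = b then D.e δ (B.w i z) ^ deg m a else 0) *
          (rmap (A.A z) w b + A.B z b) +
        D.e δ (B.w i z) ^ deg m a * (∑ k, L i z a k * (Λ z k + (u k : ℂ)) +
        ∑ l, ∑ k, (H l i z a k - (f l : ℂ) * L i z a k) * (nl l k : ℂ))
      rw [hA', hB', hA, hB]
      simp only [Pi.add_apply, rmap_apply, ite_mul, zero_mul, Finset.sum_ite_eq, Finset.mem_univ,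
        if_true]
      set g := D.e δ (B.w i z) ^ deg m a with hg
      have s1 : ∑ k, L j z a k * (((w k + ((Λ z k).re + ∑ l, f l * t l z k + (u k : ℝ)) : ℝ)) : ℂ) =
          g * (∑ k, L i z a k * (w k : ℂ) + ∑ k, L i z a k * (((Λ z k).re : ℂ) + (u k : ℂ)) +
            ∑ l, ∑ k, (f l : ℂ) * L i z a k * (t l z k : ℂ)) := by
        rw [Finset.sum_comm, ← Finset.sum_add_distrib, ← Finset.sum_add_distrib, Finset.mul_sum]
        refine Finset.sum_congr rfl fun k _ => ?_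
        rw [hL']
        push_cast
        have : ∑ l, (f l : ℂ) * L i z a k * (t l z k : ℂ) =
            L i z a k * ∑ l, (f l : ℂ) * (t l z k : ℂ) := by
          rw [Finset.mul_sum]
          exact Finset.sum_congr rfl fun l _ => by ring
        rw [this]
        ring
      have s2 : ∑ k, L j z a k * (I * (ρ j z k : ℂ)) =
          g * (∑ k, L i z a k * (I * (ρ i z k : ℂ)) + ∑ k, L i z a k * (I * ((Λ z k).im : ℂ))) := by
        rw [← Finset.sum_add_distrib, Finset.mul_sum]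
        refine Finset.sum_congr rfl fun k _ => ?_
        rw [hL', hρ']
        ring
      have s3 : ∑ l, ∑ k, H l j z a k * (t' l z k : ℂ) =
          g * (∑ l, ∑ k, H l i z a k * (t l z k : ℂ) -
            ∑ l, ∑ k, (f l : ℂ) * L i z a k * (t l z k : ℂ) +
            ∑ l, ∑ k, (H l i z a k - (f l : ℂ) * L i z a k) * (nl l k : ℂ)) := by
        rw [← Finset.sum_sub_distrib, ← Finset.sum_add_distrib, Finset.mul_sum]
        refine Finset.sum_congr rfl fun l _ => ?_
        rw [← Finset.sum_sub_distrib, ← Finset.sum_add_distrib, Finset.mul_sum]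
        refine Finset.sum_congr rfl fun k _ => ?_
        rw [hH', hW2 z hz l]
        simp only [Pi.add_apply, hnl, Pi.sub_apply]
        push_cast
        ring
      have s4 : ∑ k, L i z a k * (((Λ z k).re : ℂ) + (u k : ℂ)) +
          ∑ k, L i z a k * (I * ((Λ z k).im : ℂ)) = ∑ k, L i z a k * (Λ z k + (u k : ℂ)) := by
        rw [← Finset.sum_add_distrib]
        refine Finset.sum_congr rfl fun k _ => ?_
        have h := Complex.re_add_im (Λ z k)
        linear_combination (L i z a k) * h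
      rw [s1, s2, s3, ← s4]
      ring

end Pool.Agent.Results.MP_1d980c_gt.PrincipalOverCurve
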